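import Pool.Agent.N786.Gau2
import Pool.Agent.Y655.HC.Msq

/-!
# The mean square from a windowed large sieve inequality (owner helper786)
-/

set_option autoImplicit false

open MeasureTheory Set Complex Filter Topology

namespace Pool.Agent.N786

open ArithmeticFunction (vonMangoldt)
open H385 W388 Pool.Agent.W398.LV

/-- the Gaussian integral -/
lemma kn_fourier (t y : ℝ) : ∫ τ, (kn t τ : ℂ) * cexp (I * ((t + τ) / 2) * y) =
    2 * (Real.sqrt Real.pi : ℂ) * (Real.exp (-y ^ 2 / 4) : ℂ) * cexp (I * t * y) := by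
  have hpi := Real.pi_pos
  have h1 := fourierIntegral_gaussian (b := (1 / 4 : ℂ)) (by norm_num) (-(y : ℂ) / 2)
  have h2 : ∫ τ, (kn t τ : ℂ) * cexp (I * ((t + τ) / 2) * y) =
      ∫ x : ℝ, (fun x : ℝ => (kn t (t - x) : ℂ) * cexp (I * ((t + ((t - x : ℝ) : ℂ)) / 2) * y)) x := by
    have := integral_sub_left_eq_self (fun τ : ℝ => (kn t τ : ℂ) * cexp (I * ((t + τ) / 2) * y))
      volume t
    rw [← this]
  rw [h2]
  have h3 : ∀ x : ℝ, (kn t (t - x) : ℂ) * cexp (I * ((t + ((t - x : ℝ) : ℂ)) / 2) * y) =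
      cexp (I * t * y) * (cexp (I * (-(y : ℂ) / 2) * x) * cexp (-(1 / 4 : ℂ) * x ^ 2)) := by
    intro x
    unfold kn
    rw [Complex.ofReal_exp, ← Complex.exp_add, ← Complex.exp_add, ← Complex.exp_add]
    congr 1
    push_cast
    ring
  simp_rw [h3]
  rw [integral_const_mul, h1]
  have h4 : ((Real.pi : ℂ) / (1 / 4 : ℂ)) ^ (1 / 2 : ℂ) = 2 * (Real.sqrt Real.pi : ℂ) := by
    have e : ((Real.pi : ℂ) / (1 / 4 : ℂ)) = ((4 * Real.pi : ℝ) : ℂ) := by push_cast; ring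
    have e2 : (1 / 2 : ℂ) = ((1 / 2 : ℝ) : ℂ) := by push_cast; ring
    rw [e, e2, ← Complex.ofReal_cpow (by positivity), ← Real.sqrt_eq_rpow,
      Real.sqrt_mul (by norm_num)]
    have : Real.sqrt 4 = 2 := by
      rw [show (4 : ℝ) = 2 ^ 2 by norm_num]
      exact Real.sqrt_sq (by norm_num)
    rw [this]
    push_cast
    ring
  rw [h4]
  have h5 : cexp (-(-(y : ℂ) / 2) ^ 2 / (4 * (1 / 4))) = (Real.exp (-y ^ 2 / 4) : ℂ) := by
    rw [Complex.ofReal_exp]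
    congr 1
    push_cast
    ring
  rw [h5]
  ring

section

variable (M : ℕ) (a : ℕ → ℂ) (u : ℝ)

/-- the Dirichlet polynomial -/
noncomputable def GG (x : ℝ) : ℂ := ∑ n ∈ Finset.Icc 1 M, a n * ((Real.sqrt n : ℂ)⁻¹ *
  (Real.exp (-(u - Real.log n) ^ 2 / 4) : ℂ) * cexp (I * x * ((u - Real.log n : ℝ) : ℂ)))

lemma GG_cont : Continuous (GG M a u) := by
  unfold GG
  refine continuous_finsetSum _ fun n _ => ?_
  fun_prop

lemma GG_bdd : ∃ B : ℝ, 0 ≤ B ∧ ∀ x, ‖GG M a u x‖ ≤ B := by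
  refine ⟨∑ n ∈ Finset.Icc 1 M, ‖a n * ((Real.sqrt n : ℂ)⁻¹ *
    (Real.exp (-(u - Real.log n) ^ 2 / 4) : ℂ))‖, Finset.sum_nonneg fun _ _ => norm_nonneg _,
    fun x => ?_⟩
  unfold GG
  refine (norm_sum_le _ _).trans (Finset.sum_le_sum fun n _ => le_of_eq ?_)
  rw [← mul_assoc, norm_mul (a n * _)]
  have : I * x * ((u - Real.log n : ℝ) : ℂ) = ((x * (u - Real.log n) : ℝ) : ℂ) * I := by
    push_cast; ring
  rw [this, Complex.norm_exp_ofReal_mul_I, mul_one]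

lemma SS_GG (T t : ℝ) : (c1 : ℂ) * SS (GG M a u) T t =
    ∑ n ∈ Finset.Icc 1 M, a n * ww T u t n := by
  unfold SS GG
  have h1 : ∀ τ : ℝ, (kn t τ : ℂ) * ∑ n ∈ Finset.Icc 1 M, a n * ((Real.sqrt n : ℂ)⁻¹ *
      (Real.exp (-(u - Real.log n) ^ 2 / 4) : ℂ) *
      cexp (I * (((t + τ) / 2 : ℝ) : ℂ) * ((u - Real.log n : ℝ) : ℂ))) =
      ∑ n ∈ Finset.Icc 1 M, (a n * ((Real.sqrt n : ℂ)⁻¹ *
      (Real.exp (-(u - Real.log n) ^ 2 / 4) : ℂ))) * ((Real.exp (-(t - τ) ^ 2 / 4) : ℂ) *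
      cexp (I * ((t + τ) / 2) * (u - Real.log n))) := by
    intro τ
    rw [Finset.mul_sum]
    refine Finset.sum_congr rfl fun n _ => ?_
    unfold kn
    push_cast
    ring
  simp_rw [h1]
  rw [intervalIntegral.integral_finsetSum (fun n _ => by
    refine Continuous.intervalIntegrable ?_ _ _
    fun_prop), Finset.mul_sum]
  refine Finset.sum_congr rfl fun n _ => ?_
  rw [intervalIntegral.integral_const_mul]
  unfold Pool.Agent.W398.LV.ww bt c1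
  push_cast
  ring

lemma HH_GG (t : ℝ) : HH (GG M a u) t = ∑ n ∈ Finset.Icc 1 M, a n * ((Real.sqrt n : ℂ)⁻¹ *
    (Real.exp (-(u - Real.log n) ^ 2 / 2) : ℂ) * (2 * (Real.sqrt Real.pi : ℂ)) *
      cexp (I * t * ((u - Real.log n : ℝ) : ℂ))) := by
  unfold HH GG
  have h1 : ∀ τ : ℝ, (kn t τ : ℂ) * ∑ n ∈ Finset.Icc 1 M, a n * ((Real.sqrt n : ℂ)⁻¹ *
      (Real.exp (-(u - Real.log n) ^ 2 / 4) : ℂ) *
      cexp (I * (((t + τ) / 2 : ℝ) : ℂ) * ((u - Real.log n : ℝ) : ℂ))) =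
      ∑ n ∈ Finset.Icc 1 M, (a n * ((Real.sqrt n : ℂ)⁻¹ *
      (Real.exp (-(u - Real.log n) ^ 2 / 4) : ℂ))) * ((kn t τ : ℂ) *
      cexp (I * ((t + τ) / 2) * ((u - Real.log n : ℝ) : ℂ))) := by
    intro τ
    rw [Finset.mul_sum]
    refine Finset.sum_congr rfl fun n _ => ?_
    push_cast
    ring
  simp_rw [h1]
  rw [integral_finsetSum]
  · refine Finset.sum_congr rfl fun n _ => ?_
    rw [integral_const_mul, kn_fourier]
    have h2 : (Real.exp (-(u - Real.log n) ^ 2 / 2) : ℂ) =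
        (Real.exp (-(u - Real.log n) ^ 2 / 4) : ℂ) * (Real.exp (-(u - Real.log n) ^ 2 / 4) : ℂ) := by
      rw [← Complex.ofReal_mul, ← Real.exp_add]
      congr 2
      ring
    rw [h2]
    ring
  · intro n _
    refine Integrable.const_mul ?_ _
    have h2 := F_int (G := fun x : ℝ => cexp (I * x * ((u - Real.log n : ℝ) : ℂ)))
      (by fun_prop) (M := 1) (fun x => by
        have : I * x * ((u - Real.log n : ℝ) : ℂ) = ((x * (u - Real.log n) : ℝ) : ℂ) * I := by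
          push_cast; ring
        rw [this, Complex.norm_exp_ofReal_mul_I]) t
    refine h2.congr (Eventually.of_forall fun τ => ?_)
    simp only
    push_cast
    ring_nf

lemma HH_cont : Continuous (HH (GG M a u)) := by
  have : HH (GG M a u) = fun t : ℝ => ∑ n ∈ Finset.Icc 1 M, a n * ((Real.sqrt n : ℂ)⁻¹ *
    (Real.exp (-(u - Real.log n) ^ 2 / 2) : ℂ) * (2 * (Real.sqrt Real.pi : ℂ)) *
      cexp (I * t * ((u - Real.log n : ℝ) : ℂ))) := funext (HH_GG M a u)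
  rw [this]
  refine continuous_finsetSum _ fun n _ => ?_
  fun_prop

end

/-- the windowed large sieve inequality -/
def LSW {ι : Type} (s : Finset ι) (a : ι → ℕ → ℂ) (c : ℕ → ℂ) (M : ℕ) (w W : ℝ) : Prop :=
  ∀ (b : ℕ → ℂ) (t₁ : ℝ), ∑ i ∈ s, ∫ t in t₁..(t₁ + w), ‖∑ m ∈ Finset.Icc 1 M,
    b m * a i m * cexp (-(((t * Real.log m : ℝ) : ℂ) * I))‖ ^ 2 ≤
      W * ∑ m ∈ Finset.Icc 1 M, ‖b m‖ ^ 2 * (vonMangoldt m * ‖c m‖) ^ 2

lemma norm_pull (M : ℕ) (a : ℕ → ℂ) (r : ℕ → ℂ) (u x : ℝ) :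
    ‖∑ n ∈ Finset.Icc 1 M, a n * (r n * cexp (I * x * ((u - Real.log n : ℝ) : ℂ)))‖ =
    ‖∑ n ∈ Finset.Icc 1 M, r n * a n * cexp (-(((x * Real.log n : ℝ) : ℂ) * I))‖ := by
  have h1 : ∑ n ∈ Finset.Icc 1 M, a n * (r n * cexp (I * x * ((u - Real.log n : ℝ) : ℂ))) =
      cexp (((x * u : ℝ) : ℂ) * I) * ∑ n ∈ Finset.Icc 1 M, r n * a n *
        cexp (-(((x * Real.log n : ℝ) : ℂ) * I)) := by
    rw [Finset.mul_sum]
    refine Finset.sum_congr rfl fun n _ => ?_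
    have : cexp (I * x * ((u - Real.log n : ℝ) : ℂ)) = cexp (((x * u : ℝ) : ℂ) * I) *
        cexp (-(((x * Real.log n : ℝ) : ℂ) * I)) := by
      rw [← Complex.exp_add]
      congr 1
      push_cast
      ring
    rw [this]
    ring
  rw [h1, norm_mul, Complex.norm_exp_ofReal_mul_I, one_mul]

/-- **The mean square, finite sums** -/
theorem win_fin {c : ℕ → ℂ} (hc : MeanC c) {ι : Type} (s : Finset ι) (a : ι → ℕ → ℂ) (M : ℕ)
    {w W T δ : ℝ} (hw : 1 ≤ w) (hW : 0 ≤ W) (hT : 0 ≤ T) (hδ : 0 < δ) (h : LSW s a c M w W)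
    (u : ℝ) :
    Integrable (fun t => ∑ i ∈ s,
      ‖∑ n ∈ Finset.Icc 1 M, a i n * Pool.Agent.W398.LV.ww T u t n‖ ^ 2) ∧
    ∫ t, ∑ i ∈ s, ‖∑ n ∈ Finset.Icc 1 M, a i n * Pool.Agent.W398.LV.ww T u t n‖ ^ 2 ≤
      (1 + δ) * ((T / w + 1) * (W * (1 / (2 * Real.pi) * SWu c 1 u))) +
        (1 + 1 / δ) * (11 * (W * SWu c (1 / 2) u)) := by
  classical
  have hpi := Real.pi_pos
  have hB : ∀ i, ∃ B : ℝ, 0 ≤ B ∧ ∀ x, ‖GG M (a i) u x‖ ≤ B := fun i => GG_bdd M (a i) u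
  choose B hB0 hB using hB
  have hsq : ∀ n ∈ Finset.Icc 1 M, ‖((Real.sqrt n : ℂ))⁻¹‖ ^ 2 = 1 / (n : ℝ) := by
    intro n hn
    have hn0 : (0 : ℝ) < n := by
      have := (Finset.mem_Icc.mp hn).1
      exact_mod_cast this
    rw [norm_inv, Complex.norm_real, Real.norm_of_nonneg (Real.sqrt_nonneg _), inv_pow,
      Real.sq_sqrt hn0.le]
    simp
  -- the sums
  have hS : ∀ b : ℝ, 0 < b → ∑ n ∈ Finset.Icc 1 M, vonMangoldt n ^ 2 * ‖c n‖ ^ 2 / n *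
      Real.exp (-(b * (u - Real.log n) ^ 2)) ≤ SWu c b u := by
    intro b hb
    exact (hc.hs2 b hb u).sum_le_tsum _ (fun n _ => by positivity)
  have h1 : ∀ t₁, ∑ i ∈ s, ∫ t in t₁..(t₁ + w), ‖GG M (a i) u t‖ ^ 2 ≤ W * SWu c (1 / 2) u := by
    intro t₁
    have h2 := h (fun n => (Real.sqrt n : ℂ)⁻¹ * (Real.exp (-(u - Real.log n) ^ 2 / 4) : ℂ)) t₁
    have e1 : ∀ i, ∀ t : ℝ, ‖GG M (a i) u t‖ ^ 2 = ‖∑ m ∈ Finset.Icc 1 M,
        (Real.sqrt m : ℂ)⁻¹ * (Real.exp (-(u - Real.log m) ^ 2 / 4) : ℂ) * a i m *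
          cexp (-(((t * Real.log m : ℝ) : ℂ) * I))‖ ^ 2 := by
      intro i t
      rw [← norm_pull M (a i) (fun n => (Real.sqrt n : ℂ)⁻¹ *
        (Real.exp (-(u - Real.log n) ^ 2 / 4) : ℂ)) u t]
      rfl
    simp_rw [e1]
    refine h2.trans (mul_le_mul_of_nonneg_left (le_trans (le_of_eq ?_) (hS (1 / 2) (by norm_num)))
      hW)
    refine Finset.sum_congr rfl fun n hn => ?_
    rw [norm_mul, mul_pow, hsq n hn, Complex.norm_real, Real.norm_of_nonneg (Real.exp_pos _).le,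
      ← Real.exp_nat_mul]
    have : ((2 : ℕ) : ℝ) * (-(u - Real.log n) ^ 2 / 4) = -(1 / 2 * (u - Real.log n) ^ 2) := by
      push_cast; ring
    rw [this]
    ring
  have h2 : ∀ t₁, ∑ i ∈ s, ∫ t in t₁..(t₁ + w), ‖(c1 : ℂ) * HH (GG M (a i) u) t‖ ^ 2 ≤
      W * (1 / (2 * Real.pi) * SWu c 1 u) := by
    intro t₁
    have h2 := h (fun n => (c1 : ℂ) * ((Real.sqrt n : ℂ)⁻¹ *
      (Real.exp (-(u - Real.log n) ^ 2 / 2) : ℂ) * (2 * (Real.sqrt Real.pi : ℂ)))) t₁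
    have e1 : ∀ i, ∀ t : ℝ, ‖(c1 : ℂ) * HH (GG M (a i) u) t‖ ^ 2 = ‖∑ m ∈ Finset.Icc 1 M,
        (c1 : ℂ) * ((Real.sqrt m : ℂ)⁻¹ * (Real.exp (-(u - Real.log m) ^ 2 / 2) : ℂ) *
          (2 * (Real.sqrt Real.pi : ℂ))) * a i m *
          cexp (-(((t * Real.log m : ℝ) : ℂ) * I))‖ ^ 2 := by
      intro i t
      rw [← norm_pull M (a i) (fun n => (c1 : ℂ) * ((Real.sqrt n : ℂ)⁻¹ *
        (Real.exp (-(u - Real.log n) ^ 2 / 2) : ℂ) * (2 * (Real.sqrt Real.pi : ℂ)))) u t, HH_GG,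
        Finset.mul_sum]
      congr 2
      refine Finset.sum_congr rfl fun n _ => ?_
      ring
    simp_rw [e1]
    refine h2.trans (mul_le_mul_of_nonneg_left (le_trans (le_of_eq ?_)
      (mul_le_mul_of_nonneg_left (hS 1 one_pos) (by positivity))) hW)
    rw [Finset.mul_sum]
    refine Finset.sum_congr rfl fun n hn => ?_
    rw [norm_mul, norm_mul, norm_mul, norm_mul, mul_pow, mul_pow, mul_pow, mul_pow, hsq n hn,
      Complex.norm_real, Complex.norm_real, Complex.norm_real,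
      Real.norm_of_nonneg (Real.exp_pos _).le, ← Real.exp_nat_mul, Real.norm_eq_abs, sq_abs, c1_sq,
      Real.norm_of_nonneg (Real.sqrt_nonneg _), Real.sq_sqrt hpi.le]
    have : ((2 : ℕ) : ℝ) * (-(u - Real.log n) ^ 2 / 2) = -(1 * (u - Real.log n) ^ 2) := by
      push_cast; ring
    rw [this]
    have h3 : ‖(2 : ℂ)‖ = 2 := by simp
    rw [h3]
    field_simp
    ring
  obtain ⟨k1, k2⟩ := ms_win s (fun i => GG M (a i) u) (fun i _ => GG_cont M (a i) u)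
    (M := ∑ i ∈ s, B i) (Finset.sum_nonneg fun i _ => hB0 i)
    (fun i hi x => (hB i x).trans (Finset.single_le_sum (fun j _ => hB0 j) hi))
    (fun i _ => HH_cont M (a i) u) hw hT hδ h1 h2
  simp only [SS_GG] at k1 k2
  exact ⟨k1, k2⟩

/-- **The mean square** -/
theorem win_pt {c : ℕ → ℂ} (hc : MeanC c) : ∃ C0 : ℝ, 0 < C0 ∧ ∀ (δ d D : ℝ), 0 < δ → 0 ≤ d →
    0 ≤ D → ∀ {ι : Type} (s : Finset ι) (a : ι → ℕ → ℂ) (M : ℕ) (T w u : ℝ), s.Nonempty →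
    1 ≤ w → 0 ≤ T → (∀ i ∈ s, ∀ n : ℕ, ‖a i n‖ ≤ d * vonMangoldt n) →
    LSW s a c M w (D * s.card * w) →
    (∑' n : ℕ, (if M < n then vonMangoldt n * Real.exp (-(u - Real.log n) ^ 2 / 4) else 0) ≤ 1) →
    ∫ t : ℝ, ∑ i ∈ s, (s.card : ℝ)⁻¹ * ‖∑' n : ℕ, a i n *
        ((Real.sqrt n : ℂ)⁻¹ * bt T u t (Real.log n))‖ ^ 2 ≤
      (1 + δ) * D * ((1 + δ) * ((T + w) / (2 * Real.pi) * SWu c 1 u) +
        (1 + 1 / δ) * (11 * w * SWu c (1 / 2) u)) + (T + C0) * ((1 + 1 / δ) * d ^ 2) := by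
  obtain ⟨C7, hC7, h7⟩ := wt_sq_int
  refine ⟨C7, hC7, ?_⟩
  intro δ d D hδ hd hD ι s a M T w u hs hw hT h0 hLS ht
  have hpi := Real.pi_pos
  have hcard : (0 : ℝ) < s.card := by exact_mod_cast hs.card_pos
  obtain ⟨j1, j2⟩ := h7 T hT
  obtain ⟨k1, k2⟩ := win_fin hc s a M hw (W := D * s.card * w) (by positivity) hT hδ hLS u
  have hpt : ∀ t, ∑ i ∈ s, (s.card : ℝ)⁻¹ * ‖∑' n : ℕ, a i n *
        ((Real.sqrt n : ℂ)⁻¹ * bt T u t (Real.log n))‖ ^ 2 ≤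
      (1 + δ) * (s.card : ℝ)⁻¹ * (∑ i ∈ s,
        ‖∑ n ∈ Finset.Icc 1 M, a i n * Pool.Agent.W398.LV.ww T u t n‖ ^ 2) +
      (1 + 1 / δ) * d ^ 2 * wt T t ^ 2 := by
    intro t
    have h1 : ∀ i ∈ s, (s.card : ℝ)⁻¹ * ‖∑' n : ℕ, a i n *
        ((Real.sqrt n : ℂ)⁻¹ * bt T u t (Real.log n))‖ ^ 2 ≤
        (s.card : ℝ)⁻¹ * ((1 + δ) *
          ‖∑ n ∈ Finset.Icc 1 M, a i n * Pool.Agent.W398.LV.ww T u t n‖ ^ 2 +
          (1 + 1 / δ) * (d * wt T t) ^ 2) := by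
      intro i hi
      obtain ⟨r, hr1, hr2⟩ := Pool.Agent.Y655.HC.split_inf' M (a i) d T u t hd hT (h0 i hi) ht
      have h2 : ∑' n : ℕ, a i n * ((Real.sqrt n : ℂ)⁻¹ * bt T u t (Real.log n)) =
          ∑ n ∈ Finset.Icc 1 M, a i n * Pool.Agent.W398.LV.ww T u t n + r := hr2
      rw [h2]
      refine mul_le_mul_of_nonneg_left ?_ (inv_nonneg.mpr hcard.le)
      refine (norm_add_sq_le' _ _ hδ).trans ?_
      have h3 : ‖r‖ ^ 2 ≤ (d * wt T t) ^ 2 := pow_le_pow_left₀ (norm_nonneg _) hr1 2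
      gcongr
    refine (Finset.sum_le_sum h1).trans (le_of_eq ?_)
    rw [← Finset.mul_sum, Finset.sum_add_distrib, ← Finset.mul_sum, Finset.sum_const,
      nsmul_eq_mul]
    field_simp
  have h3 : ∫ t : ℝ, ∑ i ∈ s, (s.card : ℝ)⁻¹ * ‖∑' n : ℕ, a i n *
        ((Real.sqrt n : ℂ)⁻¹ * bt T u t (Real.log n))‖ ^ 2 ≤
      ∫ t, ((1 + δ) * (s.card : ℝ)⁻¹ * (∑ i ∈ s,
        ‖∑ n ∈ Finset.Icc 1 M, a i n * Pool.Agent.W398.LV.ww T u t n‖ ^ 2) +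
      (1 + 1 / δ) * d ^ 2 * wt T t ^ 2) := by
    refine integral_mono_of_nonneg (Eventually.of_forall fun t =>
      Finset.sum_nonneg fun i _ => by positivity)
      ((k1.const_mul _).add (j1.const_mul _)) (Eventually.of_forall hpt)
  refine h3.trans ?_
  rw [integral_add (k1.const_mul _) (j1.const_mul _), integral_const_mul, integral_const_mul]
  have h4 : (1 + δ) * (s.card : ℝ)⁻¹ * (∫ t, ∑ i ∈ s,
        ‖∑ n ∈ Finset.Icc 1 M, a i n * Pool.Agent.W398.LV.ww T u t n‖ ^ 2) ≤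
      (1 + δ) * D * ((1 + δ) * ((T + w) / (2 * Real.pi) * SWu c 1 u) +
        (1 + 1 / δ) * (11 * w * SWu c (1 / 2) u)) := by
    refine (mul_le_mul_of_nonneg_left k2 (by positivity)).trans (le_of_eq ?_)
    have hw0 : w ≠ 0 := by linarith
    have hc0 : (s.card : ℝ) ≠ 0 := hcard.ne'
    field_simp
  have h5 : (1 + 1 / δ) * d ^ 2 * ∫ t, wt T t ^ 2 ≤ (T + C7) * ((1 + 1 / δ) * d ^ 2) := by
    rw [mul_comm (T + C7)]
    exact mul_le_mul_of_nonneg_left j2 (by positivity)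
  linarith

end Pool.Agent.N786
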