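import Pool.Agent.N786.Win
import Pool.Agent.N786.CoreI

/-!
# The mean square data from a windowed large sieve inequality (owner helper786)
-/

set_option autoImplicit false

open MeasureTheory Set Complex Filter Topology

namespace Pool.Agent.N786

open ArithmeticFunction (vonMangoldt)
open H385 W388 Pool.Agent.W398.LV

lemma sqrt_add_le' {x y : ℝ} (hx : 0 ≤ x) (hy : 0 ≤ y) :
    Real.sqrt (x + y) ≤ Real.sqrt x + Real.sqrt y := by
  rw [Real.sqrt_le_left (by positivity)]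
  have h1 := Real.sq_sqrt hx
  have h2 := Real.sq_sqrt hy
  have h3 : 0 ≤ Real.sqrt x * Real.sqrt y := by positivity
  have h4 : (Real.sqrt x + Real.sqrt y) ^ 2 = Real.sqrt x ^ 2 + Real.sqrt y ^ 2 +
      2 * (Real.sqrt x * Real.sqrt y) := by ring
  rw [h4, h1, h2]
  linarith

theorem msq_win {c : ℕ → ℂ} (hsel : SelE c) (d b D : ℝ) (hd : 1 ≤ d) (hD : 1 ≤ D) (γ β : ℝ)
    (h0 : 0 < γ) (hπ : γ < Real.pi) (hβ : 0 < β) (hβb : β < b) (ε : ℝ) (hε : 0 < ε) :
    ∃ ε0 η2 L0 : ℝ, 0 < ε0 ∧ ε0 < 1 ∧ 0 < η2 ∧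
    ∀ {ι : Type} (s : Finset ι) (a : ι → ℕ → ℂ) (L T w : ℝ), s.Nonempty → L0 ≤ L → L ^ 2 ≤ T →
      1 ≤ w → w ≤ η2 * T → (∀ i ∈ s, ∀ n : ℕ, ‖a i n‖ ≤ d * vonMangoldt n) →
      LSW s a c ⌊Real.exp (b * (1 - ε0) * L)⌋₊ w (D * s.card * w) →
      MSD s (fun _ => (s.card : ℝ)⁻¹) a γ β (2 * β * (∫ α in (0 : ℝ)..1, α * Rw γ α) * D) ε L T := by
  have hD0 : 0 < D := by linarith
  have hd0 : 0 < d := by linarith
  have hb0 : 0 < b := by linarith
  have hpi := Real.pi_pos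
  have hspi : 0 < Real.sqrt Real.pi := Real.sqrt_pos.mpr hpi
  obtain ⟨ε', hε'd⟩ : ∃ ε' : ℝ, ε' = ε / (2 * D) := ⟨_, rfl⟩
  have hε' : 0 < ε' := by rw [hε'd]; positivity
  have hε'D : ε' * D = ε / 2 := by rw [hε'd]; field_simp
  obtain ⟨s1, s2, s3, s4, ⟨Cs, hCs, s5, s6, s7, s8⟩, s9⟩ := Pool.Agent.W261.TW.t_smooth c hsel
  obtain ⟨n1, _, _, _⟩ := W566TW.t_noncop c hsel
  have hcm : MeanC c := ⟨n1, s2⟩
  have hs : SmC c Cs := ⟨s3, s4, s5, s6, s7, s8, s9⟩
  obtain ⟨ε1, hε1, hε1', hfin⟩ := YF_final hcm hCs hs γ β h0 hπ hβ ε' hε'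
  obtain ⟨C0, hC0, hint⟩ := win_pt hcm
  obtain ⟨δ, hδd⟩ : ∃ δ : ℝ, δ = ε1 / 2 := ⟨_, rfl⟩
  have hδ : 0 < δ := by rw [hδd]; positivity
  have hδ1 : δ ≤ 1 := by rw [hδd]; linarith
  obtain ⟨ε0, hε0d⟩ : ∃ x : ℝ, x = (1 - β / b) / 3 := ⟨_, rfl⟩
  have hbd : β / b < 1 := by rw [div_lt_one hb0]; exact hβb
  have hbd0 : 0 < β / b := by positivity
  have hε0 : 0 < ε0 := by rw [hε0d]; linarith
  have hε01 : ε0 < 1 := by rw [hε0d]; linarith
  obtain ⟨Lt, hLt, htail⟩ := Pool.Agent.Y655.HC.tail_leY (2 * β / b) ε0 hε0 (by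
    rw [hε0d]
    have : 2 * β / b / 2 = β / b := by ring
    rw [this]
    linarith)
  have hE0 : 0 < (1 + 1 / δ) * d ^ 2 := by positivity
  obtain ⟨L1, hL1, hY⟩ := hfin C0 ((1 + 1 / δ) * d ^ 2) hC0 hE0
  -- the boundary constant
  obtain ⟨Kb, hKb⟩ : ∃ Kb : ℝ, Kb = (1 + δ) * D * ((1 + 1 / δ) * 11) := ⟨_, rfl⟩
  have hKb0 : 0 < Kb := by rw [hKb]; positivity
  obtain ⟨R0, hR0⟩ : ∃ R0 : ℝ, R0 = Rw γ 0 := ⟨_, rfl⟩
  have hR0n : 0 ≤ R0 := by rw [hR0]; exact Rw_nonneg γ h0 hπ 0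
  obtain ⟨Kr, hKr⟩ : ∃ Kr : ℝ, Kr = 2 / (Real.sqrt Real.pi * β) * (R0 * (Kb * (Cs * (4 * β ^ 2)))) *
    (2 * Real.pi) := ⟨_, rfl⟩
  have hKr0 : 0 ≤ Kr := by rw [hKr]; positivity
  obtain ⟨η2, hη2d⟩ : ∃ η2 : ℝ, η2 = min δ (ε / (2 * (Kr + 1))) := ⟨_, rfl⟩
  have hη2 : 0 < η2 := by
    rw [hη2d]
    exact lt_min hδ (by positivity)
  have hη2δ : η2 ≤ δ := by rw [hη2d]; exact min_le_left _ _
  have hη2K : Kr * η2 ≤ ε / 2 := by
    have h1 : η2 ≤ ε / (2 * (Kr + 1)) := by rw [hη2d]; exact min_le_right _ _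
    calc Kr * η2 ≤ Kr * (ε / (2 * (Kr + 1))) := mul_le_mul_of_nonneg_left h1 hKr0
      _ = ε / 2 * (Kr / (Kr + 1)) := by field_simp
      _ ≤ ε / 2 * 1 := by
          refine mul_le_mul_of_nonneg_left ?_ (by positivity)
          rw [div_le_one (by positivity)]
          linarith
      _ = ε / 2 := mul_one _
  -- the constant for `y1`
  obtain ⟨Ky, hKy⟩ : ∃ Ky : ℝ, Ky = Kb * η2 * Cs * (β + 1) := ⟨_, rfl⟩
  have hKy0 : 0 < Ky := by rw [hKy]; positivity
  refine ⟨ε0, η2, max (max (max L1 (2 * Lt / b)) (max 1 (1 / β))) (4 * Ky / ε ^ 2),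
    hε0, hε01, hη2, ?_⟩
  intro ι s a L T w hsne hL hT hw hwT ha hLS
  have hLL1 : L1 ≤ L := (((le_max_left _ _).trans (le_max_left _ _)).trans (le_max_left _ _)).trans hL
  have hLLt : 2 * Lt / b ≤ L :=
    (((le_max_right _ _).trans (le_max_left _ _)).trans (le_max_left _ _)).trans hL
  have hLge1 : 1 ≤ L := (((le_max_left _ _).trans (le_max_right _ _)).trans (le_max_left _ _)).trans hL
  have hLβ : 1 / β ≤ L :=
    (((le_max_right _ _).trans (le_max_right _ _)).trans (le_max_left _ _)).trans hL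
  have hLK : 4 * Ky / ε ^ 2 ≤ L := (le_max_right _ _).trans hL
  have hTn : 1 ≤ T := (one_le_pow₀ hLge1).trans hT
  have hT0 : 0 ≤ T := by linarith
  have hcard : (0 : ℝ) < s.card := by exact_mod_cast hsne.card_pos
  have hW : ∑ i ∈ s, (s.card : ℝ)⁻¹ = 1 := by
    rw [Finset.sum_const, nsmul_eq_mul]
    exact mul_inv_cancel₀ hcard.ne'
  have hβL : 1 ≤ β * L := by
    rw [div_le_iff₀ hβ] at hLβ
    linarith
  obtain ⟨D1, hD1⟩ : ∃ D1 : ℝ, D1 = (1 + δ) ^ 2 * (1 + η2) * D := ⟨_, rfl⟩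
  have hD1n : 0 ≤ D1 := by rw [hD1]; positivity
  have hD1W : D1 ≤ (1 + 11 * ε1) * D := by
    rw [hD1]
    refine mul_le_mul_of_nonneg_right ?_ hD0.le
    have e1 : (1 + δ) ^ 2 * (1 + η2) ≤ (1 + δ) ^ 2 * (1 + δ) := by gcongr
    have e2 : (1 + δ) ^ 2 * (1 + δ) ≤ 1 + 7 * δ := by
      have f1 : δ * δ ≤ δ * 1 := mul_le_mul_of_nonneg_left hδ1 hδ.le
      have f2 : δ * (δ * δ) ≤ δ * (δ * 1) := mul_le_mul_of_nonneg_left f1 hδ.le
      have f3 : (1 + δ) ^ 2 * (1 + δ) = 1 + 3 * δ + 3 * (δ * δ) + δ * (δ * δ) := by ring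
      rw [f3]
      linarith
    have e3 : 7 * δ ≤ 11 * ε1 := by rw [hδd]; linarith
    linarith
  obtain ⟨y1, y2, hy1, hy2, m1, m2, m3⟩ := hY L T D1 D 0 hLL1 le_rfl hT (by linarith) hD1n hD1W
  -- the majorant
  obtain ⟨Yf, hYf⟩ : ∃ Yf : ℝ → ℝ, Yf = fun u => YE c D1 T L C0 ((1 + 1 / δ) * d ^ 2) 0 u +
    Kb * (η2 * T) * SWu c (1 / 2) u := ⟨_, rfl⟩
  have hsc := hs.sc (1 / 2) (by norm_num)
  have hSn : ∀ u, 0 ≤ SWu c (1 / 2) u := SWu_nonneg c (1 / 2)
  have hYc : Continuous Yf := by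
    rw [hYf]
    exact (YE_cont hs _ _ _ _ _ _).add (continuous_const.mul hsc)
  refine ⟨Yf, y1 + Ky * L, y2, by positivity, hy2, ?_, ?_, hYc.intervalIntegrable _ _, ?_, ?_⟩
  · -- the mean square
    intro u hu
    obtain ⟨Y, hYd⟩ : ∃ Y : ℝ, Y = Real.exp (b * L) := ⟨_, rfl⟩
    have hY0 : 0 < Y := by rw [hYd]; exact Real.exp_pos _
    have hlogY : Real.log (Real.sqrt Y) = b / 2 * L := by
      rw [Real.log_sqrt hY0.le, hYd, Real.log_exp]
      ring
    have hYe : Y ^ (1 - ε0) = Real.exp (b * (1 - ε0) * L) := by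
      rw [hYd, ← Real.exp_mul]
      congr 1
      ring
    have ht := htail Y u hY0 (by
        rw [hlogY]
        rw [div_le_iff₀ hb0] at hLLt
        linarith) hu.1 (by
        rw [hlogY]
        have : 2 * β / b * (b / 2 * L) = β * L := by field_simp
        rw [this]
        exact hu.2)
    rw [hYe] at ht
    have h := hint δ d D hδ hd0.le hD0.le s a ⌊Real.exp (b * (1 - ε0) * L)⌋₊ T w u hsne hw hT0 ha
      hLS ht
    refine h.trans ?_
    rw [hYf]
    simp only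
    unfold YE
    have hS1 := SWu_nonneg c 1 u
    have hS2 := hSn u
    have hWu := Wu_nonneg c u
    have a1 : (1 + δ) * D * ((1 + δ) * ((T + w) / (2 * Real.pi) * SWu c 1 u)) ≤
        D1 * (T / (2 * Real.pi) * SWu c 1 u) := by
      have b1 : T + w ≤ (1 + η2) * T := by linarith
      have b2 : (1 + δ) * D * ((1 + δ) * ((T + w) / (2 * Real.pi) * SWu c 1 u)) ≤
          (1 + δ) * D * ((1 + δ) * ((1 + η2) * T / (2 * Real.pi) * SWu c 1 u)) := by gcongr
      refine b2.trans (le_of_eq ?_)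
      rw [hD1]
      ring
    have a2 : (1 + δ) * D * ((1 + 1 / δ) * (11 * w * SWu c (1 / 2) u)) ≤
        Kb * (η2 * T) * SWu c (1 / 2) u := by
      have b1 : (1 + δ) * D * ((1 + 1 / δ) * (11 * w * SWu c (1 / 2) u)) ≤
          (1 + δ) * D * ((1 + 1 / δ) * (11 * (η2 * T) * SWu c (1 / 2) u)) := by gcongr
      refine b1.trans (le_of_eq ?_)
      rw [hKb]
      ring
    have a3 : (T + C0) * ((1 + 1 / δ) * d ^ 2) ≤
        (T + C0) * ((1 + 1 / δ) * d ^ 2 * (0 + 1) * (Wu c u + 1)) := by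
      refine mul_le_mul_of_nonneg_left ?_ (by positivity)
      have : (1 + 1 / δ) * d ^ 2 * 1 ≤ (1 + 1 / δ) * d ^ 2 * (Wu c u + 1) :=
        mul_le_mul_of_nonneg_left (by linarith) hE0.le
      linarith
    have a4 : 0 ≤ D1 * (C0 * L * SWu c (1 / 2) u) := by positivity
    have a5 : (1 + δ) * D * ((1 + δ) * ((T + w) / (2 * Real.pi) * SWu c 1 u) +
        (1 + 1 / δ) * (11 * w * SWu c (1 / 2) u)) =
        (1 + δ) * D * ((1 + δ) * ((T + w) / (2 * Real.pi) * SWu c 1 u)) +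
        (1 + δ) * D * ((1 + 1 / δ) * (11 * w * SWu c (1 / 2) u)) := by ring
    rw [a5]
    linarith
  · -- pointwise bound
    intro u hu
    rw [hYf]
    simp only
    have b1 := m1 u hu
    have b2 : SWu c (1 / 2) u ≤ Cs * ((β * L + 1) * (u + 1)) := by
      refine (hs.sle u hu.1).trans (mul_le_mul_of_nonneg_left ?_ hCs.le)
      rw [sq]
      exact mul_le_mul_of_nonneg_right (by linarith [hu.2]) (by linarith [hu.1])
    have b3 : Kb * (η2 * T) * SWu c (1 / 2) u ≤ T * (Ky * L * (u + 1)) := by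
      have hu0 := hu.1
      calc Kb * (η2 * T) * SWu c (1 / 2) u ≤
          Kb * (η2 * T) * (Cs * ((β * L + 1) * (u + 1))) := by gcongr
        _ ≤ Kb * (η2 * T) * (Cs * (((β + 1) * L) * (u + 1))) := by
            have : β * L + 1 ≤ (β + 1) * L := by linarith
            have hu1 : 0 ≤ u + 1 := by linarith
            gcongr
        _ = _ := by rw [hKy]; ring
    have b4 : T * ((y1 + Ky * L) * (u + 1) + y2) =
        T * (y1 * (u + 1) + y2) + T * (Ky * L * (u + 1)) := by ring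
    rw [b4]
    linarith
  · -- the integral
    rw [hYf]
    have hYEc := YE_cont hs D1 T L C0 ((1 + 1 / δ) * d ^ 2) 0
    have hRc : Continuous fun u : ℝ => Rw γ (u / (β * L)) :=
      (Rw_cont γ h0 hπ).comp (continuous_id.div_const _)
    have hR1 : Continuous fun u : ℝ => Rw γ (u / (β * L)) *
        YE c D1 T L C0 ((1 + 1 / δ) * d ^ 2) 0 u := hRc.mul hYEc
    have hR2 : Continuous fun u : ℝ => Rw γ (u / (β * L)) * SWu c (1 / 2) u := hRc.mul hsc
    have e1 : ∀ u, Rw γ (u / (β * L)) * (YE c D1 T L C0 ((1 + 1 / δ) * d ^ 2) 0 u +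
        Kb * (η2 * T) * SWu c (1 / 2) u) =
        Rw γ (u / (β * L)) * YE c D1 T L C0 ((1 + 1 / δ) * d ^ 2) 0 u +
        Kb * (η2 * T) * (Rw γ (u / (β * L)) * SWu c (1 / 2) u) := fun u => by ring
    simp only [e1]
    rw [intervalIntegral.integral_add (hR1.intervalIntegrable _ _)
      ((hR2.intervalIntegrable _ _).const_mul _), intervalIntegral.integral_const_mul,
      mul_add]
    have e2 : ∫ u in (0 : ℝ)..(β * L), Rw γ (u / (β * L)) * SWu c (1 / 2) u ≤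
        R0 * (Cs * (4 * β ^ 2 * L ^ 2)) := by
      have f1 : ∫ u in (0 : ℝ)..(β * L), Rw γ (u / (β * L)) * SWu c (1 / 2) u ≤
          ∫ u in (0 : ℝ)..(β * L), R0 * SWu c (1 / 2) u := by
        refine intervalIntegral.integral_mono_on (by positivity)
          (hR2.intervalIntegrable _ _) ((continuous_const.mul hsc).intervalIntegrable _ _)
          fun u hu => ?_
        refine mul_le_mul_of_nonneg_right ?_ (hSn u)
        rw [hR0]
        refine Rw_le γ h0 hπ _ (div_nonneg hu.1 (by positivity))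
      refine f1.trans ?_
      rw [intervalIntegral.integral_const_mul]
      refine mul_le_mul_of_nonneg_left ?_ hR0n
      refine (hs.sint (β * L) (by positivity)).trans (mul_le_mul_of_nonneg_left ?_ hCs.le)
      nlinarith
    have e3 : 2 / (Real.sqrt Real.pi * (β * L)) * (Kb * (η2 * T) *
        ∫ u in (0 : ℝ)..(β * L), Rw γ (u / (β * L)) * SWu c (1 / 2) u) ≤
        T / (2 * Real.pi) * L * (Kr * η2) := by
      have hL0 : 0 < L := by linarith
      calc _ ≤ 2 / (Real.sqrt Real.pi * (β * L)) * (Kb * (η2 * T) *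
          (R0 * (Cs * (4 * β ^ 2 * L ^ 2)))) := by gcongr
        _ = _ := by
            rw [hKr]
            field_simp
    have hTL : 0 ≤ T / (2 * Real.pi) * L := by positivity
    have e4 : T / (2 * Real.pi) * L * (Kr * η2) ≤ T / (2 * Real.pi) * L * (ε / 2) :=
      mul_le_mul_of_nonneg_left hη2K hTL
    rw [hW]
    have e5 : T / (2 * Real.pi) * L * D * (2 * β * (∫ α in (0 : ℝ)..1, α * Rw γ α) + ε') =
        T / (2 * Real.pi) * L * (2 * β * (∫ α in (0 : ℝ)..1, α * Rw γ α) * D + ε / 2) := by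
      rw [← hε'D]
      ring
    rw [e5] at m3
    calc _ ≤ T / (2 * Real.pi) * L * (2 * β * (∫ α in (0 : ℝ)..1, α * Rw γ α) * D + ε / 2) +
        T / (2 * Real.pi) * L * (ε / 2) := add_le_add m3 (e3.trans e4)
      _ = _ := by ring
  · rw [hW, Real.sqrt_one, mul_one]
    have q1 : Real.sqrt D ≤ D := by
      rw [Real.sqrt_le_left (by linarith)]
      nlinarith
    have q2 : Real.sqrt y1 + Real.sqrt y2 ≤ ε / 2 * L := by
      refine m2.trans ?_
      calc ε' * L * Real.sqrt D ≤ ε' * L * D := by gcongr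
        _ = (ε' * D) * L := by ring
        _ = ε / 2 * L := by rw [hε'D]
    have q3 : Real.sqrt (Ky * L) ≤ ε / 2 * L := by
      rw [Real.sqrt_le_left (by positivity)]
      rw [div_le_iff₀ (by positivity)] at hLK
      nlinarith
    have q4 : Real.sqrt (y1 + Ky * L) ≤ Real.sqrt y1 + Real.sqrt (Ky * L) :=
      sqrt_add_le' hy1 (by positivity)
    linarith

end Pool.Agent.N786
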