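import Pool.Agent.N786.Msw
import Pool.Agent.Y655.HC.Asm

/-!
# 67.25 per cent from the windowed large sieve (owner helper786)
-/

set_option autoImplicit false

open MeasureTheory Set Complex Filter Topology

namespace Pool.Agent.N786

open ArithmeticFunction (vonMangoldt)
open H385 W388 Pool.Agent.W398.LV
open H370 (zset mult NN Nd Ns)
open Pool.Agent.W354 (LogC)
open Y767.WH (GoodH)
open Pool.Agent.Y655.HC (mult_shift add_inj zset_shift NN_shift Ns_shift)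

lemma Nd_shift (F : ℂ → ℂ) (W T1 T2 : ℝ) :
    Nd F T1 T2 = Nd (fun z => F (z + W * I)) (T1 - W) (T2 - W) := by
  unfold H370.Nd
  rw [zset_shift F W T1 T2, (add_inj _).injOn.ncard_image]

lemma zset_union (F : ℂ → ℂ) {T1 T2 T3 : ℝ} (h1 : T1 ≤ T2) (h2 : T2 ≤ T3) :
    zset F T1 T3 = zset F T1 T2 ∪ zset F T2 T3 := by
  ext s
  constructor
  · rintro ⟨a1, a2, a3, a4, a5⟩
    by_cases h : s.im ≤ T2
    · exact Or.inl ⟨a1, a2, a3, h, a5⟩
    · push Not at h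
      exact Or.inr ⟨a1, a2, h, a4, a5⟩
  · rintro (⟨a1, a2, a3, a4, a5⟩ | ⟨a1, a2, a3, a4, a5⟩)
    · exact ⟨a1, a2, a3, by linarith, a5⟩
    · exact ⟨a1, a2, by linarith, a4, a5⟩

lemma zset_disj (F : ℂ → ℂ) (T1 T2 T3 : ℝ) : Disjoint (zset F T1 T2) (zset F T2 T3) := by
  rw [Set.disjoint_left]
  rintro s ⟨_, _, _, a4, _⟩ ⟨_, _, b3, _, _⟩
  linarith

lemma NN_union (F : ℂ → ℂ) {T1 T2 T3 : ℝ} (h1 : T1 ≤ T2) (h2 : T2 ≤ T3)
    (f1 : (zset F T1 T2).Finite) (f2 : (zset F T2 T3).Finite) :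
    NN F T1 T3 = NN F T1 T2 + NN F T2 T3 := by
  unfold H370.NN
  rw [zset_union F h1 h2, finsum_mem_union (zset_disj F T1 T2 T3) f1 f2]

lemma Nd_union (F : ℂ → ℂ) {T1 T2 T3 : ℝ} (h1 : T1 ≤ T2) (h2 : T2 ≤ T3)
    (f1 : (zset F T1 T2).Finite) (f2 : (zset F T2 T3).Finite) :
    Nd F T1 T3 = Nd F T1 T2 + Nd F T2 T3 := by
  unfold H370.Nd
  rw [zset_union F h1 h2, Set.ncard_union_eq (zset_disj F T1 T2 T3) f1 f2]

lemma Ns_union (F : ℂ → ℂ) {T1 T2 T3 : ℝ} (h1 : T1 ≤ T2) (h2 : T2 ≤ T3)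
    (f1 : (zset F T1 T2).Finite) (f2 : (zset F T2 T3).Finite) :
    Ns F T1 T3 = Ns F T1 T2 + Ns F T2 T3 := by
  unfold H370.Ns
  rw [← Set.ncard_union_eq ?_ (f1.subset fun s hs => hs.1) (f2.subset fun s hs => hs.1)]
  · congr 1
    ext s
    constructor
    · rintro ⟨a, b, c⟩
      rw [zset_union F h1 h2] at a
      rcases a with a | a
      · exact Or.inl ⟨a, b, c⟩
      · exact Or.inr ⟨a, b, c⟩
    · rintro (⟨a, b, c⟩ | ⟨a, b, c⟩)
      · exact ⟨by rw [zset_union F h1 h2]; exact Or.inl a, b, c⟩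
      · exact ⟨by rw [zset_union F h1 h2]; exact Or.inr a, b, c⟩
  · exact (zset_disj F T1 T2 T3).mono (fun s hs => hs.1) (fun s hs => hs.1)

/-- a numerical inequality -/
theorem p6_bound {L : ℝ} (hL : 8 ≤ L) : 9 * L ^ 2 * Real.exp (-L ^ 2 / 2) ≤ 1 := by
  obtain ⟨x, hx⟩ : ∃ x : ℝ, x = L ^ 2 / 2 := ⟨_, rfl⟩
  have hx32 : 32 ≤ x := by rw [hx]; nlinarith
  have h1 : Real.exp (-L ^ 2 / 2) = (Real.exp x)⁻¹ := by
    rw [← Real.exp_neg, hx]; congr 1; ring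
  have h0 : 9 * L ^ 2 = 18 * x := by rw [hx]; ring
  rw [h0, h1, mul_inv_le_iff₀ (Real.exp_pos _), one_mul]
  have h2 := Real.pow_div_factorial_le_exp x (by linarith) 3
  have h3 : ((Nat.factorial 3 : ℕ) : ℝ) = 6 := by norm_num [Nat.factorial]
  rw [h3] at h2
  refine le_trans ?_ h2
  rw [le_div_iff₀ (by norm_num : (0:ℝ) < 6)]
  have h4 : 108 * x ≤ x ^ 2 * x := mul_le_mul_of_nonneg_right (by nlinarith) (by linarith)
  calc 18 * x * 6 = 108 * x := by ring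
    _ ≤ x ^ 2 * x := h4
    _ = x ^ 3 := by ring

/-- the constant of the Montgomery-Taylor type -/
noncomputable def kc (γ h : ℝ) : ℝ :=
  1 / h * Rw γ 0 + 2 * h * ∫ α in (0 : ℝ)..1, α * Rw γ α

/-- **the proportion of zeros, abstract form** -/
theorem zeros_core (γ h ε : ℝ) (h0 : 0 < γ) (hπ : γ < Real.pi) (hh : 0 < h) (hε : 0 < ε) :
    ∃ D : ℝ, 1 < D ∧ ∀ (c : ℕ → ℂ), SelE c → ∀ (d A : ℝ), 1 ≤ d → 1 ≤ A →
    ∃ η ε0 η2 L0 : ℝ, 0 < η ∧ 0 < ε0 ∧ ε0 < 1 ∧ 0 < η2 ∧ 8 ≤ L0 ∧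
    ∀ {ι : Type} (s : Finset ι) (lc : ι → ℝ → ℝ) (F : ι → ℂ → ℂ) (a : ι → ℕ → ℂ)
      (L T w : ℝ), s.Nonempty → L0 ≤ L → L ^ 2 ≤ T → T ≤ Real.exp (L ^ 2 / 2) → 1 ≤ w →
      w ≤ η2 * T →
      (∀ i ∈ s, LogC (lc i) ∧ GoodH d A (lc i) (F i) (a i) ∧ L ≤ lc i T ∧
        lc i T ≤ (1 + 2 * η) * L) →
      (∀ i ∈ s, ∀ n : ℕ, ‖a i n‖ ≤ d * vonMangoldt n) →
      LSW s a c ⌊Real.exp (h * d * (1 - ε0) * L)⌋₊ w (D * s.card * w) →
      (∀ i ∈ s, (zset (F i) T (2 * T)).Finite ∧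
        (1 - ε) * (T / (2 * Real.pi) * (d * L)) ≤ (NN (F i) T (2 * T) : ℝ)) ∧
      (2 - kc γ h - ε) * ∑ i ∈ s, (NN (F i) T (2 * T) : ℝ) ≤
        ∑ i ∈ s, (Ns (F i) T (2 * T) : ℝ) ∧
      (3 - kc γ h - ε) * ∑ i ∈ s, (NN (F i) T (2 * T) : ℝ) ≤
        2 * ∑ i ∈ s, (Nd (F i) T (2 * T) : ℝ) := by
  have hpi := Real.pi_pos
  unfold kc
  obtain ⟨R, hR⟩ : ∃ R : ℝ, R = Rw γ 0 := ⟨_, rfl⟩
  obtain ⟨I1, hI1⟩ : ∃ I1 : ℝ, I1 = ∫ α in (0 : ℝ)..1, α * Rw γ α := ⟨_, rfl⟩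
  have hR0 : 0 ≤ R := by rw [hR]; exact H385.Rw_nonneg γ h0 hπ 0
  have hI0 : 0 ≤ I1 := by
    rw [hI1]
    exact intervalIntegral.integral_nonneg zero_le_one
      (fun α hα => mul_nonneg hα.1 (H385.Rw_nonneg γ h0 hπ α))
  rw [← hR, ← hI1]
  obtain ⟨D, hD⟩ : ∃ D : ℝ, D = 1 + ε / (4 * (2 * h * I1 + 1)) := ⟨_, rfl⟩
  have hD1 : 1 < D := by
    rw [hD]
    have : 0 < ε / (4 * (2 * h * I1 + 1)) := by positivity
    linarith
  have hDI : 2 * h * I1 * D ≤ 2 * h * I1 + ε / 4 := by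
    have e1 : 2 * h * I1 * D = 2 * h * I1 + ε * (2 * h * I1 / (2 * h * I1 + 1)) / 4 := by
      rw [hD]; field_simp
    rw [e1]
    have e2 : 2 * h * I1 / (2 * h * I1 + 1) ≤ 1 := by
      rw [div_le_one (by positivity)]; linarith
    have e3 : ε * (2 * h * I1 / (2 * h * I1 + 1)) ≤ ε * 1 := mul_le_mul_of_nonneg_left e2 hε.le
    linarith
  refine ⟨D, hD1, ?_⟩
  intro c hsel d A hd hA
  have hd0 : 0 < d := by linarith
  obtain ⟨R', hR'⟩ : ∃ R' : ℝ, R' = R / h := ⟨_, rfl⟩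
  have hR'0 : 0 ≤ R' := by rw [hR']; positivity
  obtain ⟨r, hr⟩ : ∃ r : ℝ, r = (R' + 1) / (R' + 1 + ε / 4) := ⟨_, rfl⟩
  have hr0 : 0 < r := by rw [hr]; positivity
  have hr1 : r < 1 := by
    rw [hr, div_lt_one (by positivity)]; linarith
  obtain ⟨β, hβd⟩ : ∃ β : ℝ, β = h * d * r := ⟨_, rfl⟩
  have hβ0 : 0 < β := by rw [hβd]; positivity
  have hβ1 : β < h * d := by
    rw [hβd]
    calc h * d * r < h * d * 1 := mul_lt_mul_of_pos_left hr1 (by positivity)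
      _ = h * d := mul_one _
  have hc' : 0 ≤ 2 * β * I1 * D := by positivity
  obtain ⟨ε1, η, L1, hε1, hη, hL1, hcore⟩ := coreI d A hd hA γ β (2 * β * I1 * D) h0 hπ hβ0 hc'
    (by rw [← hR]; exact hR0) (ε / 4) (by positivity)
  obtain ⟨ε0, η2, L2, hε0, hε01, hη2, hms⟩ :=
    msq_win hsel d (h * d) D hd hD1.le γ β h0 hπ hβ0 hβ1 ε1 hε1
  obtain ⟨C2, hC2, hlow⟩ := Y767.WH.N_lower_E d A hd hA
  have hcs : d * Rw γ 0 / β + 2 * β * I1 * D / d + ε / 4 ≤ 1 / h * R + 2 * h * I1 + ε := by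
    rw [← hR]
    have e1 : d * R / β ≤ R' + ε / 4 := by
      have : d * R / β = R' + ε / 4 * (R' / (R' + 1)) := by
        have h1 : d * R / β = R' / r := by
          rw [hβd, hR']; field_simp
        rw [h1, hr]; field_simp
      rw [this]
      have e2 : R' / (R' + 1) ≤ 1 := by rw [div_le_one (by positivity)]; linarith
      have e3 : ε / 4 * (R' / (R' + 1)) ≤ ε / 4 * 1 := mul_le_mul_of_nonneg_left e2 (by positivity)
      linarith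
    have e2 : 2 * β * I1 * D / d ≤ 2 * h * I1 * D := by
      rw [div_le_iff₀ hd0]
      have : (2 * I1 * D) * β ≤ (2 * I1 * D) * (h * d) :=
        mul_le_mul_of_nonneg_left hβ1.le (by positivity)
      linarith
    have e3 : R' = 1 / h * R := by rw [hR']; ring
    linarith
  obtain ⟨ε', hε'⟩ : ∃ ε' : ℝ, ε' = min ε 1 := ⟨_, rfl⟩
  have hε'0 : 0 < ε' := by rw [hε']; exact lt_min hε one_pos
  refine ⟨min η 1, ε0, η2, max (max L1 L2) (10 * Real.pi * C2 / ε), lt_min hη one_pos, hε0, hε01,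
    hη2, le_max_of_le_left (le_max_of_le_left hL1), ?_⟩
  intro ι s lc F a L T w hsne hL hT hTe hw hwT hfam ha hLS
  have hLL1 : L1 ≤ L := ((le_max_left _ _).trans (le_max_left _ _)).trans hL
  have hLL2 : L2 ≤ L := ((le_max_right _ _).trans (le_max_left _ _)).trans hL
  have hLC : 10 * Real.pi * C2 / ε ≤ L := (le_max_right _ _).trans hL
  have hL8 : 8 ≤ L := hL1.trans hLL1
  have hL0 : 0 < L := by linarith
  have hTpos : 0 < T := lt_of_lt_of_le (by positivity) hT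
  have hTL : 8 * L ≤ T := by
    refine le_trans ?_ hT
    rw [pow_two]
    exact mul_le_mul_of_nonneg_right hL8 hL0.le
  have hT1 : 1 ≤ T := by linarith
  have hcard : (0 : ℝ) < s.card := by exact_mod_cast hsne.card_pos
  have hηL : (1 + 2 * min η 1) * L ≤ (1 + 2 * η) * L := by
    have := min_le_left η 1
    gcongr
  have hη3 : (1 + 2 * min η 1) * L ≤ 3 * L := by
    have := min_le_right η 1
    gcongr
    linarith
  have hMS := hms s a L T w hsne hLL2 hT hw hwT ha hLS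
  rw [← hI1] at hMS
  obtain ⟨k1, k2⟩ := hcore s (fun _ => (s.card : ℝ)⁻¹) lc F a L T hLL1 hT hTe
    (fun i hi => ⟨by positivity, (hfam i hi).1, (hfam i hi).2.1, (hfam i hi).2.2.1,
      (hfam i hi).2.2.2.trans hηL⟩) hMS
  obtain ⟨cc, hcc⟩ : ∃ cc : ℝ, cc = d * Rw γ 0 / β + 2 * β * I1 * D / d + ε / 4 := ⟨_, rfl⟩
  rw [← hcc] at k1 k2 hcs
  rw [← Finset.mul_sum, ← Finset.mul_sum] at k1 k2
  obtain ⟨kk, hkk⟩ : ∃ kk : ℝ, kk = 1 / h * R + 2 * h * I1 := ⟨_, rfl⟩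
  rw [← hkk] at hcs ⊢
  obtain ⟨S, hS⟩ : ∃ S : ℝ, S = ∑ i ∈ s, (NN (F i) T (2 * T) : ℝ) := ⟨_, rfl⟩
  have hS0 : 0 ≤ S := by rw [hS]; exact Finset.sum_nonneg fun _ _ => Nat.cast_nonneg _
  rw [← hS] at k1 k2 ⊢
  have hcS : cc * S ≤ (kk + ε) * S := mul_le_mul_of_nonneg_right hcs hS0
  have cancel : ∀ X : ℝ, (s.card : ℝ)⁻¹ * X ≤ cc * ((s.card : ℝ)⁻¹ * S) → X ≤ cc * S := by
    intro X hX
    have h1 := mul_le_mul_of_nonneg_left hX hcard.le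
    rw [← mul_assoc, mul_inv_cancel₀ hcard.ne', one_mul] at h1
    refine h1.trans (le_of_eq ?_)
    field_simp
  have m1 := cancel _ k1
  have m2 := cancel _ k2
  rw [Finset.sum_sub_distrib, ← Finset.mul_sum, ← hS] at m1
  rw [Finset.sum_sub_distrib, ← Finset.mul_sum, ← Finset.mul_sum, ← hS] at m2
  refine ⟨fun i hi => ?_, by linarith, by linarith⟩
  obtain ⟨g1, g2, g3, g4⟩ := hfam i hi
  refine ⟨Y767.WH.zset_finite_E hA g1 g2 T (2 * T) hT1, ?_⟩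
  have hl := hlow (lc i) (F i) (a i) g1 g2 T L (by linarith) hTL
  have g5 : lc i T ≤ 3 * L := g4.trans hη3
  have hlc0 : 0 ≤ lc i T := by linarith
  have a2 : L * lc i T ≤ 3 * T := by
    have : L * lc i T ≤ L * (3 * L) := mul_le_mul_of_nonneg_left g5 hL0.le
    calc L * lc i T ≤ L * (3 * L) := this
      _ = 3 * L ^ 2 := by ring
      _ ≤ 3 * T := by linarith
  have p6 : 9 * L ^ 2 * Real.exp (-L ^ 2 / 2) ≤ 1 := p6_bound hL8
  have a3 : T * lc i T ^ 2 * Real.exp (-L ^ 2 / 2) ≤ T := by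
    have b1 : lc i T ^ 2 ≤ (3 * L) ^ 2 := pow_le_pow_left₀ hlc0 g5 2
    have b2 : lc i T ^ 2 * Real.exp (-L ^ 2 / 2) ≤ 1 := by
      refine le_trans (mul_le_mul_of_nonneg_right b1 (Real.exp_pos _).le) ?_
      rw [show (3 * L) ^ 2 = 9 * L ^ 2 by ring]; exact p6
    calc _ = T * (lc i T ^ 2 * Real.exp (-L ^ 2 / 2)) := by ring
      _ ≤ T * 1 := mul_le_mul_of_nonneg_left b2 hTpos.le
      _ = T := mul_one T
  have a4 : C2 * (T + L * lc i T + T * lc i T ^ 2 * Real.exp (-L ^ 2 / 2)) ≤ C2 * (5 * T) :=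
    mul_le_mul_of_nonneg_left (by linarith) hC2.le
  have a5 : C2 * (5 * T) ≤ ε * (T / (2 * Real.pi) * L) := by
    rw [div_le_iff₀ hε] at hLC
    have h1 : 10 * Real.pi * C2 * (T / (2 * Real.pi)) ≤ L * ε * (T / (2 * Real.pi)) :=
      mul_le_mul_of_nonneg_right hLC (by positivity)
    have h2 : 10 * Real.pi * C2 * (T / (2 * Real.pi)) = C2 * (5 * T) := by
      field_simp; ring
    rw [h2] at h1
    linarith
  have a6 : T / (2 * Real.pi) * (d * L) ≤ T / (2 * Real.pi) * (d * lc i T) := by gcongr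
  have a7 : T / (2 * Real.pi) * L ≤ T / (2 * Real.pi) * (d * L) := by
    have h1 : 1 * L ≤ d * L := mul_le_mul_of_nonneg_right hd hL0.le
    rw [one_mul] at h1
    exact mul_le_mul_of_nonneg_left h1 (by positivity)
  have a8 : ε * (T / (2 * Real.pi) * L) ≤ ε * (T / (2 * Real.pi) * (d * L)) :=
    mul_le_mul_of_nonneg_left a7 hε.le
  linarith

end Pool.Agent.N786
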