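import Pool.Agent.Y767.HC.UD

/-!
# The norm of the difference of two totally positive integers (owner helper786)
-/

set_option autoImplicit false
set_option linter.unusedSectionVars false

open NumberField

namespace Pool.Agent.N786

open Pool.Agent.Y773 (TPos rl)
open Pool.Agent.Y767 (card_places mult_one sum_log)

section

variable {K : Type} [Field K] [NumberField K] [IsTotallyReal K]

lemma norm_prod (x : 𝓞 K) :
    (Ideal.absNorm (Ideal.span {x}) : ℝ) = ∏ w : InfinitePlace K, w (x : K) := by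
  have h := InfinitePlace.prod_eq_abs_norm (x : K)
  simp only [mult_one, pow_one] at h
  have h1 : ((Ideal.absNorm (Ideal.span {x}) : ℕ) : ℝ) = |((Algebra.norm ℚ (x : K) : ℚ) : ℝ)| := by
    rw [Ideal.absNorm_span_singleton]
    have h2 : ((Algebra.norm ℤ x : ℤ) : ℚ) = Algebra.norm ℚ (x : K) := Algebra.coe_norm_int x
    rw [← h2, Nat.cast_natAbs]
    push_cast
    rfl
  rw [h, h1]
  push_cast
  rfl

lemma abs_rl (w : InfinitePlace K) (x : K) : |rl w x| = w x := by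
  rw [← Real.norm_eq_abs]
  exact InfinitePlace.norm_embedding_of_isReal (IsTotallyReal.isReal w) x

lemma rl_eq {x : 𝓞 K} (hx : TPos K x) (w : InfinitePlace K) : rl w (x : K) = w (x : K) := by
  rw [← abs_rl, abs_of_pos (hx _)]

lemma tpos_ne {x : 𝓞 K} (hx : TPos K x) : x ≠ 0 := by
  rintro rfl
  obtain ⟨w⟩ : Nonempty (InfinitePlace K) := inferInstance
  have := hx (rl w)
  simp at this

lemma w_sub {x x' : 𝓞 K} (hx : TPos K x) (hx' : TPos K x') (w : InfinitePlace K) :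
    w ((x - x' : 𝓞 K) : K) = |w (x : K) - w (x' : K)| := by
  have e : ((x - x' : 𝓞 K) : K) = (x : K) - (x' : K) := map_sub (algebraMap (𝓞 K) K) x x'
  rw [e, ← abs_rl, map_sub, rl_eq hx, rl_eq hx']

lemma tpos_mul {x y : 𝓞 K} (hx : TPos K x) (hy : TPos K y) : TPos K (x * y) :=
  Pool.Agent.Y767.tpos_mul hx hy

lemma tpos_inv {u : (𝓞 K)ˣ} (hu : TPos K (u : 𝓞 K)) : TPos K ((u⁻¹ : (𝓞 K)ˣ) : 𝓞 K) := by
  refine Pool.Agent.Y767.tpos_of_mul hu ?_
  rw [Units.mul_inv]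
  exact Pool.Agent.Y767.tpos_one

lemma tpos_pow {u : (𝓞 K)ˣ} (hu : TPos K (u : 𝓞 K)) (n : ℕ) :
    TPos K ((u ^ n : (𝓞 K)ˣ) : 𝓞 K) := by
  induction n with
  | zero => simpa using (Pool.Agent.Y767.tpos_one (K := K))
  | succ n ih =>
    rw [pow_succ, Units.val_mul]
    exact tpos_mul ih hu

lemma tpos_zpow {u : (𝓞 K)ˣ} (hu : TPos K (u : 𝓞 K)) (m : ℤ) :
    TPos K ((u ^ m : (𝓞 K)ˣ) : 𝓞 K) := by
  rcases m with n | n
  · rw [Int.ofNat_eq_natCast, zpow_natCast]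
    exact tpos_pow hu n
  · rw [zpow_negSucc]
    exact tpos_inv (tpos_pow hu _)

lemma tpos_prod {r : ℕ} {ε : Fin r → (𝓞 K)ˣ} (hε : ∀ i, TPos K ((ε i : (𝓞 K)ˣ) : 𝓞 K))
    (m : Fin r → ℤ) : TPos K ((∏ i, ε i ^ m i : (𝓞 K)ˣ) : 𝓞 K) := by
  classical
  have : ∀ s : Finset (Fin r), TPos K ((∏ i ∈ s, ε i ^ m i : (𝓞 K)ˣ) : 𝓞 K) := by
    intro s
    induction s using Finset.induction_on with
    | empty => simpa using (Pool.Agent.Y767.tpos_one (K := K))
    | insert a s ha ih =>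
      rw [Finset.prod_insert ha, Units.val_mul]
      exact tpos_mul (tpos_zpow (hε a) _) ih
  exact this Finset.univ

lemma w_pos {x : 𝓞 K} (hx : x ≠ 0) (w : InfinitePlace K) : 0 < w (x : K) := by
  rw [InfinitePlace.pos_iff]
  simpa using hx

lemma w_unit_ne (u : (𝓞 K)ˣ) (w : InfinitePlace K) : w ((u : 𝓞 K) : K) ≠ 0 := by
  exact (w_pos u.ne_zero w).ne'

lemma log_zpow_unit (u : (𝓞 K)ˣ) (m : ℤ) (w : InfinitePlace K) :
    Real.log (w (((u ^ m : (𝓞 K)ˣ) : 𝓞 K) : K)) = m * Real.log (w ((u : 𝓞 K) : K)) := by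
  have e : (((u ^ m : (𝓞 K)ˣ) : 𝓞 K) : K) = ((u : 𝓞 K) : K) ^ m := by
    have := Units.coe_map (algebraMap (𝓞 K) K : 𝓞 K →* K) (u ^ m)
    rw [map_zpow, Units.val_zpow_eq_zpow_val] at this
    exact this.symm
  rw [e, map_zpow₀, Real.log_zpow]

lemma log_prod_unit {r : ℕ} (ε : Fin r → (𝓞 K)ˣ) (m : Fin r → ℤ) (w : InfinitePlace K) :
    Real.log (w (((∏ i, ε i ^ m i : (𝓞 K)ˣ) : 𝓞 K) : K)) =
      ∑ i, m i * Real.log (w ((ε i : 𝓞 K) : K)) := by
  classical
  have : ∀ s : Finset (Fin r), Real.log (w (((∏ i ∈ s, ε i ^ m i : (𝓞 K)ˣ) : 𝓞 K) : K)) =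
      ∑ i ∈ s, m i * Real.log (w ((ε i : 𝓞 K) : K)) := by
    intro s
    induction s using Finset.induction_on with
    | empty =>
      rw [Finset.prod_empty, Finset.sum_empty, Units.val_one]
      have : ((1 : 𝓞 K) : K) = 1 := map_one _
      rw [this, map_one, Real.log_one]
    | insert a s ha ih =>
      rw [Finset.prod_insert ha, Finset.sum_insert ha, Units.val_mul]
      have e : (((ε a ^ m a : (𝓞 K)ˣ) * (∏ i ∈ s, ε i ^ m i : (𝓞 K)ˣ) : 𝓞 K) : K) =
        (((ε a ^ m a : (𝓞 K)ˣ) : 𝓞 K) : K) * (((∏ i ∈ s, ε i ^ m i : (𝓞 K)ˣ) : 𝓞 K) : K) :=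
        map_mul (algebraMap (𝓞 K) K) _ _
      rw [e, map_mul, Real.log_mul (w_unit_ne _ _) (w_unit_ne _ _), log_zpow_unit, ih]
  exact this Finset.univ

/-- the total size of the logarithms of the units -/
noncomputable def BU {r : ℕ} (ε : Fin r → (𝓞 K)ˣ) : ℝ :=
  ∑ w : InfinitePlace K, ∑ i, |Real.log (w ((ε i : 𝓞 K) : K))|

lemma BU_nonneg {r : ℕ} (ε : Fin r → (𝓞 K)ˣ) : 0 ≤ BU ε :=
  Finset.sum_nonneg fun _ _ => Finset.sum_nonneg fun _ _ => abs_nonneg _

lemma lin_le {r : ℕ} (ε : Fin r → (𝓞 K)ˣ) (c : Fin r → ℝ) {κ : ℝ} (hc : ∀ i, |c i| ≤ κ)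
    (hκ : 0 ≤ κ) (w : InfinitePlace K) :
    |∑ i, c i * Real.log (w ((ε i : 𝓞 K) : K))| ≤ κ * BU ε := by
  classical
  refine (Finset.abs_sum_le_sum_abs _ _).trans ?_
  calc ∑ i, |c i * Real.log (w ((ε i : 𝓞 K) : K))| ≤
      ∑ i, κ * |Real.log (w ((ε i : 𝓞 K) : K))| := by
        refine Finset.sum_le_sum fun i _ => ?_
        rw [abs_mul]
        exact mul_le_mul_of_nonneg_right (hc i) (abs_nonneg _)
    _ = κ * ∑ i, |Real.log (w ((ε i : 𝓞 K) : K))| := (Finset.mul_sum _ _ _).symm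
    _ ≤ κ * BU ε := by
        refine mul_le_mul_of_nonneg_left ?_ hκ
        exact Finset.single_le_sum (f := fun w : InfinitePlace K =>
          ∑ i, |Real.log (w ((ε i : 𝓞 K) : K))|)
          (fun _ _ => Finset.sum_nonneg fun _ _ => abs_nonneg _) (Finset.mem_univ w)

/-- the comparison of the logarithms at the place `w` -/
lemma log_diff {r : ℕ} (ε : Fin r → (𝓞 K)ˣ) {x x' : 𝓞 K} (hx0 : x ≠ 0)
    {y y' : Fin r → ℝ} (m : Fin r → ℤ) (w : InfinitePlace K)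
    (hy : Real.log (w (x : K)) -
      Real.log (Ideal.absNorm (Ideal.span {x})) / (Module.finrank ℚ K : ℝ) =
        ∑ i, y i * Real.log (w ((ε i : (𝓞 K)ˣ) : K)))
    (hy' : Real.log (w (x' : K)) -
      Real.log (Ideal.absNorm (Ideal.span {x'})) / (Module.finrank ℚ K : ℝ) =
        ∑ i, y' i * Real.log (w ((ε i : (𝓞 K)ˣ) : K))) :
    Real.log (w ((x * ((∏ i, ε i ^ m i : (𝓞 K)ˣ) : 𝓞 K) : 𝓞 K) : K)) =
      Real.log (w (x' : K)) + ((Real.log (Ideal.absNorm (Ideal.span {x})) -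
        Real.log (Ideal.absNorm (Ideal.span {x'}))) / (Module.finrank ℚ K : ℝ) +
        ∑ i, (y i + m i - y' i) * Real.log (w ((ε i : (𝓞 K)ˣ) : K))) := by
  have hxw : w (x : K) ≠ 0 := (w_pos hx0 w).ne'
  have e : ((x * ((∏ i, ε i ^ m i : (𝓞 K)ˣ) : 𝓞 K) : 𝓞 K) : K) =
      (x : K) * (((∏ i, ε i ^ m i : (𝓞 K)ˣ) : 𝓞 K) : K) := map_mul (algebraMap (𝓞 K) K) _ _
  rw [e, map_mul, Real.log_mul hxw (w_unit_ne _ _), log_prod_unit]
  have h1 : ∑ i, (y i + m i - y' i) * Real.log (w ((ε i : (𝓞 K)ˣ) : K)) =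
      ∑ i, y i * Real.log (w ((ε i : (𝓞 K)ˣ) : K)) +
      ∑ i, (m i : ℝ) * Real.log (w ((ε i : (𝓞 K)ˣ) : K)) -
      ∑ i, y' i * Real.log (w ((ε i : (𝓞 K)ˣ) : K)) := by
    rw [← Finset.sum_add_distrib, ← Finset.sum_sub_distrib]
    exact Finset.sum_congr rfl fun i _ => by ring
  rw [h1, ← hy, ← hy']
  ring

end

/-- SEP -/
theorem t_sep : Pool.Agent.Y767.StSep := by
  intro K _ _ _ r ε hε ρ hρ
  set n : ℝ := (Module.finrank ℚ K : ℝ) with hn
  have hn0 : 0 < n := by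
    rw [hn]; exact_mod_cast Module.finrank_pos (R := ℚ) (M := K)
  set C1 : ℝ := 1 + Real.exp (2 * ρ * BU ε) with hC1
  have hC1a : 1 ≤ C1 := by
    have := Real.exp_pos (2 * ρ * BU ε)
    rw [hC1]; linarith
  refine ⟨C1 ^ Fintype.card (InfinitePlace K), one_le_pow₀ hC1a, ?_⟩
  intro x x' y y' m hx hx' hy hy' hm
  have hx0 := tpos_ne hx
  have hx0' := tpos_ne hx'
  have hN : (0 : ℝ) < Ideal.absNorm (Ideal.span {x}) := by
    have : Ideal.absNorm (Ideal.span {x}) ≠ 0 := by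
      rw [Ne, Ideal.absNorm_eq_zero_iff, Ideal.span_singleton_eq_bot]; exact hx0
    exact_mod_cast Nat.pos_of_ne_zero this
  have hN' : (0 : ℝ) < Ideal.absNorm (Ideal.span {x'}) := by
    have : Ideal.absNorm (Ideal.span {x'}) ≠ 0 := by
      rw [Ne, Ideal.absNorm_eq_zero_iff, Ideal.span_singleton_eq_bot]; exact hx0'
    exact_mod_cast Nat.pos_of_ne_zero this
  set M : ℝ := max (Ideal.absNorm (Ideal.span {x}) : ℝ) (Ideal.absNorm (Ideal.span {x'}) : ℝ)
    with hM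
  have hM0 : 0 < M := lt_max_of_lt_left hN
  have hu := tpos_prod hε m
  rw [norm_prod]
  have hkey : ∀ w : InfinitePlace K,
      w ((x * ((∏ i, ε i ^ m i : (𝓞 K)ˣ) : 𝓞 K) - x' : 𝓞 K) : K) ≤
      C1 * Real.exp (Real.log M / n + (Real.log (w (x' : K)) -
        Real.log (Ideal.absNorm (Ideal.span {x'})) / n)) := by
    intro w
    rw [w_sub (tpos_mul hx hu) hx']
    have hw1 : 0 < w ((x * ((∏ i, ε i ^ m i : (𝓞 K)ˣ) : 𝓞 K) : 𝓞 K) : K) :=
      w_pos (tpos_ne (tpos_mul hx hu)) w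
    have hw2 : 0 < w (x' : K) := w_pos hx0' w
    refine (abs_sub _ _).trans ?_
    rw [abs_of_pos hw1, abs_of_pos hw2]
    have h1 := log_diff ε hx0 m w (hy w) (hy' w)
    have h2 := lin_le ε (fun i => y i + m i - y' i) hm (by positivity) w
    have h3 := le_abs_self (∑ i, (y i + m i - y' i) * Real.log (w ((ε i : (𝓞 K)ˣ) : K)))
    have h4 : Real.log (Ideal.absNorm (Ideal.span {x})) ≤ Real.log M :=
      Real.log_le_log hN (le_max_left _ _)
    have h5 : Real.log (Ideal.absNorm (Ideal.span {x'})) ≤ Real.log M :=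
      Real.log_le_log hN' (le_max_right _ _)
    have h6 : Real.log (Ideal.absNorm (Ideal.span {x})) / n ≤ Real.log M / n :=
      div_le_div_of_nonneg_right h4 hn0.le
    have h7 : Real.log (Ideal.absNorm (Ideal.span {x'})) / n ≤ Real.log M / n :=
      div_le_div_of_nonneg_right h5 hn0.le
    have g1 : w ((x * ((∏ i, ε i ^ m i : (𝓞 K)ˣ) : 𝓞 K) : 𝓞 K) : K) ≤
        Real.exp (2 * ρ * BU ε) * Real.exp (Real.log M / n + (Real.log (w (x' : K)) -
        Real.log (Ideal.absNorm (Ideal.span {x'})) / n)) := by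
      rw [← Real.exp_add, ← Real.log_le_iff_le_exp hw1, h1, sub_div]
      linarith
    have g2 : w (x' : K) ≤ Real.exp (Real.log M / n + (Real.log (w (x' : K)) -
        Real.log (Ideal.absNorm (Ideal.span {x'})) / n)) := by
      rw [← Real.log_le_iff_le_exp hw2]
      linarith
    rw [hC1]
    linarith
  have hprod : ∏ w : InfinitePlace K, w ((x * ((∏ i, ε i ^ m i : (𝓞 K)ˣ) : 𝓞 K) - x' : 𝓞 K) : K) ≤
      ∏ w : InfinitePlace K, (C1 * Real.exp (Real.log M / n + (Real.log (w (x' : K)) -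
        Real.log (Ideal.absNorm (Ideal.span {x'})) / n))) :=
    Finset.prod_le_prod (fun w _ => apply_nonneg w _) fun w _ => hkey w
  refine hprod.trans (le_of_eq ?_)
  rw [Finset.prod_mul_distrib, Finset.prod_const, Finset.card_univ, ← Real.exp_sum]
  congr 1
  rw [Finset.sum_add_distrib, Finset.sum_sub_distrib, sum_log hx0', Finset.sum_const,
    Finset.sum_const, Finset.card_univ, card_places, nsmul_eq_mul, nsmul_eq_mul, ← hn,
    mul_div_cancel₀ _ hn0.ne', mul_div_cancel₀ _ hn0.ne', sub_self, add_zero, Real.exp_log hM0]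

/-- the norm of the difference of two totally positive integers which are close to each other at
all places -/
theorem t_seph (K : Type) [Field K] [NumberField K] [IsTotallyReal K] {r : ℕ}
    (ε : Fin r → (𝓞 K)ˣ) (hε : ∀ i, TPos K ((ε i : (𝓞 K)ˣ) : 𝓞 K)) :
    ∃ C : ℝ, 1 ≤ C ∧ ∀ (κ : ℝ), 0 ≤ κ → κ ≤ 1 →
      ∀ (x x' : 𝓞 K) (y y' : Fin r → ℝ) (m : Fin r → ℤ), TPos K x → TPos K x' →
    (∀ w : InfinitePlace K, Real.log (w (x : K)) -
      Real.log (Ideal.absNorm (Ideal.span {x})) / (Module.finrank ℚ K : ℝ) =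
        ∑ i, y i * Real.log (w ((ε i : (𝓞 K)ˣ) : K))) →
    (∀ w : InfinitePlace K, Real.log (w (x' : K)) -
      Real.log (Ideal.absNorm (Ideal.span {x'})) / (Module.finrank ℚ K : ℝ) =
        ∑ i, y' i * Real.log (w ((ε i : (𝓞 K)ˣ) : K))) →
    (∀ i, |y i + m i - y' i| ≤ κ) →
    |Real.log (Ideal.absNorm (Ideal.span {x})) - Real.log (Ideal.absNorm (Ideal.span {x'}))| ≤ κ →
    (Ideal.absNorm (Ideal.span {x * ((∏ i, ε i ^ m i : (𝓞 K)ˣ) : 𝓞 K) - x'}) : ℝ) ≤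
      (C * κ) ^ Module.finrank ℚ K * (Ideal.absNorm (Ideal.span {x'}) : ℝ) := by
  set n : ℝ := (Module.finrank ℚ K : ℝ) with hn
  have hn1 : 1 ≤ n := by
    rw [hn]; exact_mod_cast Module.finrank_pos (R := ℚ) (M := K)
  have hn0 : 0 < n := by linarith
  have hB := BU_nonneg ε
  set C : ℝ := (1 + BU ε) * Real.exp (1 + BU ε) with hC
  have hC1 : 1 ≤ C := by
    have h1 : 1 ≤ Real.exp (1 + BU ε) := Real.one_le_exp (by linarith)
    rw [hC]
    nlinarith
  refine ⟨C, hC1, ?_⟩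
  intro κ hκ hκ1 x x' y y' m hx hx' hy hy' hm hN
  have hx0 := tpos_ne hx
  have hx0' := tpos_ne hx'
  have hu := tpos_prod hε m
  rw [norm_prod, norm_prod x']
  have hkey : ∀ w : InfinitePlace K,
      w ((x * ((∏ i, ε i ^ m i : (𝓞 K)ˣ) : 𝓞 K) - x' : 𝓞 K) : K) ≤ (C * κ) * w (x' : K) := by
    intro w
    rw [w_sub (tpos_mul hx hu) hx']
    have hw1 : 0 < w ((x * ((∏ i, ε i ^ m i : (𝓞 K)ˣ) : 𝓞 K) : 𝓞 K) : K) :=
      w_pos (tpos_ne (tpos_mul hx hu)) w
    have hw2 : 0 < w (x' : K) := w_pos hx0' w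
    have h1 := log_diff ε hx0 m w (hy w) (hy' w)
    set δ : ℝ := (Real.log (Ideal.absNorm (Ideal.span {x})) -
        Real.log (Ideal.absNorm (Ideal.span {x'}))) / (Module.finrank ℚ K : ℝ) +
        ∑ i, (y i + m i - y' i) * Real.log (w ((ε i : (𝓞 K)ˣ) : K)) with hδ
    have h2 := lin_le ε (fun i => y i + m i - y' i) hm hκ w
    have h3 : |(Real.log (Ideal.absNorm (Ideal.span {x})) -
        Real.log (Ideal.absNorm (Ideal.span {x'}))) / n| ≤ κ := by
      rw [abs_div, abs_of_pos hn0, div_le_iff₀ hn0]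
      calc _ ≤ κ := hN
        _ = κ * 1 := (mul_one _).symm
        _ ≤ κ * n := mul_le_mul_of_nonneg_left hn1 hκ
    have h4 : |δ| ≤ κ * (1 + BU ε) := by
      rw [hδ]
      refine (abs_add_le _ _).trans ?_
      linarith
    have h5 : w ((x * ((∏ i, ε i ^ m i : (𝓞 K)ˣ) : 𝓞 K) : 𝓞 K) : K) = w (x' : K) * Real.exp δ := by
      rw [← Real.exp_log hw1, h1, Real.exp_add, Real.exp_log hw2]
    rw [h5]
    have h6 : w (x' : K) * Real.exp δ - w (x' : K) = w (x' : K) * (Real.exp δ - 1) := by ring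
    rw [h6, abs_mul, abs_of_pos hw2, mul_comm]
    refine mul_le_mul_of_nonneg_right ?_ hw2.le
    have h7 : |Real.exp δ - 1| ≤ |δ| * Real.exp |δ| := by
      have a1 := Real.add_one_le_exp δ
      rcases le_total 0 δ with h | h
      · rw [abs_of_nonneg h, abs_of_nonneg (by linarith)]
        have a2 := Real.add_one_le_exp (-δ)
        have a3 : Real.exp (-δ) * Real.exp δ = 1 := by rw [← Real.exp_add]; simp
        nlinarith [Real.exp_pos δ]
      · have a4 : Real.exp δ ≤ 1 := Real.exp_le_one_iff.mpr h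
        rw [abs_of_nonpos h, abs_of_nonpos (by linarith)]
        have a5 : 1 ≤ Real.exp (-δ) := Real.one_le_exp (by linarith)
        nlinarith
    refine h7.trans ?_
    have h8 : |δ| ≤ 1 + BU ε := by
      refine h4.trans ?_
      nlinarith
    calc |δ| * Real.exp |δ| ≤ (κ * (1 + BU ε)) * Real.exp (1 + BU ε) := by gcongr
      _ = C * κ := by rw [hC]; ring
  have hprod : ∏ w : InfinitePlace K, w ((x * ((∏ i, ε i ^ m i : (𝓞 K)ˣ) : 𝓞 K) - x' : 𝓞 K) : K) ≤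
      ∏ w : InfinitePlace K, ((C * κ) * w (x' : K)) :=
    Finset.prod_le_prod (fun w _ => apply_nonneg w _) fun w _ => hkey w
  refine hprod.trans (le_of_eq ?_)
  rw [Finset.prod_mul_distrib, Finset.prod_const, Finset.card_univ, card_places]

end Pool.Agent.N786
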