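import Pool.Agent.Y767.HC.Good
import Pool.Agent.Y767.WA.GoodH
import Pool.Agent.N786.Sep

/-!
# The analytic input for vertical shifts, with the exact logarithmic conductor (owner helper786;
adapted from `Pool.Agent.Y772.HC.Fen` and `Pool.Agent.Y767.HC.Good`)
-/

set_option autoImplicit false
set_option linter.unusedSectionVars false

open NumberField Complex Filter Topology MeasureTheory
open NumberField.Units
open H370.DL (refl hasDerivAt_refl analyticAt_refl im_osc re_osc eventually_im_ne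
  ne_neg_nat_of_im logDeriv_refl order_refl Gammaℝ_ne_zero_of_im analyticAt_Gammaℝ
  logDeriv_Gammaℝ_bound)
open Pool.Agent.Y767 (GGn FEn StFEn)
open Pool.Agent.Y772.FE (HH sp3_ne)
open Pool.Agent.Y772.HC

namespace Pool.Agent.N786

section

variable {ι : Type} [Fintype ι]

theorem F_grow2 {N P B V : ℝ} (hN : 1 ≤ N) (hP : 1 ≤ P) (hB1 : 1 ≤ B) (hV : 0 ≤ V) {e : ι → ℕ}
    {ν : ι → ℝ} (hν : ∀ i, |ν i| ≤ V) {F : ℂ → ℂ} (hF : FEn (N * P) e ν F)
    (hB : ∀ s : ℂ, 3 / 2 ≤ s.re → ‖F s‖ ≤ B) (s : ℂ) (h1 : (1 / 16 : ℝ) ≤ s.re) (h3 : 1 ≤ s.im) :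
    ‖F s‖ ≤ B * N * (1 + V) ^ Fintype.card ι * 6 ^ Fintype.card ι *
      (P * s.im ^ Fintype.card ι) := by
  set d := Fintype.card ι with hd
  have hV1 : 1 ≤ (1 + V) ^ d := one_le_pow₀ (by linarith)
  have hBN0 : 1 ≤ B * N := by nlinarith
  set BN : ℝ := B * N * (1 + V) ^ d with hBNdef
  have hBN : 1 ≤ BN := by
    rw [hBNdef]
    nlinarith
  have hBBN : B ≤ BN := by
    have h4 : B ≤ B * N := by nlinarith
    have h5 : B * N ≤ BN := le_mul_of_one_le_right (by linarith) hV1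
    linarith
  have hP0 : 0 < P := by linarith
  have hc0 : 0 ≤ BN * 6 ^ d := by positivity
  rcases le_total s.re (3 / 2) with h | h
  · have e1 := HH_bound hN hP hV hν hF hB s (by linarith) h
    rw [← hd, ← hBNdef] at e1
    unfold HH at e1
    rw [norm_mul, norm_mul, norm_inv, norm_pow, Complex.norm_cpow_eq_rpow_re_of_pos hP0] at e1
    have hre : ((s - 3 / 2) / 2).re = (s.re - 3 / 2) / 2 := by
      have : ((s - 3 / 2) / 2).re = (s - 3 / 2).re / 2 := by simp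
      rw [this, Complex.sub_re]; norm_num
    rw [hre] at e1
    have e2 : 0 < ‖s + 3‖ ^ d := by
      have : s + 3 ≠ 0 := sp3_ne (by linarith)
      positivity
    have e3 : ‖s + 3‖ ^ d ≤ (6 * s.im) ^ d := by
      apply pow_le_pow_left₀ (norm_nonneg _)
      refine (norm_le_abs_re_add_abs_im _).trans ?_
      have hre' : (s + 3).re = s.re + 3 := by simp
      have him' : (s + 3).im = s.im := by simp
      rw [hre', him', abs_of_nonneg (by linarith), abs_of_nonneg (by linarith)]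
      linarith
    have e4 : P⁻¹ ≤ P ^ ((s.re - 3 / 2) / 2) := by
      rw [← Real.rpow_neg_one P]
      apply Real.rpow_le_rpow_of_exponent_le hP
      linarith
    have e5 : ‖F s‖ * P⁻¹ * (‖s + 3‖ ^ d)⁻¹ ≤ BN := by
      refine le_trans ?_ e1
      gcongr
    have e6 : ‖F s‖ ≤ BN * (‖s + 3‖ ^ d) * P := by
      have : ‖F s‖ = (‖F s‖ * P⁻¹ * (‖s + 3‖ ^ d)⁻¹) * (‖s + 3‖ ^ d) * P := by
        have e2' := e2.ne'
        generalize ‖s + 3‖ ^ d = M at e2' ⊢
        field_simp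
      rw [this]
      gcongr
    calc ‖F s‖ ≤ BN * (‖s + 3‖ ^ d) * P := e6
      _ ≤ BN * ((6 * s.im) ^ d) * P := by gcongr
      _ = BN * 6 ^ d * (P * s.im ^ d) := by rw [mul_pow]; ring
  · have e1 := hB s h
    have e2 : 1 ≤ P * s.im ^ d := by
      have : 1 ≤ s.im ^ d := one_le_pow₀ h3
      nlinarith
    have e3 : B ≤ BN * 6 ^ d := by
      have h5 : (1 : ℝ) ≤ 6 ^ d := one_le_pow₀ (by norm_num)
      nlinarith
    calc ‖F s‖ ≤ B := e1
      _ ≤ BN * 6 ^ d := e3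
      _ = BN * 6 ^ d * 1 := (mul_one _).symm
      _ ≤ _ := mul_le_mul_of_nonneg_left e2 hc0

theorem F_left2 {C : ℝ} (hC : ∀ z : ℂ, -1 / 2 ≤ z.re → z.re ≤ 6 → 1 ≤ |z.im| →
    ‖logDeriv Gammaℝ z - 1 / 2 * Real.log |z.im|‖ ≤ C) {N P : ℝ} (hN : 1 ≤ N) (hP : 1 ≤ P)
    {e : ι → ℕ} {ν : ι → ℝ} (hν : ∀ i, 0 ≤ ν i) {F : ℂ → ℂ}
    (hF : FEn (N * P) e ν F)
    (s : ℂ) (h1 : -3 / 4 ≤ s.re) (h2 : s.re ≤ 1 / 2) (h3 : 1 ≤ s.im) (h4 : F s ≠ 0) :
    ‖deriv F s / F s + ((Real.log P + ∑ i, Real.log (s.im + ν i) : ℝ) : ℂ) +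
        (starRingEnd ℂ) (deriv F (1 - (starRingEnd ℂ) s) / F (1 - (starRingEnd ℂ) s))‖ ≤
      Real.log N + Fintype.card ι * (C + 1) + Fintype.card ι * (C + 1) := by
  set d := Fintype.card ι with hd
  have hs : s.im ≠ 0 := by linarith
  have hpos : ∀ i, 1 ≤ s.im + ν i := fun i => by linarith [hν i]
  have hGd : Gd ν s := fun i h => by linarith [hpos i]
  have hP0 : (0 : ℝ) < P := by linarith
  have hR : 0 < N * P := by positivity
  obtain ⟨w, hw, hfe⟩ := fe_asym hR hF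
  have hw0 : w ≠ 0 := by
    intro h
    rw [h, norm_zero] at hw
    exact zero_ne_one hw
  have hdiff : Differentiable ℂ F := hF.diff
  have ha : AnalyticAt ℂ F (1 - (starRingEnd ℂ) s) :=
    (hdiff.differentiableOn).analyticAt Filter.univ_mem
  have e1 : F =ᶠ[𝓝 s] fun z => LX w (N * P) e ν z * refl F z := by
    filter_upwards [eventually_Gd hGd] with z hz
    exact hfe z hz
  have hr : refl F s ≠ 0 := by
    intro h
    apply h4
    rw [hfe s hGd, h, mul_zero]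
  have e2 : logDeriv F s = logDeriv (LX w (N * P) e ν) s + logDeriv (refl F) s := by
    rw [(logDeriv_congr_nhds e1).eq_of_nhds]
    exact logDeriv_mul s (LX_ne hw0 hR e hGd) hr (LX_an w hR e hGd).differentiableAt
      (analyticAt_refl ha).differentiableAt
  rw [logDeriv_refl ha.differentiableAt, logDeriv_LX hw0 hR e hGd] at e2
  change ‖logDeriv F s + ((Real.log P + ∑ i, Real.log (s.im + ν i) : ℝ) : ℂ) +
    (starRingEnd ℂ) (logDeriv F (1 - (starRingEnd ℂ) s))‖ ≤ _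
  rw [e2]
  have i1 : ∀ i, |(1 - s).im + -ν i| = s.im + ν i := by
    intro i
    have : (1 - s).im = -s.im := by simp
    rw [this, ← neg_add, abs_neg, abs_of_nonneg (by linarith [hpos i])]
  have i2 : ∀ i, |s.im + ν i| = s.im + ν i := fun i => abs_of_nonneg (by linarith [hpos i])
  have b1 := GGn_est hC hR hF.he (ν := fun i => -ν i) (s := 1 - s) (by simp; linarith)
    (by simp; linarith) (fun i => by rw [i1]; exact hpos i)
  have b2 := GGn_est hC hR hF.he (ν := ν) (s := s) h1 (by linarith)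
    (fun i => by rw [i2]; exact hpos i)
  simp only [i1] at b1
  simp only [i2] at b2
  rw [← hd] at b1 b2
  have hlogR : Real.log (N * P) = Real.log N + Real.log P :=
    Real.log_mul (by linarith) hP0.ne'
  rw [hlogR, ← Finset.mul_sum] at b1 b2
  set D : ℝ := ∑ i, Real.log (s.im + ν i) with hD
  set G1 := logDeriv (GGn (N * P) e fun i => -ν i) (1 - s) with hG1
  set G2 := logDeriv (GGn (N * P) e ν) s with hG2
  have e3 : -G1 - G2 + -(starRingEnd ℂ) (logDeriv F (1 - (starRingEnd ℂ) s)) +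
        ((Real.log P + D : ℝ) : ℂ) +
      (starRingEnd ℂ) (logDeriv F (1 - (starRingEnd ℂ) s)) =
      -((Real.log N : ℝ) : ℂ) -
        (G1 - (((Real.log N + Real.log P) / 2 + 1 / 2 * D : ℝ) : ℂ)) -
      (G2 - (((Real.log N + Real.log P) / 2 + 1 / 2 * D : ℝ) : ℂ)) := by
    push_cast
    ring
  rw [e3]
  refine (norm_sub_le _ _).trans ?_
  have n1 := norm_sub_le (-((Real.log N : ℝ) : ℂ))
    (G1 - (((Real.log N + Real.log P) / 2 + 1 / 2 * D : ℝ) : ℂ))
  rw [norm_neg, Complex.norm_real, Real.norm_of_nonneg (Real.log_nonneg hN)] at n1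
  linarith

end

section

open Pool.Agent.Y773 (TPos LI VM cc sg)
open Pool.Agent.Y767
open Pool.Agent.W354 (LogC)
open Y767.WH

variable (K : Type) [Field K] [NumberField K] [IsTotallyReal K]

/-- the logarithmic conductor at height `t + S`, divided by the degree -/
noncomputable def lcS (𝔪 : Ideal (𝓞 K)) (ν : InfinitePlace K → ℝ) (S t : ℝ) : ℝ :=
  (Real.log (Ideal.absNorm 𝔪) + ∑ w, Real.log (t + (S - ν w))) / (Module.finrank ℚ K : ℝ)

variable {K}

lemma finrank_pos' : (0 : ℝ) < (Module.finrank ℚ K : ℝ) := by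
  have := Module.finrank_pos (R := ℚ) (M := K)
  exact_mod_cast this

lemma lcS_mul (𝔪 : Ideal (𝓞 K)) (ν : InfinitePlace K → ℝ) (S t : ℝ) :
    (Module.finrank ℚ K : ℝ) * lcS K 𝔪 ν S t =
      Real.log (Ideal.absNorm 𝔪) + ∑ w, Real.log (t + (S - ν w)) := by
  unfold lcS
  have := (finrank_pos' (K := K)).ne'
  field_simp

lemma one_le_norm {𝔪 : Ideal (𝓞 K)} (h : 𝔪 ≠ ⊥) : (1 : ℝ) ≤ (Ideal.absNorm 𝔪 : ℝ) := by
  have : Ideal.absNorm 𝔪 ≠ 0 := by
    rwa [Ne, Ideal.absNorm_eq_zero_iff]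
  exact_mod_cast Nat.one_le_iff_ne_zero.mpr this

theorem lcS_logC {𝔪 : Ideal (𝓞 K)} (h𝔪 : 𝔪 ≠ ⊥) {ν : InfinitePlace K → ℝ} {S : ℝ}
    (hν : ∀ w, ν w ≤ S) : LogC (lcS K 𝔪 ν S) := by
  have hn := finrank_pos' (K := K)
  have hN := Real.log_nonneg (one_le_norm h𝔪)
  have hcard : (Fintype.card (InfinitePlace K) : ℝ) = Module.finrank ℚ K := by
    rw [card_places]
  refine ⟨fun x y hx hxy => ?_, fun x hx => ?_, fun x y hx hxy => ?_⟩
  · unfold lcS
    refine div_le_div_of_nonneg_right ?_ hn.le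
    refine add_le_add le_rfl (Finset.sum_le_sum fun w _ => ?_)
    exact Real.log_le_log (by linarith [hν w]) (by linarith)
  · unfold lcS
    rw [le_div_iff₀ hn]
    have h1 : ∑ _w : InfinitePlace K, Real.log x ≤ ∑ w, Real.log (x + (S - ν w)) :=
      Finset.sum_le_sum fun w _ => Real.log_le_log (by linarith) (by linarith [hν w])
    rw [Finset.sum_const, Finset.card_univ, nsmul_eq_mul, hcard] at h1
    linarith
  · unfold lcS
    rw [div_le_iff₀ hn, add_mul, div_mul_cancel₀ _ hn.ne']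
    have h1 : ∑ w : InfinitePlace K, Real.log (y + (S - ν w)) ≤
        ∑ w : InfinitePlace K, (Real.log (x + (S - ν w)) + Real.log (y / x)) := by
      refine Finset.sum_le_sum fun w _ => ?_
      have h2 : 0 ≤ S - ν w := by linarith [hν w]
      have hx0 : 0 < x := by linarith
      rw [← Real.log_mul (by linarith) (div_pos (by linarith) hx0).ne']
      refine Real.log_le_log (by linarith) ?_
      rw [mul_div_assoc', le_div_iff₀ hx0]
      nlinarith
    rw [Finset.sum_add_distrib, Finset.sum_const, Finset.card_univ, nsmul_eq_mul, hcard] at h1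
    linarith

/-- exponential of the conductor -/
lemma lcS_exp {𝔪 : Ideal (𝓞 K)} (h𝔪 : 𝔪 ≠ ⊥) {ν : InfinitePlace K → ℝ} {S : ℝ}
    (hν : ∀ w, |ν w| ≤ S / 2) {t : ℝ} (ht : 1 ≤ t) :
    (Ideal.absNorm 𝔪 : ℝ) * (t + S / 2) ^ Module.finrank ℚ K ≤
      Real.exp ((Module.finrank ℚ K : ℝ) * lcS K 𝔪 ν S t) := by
  have hN := one_le_norm h𝔪
  have hcard : (Fintype.card (InfinitePlace K) : ℝ) = Module.finrank ℚ K := by
    rw [card_places]
  have hS : 0 ≤ S := by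
    have := (abs_nonneg _).trans (hν (Classical.arbitrary _))
    linarith
  rw [lcS_mul, Real.exp_add, Real.exp_log (by linarith)]
  refine mul_le_mul_of_nonneg_left ?_ (by linarith)
  have h1 : (t + S / 2) ^ Module.finrank ℚ K =
      Real.exp ((Module.finrank ℚ K : ℝ) * Real.log (t + S / 2)) := by
    rw [← Real.rpow_natCast, Real.rpow_def_of_pos (by linarith), mul_comm]
  rw [h1]
  refine Real.exp_le_exp.mpr ?_
  have h2 : ∑ _w : InfinitePlace K, Real.log (t + S / 2) ≤ ∑ w, Real.log (t + (S - ν w)) :=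
    Finset.sum_le_sum fun w _ => Real.log_le_log (by linarith)
      (by linarith [(abs_le.mp (hν w)).2])
  rw [Finset.sum_const, Finset.card_univ, nsmul_eq_mul, hcard] at h2
  exact h2

variable (K) in
/-- **The analytic input for the shifted functions** -/
theorem goodS : ∃ A : ℝ, 1 ≤ A ∧ ∀ (𝔪 : Ideal (𝓞 K)), 𝔪 ≠ ⊤ →
    ∀ (ν : InfinitePlace K → ℝ) (ψ : Ideal (𝓞 K) →*₀ ℂ) (S : ℝ), 2 ≤ S → (∀ w, |ν w| ≤ S / 2) →
    ∑ w, ν w = 0 → IsHecke K 𝔪 ν ψ → ∀ F : ℂ → ℂ, Differentiable ℂ F →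
    (∀ s : ℂ, 1 < s.re → F s = LI ψ s) →
    GoodH (Module.finrank ℚ K) A (lcS K 𝔪 ν S) (fun z => F (z + (S : ℂ) * I))
      (fun m => (cc ψ m * (ArithmeticFunction.vonMangoldt m : ℂ)) *
        (m : ℂ) ^ (-((S : ℂ) * I))) := by
  obtain ⟨A₀, hA₀, hD⟩ := Pool.Agent.Y772.DK.t_dirK K
  obtain ⟨C, hC0, hC⟩ := logDeriv_Gammaℝ_bound
  obtain ⟨Nd, hNd⟩ : ∃ Nd : ℝ, Nd = (Ideal.absNorm (differentIdeal ℤ (𝓞 K)) : ℝ) := ⟨_, rfl⟩
  have hdN : 1 ≤ Nd := by
    rw [hNd]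
    exact one_le_norm differentIdeal_ne_bot
  obtain ⟨n, hn⟩ : ∃ n : ℕ, n = Module.finrank ℚ K := ⟨_, rfl⟩
  obtain ⟨A₁, hA₁⟩ : ∃ A₁ : ℝ, A₁ = A₀ * Nd * 12 ^ n + 2 * n := ⟨_, rfl⟩
  obtain ⟨A₂, hA₂⟩ : ∃ A₂ : ℝ, A₂ = Real.log Nd + n * (C + 1) + n * (C + 1) := ⟨_, rfl⟩
  have hA₁0 : 0 < A₁ := by rw [hA₁]; positivity
  refine ⟨max A₀ (max A₁ A₂), le_max_of_le_left hA₀, fun 𝔪 htop ν ψ S hS hν hs h F hF hFL => ?_⟩
  have h𝔪1 : (1 : ℝ) ≤ (Ideal.absNorm 𝔪 : ℝ) := one_le_norm h.ne_bot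
  have hcard : Fintype.card (InfinitePlace K) = n := by rw [card_places, hn]
  obtain ⟨e₀, he₀, hM⟩ := h.toIsHM.isModK hs htop
  have hψ1 : ∀ 𝔞, ‖ψ 𝔞‖ ≤ 1 := hM.norm_le_one
  obtain ⟨d1, d2, d3, d4, d5, d6, d7, -, d8, d9, -⟩ := hD ψ hψ1
  obtain ⟨e, G, hG, hGL⟩ := h.fe hs htop
  have hFG : F = G := eq_of_LI hF hG.diff (fun s hs => by rw [hFL s hs, hGL s hs])
  rw [← hFG] at hG
  have hR : (0 : ℝ) < ((Ideal.absNorm 𝔪 * Ideal.absNorm (differentIdeal ℤ (𝓞 K)) : ℕ) : ℝ) := by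
    push_cast
    rw [← hNd]
    nlinarith
  have hsh := hG.shift hR S
  have hRe : ((Ideal.absNorm 𝔪 * Ideal.absNorm (differentIdeal ℤ (𝓞 K)) : ℕ) : ℝ) =
      Nd * (Ideal.absNorm 𝔪 : ℝ) := by
    rw [hNd]; push_cast; ring
  rw [hRe] at hsh
  have hre : ∀ s : ℂ, (s + (S : ℂ) * I).re = s.re := fun s => by simp
  have him : ∀ s : ℂ, (s + (S : ℂ) * I).im = s.im + S := fun s => by simp
  have hν0 : ∀ w, 0 ≤ (fun w => -ν w + S) w := fun w => by
    have := abs_le.mp (hν w)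
    simp only
    linarith
  have hνV : ∀ w, |(fun w => -ν w + S) w| ≤ 3 / 2 * S := fun w => by
    have h1 := hν0 w
    rw [abs_of_nonneg h1]
    have := abs_le.mp (hν w)
    simp only
    linarith
  have hnz : ∀ s : ℂ, 1 ≤ s.re → 1 ≤ s.im → F (s + (S : ℂ) * I) ≠ 0 := by
    intro s h1 h2
    rcases lt_or_eq_of_le h1 with h3 | h3
    · rw [hFL _ (by rw [hre]; exact h3)]
      exact d3 _ (by rw [hre]; exact h3)
    · have h4 : s + (S : ℂ) * I = 1 + I * ((s.im + S : ℝ) : ℂ) := by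
        apply Complex.ext
        · simp [← h3]
        · simp
      rw [h4]
      exact nonvanish he₀ hs hM hF hFL (by linarith)
  have hFB : ∀ s : ℂ, 3 / 2 ≤ s.re → ‖F (s + (S : ℂ) * I)‖ ≤ A₀ := fun s h1 => by
    rw [hFL _ (by rw [hre]; linarith)]
    exact d5 _ (by rw [hre]; exact h1)
  -- qualitative statements
  obtain ⟨A₃, hA₃, hfe⟩ := Pool.Agent.Y772.HC.t_fen (InfinitePlace K) Nd hdN A₀ hA₀ (3 / 2 * S)
    (by positivity)
  have hQn : ((Ideal.absNorm 𝔪 : ℝ) ^ (1 / (n : ℝ))) ^ Fintype.card (InfinitePlace K) =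
      (Ideal.absNorm 𝔪 : ℝ) := by
    have hn0 : (n : ℝ) ≠ 0 := by
      rw [hn]; exact finrank_pos'.ne'
    rw [hcard, ← Real.rpow_natCast, ← Real.rpow_mul (by linarith), one_div_mul_cancel hn0,
      Real.rpow_one]
  obtain ⟨-, f2, f3, -⟩ := hfe ((Ideal.absNorm 𝔪 : ℝ) ^ (1 / (n : ℝ)))
    (Real.one_le_rpow h𝔪1 (by positivity)) e (fun w => -ν w + S) (fun z => F (z + S * I))
    (fun w => ⟨hν0 w, (le_abs_self _).trans (hνV w)⟩) (by rw [hQn]; exact hsh) hFB hnz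
  have hnorm : ∀ m : ℕ, 0 < m → ‖(m : ℂ) ^ (-((S : ℂ) * I))‖ = 1 := fun m hm => by
    rw [Complex.norm_natCast_cpow_of_pos hm]
    simp
  have hle : ∀ m : ℕ, ‖(cc ψ m * (ArithmeticFunction.vonMangoldt m : ℂ)) *
      (m : ℂ) ^ (-((S : ℂ) * I))‖ * (m : ℝ) ^ (-(7 / 4) : ℝ) ≤
      ArithmeticFunction.vonMangoldt m * ‖cc ψ m‖ * (m : ℝ) ^ (-(3 / 2) : ℝ) := by
    intro m
    rcases Nat.eq_zero_or_pos m with rfl | hm
    · simp
    rw [norm_mul, hnorm m hm, mul_one, norm_mul, Complex.norm_real,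
      Real.norm_of_nonneg ArithmeticFunction.vonMangoldt_nonneg, mul_comm ‖cc ψ m‖]
    refine mul_le_mul_of_nonneg_left ?_
      (mul_nonneg ArithmeticFunction.vonMangoldt_nonneg (norm_nonneg _))
    exact Real.rpow_le_rpow_of_exponent_le (by exact_mod_cast hm) (by norm_num)
  refine ⟨?_, ?_, ?_, ?_, ?_, ?_, ?_, ?_, ?_, ?_, ?_⟩
  · intro s _
    exact (hF.comp (by fun_prop : Differentiable ℂ (fun z : ℂ => z + (S : ℂ) * I))).analyticAt s
  · -- growth
    intro s h1 h2 h3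
    have g1 := F_grow2 hdN h𝔪1 hA₀ (by positivity : (0 : ℝ) ≤ 3 / 2 * S) hνV hsh hFB s h1 h3
    rw [hcard] at g1
    have g2 := lcS_exp h.ne_bot hν h3
    rw [← hn] at g2
    obtain ⟨E, hE⟩ : ∃ E : ℝ, E = Real.exp ((n : ℝ) * lcS K 𝔪 ν S s.im) := ⟨_, rfl⟩
    rw [← hE] at g2
    obtain ⟨t, ht⟩ : ∃ t : ℝ, t = s.im := ⟨_, rfl⟩
    rw [← ht] at g1 g2 h3 ⊢
    have hE0 : 0 < E := by rw [hE]; exact Real.exp_pos _
    have hpw : 0 ≤ (t + S / 2) ^ n := by positivity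
    have g3 : (t + S / 2) ^ n ≤ E :=
      le_trans (le_mul_of_one_le_left hpw h𝔪1) g2
    have g4 : (1 + 3 / 2 * S) ^ n * 6 ^ n * ((Ideal.absNorm 𝔪 : ℝ) * t ^ n) ≤ 12 ^ n * (E * E) := by
      have k1 : (1 + 3 / 2 * S) ^ n ≤ (2 * S) ^ n :=
        pow_le_pow_left₀ (by positivity) (by linarith) n
      have k2 : (S * t) ^ n ≤ ((t + S / 2) * (t + S / 2)) ^ n := by
        refine pow_le_pow_left₀ (by positivity) ?_ n
        nlinarith [sq_nonneg (t - S / 2)]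
      calc (1 + 3 / 2 * S) ^ n * 6 ^ n * ((Ideal.absNorm 𝔪 : ℝ) * t ^ n) ≤
          (2 * S) ^ n * 6 ^ n * ((Ideal.absNorm 𝔪 : ℝ) * t ^ n) := by gcongr
        _ = 12 ^ n * ((Ideal.absNorm 𝔪 : ℝ) * (S * t) ^ n) := by
            rw [mul_pow 2 S, mul_pow S t, show (12 : ℝ) = 2 * 6 by norm_num, mul_pow]
            ring
        _ ≤ 12 ^ n * ((Ideal.absNorm 𝔪 : ℝ) * ((t + S / 2) * (t + S / 2)) ^ n) := by gcongr
        _ = 12 ^ n * (((Ideal.absNorm 𝔪 : ℝ) * (t + S / 2) ^ n) * (t + S / 2) ^ n) := by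
            rw [mul_pow (t + S / 2)]; ring
        _ ≤ 12 ^ n * (E * E) := by gcongr
    have g5 : ‖F (s + (S : ℂ) * I)‖ ≤ A₀ * Nd * 12 ^ n * (E * E) := by
      refine g1.trans ?_
      calc A₀ * Nd * (1 + 3 / 2 * S) ^ n * 6 ^ n * ((Ideal.absNorm 𝔪 : ℝ) * t ^ n) =
          A₀ * Nd * ((1 + 3 / 2 * S) ^ n * 6 ^ n * ((Ideal.absNorm 𝔪 : ℝ) * t ^ n)) := by ring
        _ ≤ A₀ * Nd * (12 ^ n * (E * E)) := mul_le_mul_of_nonneg_left g4 (by positivity)
        _ = _ := by ring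
    refine g5.trans ?_
    have hLC := lcS_logC (K := K) h.ne_bot (ν := ν) (S := S) (fun w => by
      have := (abs_le.mp (hν w)).2
      linarith)
    have hl0 : 0 ≤ lcS K 𝔪 ν S t := hLC.nonneg h3
    have g6 : E * E = Real.exp (2 * n * lcS K 𝔪 ν S t) := by
      rw [hE, ← Real.exp_add, ht]
      congr 1
      ring
    rw [g6]
    have hAm : A₁ ≤ max A₀ (max A₁ A₂) := le_max_of_le_right (le_max_left _ _)
    have hB1 : 0 ≤ A₀ * Nd * 12 ^ n := by positivity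
    have g7 : A₀ * Nd * 12 ^ n ≤ max A₀ (max A₁ A₂) := by
      refine le_trans ?_ hAm
      rw [hA₁]
      have : (0 : ℝ) ≤ 2 * n := by positivity
      linarith
    have g8 : 2 * (n : ℝ) ≤ max A₀ (max A₁ A₂) := by
      refine le_trans ?_ hAm
      rw [hA₁]
      linarith
    exact mul_le_mul g7 (Real.exp_le_exp.mpr (mul_le_mul_of_nonneg_right g8 hl0))
      (Real.exp_pos _).le (hB1.trans g7)
  · intro t _
    have h1 : (1 : ℝ) < ((⟨2, t⟩ : ℂ) + (S : ℂ) * I).re := by rw [hre]; norm_num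
    rw [hFL _ h1]
    refine le_trans ?_ (d6 _ (by rw [hre]))
    exact inv_anti₀ (by linarith) (le_max_left _ _)
  · exact hnz
  · exact f2
  · exact f3
  · intro m hm
    have : ArithmeticFunction.vonMangoldt m = 0 := by
      interval_cases m <;> simp
    rw [this]; simp
  · refine Summable.of_nonneg_of_le (fun m => by positivity) hle d8
  · refine (Summable.tsum_le_tsum hle (Summable.of_nonneg_of_le (fun m => by positivity) hle d8)
      d8).trans (d9.trans (le_max_left _ _))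
  · intro s h1 h2
    have h3 : (1 : ℝ) < (s + (S : ℂ) * I).re := by rw [hre]; exact h1
    have h4 : deriv (fun z => F (z + (S : ℂ) * I)) s = deriv F (s + (S : ℂ) * I) :=
      deriv_comp_add_const _ _ _
    have h5 : deriv F (s + (S : ℂ) * I) = deriv (LI ψ) (s + (S : ℂ) * I) := by
      refine Filter.EventuallyEq.deriv_eq ?_
      have h6 : {z : ℂ | 1 < z.re} ∈ 𝓝 (s + (S : ℂ) * I) :=
        (isOpen_lt continuous_const Complex.continuous_re).mem_nhds h3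
      filter_upwards [h6] with z hz
      exact hFL z hz
    rw [h4, h5, hFL _ h3, d4 _ h3]
    congr 1
    refine tsum_congr fun m => ?_
    rcases Nat.eq_zero_or_pos m with rfl | hm
    · simp
    rw [mul_assoc (cc ψ m * _), ← Complex.cpow_add _ _ (by exact_mod_cast hm.ne')]
    congr 2
    ring
  · intro s h1 h2 h3 h4
    have g1 := F_left2 hC hdN h𝔪1 hν0 hsh s h1 h2 h3 h4
    rw [hcard, ← hA₂] at g1
    refine le_trans (le_of_eq ?_) (g1.trans (le_max_of_le_right (le_max_right _ _)))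
    have g2 : (n : ℝ) * lcS K 𝔪 ν S s.im =
        Real.log (Ideal.absNorm 𝔪) + ∑ w, Real.log (s.im + (-ν w + S)) := by
      rw [hn, lcS_mul]
      congr 1
      refine Finset.sum_congr rfl fun w _ => ?_
      congr 1
      ring
    rw [← hn, g2]

end

end Pool.Agent.N786
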