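import Pool.Agent.N786.Lsi

/-!
# Products of primitive characters of coprime conductors (owner helper786)
-/

set_option autoImplicit false
set_option linter.unusedSectionVars false

open NumberField NumberField.Units MeasureTheory Complex Filter Topology Set

namespace Pool.Agent.N786

open Pool.Agent.Y773 (TPos rl VM cc)
open Pool.Agent.Y767

section

variable {K : Type} [Field K] [NumberField K] [IsTotallyReal K]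

lemma ax_add (ν ν' : InfinitePlace K → ℝ) (x : K) : ax (ν + ν') x = ax ν x * ax ν' x := by
  unfold ax
  rw [← Complex.exp_add]
  congr 1
  rw [← mul_add, ← Complex.ofReal_add, ← Finset.sum_add_distrib]
  congr 2
  refine Finset.sum_congr rfl fun w _ => ?_
  simp only [Pi.add_apply]
  ring

lemma pr_comm (ψ lam : Ideal (𝓞 K) →*₀ ℂ) : pr ψ lam = pr lam ψ := by
  ext 𝔞
  rw [pr_apply, pr_apply, mul_comm]

lemma pr_half {𝔣 𝔮 : Ideal (𝓞 K)} (hc : IsCoprime 𝔣 𝔮) (h0 : 𝔣 * 𝔮 ≠ ⊥)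
    {ν₀ ν : InfinitePlace K → ℝ} {ψ lam : Ideal (𝓞 K) →*₀ ℂ} (hψ : IsHecke K 𝔣 ν₀ ψ)
    (hl : IsHM K 𝔮 ν lam) {𝔤 𝔥' 𝔭 : Ideal (𝓞 K)} (hp : 𝔭.IsPrime) (hg : 𝔣 * 𝔮 = 𝔤 * (𝔭 * 𝔥'))
    (hpf : 𝔭 ∣ 𝔣) : ∃ x : 𝓞 K, x - 1 ∈ 𝔤 ∧ TPos K x ∧ IsCoprime (Ideal.span {x}) (𝔣 * 𝔮) ∧
      pr ψ lam (Ideal.span {x}) ≠ ax (ν₀ + ν) (x : K) := by
  obtain ⟨𝔣', hf'⟩ := hpf
  have hp0 : 𝔭 ≠ 0 := by
    rintro rfl
    exact h0 (by rw [hf', zero_mul, zero_mul]; rfl)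
  have hf0 : 𝔣' ≠ 0 := by
    rintro rfl
    exact h0 (by rw [hf', mul_zero, zero_mul]; rfl)
  have hne : 𝔣' ≠ 𝔣 := by
    intro h
    have h1 : 𝔭 * 𝔣' = 1 * 𝔣' := by rw [← hf', one_mul, h]
    exact hp.ne_top (by rw [mul_right_cancel₀ hf0 h1, Ideal.one_eq_top])
  have hfg : 𝔣' * 𝔮 = 𝔤 * 𝔥' := by
    apply mul_left_cancel₀ hp0
    rw [← mul_assoc, ← hf', hg]
    ring
  have hc' : IsCoprime 𝔣' 𝔮 := by
    rw [hf'] at hc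
    exact hc.of_mul_left_right
  obtain ⟨x₀, a1, a2, a3, a4⟩ := hψ.prim 𝔣' ⟨𝔭, by rw [hf', mul_comm]⟩ hne
  obtain ⟨x, hx1, hx2⟩ := crt hc h0 a3 (cop_one 𝔮)
  obtain ⟨χ, hχ⟩ := exists_chi' hψ.toIsHM
  have hxf : IsCoprime (Ideal.span {(x : 𝓞 K)}) 𝔣 := (Tq_cop x).of_mul_right_left
  have e1 := hχ ⟨(x : 𝓞 K), Tq_tp x, hxf⟩
  have e2 := hχ ⟨x₀, a2, a3⟩
  have e3 : gq 𝔣 ⟨(x : 𝓞 K), Tq_tp x, hxf⟩ = gq 𝔣 ⟨x₀, a2, a3⟩ := by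
    rw [gq_eq_iff]
    exact hx1
  rw [e3] at e1
  have e1' : ψ (Ideal.span {(x : 𝓞 K)}) =
      ((χ (gq 𝔣 ⟨x₀, a2, a3⟩) : ℂˣ) : ℂ) * ax ν₀ ((x : 𝓞 K) : K) := e1
  have e2' : ψ (Ideal.span {x₀}) =
      ((χ (gq 𝔣 ⟨x₀, a2, a3⟩) : ℂˣ) : ℂ) * ax ν₀ (x₀ : K) := e2
  refine ⟨x, ?_, Tq_tp x, Tq_cop x, ?_⟩
  · have h1 : (x : 𝓞 K) - 1 ∈ 𝔣' := by
      have h2 : (x : 𝓞 K) - 1 = ((x : 𝓞 K) - x₀) + (x₀ - 1) := by ring
      rw [h2]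
      refine 𝔣'.add_mem ?_ a1
      have h3 : 𝔣 ≤ 𝔣' := Ideal.dvd_iff_le.mp ⟨𝔭, by rw [hf', mul_comm]⟩
      exact h3 hx1
    have h2 : (x : 𝓞 K) - 1 ∈ 𝔣' * 𝔮 := by
      rw [← Ideal.inf_eq_mul_of_isCoprime hc']
      exact ⟨h1, hx2⟩
    rw [hfg] at h2
    exact Ideal.mul_le_left h2
  · intro h1
    rw [pr_apply, hl.ray _ hx2 (Tq_tp x), ax_add, e1'] at h1
    have h2 : ((χ (gq 𝔣 ⟨x₀, a2, a3⟩) : ℂˣ) : ℂ) = 1 := by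
      have h3 : ((χ (gq 𝔣 ⟨x₀, a2, a3⟩) : ℂˣ) : ℂ) *
          (ax ν₀ ((x : 𝓞 K) : K) * ax ν ((x : 𝓞 K) : K)) =
          1 * (ax ν₀ ((x : 𝓞 K) : K) * ax ν ((x : 𝓞 K) : K)) := by
        rw [← mul_assoc, h1, one_mul]
      exact mul_right_cancel₀ (mul_ne_zero (ax_ne_zero _ _) (ax_ne_zero _ _)) h3
    rw [h2, one_mul] at e2'
    exact a4 e2'

/-- the product of primitive characters of coprime conductors is primitive -/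
theorem pr_isHecke {𝔣 𝔮 : Ideal (𝓞 K)} (hc : IsCoprime 𝔣 𝔮) {ν₀ ν : InfinitePlace K → ℝ}
    {ψ lam : Ideal (𝓞 K) →*₀ ℂ} (hψ : IsHecke K 𝔣 ν₀ ψ) (hl : IsHecke K 𝔮 ν lam) :
    IsHecke K (𝔣 * 𝔮) (ν₀ + ν) (pr ψ lam) := by
  have h0 : 𝔣 * 𝔮 ≠ ⊥ := mul_ne_zero hψ.ne_bot hl.ne_bot
  refine ⟨⟨h0, ?_, ?_⟩, ?_⟩
  · intro 𝔞 h𝔞
    rw [pr_apply, mul_ne_zero_iff, hψ.supp 𝔞 h𝔞, hl.supp 𝔞 h𝔞, IsCoprime.mul_right_iff]
  · intro x hx hx1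
    rw [pr_apply, hψ.ray x (Ideal.mul_le_left hx) hx1, hl.ray x (Ideal.mul_le_right hx) hx1,
      ax_add]
  · intro 𝔤 hg hne
    obtain ⟨𝔥, hgh⟩ := hg
    have h𝔥 : 𝔥 ≠ ⊤ := by
      rintro rfl
      exact hne (by rw [hgh, ← Ideal.one_eq_top, mul_one])
    obtain ⟨𝔭, hmax, hle⟩ := Ideal.exists_le_maximal 𝔥 h𝔥
    obtain ⟨𝔥', hh'⟩ := Ideal.dvd_iff_le.mpr hle
    have hg' : 𝔣 * 𝔮 = 𝔤 * (𝔭 * 𝔥') := by rw [hgh, hh']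
    have hp0 : 𝔭 ≠ ⊥ := by
      rintro h
      have h0' : (⊥ : Ideal (𝓞 K)) = 0 := rfl
      exact h0 (by rw [hg', h, h0', zero_mul, mul_zero])
    have hprime : Prime 𝔭 := Ideal.prime_of_isPrime hp0 hmax.isPrime
    have hdvd : 𝔭 ∣ 𝔣 * 𝔮 := by
      rw [hg']
      exact Dvd.intro (𝔤 * 𝔥') (by ring)
    rcases hprime.dvd_or_dvd hdvd with h | h
    · exact pr_half hc h0 hψ hl.toIsHM hmax.isPrime hg' h
    · obtain ⟨x, b1, b2, b3, b4⟩ := pr_half hc.symm (by rwa [mul_comm]) hl hψ.toIsHM hmax.isPrime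
        (by rw [mul_comm, hg']) h
      refine ⟨x, b1, b2, by rwa [mul_comm], ?_⟩
      rw [pr_comm, add_comm]
      exact b4

end

/-! ### shift of the large sieve -/

open ArithmeticFunction (vonMangoldt)

lemma LSW_shift {ι : Type} {s : Finset ι} {a : ι → ℕ → ℂ} {c : ℕ → ℂ} {M : ℕ} {w W : ℝ}
    (h : LSW s a c M w W) (S : ℝ) :
    LSW s (fun i m => a i m * (m : ℂ) ^ (-((S : ℂ) * I))) c M w W := by
  intro b t₁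
  refine le_trans (le_of_eq ?_) (h b (t₁ + S))
  refine Finset.sum_congr rfl fun i _ => ?_
  have h1 : ∫ t in (t₁ + S)..(t₁ + S + w), ‖∑ m ∈ Finset.Icc 1 M,
      b m * a i m * cexp (-(((t * Real.log m : ℝ) : ℂ) * I))‖ ^ 2 =
      ∫ t in t₁..(t₁ + w), ‖∑ m ∈ Finset.Icc 1 M,
      b m * a i m * cexp (-((((t + S) * Real.log m : ℝ) : ℂ) * I))‖ ^ 2 := by
    rw [intervalIntegral.integral_comp_add_right (fun t => ‖∑ m ∈ Finset.Icc 1 M,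
      b m * a i m * cexp (-(((t * Real.log m : ℝ) : ℂ) * I))‖ ^ 2)]
    congr 1
    ring
  rw [h1]
  refine intervalIntegral.integral_congr fun t _ => ?_
  simp only
  congr 2
  refine Finset.sum_congr rfl fun m hm => ?_
  have hm0 : (m : ℂ) ≠ 0 := by
    have := (Finset.mem_Icc.mp hm).1
    exact_mod_cast (show m ≠ 0 by omega)
  have h2 : (m : ℂ) ^ (-((S : ℂ) * I)) = cexp (-(((S * Real.log m : ℝ) : ℂ) * I)) := by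
    rw [Complex.cpow_def_of_ne_zero hm0, ← Complex.natCast_log]
    congr 1
    push_cast
    ring
  rw [h2]
  have h3 : cexp (-((((t + S) * Real.log m : ℝ) : ℂ) * I)) =
      cexp (-(((S * Real.log m : ℝ) : ℂ) * I)) * cexp (-(((t * Real.log m : ℝ) : ℂ) * I)) := by
    rw [← Complex.exp_add]
    congr 1
    push_cast
    ring
  rw [h3]
  ring

end Pool.Agent.N786
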