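import Pool.Agent.N786.Cnt3

/-!
# The characters with two equal components of the infinity type are rare (owner helper786)
-/

set_option autoImplicit false
set_option linter.unusedSectionVars false

open NumberField NumberField.Units Complex MeasureTheory

namespace Pool.Agent.N786

open Pool.Agent.Y773 (TPos rl)
open Pool.Agent.Y767

/-- lattice points on a hyperplane -/
theorem hyper_count {r : ℕ} {p : (Fin r → ℝ) → ℝ} (hp : NormP p) (l : (Fin r → ℝ) →ₗ[ℝ] ℝ)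
    (hl : l ≠ 0) : ∃ C : ℝ, 0 < C ∧ 1 ≤ r ∧ ∀ (θ₀ : Fin r → ℝ) (c₀ V : ℝ), 0 ≤ V →
    {m : Fin r → ℤ | p (fun i => θ₀ i + m i) ≤ V ∧ l (fun i => θ₀ i + m i) = c₀}.Finite ∧
    (Nat.card {m : Fin r → ℤ | p (fun i => θ₀ i + m i) ≤ V ∧ l (fun i => θ₀ i + m i) = c₀} : ℝ) ≤
      (C * V + 1) ^ (r - 1) := by
  classical
  obtain ⟨m₀, hm₀, hlow⟩ := hp.exists_low
  obtain ⟨i, hi⟩ : ∃ i : Fin r, l (Pi.single i 1) ≠ 0 := by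
    by_contra h
    push Not at h
    exact hl (LinearMap.pi_ext' fun i => by
      ext
      simpa using h i)
  have hr : 1 ≤ r := by
    have := i.2
    omega
  refine ⟨2 / m₀, by positivity, hr, fun θ₀ c₀ V hV => ?_⟩
  have hfin := (hp.finite θ₀ V).subset (fun m (hm : m ∈ {m : Fin r → ℤ |
    p (fun i => θ₀ i + m i) ≤ V ∧ l (fun i => θ₀ i + m i) = c₀}) => hm.1)
  refine ⟨hfin, ?_⟩
  -- the box
  obtain ⟨box, hbox⟩ : ∃ box : Finset ({j : Fin r // j ≠ i} → ℤ), box =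
    Fintype.piFinset (fun j : {j : Fin r // j ≠ i} =>
      Finset.Icc (⌈-(V / m₀) - θ₀ j⌉) (⌊V / m₀ - θ₀ j⌋)) := ⟨_, rfl⟩
  have hmap : ∀ m ∈ {m : Fin r → ℤ | p (fun i => θ₀ i + m i) ≤ V ∧
      l (fun i => θ₀ i + m i) = c₀}, (fun j : {j : Fin r // j ≠ i} => m j) ∈ box := by
    rintro m ⟨h1, -⟩
    rw [hbox, Fintype.mem_piFinset]
    intro j
    have h2 : ‖(fun i => θ₀ i + m i : Fin r → ℝ)‖ ≤ V / m₀ := by
      rw [le_div_iff₀ hm₀, mul_comm]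
      exact (hlow _).trans h1
    have h3 := (norm_le_pi_norm (fun i => θ₀ i + (m i : ℝ) : Fin r → ℝ) (j : Fin r)).trans h2
    rw [Real.norm_eq_abs, abs_le] at h3
    rw [Finset.mem_Icc, Int.ceil_le, Int.le_floor]
    constructor <;> linarith [h3.1, h3.2]
  have hinj : Set.InjOn (fun (m : Fin r → ℤ) (j : {j : Fin r // j ≠ i}) => m j)
      {m : Fin r → ℤ | p (fun i => θ₀ i + m i) ≤ V ∧ l (fun i => θ₀ i + m i) = c₀} := by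
    rintro m ⟨-, h1⟩ m' ⟨-, h2⟩ h3
    have h4 : ∀ j, j ≠ i → m j = m' j := fun j hj => congrFun h3 ⟨j, hj⟩
    have h5 : (fun j => θ₀ j + (m j : ℝ)) - (fun j => θ₀ j + (m' j : ℝ)) =
        ((m i : ℝ) - m' i) • (Pi.single i (1 : ℝ) : Fin r → ℝ) := by
      funext j
      by_cases hj : j = i
      · subst hj
        simp
      · simp [Pi.single_apply, hj, h4 j hj]
    have h6 : l ((fun j => θ₀ j + (m j : ℝ)) - (fun j => θ₀ j + (m' j : ℝ))) = 0 := by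
      rw [map_sub, h1, h2, sub_self]
    rw [h5, map_smul, smul_eq_mul] at h6
    have h7 : (m i : ℝ) - m' i = 0 := (mul_eq_zero.mp h6).resolve_right hi
    have h8 : m i = m' i := by
      have : (m i : ℝ) = m' i := by linarith
      exact_mod_cast this
    funext j
    by_cases hj : j = i
    · rw [hj, h8]
    · exact h4 j hj
  have h1 : Nat.card {m : Fin r → ℤ | p (fun i => θ₀ i + m i) ≤ V ∧
      l (fun i => θ₀ i + m i) = c₀} ≤ box.card := by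
    rw [Nat.card_coe_set_eq, ← Set.ncard_coe_finset]
    exact Set.ncard_le_ncard_of_injOn _ hmap hinj (Finset.finite_toSet _)
  have h2 : (box.card : ℝ) ≤ (2 / m₀ * V + 1) ^ (r - 1) := by
    rw [hbox, Fintype.card_piFinset]
    push_cast
    have h3 : ∀ j ∈ (Finset.univ : Finset {j : Fin r // j ≠ i}),
        ((Finset.Icc (⌈-(V / m₀) - θ₀ j⌉) (⌊V / m₀ - θ₀ j⌋)).card : ℝ) ≤ 2 / m₀ * V + 1 := by
      intro j _
      rw [Int.card_Icc]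
      have h4 : (⌊V / m₀ - θ₀ j⌋ : ℝ) ≤ V / m₀ - θ₀ j := Int.floor_le _
      have h5 : -(V / m₀) - θ₀ j ≤ (⌈-(V / m₀) - θ₀ j⌉ : ℝ) := Int.le_ceil _
      have h6 : 2 / m₀ * V = 2 * (V / m₀) := by ring
      have h7 : 0 ≤ V / m₀ := by positivity
      rcases le_total 0 (⌊V / m₀ - θ₀ j⌋ + 1 - ⌈-(V / m₀) - θ₀ j⌉) with h8 | h8
      · have h9 : (((⌊V / m₀ - θ₀ j⌋ + 1 - ⌈-(V / m₀) - θ₀ j⌉).toNat : ℕ) : ℝ) =
            ⌊V / m₀ - θ₀ j⌋ + 1 - ⌈-(V / m₀) - θ₀ j⌉ := by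
          have h10 := Int.toNat_of_nonneg h8
          have h11 : (((⌊V / m₀ - θ₀ j⌋ + 1 - ⌈-(V / m₀) - θ₀ j⌉).toNat : ℤ) : ℝ) =
            ((⌊V / m₀ - θ₀ j⌋ + 1 - ⌈-(V / m₀) - θ₀ j⌉ : ℤ) : ℝ) := by rw [h10]
          push_cast at h11
          rw [← h11]
        rw [h9]
        linarith
      · rw [Int.toNat_of_nonpos h8]
        push_cast
        linarith
    refine (Finset.prod_le_prod (fun _ _ => Nat.cast_nonneg _) h3).trans (le_of_eq ?_)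
    rw [Finset.prod_const, Finset.card_univ]
    congr 1
    rw [Fintype.card_subtype_compl, Fintype.card_fin]
    simp
  exact le_trans (by exact_mod_cast h1) h2

section

variable {K : Type} [Field K] [NumberField K] [IsTotallyReal K]

/-- the difference of two components of the infinity type -/
noncomputable def lf (U : UD K) (w w' : InfinitePlace K) : (Fin (rank K) → ℝ) →ₗ[ℝ] ℝ :=
  ((LinearMap.proj w : (InfinitePlace K → ℝ) →ₗ[ℝ] ℝ) - LinearMap.proj w') ∘ₗ U.NU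

lemma lf_apply (U : UD K) (w w' : InfinitePlace K) (θ : Fin (rank K) → ℝ) :
    lf U w w' θ = U.NU θ w - U.NU θ w' := rfl

lemma lf_ne (U : UD K) {w w' : InfinitePlace K} (h : w ≠ w') : lf U w w' ≠ 0 := by
  classical
  intro h0
  have h1 : ∑ v, (Pi.single w (1 : ℝ) - Pi.single w' (1 : ℝ) : InfinitePlace K → ℝ) v = 0 := by
    simp only [Pi.sub_apply]
    rw [Finset.sum_sub_distrib]
    simp
  have h2 := U.NUi _ h1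
  have h3 := congrArg (fun f => f (fun i => (∑ v, (Pi.single w (1 : ℝ) -
    Pi.single w' (1 : ℝ) : InfinitePlace K → ℝ) v * Real.log (v ((U.ε i : (𝓞 K)ˣ) : K))) /
      (2 * Real.pi))) h0
  simp only [LinearMap.zero_apply] at h3
  rw [lf_apply, h2] at h3
  simp [h, h.symm] at h3

/-- the number of primitive parameters on a hyperplane -/
theorem card_PPl (U : UD K) (l : (Fin (rank K) → ℝ) →ₗ[ℝ] ℝ) (hl : l ≠ 0) :
    ∃ C : ℝ, 0 < C ∧ 1 ≤ rank K ∧ ∀ {𝔮 : Ideal (𝓞 K)}, 𝔮 ≠ ⊥ → ∀ V c₀ : ℝ, 0 ≤ V →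
    {p ∈ PP U 𝔮 V | l p.2 = c₀}.Finite ∧
    (Nat.card {p ∈ PP U 𝔮 V | l p.2 = c₀} : ℝ) ≤
      (Nat.card {χ : (𝓞 K ⧸ 𝔮)ˣ →* ℂˣ | PrimC 𝔮 χ} : ℝ) * (C * V + 1) ^ (rank K - 1) := by
  classical
  obtain ⟨C, hC, hr, hcount⟩ := hyper_count (normP_U' U) l hl
  refine ⟨C, hC, hr, ?_⟩
  intro 𝔮 h0 V c₀ hV
  have hfin := finite_quot h0
  have hfd : Finite ((𝓞 K ⧸ 𝔮)ˣ →* ℂˣ) := finite_dual _
  choose θ₀ hθ₀ using exists_theta U h0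
  have hfm : ∀ χ : (𝓞 K ⧸ 𝔮)ˣ →* ℂˣ, Finite {m : Fin (rank K) → ℤ |
      U.p (fun i => θ₀ χ i + m i) ≤ V ∧ l (fun i => θ₀ χ i + m i) = c₀} := fun χ =>
    Set.finite_coe_iff.mpr (hcount (θ₀ χ) c₀ V hV).1
  have h4 : ∀ (χ : (𝓞 K ⧸ 𝔮)ˣ →* ℂˣ) (θ : Fin (rank K) → ℝ), Cond2 U (χ, θ) →
      ∃ m : Fin (rank K) → ℤ, θ = fun i => θ₀ χ i + (m i : ℝ) := by
    intro χ θ h1
    have h4 : ∀ i, ∃ m : ℤ, θ i = θ₀ χ i + m := by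
      intro i
      have h5 := h1 i
      have h6 := hθ₀ χ i
      dsimp only at h5 h6
      have h7 : cexp (2 * Real.pi * I * (θ i : ℂ)) = cexp (2 * Real.pi * I * (θ₀ χ i : ℂ)) :=
        mul_left_cancel₀ (Units.ne_zero _) (h5.trans h6.symm)
      obtain ⟨m, hm⟩ := Complex.exp_eq_exp_iff_exists_int.mp h7
      refine ⟨m, ?_⟩
      have h8 : (2 * Real.pi * I : ℂ) ≠ 0 := by
        have : (Real.pi : ℂ) ≠ 0 := by exact_mod_cast Real.pi_ne_zero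
        simp [this]
      have h9 : (2 * Real.pi * I : ℂ) * (θ i : ℂ) = 2 * Real.pi * I * ((θ₀ χ i : ℂ) + m) := by
        rw [hm]; ring
      have h10 := mul_left_cancel₀ h8 h9
      exact_mod_cast h10
    choose m hm using h4
    exact ⟨m, funext hm⟩
  have h5 : ∀ q : {p ∈ PP U 𝔮 V | l p.2 = c₀},
      ∃ m : Fin (rank K) → ℤ, (q : ((𝓞 K ⧸ 𝔮)ˣ →* ℂˣ) × (Fin (rank K) → ℝ)).2 =
        fun i => θ₀ (q : ((𝓞 K ⧸ 𝔮)ˣ →* ℂˣ) × (Fin (rank K) → ℝ)).1 i + (m i : ℝ) := by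
    rintro ⟨⟨χ, θ⟩, ⟨⟨h1, -⟩, -⟩, -⟩
    exact h4 χ θ h1
  choose mm hmm using h5
  set f : {p ∈ PP U 𝔮 V | l p.2 = c₀} → (Σ χ : {χ : (𝓞 K ⧸ 𝔮)ˣ →* ℂˣ | PrimC 𝔮 χ},
      {m : Fin (rank K) → ℤ | U.p (fun i => θ₀ χ.1 i + m i) ≤ V ∧
        l (fun i => θ₀ χ.1 i + m i) = c₀}) := fun q =>
    ⟨⟨q.1.1, q.2.1.2⟩, ⟨mm q, by
      have h1 := q.2.1.1.2
      have h2 := q.2.2
      rw [hmm q] at h1 h2
      exact ⟨h1, h2⟩⟩⟩ with hf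
  have hinj : Function.Injective f := by
    intro q q' h
    rw [hf] at h
    simp only [Sigma.mk.injEq, Subtype.mk.injEq] at h
    obtain ⟨h1, h2⟩ := h
    apply Subtype.ext
    refine Prod.ext h1 ?_
    have h3 : mm q = mm q' := by
      rw [Subtype.heq_iff_coe_eq] at h2
      · exact h2
      · intro m
        rw [h1]
    rw [hmm q, hmm q', h1, h3]
  have hfin2 : Finite (Σ χ : {χ : (𝓞 K ⧸ 𝔮)ˣ →* ℂˣ | PrimC 𝔮 χ},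
      {m : Fin (rank K) → ℤ | U.p (fun i => θ₀ χ.1 i + m i) ≤ V ∧
        l (fun i => θ₀ χ.1 i + m i) = c₀}) := inferInstance
  have hfin3 : Finite {p ∈ PP U 𝔮 V | l p.2 = c₀} := Finite.of_injective f hinj
  refine ⟨Set.finite_coe_iff.mp hfin3, ?_⟩
  have h6 := Nat.card_le_card_of_injective f hinj
  have h7 : (Nat.card {p ∈ PP U 𝔮 V | l p.2 = c₀} : ℝ) ≤
      (Nat.card (Σ χ : {χ : (𝓞 K ⧸ 𝔮)ˣ →* ℂˣ | PrimC 𝔮 χ},
      {m : Fin (rank K) → ℤ | U.p (fun i => θ₀ χ.1 i + m i) ≤ V ∧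
        l (fun i => θ₀ χ.1 i + m i) = c₀}) : ℝ) := by exact_mod_cast h6
  refine h7.trans ?_
  have : Fintype {χ : (𝓞 K ⧸ 𝔮)ˣ →* ℂˣ | PrimC 𝔮 χ} := Fintype.ofFinite _
  rw [Nat.card_sigma]
  push_cast
  have h8 : ∀ χ ∈ (Finset.univ : Finset {χ : (𝓞 K ⧸ 𝔮)ˣ →* ℂˣ | PrimC 𝔮 χ}),
      (Nat.card {m : Fin (rank K) → ℤ | U.p (fun i => θ₀ χ.1 i + m i) ≤ V ∧
        l (fun i => θ₀ χ.1 i + m i) = c₀} : ℝ) ≤ (C * V + 1) ^ (rank K - 1) :=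
    fun χ _ => (hcount (θ₀ χ.1) c₀ V hV).2
  have h9 := Finset.sum_le_card_nsmul _ _ _ h8
  rw [Finset.card_univ, nsmul_eq_mul, ← Nat.card_eq_fintype_card] at h9
  exact h9

/-- the characters `lam` of the family for which `ν₀ + ν` has equal components at `w` and `w'` -/
def BadW (K : Type) [Field K] [NumberField K] (ν₀ : InfinitePlace K → ℝ) (𝔮 : Ideal (𝓞 K)) (V : ℝ)
    (w w' : InfinitePlace K) : Set (Ideal (𝓞 K) →*₀ ℂ) :=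
  {lam | ∃ ν : InfinitePlace K → ℝ, (∀ w, |ν w| ≤ V) ∧ ∑ w, ν w = 0 ∧ IsHecke K 𝔮 ν lam ∧
    ν₀ w + ν w = ν₀ w' + ν w'}

theorem badW_card (U : UD K) {w w' : InfinitePlace K} (hww : w ≠ w') :
    ∃ C : ℝ, 0 < C ∧ 1 ≤ rank K ∧ ∀ {𝔪 𝔮 : Ideal (𝓞 K)} (h𝔪 : 𝔪 ≠ ⊤) (h𝔪0 : 𝔪 ≠ ⊥)
      (h𝔮 : 𝔮 ≠ ⊥) (h : 𝔮 ∣ 𝔪), Function.Surjective (gm h) → ∀ (ν₀ : InfinitePlace K → ℝ) (V : ℝ),
      0 ≤ V → (BadW K ν₀ 𝔮 V w w').Finite ∧ ((BadW K ν₀ 𝔮 V w w').ncard : ℝ) ≤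
        (Nat.card {χ : (𝓞 K ⧸ 𝔮)ˣ →* ℂˣ | PrimC 𝔮 χ} : ℝ) * (C * V + 1) ^ (rank K - 1) *
          Nat.card (Cls (pq 𝔪)) := by
  classical
  obtain ⟨C, hC, hr, hcount⟩ := card_PPl U (lf U w w') (lf_ne U hww)
  refine ⟨C, hC, hr, ?_⟩
  intro 𝔪 𝔮 h𝔪 h𝔪0 h𝔮 h hsurj ν₀ V hV
  have hcan := Mq_cancel h𝔪
  have hfc : Finite (Cls (pq 𝔪)) := finite_cls h𝔪 h𝔪0
  have hfd : Finite (Cls (pq 𝔪) →* ℂˣ) := finite_dual _
  obtain ⟨hfin, hle⟩ := hcount h𝔮 V (ν₀ w' - ν₀ w) hV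
  have hfin' : Finite {p ∈ PP U 𝔮 V | lf U w w' p.2 = ν₀ w' - ν₀ w} :=
    Set.finite_coe_iff.mpr hfin
  have hex : ∀ p : {p ∈ PP U 𝔮 V | lf U w w' p.2 = ν₀ w' - ν₀ w},
      ∃ F : Mq 𝔪 →* ℂˣ, HasPar U h F p.1 := fun p => exists_F U h𝔪 h p.2.1.1.1
  choose F₀ hF₀ using hex
  -- the map from the bad characters
  have hmem : ∀ lam ∈ BadW K ν₀ 𝔮 V w w', lam ∈ HFam K 𝔮 V := by
    rintro lam ⟨ν, a1, a2, a3, -⟩
    exact ⟨ν, a1, a2, a3⟩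
  have hpar : ∀ lam : BadW K ν₀ 𝔮 V w w',
      ∃ q : {p ∈ PP U 𝔮 V | lf U w w' p.2 = ν₀ w' - ν₀ w} × (Cls (pq 𝔪) →* ℂˣ),
        resM 𝔪 lam.1 = F₀ q.1 * q.2.comp (cls (pq 𝔪)) := by
    rintro ⟨lam, ν, a1, a2, a3, a4⟩
    obtain ⟨p, hp1, hp2, hp3⟩ := exists_par' U hV a1 a2 a3.toIsHM
    have hp4 : PrimC 𝔮 p.1 :=
      (prim_iff a3.toIsHM fun x => by rw [hp3 x, phiT_coe, hp2]).mp a3
    have hp5 : lf U w w' p.2 = ν₀ w' - ν₀ w := by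
      rw [lf_apply, hp2]
      linarith
    have h1 := resM_par h𝔪 h a3.toIsHM hp3
    have h2 : ∀ a, resM 𝔪 lam (pq 𝔪 a) = F₀ ⟨p, ⟨hp1, hp4⟩, hp5⟩ (pq 𝔪 a) := fun a => by
      ext
      rw [h1 a, hF₀ ⟨p, ⟨hp1, hp4⟩, hp5⟩ a]
    obtain ⟨lam', hlam⟩ := exists_lam (pq 𝔪) (resM 𝔪 lam) (F₀ ⟨p, ⟨hp1, hp4⟩, hp5⟩) h2
    refine ⟨(⟨p, ⟨hp1, hp4⟩, hp5⟩, lam'), ?_⟩
    ext x
    rw [hlam x]
    rfl
  choose g hg using hpar
  have hinj : Function.Injective g := by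
    intro lam lam' he
    apply Subtype.ext
    refine resM_inj (U := U) h𝔪 h𝔪0 h hsurj hV (hmem _ lam.2) (hmem _ lam'.2) ?_
    rw [hg lam, hg lam', he]
  have hfB : Finite (BadW K ν₀ 𝔮 V w w') := Finite.of_injective g hinj
  refine ⟨Set.finite_coe_iff.mp hfB, ?_⟩
  have h1 := Nat.card_le_card_of_injective g hinj
  rw [Nat.card_prod, card_dual] at h1
  have h2 : ((BadW K ν₀ 𝔮 V w w').ncard : ℝ) ≤
      (Nat.card {p ∈ PP U 𝔮 V | lf U w w' p.2 = ν₀ w' - ν₀ w} : ℝ) * Nat.card (Cls (pq 𝔪)) := by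
    rw [← Nat.card_coe_set_eq]
    exact_mod_cast h1
  exact h2.trans (mul_le_mul_of_nonneg_right hle (Nat.cast_nonneg _))

/-- the characters with two equal components of the infinity type -/
def BadF (K : Type) [Field K] [NumberField K] (ν₀ : InfinitePlace K → ℝ) (𝔮 : Ideal (𝓞 K))
    (V : ℝ) : Set (Ideal (𝓞 K) →*₀ ℂ) :=
  {lam | ∃ ν : InfinitePlace K → ℝ, (∀ w, |ν w| ≤ V) ∧ ∑ w, ν w = 0 ∧ IsHecke K 𝔮 ν lam ∧
    ¬ Function.Injective (fun w => ν₀ w + ν w)}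

/-- **they are rare** -/
theorem badF_rare (U : UD K) (δ : ℝ) (hδ : 0 < δ) : ∃ V₀ : ℝ, 1 ≤ V₀ ∧
    ∀ (𝔣 𝔮 : Ideal (𝓞 K)), IsCoprime 𝔣 𝔮 → 𝔣 * 𝔮 ≠ ⊤ → 𝔣 * 𝔮 ≠ ⊥ →
    ∀ (ν₀ : InfinitePlace K → ℝ) (V : ℝ), V₀ ≤ V →
    ((BadF K ν₀ 𝔮 V).ncard : ℝ) ≤ δ * ((HFam K 𝔮 V).ncard : ℝ) := by
  classical
  obtain ⟨c, hc0, hc⟩ := (normP_U' U).exists_up
  obtain ⟨vol, hvol⟩ : ∃ vol : ℝ, vol = (volume {θ | U.p θ ≤ 1}).toReal := ⟨_, rfl⟩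
  have hvol0 : 0 < vol := by rw [hvol]; exact (normP_U' U).vol_pos
  obtain ⟨r, hr⟩ : ∃ r : ℕ, r = rank K := ⟨_, rfl⟩
  have hCC : ∃ C : ℝ, 0 < C ∧ ∀ w w' : InfinitePlace K, w ≠ w' → 1 ≤ r ∧
      ∀ {𝔪 𝔮 : Ideal (𝓞 K)} (h𝔪 : 𝔪 ≠ ⊤) (h𝔪0 : 𝔪 ≠ ⊥)
      (h𝔮 : 𝔮 ≠ ⊥) (h : 𝔮 ∣ 𝔪), Function.Surjective (gm h) → ∀ (ν₀ : InfinitePlace K → ℝ) (V : ℝ),
      0 ≤ V → (BadW K ν₀ 𝔮 V w w').Finite ∧ ((BadW K ν₀ 𝔮 V w w').ncard : ℝ) ≤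
        (Nat.card {χ : (𝓞 K ⧸ 𝔮)ˣ →* ℂˣ | PrimC 𝔮 χ} : ℝ) * (C * V + 1) ^ (r - 1) *
          Nat.card (Cls (pq 𝔪)) := by
    have h1 : ∀ q : InfinitePlace K × InfinitePlace K, ∃ C : ℝ, 0 < C ∧ (q.1 ≠ q.2 → 1 ≤ r ∧
      ∀ {𝔪 𝔮 : Ideal (𝓞 K)} (h𝔪 : 𝔪 ≠ ⊤) (h𝔪0 : 𝔪 ≠ ⊥)
      (h𝔮 : 𝔮 ≠ ⊥) (h : 𝔮 ∣ 𝔪), Function.Surjective (gm h) → ∀ (ν₀ : InfinitePlace K → ℝ) (V : ℝ),
      0 ≤ V → (BadW K ν₀ 𝔮 V q.1 q.2).Finite ∧ ((BadW K ν₀ 𝔮 V q.1 q.2).ncard : ℝ) ≤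
        (Nat.card {χ : (𝓞 K ⧸ 𝔮)ˣ →* ℂˣ | PrimC 𝔮 χ} : ℝ) * (C * V + 1) ^ (r - 1) *
          Nat.card (Cls (pq 𝔪))) := by
      rintro ⟨w, w'⟩
      by_cases hww : w = w'
      · exact ⟨1, one_pos, fun h => absurd hww h⟩
      · obtain ⟨C, h1, h2, h3⟩ := badW_card U hww
        refine ⟨C, h1, fun _ => ⟨by rw [hr]; exact h2, ?_⟩⟩
        rw [hr]
        exact h3
    choose C hC h2 using h1
    refine ⟨∑ q, C q, Finset.sum_pos (fun q _ => hC q) ⟨(Classical.arbitrary _,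
      Classical.arbitrary _), Finset.mem_univ _⟩, fun w w' hww => ?_⟩
    obtain ⟨h3, h4⟩ := h2 (w, w') hww
    refine ⟨h3, ?_⟩
    intro 𝔪 𝔮 h𝔪 h𝔪0 h𝔮 h hsurj ν₀ V hV
    obtain ⟨h5, h6⟩ := h4 h𝔪 h𝔪0 h𝔮 h hsurj ν₀ V hV
    refine ⟨h5, h6.trans ?_⟩
    have h7 : C (w, w') ≤ ∑ q, C q :=
      Finset.single_le_sum (f := C) (fun q _ => (hC q).le) (Finset.mem_univ _)
    have h8 := hC (w, w')
    gcongr
  obtain ⟨C, hC, hbad⟩ := hCC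
  obtain ⟨B, hB⟩ : ∃ B : ℝ, B = (Fintype.card (InfinitePlace K × InfinitePlace K) : ℝ) *
    ((C + 1) ^ (r - 1) * 2 ^ r / vol) := ⟨_, rfl⟩
  have hB0 : 0 ≤ B := by rw [hB]; positivity
  refine ⟨max (max 1 (2 * c)) (B / δ), le_max_of_le_left (le_max_left _ _), ?_⟩
  intro 𝔣 𝔮 hcop htop hbot ν₀ V hV
  have hV1 : 1 ≤ V := ((le_max_left _ _).trans (le_max_left _ _)).trans hV
  have hVc : 2 * c ≤ V := ((le_max_right _ _).trans (le_max_left _ _)).trans hV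
  have hVB : B / δ ≤ V := (le_max_right _ _).trans hV
  have hV0 : 0 < V := by linarith
  have h𝔮0 : 𝔮 ≠ ⊥ := by
    rintro rfl
    exact hbot (Ideal.mul_bot _)
  have h : 𝔮 ∣ 𝔣 * 𝔮 := Dvd.intro_left _ rfl
  have hsurj : Function.Surjective (gm h) := fun g => by
    obtain ⟨x, -, hx⟩ := gm_surj hcop hbot h g
    exact ⟨x, hx⟩
  obtain ⟨hP, hPc'⟩ := card_PP U hc h𝔮0 (show c ≤ V by linarith)
  obtain ⟨hF, hFc⟩ := card_FF U htop hbot h hsurj hP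
  have hb := bij_res U htop hbot h𝔮0 h hsurj hV0.le
  have htot : ((HFam K 𝔮 V).ncard : ℝ) = Nat.card (PP U 𝔮 V) * Nat.card (Cls (pq (𝔣 * 𝔮))) := by
    have h1 : (HFam K 𝔮 V).ncard = Nat.card (FF U h V) := by
      rw [← hb.image_eq, Nat.card_coe_set_eq, hb.injOn.ncard_image]
    rw [h1, hFc, Nat.cast_mul]
  obtain ⟨pc, hpc⟩ : ∃ pc : ℝ, pc = (Nat.card {χ : (𝓞 K ⧸ 𝔮)ˣ →* ℂˣ | PrimC 𝔮 χ} : ℝ) :=
    ⟨_, rfl⟩
  have hpc0 : 0 ≤ pc := by rw [hpc]; exact Nat.cast_nonneg _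
  obtain ⟨cl, hcl⟩ : ∃ cl : ℝ, cl = (Nat.card (Cls (pq (𝔣 * 𝔮))) : ℝ) := ⟨_, rfl⟩
  have hcl0 : 0 ≤ cl := by rw [hcl]; exact Nat.cast_nonneg _
  have hPc : pc * ((V - c) ^ r * vol) ≤ (Nat.card (PP U 𝔮 V) : ℝ) := by
    rw [hpc, hvol, hr]
    exact hPc'
  rw [← hcl] at htot
  -- the union bound
  have hsub : BadF K ν₀ 𝔮 V ⊆ ⋃ q ∈ (Finset.univ : Finset (InfinitePlace K × InfinitePlace K)),
      (if q.1 = q.2 then ∅ else BadW K ν₀ 𝔮 V q.1 q.2) := by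
    rintro lam ⟨ν, a1, a2, a3, a4⟩
    rw [Function.Injective] at a4
    push Not at a4
    obtain ⟨w, w', h1, h2⟩ := a4
    simp only [Set.mem_iUnion]
    refine ⟨(w, w'), Finset.mem_univ _, ?_⟩
    rw [if_neg h2]
    exact ⟨ν, a1, a2, a3, h1⟩
  have hfinq : ∀ q : InfinitePlace K × InfinitePlace K,
      (if q.1 = q.2 then (∅ : Set (Ideal (𝓞 K) →*₀ ℂ)) else BadW K ν₀ 𝔮 V q.1 q.2).Finite ∧
      (((if q.1 = q.2 then (∅ : Set (Ideal (𝓞 K) →*₀ ℂ)) else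
        BadW K ν₀ 𝔮 V q.1 q.2).ncard : ℕ) : ℝ) ≤
        ((C + 1) ^ (r - 1) * 2 ^ r / vol) / V * ((HFam K 𝔮 V).ncard : ℝ) := by
    intro q
    split_ifs with hq
    · refine ⟨Set.finite_empty, ?_⟩
      rw [Set.ncard_empty, Nat.cast_zero]
      positivity
    · obtain ⟨h1, h2⟩ := hbad q.1 q.2 hq
      obtain ⟨h3, h4⟩ := h2 htop hbot h𝔮0 h hsurj ν₀ V hV0.le
      refine ⟨h3, h4.trans ?_⟩
      rw [← hpc, ← hcl, htot]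
      have h5 : (C * V + 1) ^ (r - 1) ≤ ((C + 1) * V) ^ (r - 1) :=
        pow_le_pow_left₀ (by positivity) (by linarith) _
      have h6 : (V / 2) ^ r ≤ (V - c) ^ r := pow_le_pow_left₀ (by positivity) (by linarith) _
      have h7 : pc * ((V / 2) ^ r * vol) ≤ Nat.card (PP U 𝔮 V) :=
        le_trans (by gcongr) hPc
      have h8 : V ^ r = V ^ (r - 1) * V := by
        rw [← pow_succ]
        congr 1
        omega
      calc pc * (C * V + 1) ^ (r - 1) * cl ≤ pc * ((C + 1) * V) ^ (r - 1) * cl := by gcongr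
        _ = ((C + 1) ^ (r - 1) * 2 ^ r / vol) / V * (pc * ((V / 2) ^ r * vol) * cl) := by
            rw [mul_pow, div_pow, h8]
            field_simp
        _ ≤ ((C + 1) ^ (r - 1) * 2 ^ r / vol) / V * (Nat.card (PP U 𝔮 V) * cl) := by
            gcongr
  have hfU : (⋃ q ∈ (Finset.univ : Finset (InfinitePlace K × InfinitePlace K)),
      (if q.1 = q.2 then (∅ : Set (Ideal (𝓞 K) →*₀ ℂ)) else
        BadW K ν₀ 𝔮 V q.1 q.2)).Finite :=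
    Set.Finite.biUnion (Finset.finite_toSet _) fun q _ => (hfinq q).1
  have h1 : ((BadF K ν₀ 𝔮 V).ncard : ℝ) ≤ ∑ q : InfinitePlace K × InfinitePlace K,
      (((if q.1 = q.2 then (∅ : Set (Ideal (𝓞 K) →*₀ ℂ)) else
        BadW K ν₀ 𝔮 V q.1 q.2).ncard : ℕ) : ℝ) := by
    have h2 := Set.ncard_le_ncard hsub hfU
    have h3 := Finset.set_ncard_biUnion_le (Finset.univ : Finset (InfinitePlace K × InfinitePlace K))
      (fun q => if q.1 = q.2 then (∅ : Set (Ideal (𝓞 K) →*₀ ℂ)) else BadW K ν₀ 𝔮 V q.1 q.2)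
    have h4 := h2.trans h3
    exact_mod_cast h4
  refine h1.trans ?_
  have h2 := Finset.sum_le_card_nsmul Finset.univ _ _
    (fun (q : InfinitePlace K × InfinitePlace K) (_ : q ∈ Finset.univ) => (hfinq q).2)
  rw [Finset.card_univ, nsmul_eq_mul] at h2
  refine h2.trans ?_
  have h3 : (Fintype.card (InfinitePlace K × InfinitePlace K) : ℝ) *
      (((C + 1) ^ (r - 1) * 2 ^ r / vol) / V * ((HFam K 𝔮 V).ncard : ℝ)) =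
      B / V * ((HFam K 𝔮 V).ncard : ℝ) := by
    rw [hB]; ring
  rw [h3]
  refine mul_le_mul_of_nonneg_right ?_ (Nat.cast_nonneg _)
  rw [div_le_iff₀ hV0]
  rw [div_le_iff₀ hδ] at hVB
  linarith

end

end Pool.Agent.N786
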