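import Pool.Agent.N786.Sep

/-!
# A basis of the group of totally positive units (owner helper786)
-/

set_option autoImplicit false
set_option linter.unusedSectionVars false

open NumberField NumberField.Units NumberField.Units.dirichletUnitTheorem Module

namespace Pool.Agent.N786

open Pool.Agent.Y773 (TPos rl)
open Pool.Agent.Y767 (mult_one)

section

variable (K : Type) [Field K] [NumberField K] [IsTotallyReal K]

/-- the group of the totally positive units -/
def Upos : Subgroup (𝓞 K)ˣ where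
  carrier := {u | TPos K ((u : (𝓞 K)ˣ) : 𝓞 K)}
  mul_mem' {a b} ha hb := by
    change TPos K ((a * b : (𝓞 K)ˣ) : 𝓞 K)
    rw [Units.val_mul]
    exact tpos_mul ha hb
  one_mem' := by
    change TPos K ((1 : (𝓞 K)ˣ) : 𝓞 K)
    rw [Units.val_one]
    exact Pool.Agent.Y767.tpos_one
  inv_mem' {a} ha := tpos_inv ha

lemma mem_Upos (u : (𝓞 K)ˣ) : u ∈ Upos K ↔ TPos K (u : 𝓞 K) := Iff.rfl

lemma sq_mem_Upos (u : (𝓞 K)ˣ) : u ^ 2 ∈ Upos K := by
  rw [mem_Upos]
  intro σ
  have e : (((u ^ 2 : (𝓞 K)ˣ) : 𝓞 K) : K) = ((u : 𝓞 K) : K) ^ 2 := by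
    rw [Units.val_pow_eq_pow_val]
    exact map_pow (algebraMap (𝓞 K) K) _ _
  rw [e, map_pow]
  have h : σ ((u : 𝓞 K) : K) ≠ 0 := by
    rw [Ne, map_eq_zero]
    simp
  positivity

/-- the lattice of the totally positive units -/
noncomputable def LP : Submodule ℤ (logSpace K) :=
  Submodule.map (logEmbedding K).toIntLinearMap (AddSubgroup.toIntSubmodule
    (Subgroup.toAddSubgroup (Upos K)))

lemma mem_LP (z : logSpace K) :
    z ∈ LP K ↔ ∃ u : (𝓞 K)ˣ, u ∈ Upos K ∧ logEmbedding K (Additive.ofMul u) = z := by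
  constructor
  · rintro ⟨u, hu, rfl⟩
    exact ⟨Additive.toMul u, hu, rfl⟩
  · rintro ⟨u, hu, rfl⟩
    exact ⟨Additive.ofMul u, hu, rfl⟩

lemma LP_le : LP K ≤ unitLattice K := by
  intro z hz
  obtain ⟨u, -, rfl⟩ := (mem_LP K z).mp hz
  exact ⟨Additive.ofMul u, trivial, rfl⟩

lemma two_LP {z : logSpace K} (hz : z ∈ unitLattice K) : (2 : ℝ) • z ∈ LP K := by
  obtain ⟨u, -, rfl⟩ := hz
  rw [mem_LP]
  refine ⟨(Additive.toMul u) ^ 2, sq_mem_Upos K _, ?_⟩
  have : Additive.ofMul ((Additive.toMul u) ^ 2) = (2 : ℕ) • u := rfl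
  rw [this, map_nsmul]
  simp only [AddMonoidHom.coe_toIntLinearMap]
  rw [two_nsmul, two_smul]

instance : DiscreteTopology (LP K) :=
  DiscreteTopology.of_subset (s := (unitLattice K : Set (logSpace K))) (t := (LP K : Set (logSpace K)))
    (instDiscrete_unitLattice K) (LP_le K)

open scoped Classical in
instance instZL : IsZLattice ℝ (LP K) where
  span_top := by
    rw [eq_top_iff, ← unitLattice_span_eq_top K, Submodule.span_le]
    intro z hz
    have h1 : (2 : ℝ) • z ∈ Submodule.span ℝ (LP K : Set (logSpace K)) :=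
      Submodule.subset_span (two_LP K hz)
    have h2 := Submodule.smul_mem _ ((2 : ℝ)⁻¹) h1
    rwa [smul_smul, inv_mul_cancel₀ two_ne_zero, one_smul] at h2

variable {K}

lemma Upos_inj {u : (𝓞 K)ˣ} (hu : u ∈ Upos K) (h : logEmbedding K (Additive.ofMul u) = 0) :
    u = 1 := by
  rw [logEmbedding_eq_zero_iff, mem_torsion] at h
  obtain ⟨w⟩ : Nonempty (InfinitePlace K) := inferInstance
  have h1 := h w
  have h2 : rl w ((u : 𝓞 K) : K) = w ((u : 𝓞 K) : K) := rl_eq hu w
  have h3 : rl w ((u : 𝓞 K) : K) = rl w 1 := by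
    rw [h2, map_one]
    exact h1
  have h4 : ((u : 𝓞 K) : K) = 1 := (rl w).injective h3
  apply Units.ext
  rw [Units.val_one]
  apply RingOfIntegers.coe_injective
  exact h4.trans (map_one _).symm

end

/-- UNITB -/
theorem t_unitb : Pool.Agent.Y767.StUnitB := by
  intro K _ _ _
  classical
  have hfree : Module.Free ℤ (LP K) := ZLattice.module_free ℝ (LP K)
  have hfin : Module.Finite ℤ (LP K) := ZLattice.module_finite ℝ (LP K)
  have hrk : finrank ℤ (LP K) = rank K := by
    rw [ZLattice.rank ℝ (LP K), Units.finrank_eq_rank]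
  set b : Basis (Fin (rank K)) ℤ (LP K) := Module.finBasisOfFinrankEq ℤ (LP K) hrk with hb
  choose ε hε1 hε2 using fun i => (mem_LP K (b i : logSpace K)).mp (b i).2
  set B : Basis (Fin (rank K)) ℝ (logSpace K) := b.ofZLatticeBasis ℝ (LP K) with hB
  have hBi : ∀ i, B i = logEmbedding K (Additive.ofMul (ε i)) := fun i => by
    rw [hB, Basis.ofZLatticeBasis_apply, hε2]
  -- the logarithm of a product
  have hprod : ∀ m : Fin (rank K) → ℤ, logEmbedding K (Additive.ofMul (∏ i, ε i ^ m i)) =
      ∑ i, m i • (b i : logSpace K) := by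
    intro m
    rw [ofMul_prod, map_sum]
    refine Finset.sum_congr rfl fun i _ => ?_
    rw [ofMul_zpow, map_zsmul, hε2]
  have hmemp : ∀ m : Fin (rank K) → ℤ, (∏ i, ε i ^ m i) ∈ Upos K := fun m =>
    Subgroup.prod_mem _ fun i _ => Subgroup.zpow_mem _ (hε1 i) _
  -- the vectors of the logarithms
  obtain ⟨lam, hlam⟩ : ∃ lam : Fin (rank K) → InfinitePlace K → ℝ,
    lam = fun i w => Real.log (w ((ε i : 𝓞 K) : K)) := ⟨_, rfl⟩
  have hlam' : ∀ i w, Real.log (w ((ε i : 𝓞 K) : K)) = lam i w := fun i w => by rw [hlam]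
  have hsum0 : ∀ i, ∑ w, lam i w = 0 := by
    intro i
    have h := sum_mult_mul_log (ε i)
    simp only [mult_one, Nat.cast_one, one_mul] at h
    rw [hlam]
    exact h
  have hBw : ∀ i (w : {w : InfinitePlace K // w ≠ w₀}), B i w = lam i w.1 := by
    intro i w
    rw [hBi, logEmbedding_component, mult_one, Nat.cast_one, one_mul, hlam]
  -- two vectors of sum zero which agree outside of `w₀`
  have hext : ∀ v v' : InfinitePlace K → ℝ, ∑ w, v w = 0 → ∑ w, v' w = 0 →
      (∀ w, w ≠ w₀ → v w = v' w) → v = v' := by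
    intro v v' h1 h2 h3
    rw [Fintype.sum_eq_add_sum_subtype_ne _ w₀] at h1 h2
    have h4 : ∑ w : {w : InfinitePlace K // w ≠ w₀}, v w.1 =
        ∑ w : {w : InfinitePlace K // w ≠ w₀}, v' w.1 :=
      Finset.sum_congr rfl fun w _ => h3 w.1 w.2
    funext w
    by_cases hw : w = w₀
    · rw [hw]
      linarith
    · exact h3 w hw
  have hcomb0 : ∀ y : Fin (rank K) → ℝ, ∑ w, ∑ i, y i * lam i w = 0 := by
    intro y
    rw [Finset.sum_comm]
    refine Finset.sum_eq_zero fun i _ => ?_
    rw [← Finset.mul_sum, hsum0, mul_zero]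
  -- coordinates
  have hcoord : ∀ v : InfinitePlace K → ℝ, ∑ w, v w = 0 → ∃ y : Fin (rank K) → ℝ,
      ∀ w, v w = ∑ i, y i * lam i w := by
    intro v hv
    set v' : logSpace K := fun w => v w.1 with hv'
    refine ⟨fun i => B.repr v' i, fun w => ?_⟩
    refine congrFun (hext v (fun w => ∑ i, B.repr v' i * lam i w) hv (hcomb0 _) ?_) w
    intro w hw
    have h1 := congrFun (B.sum_repr v') ⟨w, hw⟩
    rw [Finset.sum_apply] at h1
    have h2 : v' ⟨w, hw⟩ = v w := rfl
    rw [← h2, ← h1]
    refine Finset.sum_congr rfl fun i _ => ?_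
    rw [Pi.smul_apply, smul_eq_mul, hBw]
  have hindep : ∀ y : Fin (rank K) → ℝ, (∀ w, ∑ i, y i * lam i w = 0) → y = 0 := by
    intro y hy
    have h1 : ∑ i, y i • B i = 0 := by
      funext w
      rw [Finset.sum_apply]
      have := hy w.1
      rw [Pi.zero_apply, ← this]
      refine Finset.sum_congr rfl fun i _ => ?_
      rw [Pi.smul_apply, smul_eq_mul, hBw]
    funext i
    exact (Fintype.linearIndependent_iff.mp B.linearIndependent) y h1 i
  -- the linear maps
  set E : (Fin (rank K) → ℝ) →ₗ[ℝ] (InfinitePlace K → ℝ) :=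
    { toFun := fun y w => ∑ i, y i * lam i w
      map_add' := fun y y' => by
        funext w
        simp only [Pi.add_apply, add_mul, Finset.sum_add_distrib]
      map_smul' := fun t y => by
        funext w
        simp only [Pi.smul_apply, smul_eq_mul, RingHom.id_apply, Finset.mul_sum, mul_assoc] }
    with hE
  set G : (Fin (rank K) → ℝ) →ₗ[ℝ] (Fin (rank K) → ℝ) :=
    { toFun := fun y i => (∑ w, E y w * lam i w) / (2 * Real.pi)
      map_add' := fun y y' => by
        funext i
        simp only [map_add, Pi.add_apply, add_mul, Finset.sum_add_distrib, add_div]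
      map_smul' := fun t y => by
        funext i
        simp only [map_smul, Pi.smul_apply, smul_eq_mul, RingHom.id_apply, mul_assoc,
          ← Finset.mul_sum, mul_div_assoc] }
    with hG
  have hEy : ∀ y w, E y w = ∑ i, y i * lam i w := fun y w => rfl
  have hGy : ∀ y i, G y i = (∑ w, E y w * lam i w) / (2 * Real.pi) := fun y i => rfl
  have hpi : (2 * Real.pi) ≠ 0 := by positivity
  have hGinj : Function.Injective G := by
    rw [← LinearMap.ker_eq_bot, LinearMap.ker_eq_bot']
    intro y hy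
    have h1 : ∀ i, ∑ w, E y w * lam i w = 0 := by
      intro i
      have h2 := congrFun hy i
      rw [hGy, Pi.zero_apply, div_eq_zero_iff] at h2
      exact h2.resolve_right hpi
    have h3 : ∑ w, E y w * E y w = 0 := by
      calc ∑ w, E y w * E y w = ∑ w, ∑ i, y i * (E y w * lam i w) := by
            refine Finset.sum_congr rfl fun w _ => ?_
            nth_rewrite 2 [hEy]
            rw [Finset.mul_sum]
            exact Finset.sum_congr rfl fun i _ => by ring
        _ = ∑ i, y i * ∑ w, E y w * lam i w := by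
            rw [Finset.sum_comm]
            exact Finset.sum_congr rfl fun i _ => (Finset.mul_sum _ _ _).symm
        _ = 0 := Finset.sum_eq_zero fun i _ => by rw [h1, mul_zero]
    apply hindep
    intro w
    rw [← hEy]
    have h4 := (Finset.sum_eq_zero_iff_of_nonneg (fun w _ => mul_self_nonneg (E y w))).mp h3 w
      (Finset.mem_univ w)
    exact mul_self_eq_zero.mp h4
  set Ge : (Fin (rank K) → ℝ) ≃ₗ[ℝ] (Fin (rank K) → ℝ) :=
    LinearEquiv.ofInjectiveEndo G hGinj with hGe
  have hGGe : ∀ θ, G (Ge.symm θ) = θ := fun θ => by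
    have : Ge (Ge.symm θ) = θ := Ge.apply_symm_apply θ
    rwa [hGe, LinearEquiv.coe_ofInjectiveEndo] at this
  have hGeG : ∀ y, Ge.symm (G y) = y := fun y => by
    have : Ge.symm (Ge y) = y := Ge.symm_apply_apply y
    rwa [hGe, LinearEquiv.coe_ofInjectiveEndo] at this
  refine ⟨ε, fun i => hε1 i, ?_, ?_, ?_, ?_⟩
  · -- generation
    intro u hu
    have hz : logEmbedding K (Additive.ofMul u) ∈ LP K := (mem_LP K _).mpr ⟨u, hu, rfl⟩
    refine ⟨fun i => b.repr ⟨_, hz⟩ i, ?_⟩
    have h1 := b.sum_repr ⟨_, hz⟩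
    have h2 : ∑ i, (b.repr ⟨_, hz⟩ i) • (b i : logSpace K) = logEmbedding K (Additive.ofMul u) := by
      have h3 : ((∑ i, (b.repr ⟨_, hz⟩ i) • b i : LP K) : logSpace K) =
          logEmbedding K (Additive.ofMul u) := congrArg (Subtype.val) h1
      refine Eq.trans ?_ h3
      push_cast
      rfl
    have h3 := Upos_inj (Subgroup.mul_mem _ ((mem_Upos K u).mpr hu)
      (Subgroup.inv_mem _ (hmemp fun i => b.repr ⟨_, hz⟩ i))) (by
        rw [ofMul_mul, ofMul_inv, map_add, map_neg, hprod, h2, add_neg_cancel])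
    exact mul_inv_eq_one.mp h3
  · -- independence
    intro m hm
    have h1 := hprod m
    rw [hm, ofMul_one, map_zero] at h1
    have h2 : ∑ i, m i • b i = 0 := by
      apply Subtype.ext
      push_cast
      exact h1.symm
    funext i
    exact (Fintype.linearIndependent_iff.mp b.linearIndependent) m h2 i
  · refine ⟨E.comp (Ge.symm : (Fin (rank K) → ℝ) →ₗ[ℝ] (Fin (rank K) → ℝ)), ?_, ?_, ?_⟩
    · intro θ
      exact hcomb0 _
    · intro θ i
      rw [LinearMap.comp_apply]
      have h1 := congrFun (hGGe θ) i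
      rw [hGy, div_eq_iff hpi] at h1
      simp only [hlam']
      rw [mul_comm (2 * Real.pi)]
      exact h1
    · intro ν hν
      obtain ⟨y, hy⟩ := hcoord ν hν
      have hνE : ν = E y := funext fun w => by rw [hy, hEy]
      have h1 : (fun i => (∑ w, ν w * Real.log (w ((ε i : 𝓞 K) : K))) / (2 * Real.pi)) = G y := by
        funext i
        rw [hGy, hνE]
        simp only [hlam']
      rw [LinearMap.comp_apply, h1, hνE]
      congr 1
      exact hGeG y
  · intro v hv
    obtain ⟨y, hy⟩ := hcoord v hv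
    exact ⟨y, fun w => by rw [hy]; simp only [hlam']⟩

end Pool.Agent.N786
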