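import Pool.Agent.N786.Zer
import Pool.Agent.N786.Pro
import Pool.Agent.N786.Goo
import Pool.Agent.N786.UnitB
import Pool.Agent.N786.Reg
import Pool.Agent.Y762.Fin

/-!
# Zeros of the L-functions of Hecke characters of totally real fields (owner helper786)
-/

set_option autoImplicit false
set_option linter.unusedSectionVars false

open NumberField NumberField.Units MeasureTheory Complex Filter Topology Set

namespace Pool.Agent.N786

open Pool.Agent.Y773 (TPos rl VM cc LI)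
open Pool.Agent.Y767
open ArithmeticFunction (vonMangoldt)
open H370 (zset mult NN Nd Ns)
open H385 (Rw)
open Pool.Agent.W354 (LogC)
open Y767.WH (GoodH)
open Pool.Agent.Y655.HC (NN_shift Ns_shift zset_shift add_inj)

/-- the comparison of the length with the size of the family -/
lemma len_ok {n : ℕ} (hn : 1 ≤ n) {h ε0 C L V Nq X : ℝ} (hh : 0 < h) (hh1 : h ≤ 1)
    (hε0 : 0 < ε0) (hε01 : ε0 < 1) (hC : 1 ≤ C) (hL8 : 8 ≤ L)
    (hL : 2 * (C * (4 * n + 1)) / (h * ε0) ^ 2 + 1 ≤ L) (hV : 0 < V)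
    (hNq : 0 < Nq) (hX0 : 0 < X) (hX : Real.exp (n * L) ≤ X) (hXh : X ^ h ≤ Nq * V ^ n) :
    2 * Real.pi ≤ 4 * n * L + 2 * Real.pi ∧
    4 * Real.log (⌊Real.exp (h * n * (1 - ε0) * L)⌋₊ : ℝ) ≤ 4 * n * L + 2 * Real.pi ∧
    (C * ((4 * n * L + 2 * Real.pi) / V)) ^ n * (⌊Real.exp (h * n * (1 - ε0) * L)⌋₊ : ℝ) < Nq := by
  have hpi := Real.pi_pos
  have hn1 : (1 : ℝ) ≤ n := by exact_mod_cast hn
  have hL0 : 0 < L := by linarith
  obtain ⟨E, hE⟩ : ∃ E : ℝ, E = Real.exp (h * n * (1 - ε0) * L) := ⟨_, rfl⟩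
  have hE0 : 0 < E := by rw [hE]; exact Real.exp_pos _
  have hfl : (⌊E⌋₊ : ℝ) ≤ E := Nat.floor_le hE0.le
  rw [← hE]
  refine ⟨by nlinarith, ?_, ?_⟩
  · have h1 : Real.log (⌊E⌋₊ : ℝ) ≤ n * L := by
      rcases Nat.eq_zero_or_pos ⌊E⌋₊ with h2 | h2
      · rw [h2, Nat.cast_zero, Real.log_zero]; positivity
      · refine (Real.log_le_log (by exact_mod_cast h2) hfl).trans ?_
        rw [hE, Real.log_exp]
        have h3 : h * (1 - ε0) ≤ 1 := by nlinarith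
        calc h * n * (1 - ε0) * L = (h * (1 - ε0)) * (n * L) := by ring
          _ ≤ 1 * (n * L) := mul_le_mul_of_nonneg_right h3 (by positivity)
          _ = n * L := one_mul _
    linarith
  · obtain ⟨e, he⟩ : ∃ e : ℝ, e = h * ε0 := ⟨_, rfl⟩
    have he0 : 0 < e := by rw [he]; positivity
    rw [← he] at hL
    obtain ⟨Q, hQ⟩ : ∃ Q : ℝ, Q = 4 * n * L + 2 * Real.pi := ⟨_, rfl⟩
    have hQL : Q ≤ (4 * n + 1) * L := by
      rw [hQ]
      have : 2 * Real.pi ≤ L := by linarith [Real.pi_lt_four]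
      linarith
    have hQ0 : 0 < Q := by rw [hQ]; positivity
    rw [← hQ]
    have h1 : C * Q < Real.exp (e * L) := by
      have h2 := Real.quadratic_le_exp_of_nonneg (show 0 ≤ e * L by positivity)
      have h3 : C * Q ≤ C * (4 * n + 1) * L := by
        calc C * Q ≤ C * ((4 * n + 1) * L) := mul_le_mul_of_nonneg_left hQL (by linarith)
          _ = _ := by ring
      have h4 : 2 * (C * (4 * n + 1)) ≤ L * e ^ 2 := by
        rw [← div_le_iff₀ (by positivity)]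
        linarith
      have h5 : C * (4 * n + 1) * L ≤ (e * L) ^ 2 / 2 := by
        have h6 := mul_le_mul_of_nonneg_right h4 hL0.le
        calc C * (4 * n + 1) * L = (2 * (C * (4 * n + 1)) * L) / 2 := by ring
          _ ≤ (L * e ^ 2 * L) / 2 := by linarith
          _ = _ := by ring
      have h7 : 0 ≤ e * L := by positivity
      linarith
    have h2 : E ≤ Nq * V ^ n * Real.exp (-(e * L)) ^ n := by
      have e1 : E = Real.exp (n * L) ^ h * Real.exp (-(e * L)) ^ n := by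
        rw [hE, ← Real.exp_nat_mul, ← Real.exp_mul, ← Real.exp_add, he]
        congr 1
        ring
      rw [e1]
      refine mul_le_mul_of_nonneg_right ?_ (by positivity)
      refine le_trans ?_ hXh
      exact Real.rpow_le_rpow (Real.exp_pos _).le hX hh.le
    have h3 : (C * (Q / V)) ^ n * E ≤ Nq * (C * Q * Real.exp (-(e * L))) ^ n := by
      calc (C * (Q / V)) ^ n * E ≤ (C * (Q / V)) ^ n * (Nq * V ^ n * Real.exp (-(e * L)) ^ n) :=
            mul_le_mul_of_nonneg_left h2 (by positivity)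
        _ = Nq * (C * (Q / V) * V * Real.exp (-(e * L))) ^ n := by
            rw [mul_pow (C * (Q / V) * V), mul_pow (C * (Q / V))]; ring
        _ = _ := by
            congr 2
            field_simp
    have h4 : C * Q * Real.exp (-(e * L)) < 1 := by
      rw [Real.exp_neg, mul_inv_lt_iff₀ (Real.exp_pos _), one_mul]
      exact h1
    have h5 : (C * Q * Real.exp (-(e * L))) ^ n < 1 :=
      pow_lt_one₀ (by positivity) h4 (by omega)
    calc (C * (Q / V)) ^ n * (⌊E⌋₊ : ℝ) ≤ (C * (Q / V)) ^ n * E :=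
          mul_le_mul_of_nonneg_left hfl (by positivity)
      _ ≤ Nq * (C * Q * Real.exp (-(e * L))) ^ n := h3
      _ < Nq * 1 := mul_lt_mul_of_pos_left h5 hNq
      _ = Nq := mul_one _

section

variable {K : Type} [Field K] [NumberField K] [IsTotallyReal K]

/-- bounds for the logarithmic conductor in the windows -/
lemma lcS_bounds {𝔪 : Ideal (𝓞 K)} (h𝔪 : 𝔪 ≠ ⊥) {ν : InfinitePlace K → ℝ} {S T : ℝ}
    (hT : 0 < T) (hS1 : T / 2 ≤ S) (hS2 : S ≤ T) (hν : ∀ w, |ν w| ≤ T / 4) :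
    Real.log ((Ideal.absNorm 𝔪 : ℝ) * (T / 2) ^ Module.finrank ℚ K) / (Module.finrank ℚ K : ℝ) ≤
      lcS K 𝔪 ν S (T / 2) ∧
    lcS K 𝔪 ν S (T / 2) ≤ Real.log ((Ideal.absNorm 𝔪 : ℝ) * (T / 2) ^ Module.finrank ℚ K) /
      (Module.finrank ℚ K : ℝ) + Real.log 4 := by
  have hn := finrank_pos' (K := K)
  have hN := one_le_norm h𝔪
  have hcard : (Fintype.card (InfinitePlace K) : ℝ) = Module.finrank ℚ K := by
    rw [card_places]
  have e1 : Real.log ((Ideal.absNorm 𝔪 : ℝ) * (T / 2) ^ Module.finrank ℚ K) =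
      Real.log (Ideal.absNorm 𝔪) + ∑ _w : InfinitePlace K, Real.log (T / 2) := by
    rw [Real.log_mul (by linarith) (by positivity), Real.log_pow, Finset.sum_const,
      Finset.card_univ, nsmul_eq_mul, hcard]
  have e2 : Real.log ((Ideal.absNorm 𝔪 : ℝ) * (T / 2) ^ Module.finrank ℚ K) /
      (Module.finrank ℚ K : ℝ) + Real.log 4 =
      (Real.log (Ideal.absNorm 𝔪) + ∑ _w : InfinitePlace K, (Real.log (T / 2) + Real.log 4)) /
      (Module.finrank ℚ K : ℝ) := by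
    rw [e1, Finset.sum_add_distrib, Finset.sum_const (Real.log 4), Finset.card_univ,
      nsmul_eq_mul, hcard]
    field_simp
    ring
  rw [e2]
  unfold lcS
  rw [e1]
  constructor
  · refine div_le_div_of_nonneg_right ?_ hn.le
    refine add_le_add le_rfl (Finset.sum_le_sum fun w _ => ?_)
    have := (abs_le.mp (hν w)).2
    exact Real.log_le_log (by linarith) (by linarith)
  · refine div_le_div_of_nonneg_right ?_ hn.le
    refine add_le_add le_rfl (Finset.sum_le_sum fun w _ => ?_)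
    have := abs_le.mp (hν w)
    rw [← Real.log_mul (by positivity) (by norm_num)]
    exact Real.log_le_log (by linarith) (by linarith)

lemma LSW_subset {ι : Type} {s s' : Finset ι} {a : ι → ℕ → ℂ} {c : ℕ → ℂ} {M : ℕ} {w W W' : ℝ}
    (h : LSW s a c M w W) (hs : s' ⊆ s) (hw : 0 ≤ w) (hW : W ≤ W') : LSW s' a c M w W' := by
  intro b t₁
  have h1 : ∑ i ∈ s', ∫ t in t₁..(t₁ + w), ‖∑ m ∈ Finset.Icc 1 M,
      b m * a i m * cexp (-(((t * Real.log m : ℝ) : ℂ) * I))‖ ^ 2 ≤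
      ∑ i ∈ s, ∫ t in t₁..(t₁ + w), ‖∑ m ∈ Finset.Icc 1 M,
      b m * a i m * cexp (-(((t * Real.log m : ℝ) : ℂ) * I))‖ ^ 2 :=
    Finset.sum_le_sum_of_subset_of_nonneg hs fun i _ _ =>
      intervalIntegral.integral_nonneg (by linarith) fun t _ => by positivity
  refine h1.trans ((h b t₁).trans (mul_le_mul_of_nonneg_right hW ?_))
  exact Finset.sum_nonneg fun m _ => by positivity

/-- **The zeros of the L-functions of Hecke characters of totally real fields** -/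
theorem fin_main (K : Type) [Field K] [NumberField K] [IsTotallyReal K] (γ h ε : ℝ) (h0 : 0 < γ)
    (hπ : γ < Real.pi) (hh : 0 < h) (hh1 : h ≤ 1) (hε : 0 < ε) :
    ∃ δ V₀ : ℝ, 0 < δ ∧ 1 ≤ V₀ ∧
    ∀ (𝔣 𝔮 : Ideal (𝓞 K)) (ν₀ : InfinitePlace K → ℝ) (ψ₀ : Ideal (𝓞 K) →*₀ ℂ) (V T : ℝ),
    IsHecke K 𝔣 ν₀ ψ₀ → ∑ w, ν₀ w = 0 → IsCoprime 𝔣 𝔮 → 𝔮 ≠ ⊥ → 𝔣 * 𝔮 ≠ ⊤ →
    ∑ᶠ 𝔭 ∈ PD 𝔮, (1 / (Ideal.absNorm 𝔭 : ℝ)) ≤ δ → V₀ ≤ V → (∀ w, 4 * (|ν₀ w| + V) ≤ T) →
    2 * Real.log ((Ideal.absNorm (𝔣 * 𝔮) : ℝ) * T ^ Module.finrank ℚ K) ^ 2 ≤ T →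
    ((Ideal.absNorm (𝔣 * 𝔮) : ℝ) * T ^ Module.finrank ℚ K) ^ h ≤
      (Ideal.absNorm 𝔮 : ℝ) * V ^ Module.finrank ℚ K →
    (HFam K 𝔮 V).Finite ∧ (HFam K 𝔮 V).Nonempty ∧
    ∀ (E : Finset (Ideal (𝓞 K) →*₀ ℂ)) (Lf : (Ideal (𝓞 K) →*₀ ℂ) → ℂ → ℂ),
      (∀ lam ∈ E, lam ∈ HFam K 𝔮 V) → (1 - δ) * ((HFam K 𝔮 V).ncard : ℝ) ≤ (E.card : ℝ) →
      (∀ lam ∈ E, Differentiable ℂ (Lf lam) ∧
        ∀ s : ℂ, 1 < s.re → Lf lam s = LI (pr ψ₀ lam) s) →
      (∀ lam ∈ E, (zset (Lf lam) T (2 * T)).Finite ∧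
        (1 - ε) * (T / (2 * Real.pi) *
          Real.log ((Ideal.absNorm (𝔣 * 𝔮) : ℝ) * T ^ Module.finrank ℚ K)) ≤
            (NN (Lf lam) T (2 * T) : ℝ)) ∧
      (2 - kc γ h - ε) * ∑ lam ∈ E, (NN (Lf lam) T (2 * T) : ℝ) ≤
        ∑ lam ∈ E, (Ns (Lf lam) T (2 * T) : ℝ) ∧
      (3 - kc γ h - ε) * ∑ lam ∈ E, (NN (Lf lam) T (2 * T) : ℝ) ≤
        2 * ∑ lam ∈ E, (Nd (Lf lam) T (2 * T) : ℝ) := by
  have hpi := Real.pi_pos
  obtain ⟨n, hn⟩ : ∃ n : ℕ, n = Module.finrank ℚ K := ⟨_, rfl⟩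
  have hn0 : 1 ≤ n := by rw [hn]; exact Module.finrank_pos
  have hn1 : (1 : ℝ) ≤ n := by exact_mod_cast hn0
  obtain ⟨U⟩ := exists_UD (K := K) t_unitb
  obtain ⟨D, hD, hz⟩ := zeros_core γ h (ε / 2) h0 hπ hh (by positivity)
  obtain ⟨A, hA, hgood⟩ := goodS K
  obtain ⟨η, ε0, η2, L0, hη, hε0, hε01, hη2, hL0, hzz⟩ :=
    hz (cK K) (Pool.Agent.Y772.HC.t_mer K) (n : ℝ) A hn1 hA
  obtain ⟨D₁, hD₁⟩ : ∃ D₁ : ℝ, D₁ = (1 + D) / 2 := ⟨_, rfl⟩
  have hD₁1 : 1 < D₁ := by rw [hD₁]; linarith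
  have hD₁D : D₁ < D := by rw [hD₁]; linarith
  obtain ⟨δq, V₁, C, hδq, hV₁, hC, hls⟩ := lsw_fam U D₁ η2 hD₁1 hη2
  obtain ⟨δ, hδd⟩ : ∃ δ : ℝ, δ = min δq (min (1 / 2) (1 - D₁ / D)) := ⟨_, rfl⟩
  have hDD : D₁ / D < 1 := by rw [div_lt_one (by linarith)]; exact hD₁D
  have hδ : 0 < δ := by
    rw [hδd]
    exact lt_min hδq (lt_min (by norm_num) (by linarith))
  have hδ1 : δ ≤ δq := by rw [hδd]; exact min_le_left _ _
  have hδ2 : δ ≤ 1 / 2 := by rw [hδd]; exact (min_le_right _ _).trans (min_le_left _ _)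
  have hδ3 : δ ≤ 1 - D₁ / D := by rw [hδd]; exact (min_le_right _ _).trans (min_le_right _ _)
  obtain ⟨Lm, hLm⟩ : ∃ Lm : ℝ, Lm = max (max L0 (Real.log 4 / (2 * η)))
    (max (2 * (C * (4 * n + 1)) / (h * ε0) ^ 2 + 1) (4 / ε)) := ⟨_, rfl⟩
  refine ⟨δ, max (max V₁ (1 / η2)) (Real.exp Lm), hδ, le_max_of_le_left (le_max_of_le_left hV₁), ?_⟩
  intro 𝔣 𝔮 ν₀ ψ₀ V T hψ hs₀ hcop h𝔮 htop hδ𝔮 hV hνT hlog hX
  have hV1 : V₁ ≤ V := ((le_max_left _ _).trans (le_max_left _ _)).trans hV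
  have hVη : 1 / η2 ≤ V := ((le_max_right _ _).trans (le_max_left _ _)).trans hV
  have hVL : Real.exp Lm ≤ V := (le_max_right _ _).trans hV
  have hV0 : 0 < V := lt_of_lt_of_le (Real.exp_pos _) hVL
  have hVge : 1 ≤ V := hV₁.trans hV1
  have hbot : 𝔣 * 𝔮 ≠ ⊥ := mul_ne_zero hψ.ne_bot h𝔮
  obtain ⟨hfin, hne, hls2⟩ := hls 𝔣 𝔮 hcop htop hbot V hV1 (hδ𝔮.trans hδ1)
  refine ⟨hfin, hne, ?_⟩
  intro E Lf hE hEc hLf
  have hncard : (HFam K 𝔮 V).ncard = hfin.toFinset.card := Set.ncard_eq_toFinset_card _ hfin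
  have hcpos : 0 < (hfin.toFinset.card : ℝ) := by
    have := (Set.Finite.toFinset_nonempty hfin).mpr hne
    exact_mod_cast this.card_pos
  rw [hncard] at hEc
  have hEpos : 0 < (E.card : ℝ) := lt_of_lt_of_le (mul_pos (by linarith) hcpos) hEc
  have hEne : E.Nonempty := by
    rw [← Finset.card_pos]
    exact_mod_cast hEpos
  have hEsub : E ⊆ hfin.toFinset := fun lam hl => by
    rw [Set.Finite.mem_toFinset]
    exact hE lam hl
  have hEcard : D₁ * (hfin.toFinset.card : ℝ) ≤ D * (E.card : ℝ) := by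
    have h1 : D₁ / D * (hfin.toFinset.card : ℝ) ≤ (E.card : ℝ) :=
      le_trans (mul_le_mul_of_nonneg_right (by linarith) hcpos.le) hEc
    have h2 := mul_le_mul_of_nonneg_left h1 (show 0 ≤ D by linarith)
    have h3 : D * (D₁ / D * (hfin.toFinset.card : ℝ)) = D₁ * (hfin.toFinset.card : ℝ) := by
      have : D ≠ 0 := by linarith
      field_simp
    rw [h3] at h2
    exact h2
  obtain ⟨w₀⟩ : Nonempty (InfinitePlace K) := inferInstance
  have hTV : 4 * V ≤ T := by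
    have h1 := hνT w₀
    have h2 := abs_nonneg (ν₀ w₀)
    linarith
  have hT0 : 0 < T := by linarith
  obtain ⟨N, hN⟩ : ∃ N : ℝ, N = (Ideal.absNorm (𝔣 * 𝔮) : ℝ) := ⟨_, rfl⟩
  have hN1 : 1 ≤ N := by rw [hN]; exact one_le_norm hbot
  have hNq1 : (1 : ℝ) ≤ (Ideal.absNorm 𝔮 : ℝ) := one_le_norm h𝔮
  rw [← hn, ← hN] at hlog hX
  obtain ⟨L, hL⟩ : ∃ L : ℝ, L = Real.log (N * (T / 2) ^ n) / n := ⟨_, rfl⟩
  have hnL : (n : ℝ) * L = Real.log (N * (T / 2) ^ n) := by rw [hL]; field_simp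
  have hNT0 : 0 < N * (T / 2) ^ n := by positivity
  have hexpL : Real.exp (n * L) = N * (T / 2) ^ n := by rw [hnL, Real.exp_log hNT0]
  have hlogT : Real.log (T / 2) ≤ L := by
    rw [hL, le_div_iff₀ (by linarith), Real.log_mul (by linarith) (by positivity), Real.log_pow]
    have := Real.log_nonneg hN1
    linarith
  have hLLm : Lm ≤ L := by
    refine le_trans ?_ hlogT
    rw [← Real.log_exp Lm]
    exact Real.log_le_log (Real.exp_pos _) (by linarith)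
  have hLL0 : L0 ≤ L := by
    refine le_trans ?_ hLLm
    rw [hLm]; exact le_max_of_le_left (le_max_left _ _)
  have hLη : Real.log 4 / (2 * η) ≤ L := by
    refine le_trans ?_ hLLm
    rw [hLm]; exact le_max_of_le_left (le_max_right _ _)
  have hLC : 2 * (C * (4 * n + 1)) / (h * ε0) ^ 2 + 1 ≤ L := by
    refine le_trans ?_ hLLm
    rw [hLm]; exact le_max_of_le_right (le_max_left _ _)
  have hLε : 4 / ε ≤ L := by
    refine le_trans ?_ hLLm
    rw [hLm]; exact le_max_of_le_right (le_max_right _ _)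
  have hL8 : 8 ≤ L := hL0.trans hLL0
  have hLpos : 0 < L := by linarith
  have hell : Real.log (N * T ^ n) = n * L + n * Real.log 2 := by
    rw [hnL, Real.log_mul (by linarith) (by positivity), Real.log_mul (by linarith) (by positivity),
      Real.log_pow, Real.log_pow, Real.log_div (by linarith) (by norm_num)]
    ring
  have hlog2 : 0 < Real.log 2 := Real.log_pos (by norm_num)
  have hLT : L ^ 2 ≤ T / 2 := by
    have h1 : L ≤ Real.log (N * T ^ n) := by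
      rw [hell]
      have h2 : 1 * L ≤ n * L := mul_le_mul_of_nonneg_right hn1 hLpos.le
      have h3 : 0 ≤ (n : ℝ) * Real.log 2 := by positivity
      linarith
    have h4 : L ^ 2 ≤ Real.log (N * T ^ n) ^ 2 := pow_le_pow_left₀ hLpos.le h1 2
    linarith
  have hTexp : T / 2 ≤ Real.exp (L ^ 2 / 2) := by
    have h1 : T / 2 ≤ Real.exp L := by
      rw [← Real.log_le_iff_le_exp (by positivity)]
      exact hlogT
    refine h1.trans (Real.exp_le_exp.mpr ?_)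
    have h2 : 8 * L ≤ L * L := mul_le_mul_of_nonneg_right hL8 hLpos.le
    rw [pow_two]
    linarith
  have hw1 : 1 ≤ η2 * V := by
    rw [div_le_iff₀ hη2] at hVη
    linarith
  have hw2 : η2 * V ≤ η2 * (T / 2) := mul_le_mul_of_nonneg_left (by linarith) hη2.le
  have hlen := len_ok hn0 hh hh1 hε0 hε01 hC hL8 hLC hV0 (lt_of_lt_of_le one_pos hNq1)
    (by positivity : 0 < N * T ^ n) (by
      rw [hexpL]
      have : (T / 2) ^ n ≤ T ^ n := pow_le_pow_left₀ (by positivity) (by linarith) n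
      exact mul_le_mul_of_nonneg_left this (by linarith)) hX
  obtain ⟨q1, q2, q3⟩ := hlen
  have hLSW0 := hls2 hfin ν₀ ψ₀ hs₀ hψ.toIsHM (4 * n * L + 2 * Real.pi)
    ⌊Real.exp (h * n * (1 - ε0) * L)⌋₊ q1 q2 (by rw [← hn]; exact q3)
  have hLSW := LSW_subset hLSW0 hEsub (show 0 ≤ η2 * V by positivity)
    (show D₁ * (hfin.toFinset.card : ℝ) * (η2 * V) ≤ D * (E.card : ℝ) * (η2 * V) from
      mul_le_mul_of_nonneg_right hEcard (by positivity))
  -- the infinity types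
  have hex : ∀ lam : Ideal (𝓞 K) →*₀ ℂ, ∃ ν : InfinitePlace K → ℝ, lam ∈ HFam K 𝔮 V →
      (∀ w, |ν w| ≤ V) ∧ ∑ w, ν w = 0 ∧ IsHecke K 𝔮 ν lam := by
    intro lam
    by_cases hl : lam ∈ HFam K 𝔮 V
    · obtain ⟨ν, hν⟩ := hl
      exact ⟨ν, fun _ => hν⟩
    · exact ⟨0, fun h => absurd h hl⟩
  choose νl hνl using hex
  have hcond : ∀ lam ∈ HFam K 𝔮 V, (∀ w, |(ν₀ + νl lam) w| ≤ T / 4) ∧
      ∑ w, (ν₀ + νl lam) w = 0 ∧ IsHecke K (𝔣 * 𝔮) (ν₀ + νl lam) (pr ψ₀ lam) := by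
    intro lam hl
    obtain ⟨b1, b2, b3⟩ := hνl lam hl
    refine ⟨fun w => ?_, ?_, pr_isHecke hcop hψ b3⟩
    · rw [Pi.add_apply]
      refine (abs_add_le _ _).trans ?_
      have := hνT w
      linarith [b1 w]
    · simp only [Pi.add_apply]
      rw [Finset.sum_add_distrib, hs₀, b2, add_zero]
  have hcc : ∀ lam ∈ HFam K 𝔮 V, ∀ m : ℕ, ‖cc (pr ψ₀ lam) m‖ ≤ n := by
    intro lam hl m
    obtain ⟨b1, b2, b3⟩ := hcond lam hl
    obtain ⟨e₀, he₀, hM⟩ := b3.toIsHM.isModK b2 htop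
    rw [hn]
    exact Pool.Agent.Y772.DK.norm_cc_le _ hM.norm_le_one m
  -- the windows
  have key : ∀ S : ℝ, T / 2 ≤ S → S ≤ T →
      (∀ lam ∈ E, (zset (fun z => Lf lam (z + (S : ℂ) * I)) (T / 2)
        (2 * (T / 2))).Finite ∧ (1 - ε / 2) * ((T / 2) / (2 * Real.pi) * (n * L)) ≤
          (NN (fun z => Lf lam (z + (S : ℂ) * I)) (T / 2) (2 * (T / 2)) : ℝ)) ∧
      (2 - kc γ h - ε / 2) * ∑ lam ∈ E,
        (NN (fun z => Lf lam (z + (S : ℂ) * I)) (T / 2) (2 * (T / 2)) : ℝ) ≤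
        ∑ lam ∈ E,
        (Ns (fun z => Lf lam (z + (S : ℂ) * I)) (T / 2) (2 * (T / 2)) : ℝ) ∧
      (3 - kc γ h - ε / 2) * ∑ lam ∈ E,
        (NN (fun z => Lf lam (z + (S : ℂ) * I)) (T / 2) (2 * (T / 2)) : ℝ) ≤
        2 * ∑ lam ∈ E,
        (Nd (fun z => Lf lam (z + (S : ℂ) * I)) (T / 2) (2 * (T / 2)) : ℝ) := by
    intro S hS1 hS2
    refine hzz E (fun lam => lcS K (𝔣 * 𝔮) (ν₀ + νl lam) S)
      (fun lam z => Lf lam (z + (S : ℂ) * I))
      (fun lam m => (cc (pr ψ₀ lam) m * (vonMangoldt m : ℂ)) * (m : ℂ) ^ (-((S : ℂ) * I)))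
      L (T / 2) (η2 * V) ?_ hLL0 hLT hTexp hw1 hw2 ?_ ?_ ?_
    · exact hEne
    · intro lam hl
      obtain ⟨b1, b2, b3⟩ := hcond lam (hE lam hl)
      have hνS : ∀ w, |(ν₀ + νl lam) w| ≤ S / 2 := fun w => (b1 w).trans (by linarith)
      obtain ⟨c1, c2⟩ := lcS_bounds hbot hT0 hS1 hS2 b1
      rw [← hn, ← hN, ← hL] at c1 c2
      refine ⟨lcS_logC hbot fun w => ?_, ?_, c1, c2.trans ?_⟩
      · have := (abs_le.mp (b1 w)).2
        linarith
      · have h1 := hgood (𝔣 * 𝔮) htop (ν₀ + νl lam) (pr ψ₀ lam) S (by nlinarith) hνS b2 b3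
          (Lf lam) (hLf lam hl).1 (hLf lam hl).2
        rw [← hn] at h1
        exact h1
      · rw [div_le_iff₀ (by positivity)] at hLη
        linarith
    · intro lam hl m
      rcases Nat.eq_zero_or_pos m with rfl | hm
      · simp
      · rw [norm_mul, norm_mul, Complex.norm_natCast_cpow_of_pos hm, Complex.norm_real,
          Real.norm_of_nonneg ArithmeticFunction.vonMangoldt_nonneg]
        have h1 : ((m : ℝ) ^ (-((S : ℂ) * I)).re) = 1 := by simp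
        rw [h1, mul_one]
        exact mul_le_mul_of_nonneg_right (hcc lam (hE lam hl) m) ArithmeticFunction.vonMangoldt_nonneg
    · exact LSW_shift hLSW S
  obtain ⟨k1, k2, k3⟩ := key (T / 2) le_rfl (by linarith)
  obtain ⟨m1, m2, m3⟩ := key T (by linarith) le_rfl
  -- back to the zeros of the functions themselves
  have hT1 : T ≤ 3 / 2 * T := by linarith
  have hT2 : 3 / 2 * T ≤ 2 * T := by linarith
  have sA : ∀ lam, NN (fun z => Lf lam (z + ((T / 2 : ℝ) : ℂ) * I)) (T / 2) (2 * (T / 2)) =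
      NN (Lf lam) T (3 / 2 * T) := fun lam => by
    rw [NN_shift (Lf lam) (T / 2)]
    congr 1 <;> ring
  have sB : ∀ lam, NN (fun z => Lf lam (z + ((T : ℝ) : ℂ) * I)) (T / 2) (2 * (T / 2)) =
      NN (Lf lam) (3 / 2 * T) (2 * T) := fun lam => by
    rw [NN_shift (Lf lam) T]
    congr 1 <;> ring
  have sA' : ∀ lam, Ns (fun z => Lf lam (z + ((T / 2 : ℝ) : ℂ) * I)) (T / 2) (2 * (T / 2)) =
      Ns (Lf lam) T (3 / 2 * T) := fun lam => by
    rw [Ns_shift (Lf lam) (T / 2)]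
    congr 1 <;> ring
  have sB' : ∀ lam, Ns (fun z => Lf lam (z + ((T : ℝ) : ℂ) * I)) (T / 2) (2 * (T / 2)) =
      Ns (Lf lam) (3 / 2 * T) (2 * T) := fun lam => by
    rw [Ns_shift (Lf lam) T]
    congr 1 <;> ring
  have sA'' : ∀ lam, Nd (fun z => Lf lam (z + ((T / 2 : ℝ) : ℂ) * I)) (T / 2) (2 * (T / 2)) =
      Nd (Lf lam) T (3 / 2 * T) := fun lam => by
    rw [Nd_shift (Lf lam) (T / 2)]
    congr 1 <;> ring
  have sB'' : ∀ lam, Nd (fun z => Lf lam (z + ((T : ℝ) : ℂ) * I)) (T / 2) (2 * (T / 2)) =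
      Nd (Lf lam) (3 / 2 * T) (2 * T) := fun lam => by
    rw [Nd_shift (Lf lam) T]
    congr 1 <;> ring
  have zA : ∀ lam ∈ E, (zset (Lf lam) T (3 / 2 * T)).Finite := fun lam hl => by
    rw [zset_shift (Lf lam) (T / 2)]
    refine Set.Finite.image _ ?_
    have := (k1 lam hl).1
    convert this using 2 <;> ring
  have zB : ∀ lam ∈ E, (zset (Lf lam) (3 / 2 * T) (2 * T)).Finite := fun lam hl => by
    rw [zset_shift (Lf lam) T]
    refine Set.Finite.image _ ?_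
    have := (m1 lam hl).1
    convert this using 2 <;> ring
  simp only [sA, sA', sA''] at k1 k2 k3
  simp only [sB, sB', sB''] at m1 m2 m3
  have uN : ∀ lam ∈ E, (NN (Lf lam) T (2 * T) : ℝ) =
      NN (Lf lam) T (3 / 2 * T) + NN (Lf lam) (3 / 2 * T) (2 * T) := fun lam hl => by
    rw [NN_union (Lf lam) hT1 hT2 (zA lam hl) (zB lam hl), Nat.cast_add]
  have uS : ∀ lam ∈ E, (Ns (Lf lam) T (2 * T) : ℝ) =
      Ns (Lf lam) T (3 / 2 * T) + Ns (Lf lam) (3 / 2 * T) (2 * T) := fun lam hl => by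
    rw [Ns_union (Lf lam) hT1 hT2 (zA lam hl) (zB lam hl), Nat.cast_add]
  have uD : ∀ lam ∈ E, (Nd (Lf lam) T (2 * T) : ℝ) =
      Nd (Lf lam) T (3 / 2 * T) + Nd (Lf lam) (3 / 2 * T) (2 * T) := fun lam hl => by
    rw [Nd_union (Lf lam) hT1 hT2 (zA lam hl) (zB lam hl), Nat.cast_add]
  rw [Finset.sum_congr rfl uN, Finset.sum_congr rfl uS, Finset.sum_congr rfl uD,
    Finset.sum_add_distrib, Finset.sum_add_distrib, Finset.sum_add_distrib]
  have p1 : 0 ≤ ∑ lam ∈ E, (NN (Lf lam) T (3 / 2 * T) : ℝ) :=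
    Finset.sum_nonneg fun _ _ => Nat.cast_nonneg _
  have p2 : 0 ≤ ∑ lam ∈ E, (NN (Lf lam) (3 / 2 * T) (2 * T) : ℝ) :=
    Finset.sum_nonneg fun _ _ => Nat.cast_nonneg _
  refine ⟨fun lam hl => ?_, ?_, ?_⟩
  · have hl' : lam ∈ E := hl
    refine ⟨?_, ?_⟩
    · rw [zset_union (Lf lam) hT1 hT2]
      exact (zA lam hl').union (zB lam hl')
    · rw [uN lam hl', ← hn, ← hN, hell]
      have r1 := (k1 lam hl').2
      have r2 := (m1 lam hl').2
      by_cases hε1 : ε ≤ 1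
      · have r3 : (1 - ε) * (n * L + n * Real.log 2) ≤ (1 - ε / 2) * (n * L) := by
          have r4 : Real.log 2 ≤ 1 := by linarith [Real.log_two_lt_d9]
          have r5 : (1 - ε) * (n * Real.log 2) ≤ 1 * (n * Real.log 2) :=
            mul_le_mul_of_nonneg_right (by linarith) (by positivity)
          have r6 : (n : ℝ) * Real.log 2 ≤ n * (ε / 2 * L) := by
            refine mul_le_mul_of_nonneg_left ?_ (by linarith)
            rw [div_le_iff₀ hε] at hLε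
            linarith
          linarith
        have r4 : (1 - ε) * (T / (2 * Real.pi) * (n * L + n * Real.log 2)) ≤
            T / (2 * Real.pi) * ((1 - ε / 2) * (n * L)) := by
          calc _ = T / (2 * Real.pi) * ((1 - ε) * (n * L + n * Real.log 2)) := by ring
            _ ≤ _ := mul_le_mul_of_nonneg_left r3 (by positivity)
        refine r4.trans ?_
        have r5 : T / (2 * Real.pi) * ((1 - ε / 2) * (n * L)) =
            (1 - ε / 2) * ((T / 2) / (2 * Real.pi) * (n * L)) +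
            (1 - ε / 2) * ((T / 2) / (2 * Real.pi) * (n * L)) := by ring
        rw [r5]
        exact add_le_add r1 r2
      · push Not at hε1
        have r3 : (1 - ε) * (T / (2 * Real.pi) * (n * L + n * Real.log 2)) ≤ 0 :=
          mul_nonpos_of_nonpos_of_nonneg (by linarith) (by positivity)
        refine r3.trans ?_
        positivity
  · have r1 : 0 ≤ ε / 2 * (∑ lam ∈ E, (NN (Lf lam) T (3 / 2 * T) : ℝ) +
      ∑ lam ∈ E, (NN (Lf lam) (3 / 2 * T) (2 * T) : ℝ)) :=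
      mul_nonneg (by positivity) (add_nonneg p1 p2)
    linarith
  · have r1 : 0 ≤ ε / 2 * (∑ lam ∈ E, (NN (Lf lam) T (3 / 2 * T) : ℝ) +
      ∑ lam ∈ E, (NN (Lf lam) (3 / 2 * T) (2 * T) : ℝ)) :=
      mul_nonneg (by positivity) (add_nonneg p1 p2)
    linarith

/-- the constant for relative length close to one -/
lemma exists_h : ∃ a e : ℝ, 0 < a ∧ a < 1 ∧ 0 < e ∧ kc 1.414 (1 - a) + e ≤ 1.3275 := by
  have hc := H385.Rw_const_d2
  obtain ⟨R0, hR0⟩ : ∃ R0 : ℝ, R0 = Rw 1.414 0 := ⟨_, rfl⟩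
  obtain ⟨J, hJ⟩ : ∃ J : ℝ, J = ∫ α in (0 : ℝ)..1, α * Rw 1.414 α := ⟨_, rfl⟩
  rw [← hR0, ← hJ] at hc
  have h1 : ContinuousAt (fun a : ℝ => 1 / (1 - a) * R0 + 2 * (1 - a) * J) 0 := by
    refine ContinuousAt.add (ContinuousAt.mul (ContinuousAt.div continuousAt_const ?_ ?_)
      continuousAt_const) ?_
    · fun_prop
    · norm_num
    · fun_prop
  have h2 : (fun a : ℝ => 1 / (1 - a) * R0 + 2 * (1 - a) * J) 0 < 1.3275 := by
    simp only [sub_zero]
    linarith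
  have h3 := h1.eventually_lt continuousAt_const h2
  have h4' : ∀ᶠ a : ℝ in 𝓝 (0 : ℝ), a < 1 := Iio_mem_nhds one_pos
  have h4 : ∀ᶠ a : ℝ in 𝓝[>] (0 : ℝ), a < 1 := h4'.filter_mono nhdsWithin_le_nhds
  obtain ⟨a, h5, h6, h7⟩ :=
    ((h3.filter_mono nhdsWithin_le_nhds).and (h4.and self_mem_nhdsWithin)).exists
  refine ⟨a, 1.3275 - (1 / (1 - a) * R0 + 2 * (1 - a) * J), h7, h6, by linarith, ?_⟩
  unfold kc
  rw [← hR0, ← hJ]
  linarith

lemma kc_cH {h : ℝ} (h0 : 0 < h) (h1 : h ≤ 1) :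
    kc (Real.sqrt 2 * h) h = Pool.Agent.Y762.cH h := by
  unfold kc
  exact Pool.Agent.Y762.Rw_cH h h0 h1

lemma sqrt2_lt {h : ℝ} (h1 : h ≤ 1) : Real.sqrt 2 * h < Real.pi := by
  have hs1 : Real.sqrt 2 ≤ 1.5 := by
    rw [Real.sqrt_le_left (by norm_num)]; norm_num
  have hs0 : 0 ≤ Real.sqrt 2 := Real.sqrt_nonneg 2
  have := Real.pi_gt_three
  nlinarith

end

end Pool.Agent.N786
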