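import Pool.Agent.N786.Sep2
import Pool.Agent.Y287.HC.BesFin

/-!
# Bessel's inequality for the characters of the ideals prime to `𝔪` (owner helper786)
-/

set_option autoImplicit false
set_option linter.unusedSectionVars false

open NumberField NumberField.Units MeasureTheory Complex

namespace Pool.Agent.N786

open Pool.Agent.Y773 (TPos rl)
open Pool.Agent.Y767

section

variable {K : Type} [Field K] [NumberField K] [IsTotallyReal K]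

/-- the parameters of a character of the ideals prime to `𝔪`: on the principal ideals it is given
by a character modulo `𝔮 ∣ 𝔪` and an infinity type -/
def HasPar (U : UD K) {𝔪 𝔮 : Ideal (𝓞 K)} (h : 𝔮 ∣ 𝔪) (F : Mq 𝔪 →* ℂˣ)
    (p : ((𝓞 K ⧸ 𝔮)ˣ →* ℂˣ) × (Fin (rank K) → ℝ)) : Prop :=
  ∀ x : Tq 𝔪, ((F (pq 𝔪 x) : ℂˣ) : ℂ) = ((p.1 (gm h x) : ℂˣ) : ℂ) *
    cexp (2 * Real.pi * I * ((∑ i, p.2 i * U.yc (x : 𝓞 K) i : ℝ) : ℂ))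

lemma norm_exp_two_pi (t : ℝ) : ‖cexp (2 * Real.pi * I * (t : ℂ))‖ = 1 := by
  have : 2 * Real.pi * I * (t : ℂ) = ((2 * Real.pi * t : ℝ) : ℂ) * I := by
    push_cast; ring
  rw [this, Complex.norm_exp_ofReal_mul_I]

lemma norm_hom {G : Type} [CommGroup G] [Finite G] (χ : G →* ℂˣ) (g : G) :
    ‖((χ g : ℂˣ) : ℂ)‖ = 1 := by
  refine norm_eq_one_of_pow_eq_one (n := Nat.card G) ?_ Nat.card_pos.ne'
  rw [← Units.val_pow_eq_pow_val, ← map_pow, pow_card_eq_one', map_one, Units.val_one]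

lemma HasPar.norm_one {U : UD K} {𝔪 𝔮 : Ideal (𝓞 K)} (h𝔪 : 𝔪 ≠ ⊤) (h𝔮 : 𝔮 ≠ ⊥) {h : 𝔮 ∣ 𝔪}
    [Finite (Cls (pq 𝔪))] {F : Mq 𝔪 →* ℂˣ} {p : ((𝓞 K ⧸ 𝔮)ˣ →* ℂˣ) × (Fin (rank K) → ℝ)}
    (hF : HasPar U h F p) (𝔞 : Mq 𝔪) : ‖((F 𝔞 : ℂˣ) : ℂ)‖ = 1 := by
  have : Finite (𝓞 K ⧸ 𝔮) := Ideal.finiteQuotientOfFreeOfNeBot 𝔮 h𝔮
  have h1 : cls (pq 𝔪) (𝔞 ^ Nat.card (Cls (pq 𝔪))) = 1 := by
    rw [map_pow, pow_card_eq_one']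
  obtain ⟨t, ht⟩ := cls_one h𝔪 h1
  have h2 : ‖((F 𝔞 : ℂˣ) : ℂ)‖ ^ Nat.card (Cls (pq 𝔪)) = 1 := by
    rw [← norm_pow, ← Units.val_pow_eq_pow_val, ← map_pow, ht, hF t, norm_mul, norm_hom,
      norm_exp_two_pi, mul_one]
  exact (pow_eq_one_iff_of_nonneg (norm_nonneg _) Nat.card_pos.ne').mp h2

/-- comparison of the values of `F` in a class -/
lemma HasPar.val {U : UD K} {𝔪 𝔮 : Ideal (𝓞 K)} {h : 𝔮 ∣ 𝔪}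
    {F : Mq 𝔪 →* ℂˣ} {p : ((𝓞 K ⧸ 𝔮)ˣ →* ℂˣ) × (Fin (rank K) → ℝ)}
    (hF : HasPar U h F p) {𝔞 𝔞₀ : Mq 𝔪} {a b : Tq 𝔪} (hab : pq 𝔪 a * 𝔞 = pq 𝔪 b * 𝔞₀) :
    ((F 𝔞 : ℂˣ) : ℂ) = ((F 𝔞₀ : ℂˣ) : ℂ) * (((p.1 (gm h b * (gm h a)⁻¹) : ℂˣ) : ℂ) *
      cexp (2 * Real.pi * I *
        ((∑ i, p.2 i * (U.yc (b : 𝓞 K) i - U.yc (a : 𝓞 K) i) : ℝ) : ℂ))) := by
  have h1 : ((F (pq 𝔪 a) : ℂˣ) : ℂ) * ((F 𝔞 : ℂˣ) : ℂ) =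
      ((F (pq 𝔪 b) : ℂˣ) : ℂ) * ((F 𝔞₀ : ℂˣ) : ℂ) := by
    rw [← Units.val_mul, ← Units.val_mul, ← map_mul, ← map_mul, hab]
  rw [hF a, hF b] at h1
  have e1 : ((p.1 (gm h b * (gm h a)⁻¹) : ℂˣ) : ℂ) =
      ((p.1 (gm h b) : ℂˣ) : ℂ) * ((p.1 (gm h a) : ℂˣ) : ℂ)⁻¹ := by
    rw [map_mul, map_inv, Units.val_mul, Units.val_inv_eq_inv_val]
  have e2 : cexp (2 * Real.pi * I *
        ((∑ i, p.2 i * (U.yc (b : 𝓞 K) i - U.yc (a : 𝓞 K) i) : ℝ) : ℂ)) =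
      cexp (2 * Real.pi * I * ((∑ i, p.2 i * U.yc (b : 𝓞 K) i : ℝ) : ℂ)) *
      (cexp (2 * Real.pi * I * ((∑ i, p.2 i * U.yc (a : 𝓞 K) i : ℝ) : ℂ)))⁻¹ := by
    rw [← Complex.exp_neg, ← Complex.exp_add]
    congr 1
    have : (∑ i, p.2 i * (U.yc (b : 𝓞 K) i - U.yc (a : 𝓞 K) i) : ℝ) =
      ∑ i, p.2 i * U.yc (b : 𝓞 K) i - ∑ i, p.2 i * U.yc (a : 𝓞 K) i := by
      rw [← Finset.sum_sub_distrib]
      exact Finset.sum_congr rfl fun i _ => by ring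
    rw [this]
    push_cast
    ring
  rw [e1, e2]
  have n1 : ((p.1 (gm h a) : ℂˣ) : ℂ) ≠ 0 := Units.ne_zero _
  have n2 : cexp (2 * Real.pi * I * ((∑ i, p.2 i * U.yc (a : 𝓞 K) i : ℝ) : ℂ)) ≠ 0 :=
    Complex.exp_ne_zero _
  field_simp
  linear_combination h1

lemma swap3 {P Q R : Type} (s : Finset P) (t : Finset Q) (v : Finset R) (a : P → Q → ℝ)
    (b : P → Q → R → ℝ) (x : ℝ) :
    ∑ p ∈ s, ∑ k ∈ t, a p k * (x * ∑ c ∈ v, b p k c) =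
      x * ∑ c ∈ v, ∑ p ∈ s, ∑ k ∈ t, a p k * b p k c := by
  simp_rw [Finset.mul_sum]
  symm
  rw [Finset.sum_comm]
  refine Finset.sum_congr rfl fun p _ => ?_
  rw [Finset.sum_comm]
  refine Finset.sum_congr rfl fun k _ => Finset.sum_congr rfl fun c _ => ?_
  ring

/-- the Fourier transform -/
noncomputable def FTg {r : ℕ} (g : (Fin (r + 1) → ℝ) → ℂ) (k : ℝ) (θ : Fin r → ℝ) : ℂ :=
  ∫ z : Fin (r + 1) → ℝ, g z *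
    cexp (-(2 * Real.pi * I * ((∑ i, (Fin.cons k θ : Fin (r + 1) → ℝ) i * z i : ℝ) : ℂ)))

open Classical in
/-- **Bessel's inequality** -/
theorem besM (U : UD K) {𝔪 𝔮 : Ideal (𝓞 K)} (h𝔪 : 𝔪 ≠ ⊤) (h𝔮 : 𝔮 ≠ ⊥) (h : 𝔮 ∣ 𝔪)
    [Fintype (Cls (pq 𝔪))] [Fintype (𝓞 K ⧸ 𝔮)ˣ] (ρ : ℝ)
    (g : (Fin (rank K + 1) → ℝ) → ℂ) (hg : Continuous g) (hg0 : ∀ z, (∃ i, ρ < |z i|) → g z = 0)
    (S : Finset (Mq 𝔪)) (yl : Mq 𝔪 → ℝ)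
    (hsep : ∀ 𝔞₀ 𝔞₁ 𝔞₂ : Mq 𝔪, 𝔞₁ ∈ S → 𝔞₂ ∈ S → ∀ (a₁ b₁ a₂ b₂ : Tq 𝔪)
      (m : Fin (rank K) → ℤ) (l : ℤ),
      pq 𝔪 a₁ * 𝔞₁ = pq 𝔪 b₁ * 𝔞₀ → pq 𝔪 a₂ * 𝔞₂ = pq 𝔪 b₂ * 𝔞₀ →
      gm h b₁ * (gm h a₁)⁻¹ * ∏ i, U.eG 𝔮 i ^ m i = gm h b₂ * (gm h a₂)⁻¹ →
      (∀ i, |(U.yc (b₁ : 𝓞 K) i - U.yc (a₁ : 𝓞 K) i) + m i -
        (U.yc (b₂ : 𝓞 K) i - U.yc (a₂ : 𝓞 K) i)| ≤ 2 * ρ) →
      |yl 𝔞₁ + l - yl 𝔞₂| ≤ 2 * ρ → 𝔞₁ = 𝔞₂ ∧ l = 0 ∧ (a₁ = a₂ → b₁ = b₂ → m = 0))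
    (Y : Finset (Mq 𝔪 →* ℂˣ))
    (par : (Mq 𝔪 →* ℂˣ) → ((𝓞 K ⧸ 𝔮)ˣ →* ℂˣ) × (Fin (rank K) → ℝ))
    (hpar : ∀ F ∈ Y, HasPar U h F (par F))
    (hpar2 : ∀ F ∈ Y, ∀ i, (((par F).1 (U.eG 𝔮 i) : ℂˣ) : ℂ) *
      cexp (2 * Real.pi * I * ((par F).2 i : ℂ)) = 1)
    (Ks : Finset ℤ) (u : Mq 𝔪 → ℂ) :
    ∑ F ∈ Y, ∑ k ∈ Ks, ‖FTg g k (par F).2‖ ^ 2 *
      ‖∑ 𝔞 ∈ S, u 𝔞 * cexp (2 * Real.pi * I * ((k * yl 𝔞 : ℝ) : ℂ)) * ((F 𝔞 : ℂˣ) : ℂ)‖ ^ 2 ≤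
    (Fintype.card (Cls (pq 𝔪)) : ℝ) * (Fintype.card (𝓞 K ⧸ 𝔮)ˣ * (∫ z, ‖g z‖ ^ 2) *
      ∑ 𝔞 ∈ S, ‖u 𝔞‖ ^ 2) := by
  have hcan := Mq_cancel h𝔪
  have hB := Pool.Agent.Y287.HC.t_bes
  set P₀ := Y.image par with hP₀
  -- one character for every parameter
  have hsel : ∀ p ∈ P₀, ∃ F ∈ Y, par F = p := fun p hp => Finset.mem_image.mp hp
  choose! Fp hFpY hFpp using hsel
  have h1 : ∑ F ∈ Y, ∑ k ∈ Ks, ‖FTg g k (par F).2‖ ^ 2 *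
      ‖∑ 𝔞 ∈ S, u 𝔞 * cexp (2 * Real.pi * I * ((k * yl 𝔞 : ℝ) : ℂ)) * ((F 𝔞 : ℂˣ) : ℂ)‖ ^ 2 =
      ∑ p ∈ P₀, ∑ k ∈ Ks, ‖FTg g k p.2‖ ^ 2 * ∑ F ∈ Y with par F = p,
      ‖∑ 𝔞 ∈ S, u 𝔞 * cexp (2 * Real.pi * I * ((k * yl 𝔞 : ℝ) : ℂ)) *
        ((F 𝔞 : ℂˣ) : ℂ)‖ ^ 2 := by
    rw [← Finset.sum_fiberwise_of_maps_to (s := Y) (t := P₀) (g := par)
      (fun F hF => Finset.mem_image_of_mem _ hF)]
    refine Finset.sum_congr rfl fun p _ => ?_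
    rw [Finset.sum_comm]
    refine Finset.sum_congr rfl fun k _ => ?_
    rw [Finset.mul_sum]
    refine Finset.sum_congr rfl fun F hF => ?_
    rw [(Finset.mem_filter.mp hF).2]
  rw [h1]
  have h2 : ∀ p ∈ P₀, ∀ k ∈ Ks, ∑ F ∈ Y with par F = p,
      ‖∑ 𝔞 ∈ S, u 𝔞 * cexp (2 * Real.pi * I * ((k * yl 𝔞 : ℝ) : ℂ)) *
        ((F 𝔞 : ℂˣ) : ℂ)‖ ^ 2 ≤ (Fintype.card (Cls (pq 𝔪)) : ℝ) *
      ∑ c : Cls (pq 𝔪), ‖∑ 𝔞 ∈ S.filter (fun x => cls (pq 𝔪) x = c),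
        u 𝔞 * cexp (2 * Real.pi * I * ((k * yl 𝔞 : ℝ) : ℂ)) * ((Fp p 𝔞 : ℂˣ) : ℂ)‖ ^ 2 := by
    intro p hp k _
    refine bes_cls hB (pq 𝔪) (Fp p) _ ?_ S _
    intro F hF x
    obtain ⟨hFY, hFp⟩ := Finset.mem_filter.mp hF
    ext
    rw [hpar F hFY x, hpar _ (hFpY p hp) x, hFp, hFpp p hp]
  have h3 : ∀ c : Cls (pq 𝔪), ∑ p ∈ P₀, ∑ k ∈ Ks, ‖FTg g k p.2‖ ^ 2 *
      ‖∑ 𝔞 ∈ S.filter (fun x => cls (pq 𝔪) x = c),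
        u 𝔞 * cexp (2 * Real.pi * I * ((k * yl 𝔞 : ℝ) : ℂ)) * ((Fp p 𝔞 : ℂˣ) : ℂ)‖ ^ 2 ≤
      Fintype.card (𝓞 K ⧸ 𝔮)ˣ * (∫ z, ‖g z‖ ^ 2) *
        ∑ 𝔞 ∈ S.filter (fun x => cls (pq 𝔪) x = c), ‖u 𝔞‖ ^ 2 := by
    intro c
    rcases (S.filter (fun x => cls (pq 𝔪) x = c)).eq_empty_or_nonempty with h0 | ⟨𝔞₀, h0⟩
    · rw [h0]
      simp
    have hc0 := (Finset.mem_filter.mp h0).2
    have hex : ∀ 𝔞 : Mq 𝔪, ∃ a b : Tq 𝔪, cls (pq 𝔪) 𝔞 = c → pq 𝔪 a * 𝔞 = pq 𝔪 b * 𝔞₀ := by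
      intro 𝔞
      by_cases hc : cls (pq 𝔪) 𝔞 = c
      · obtain ⟨a, b, hab⟩ := cls_eq (hc.trans hc0.symm)
        exact ⟨a, b, fun _ => hab⟩
      · exact ⟨1, 1, fun h => absurd h hc⟩
    choose A B hAB using hex
    -- the points and the characters
    obtain ⟨f, hf⟩ : ∃ f : (((𝓞 K ⧸ 𝔮)ˣ →* ℂˣ) × (Fin (rank K) → ℝ)) × ℤ →
        ((𝓞 K ⧸ 𝔮)ˣ →* ℂˣ) × (Fin (rank K + 1) → ℝ),
      f = fun q => (q.1.1, (Fin.cons (q.2 : ℝ) q.1.2 : Fin (rank K + 1) → ℝ)) := ⟨_, rfl⟩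
    have hfinj : Function.Injective f := by
      intro q q' hq
      rw [hf] at hq
      simp only [Prod.mk.injEq] at hq
      obtain ⟨q1, q2⟩ := hq
      rw [Fin.cons_inj] at q2
      obtain ⟨q3, q4⟩ := q2
      have q5 : q.2 = q'.2 := by exact_mod_cast q3
      exact Prod.ext (Prod.ext q1 q4) q5
    have hbes := hB (rank K + 1) (𝓞 K ⧸ 𝔮)ˣ (Fin.cons 1 (U.eG 𝔮) : Fin (rank K + 1) → (𝓞 K ⧸ 𝔮)ˣ)
      ρ g hg hg0 (Mq 𝔪) (S.filter (fun x => cls (pq 𝔪) x = c))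
      (fun 𝔞 => gm h (B 𝔞) * (gm h (A 𝔞))⁻¹)
      (fun 𝔞 => (Fin.cons (yl 𝔞) (fun i => U.yc (B 𝔞 : 𝓞 K) i - U.yc (A 𝔞 : 𝓞 K) i) :
        Fin (rank K + 1) → ℝ))
      (by
        intro x hx x' hx' m hm1 hm2
        obtain ⟨hxS, hxc⟩ := Finset.mem_filter.mp hx
        obtain ⟨hxS', hxc'⟩ := Finset.mem_filter.mp hx'
        rw [Fin.prod_univ_succ] at hm1
        simp only [Fin.cons_zero, one_zpow, one_mul, Fin.cons_succ] at hm1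
        have hm3 := hm2 0
        simp only [Fin.cons_zero] at hm3
        have hm4 : ∀ i : Fin (rank K), |(U.yc (B x : 𝓞 K) i - U.yc (A x : 𝓞 K) i) +
            m i.succ - (U.yc (B x' : 𝓞 K) i - U.yc (A x' : 𝓞 K) i)| ≤ 2 * ρ := by
          intro i
          have := hm2 i.succ
          simpa only [Fin.cons_succ] using this
        obtain ⟨k1, k2, k3⟩ := hsep 𝔞₀ x x' hxS hxS' (A x) (B x) (A x') (B x') (fun i => m i.succ)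
          (m 0) (hAB x hxc) (hAB x' hxc') hm1 hm4 hm3
        refine ⟨k1, ?_⟩
        have k4 := k3 (by rw [k1]) (by rw [k1])
        funext i
        refine Fin.cases ?_ (fun j => ?_) i
        · exact k2
        · exact congrFun k4 j)
      ((P₀ ×ˢ Ks).map ⟨f, hfinj⟩) (by
        intro q hq i
        rw [Finset.mem_map] at hq
        obtain ⟨⟨p, k⟩, hpk, rfl⟩ := hq
        rw [Finset.mem_product] at hpk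
        simp only [Function.Embedding.coeFn_mk, hf]
        refine Fin.cases ?_ (fun j => ?_) i
        · simp only [Fin.cons_zero, map_one, Units.val_one, one_mul]
          rw [Complex.exp_eq_one_iff]
          exact ⟨k, by push_cast; ring⟩
        · simp only [Fin.cons_succ]
          have := hpar2 _ (hFpY p hpk.1) j
          rwa [hFpp p hpk.1] at this) u
    rw [Finset.sum_map, Finset.sum_product] at hbes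
    refine le_trans (le_of_eq ?_) hbes
    refine Finset.sum_congr rfl fun p hp => Finset.sum_congr rfl fun k hk => ?_
    have e1 : ‖FTg g k p.2‖ = ‖∫ z : Fin (rank K + 1) → ℝ, g z *
        cexp (-(2 * Real.pi * I * ((∑ i, (f (p, k)).2 i * z i : ℝ) : ℂ)))‖ := by
      rw [hf]
      rfl
    have hFp : HasPar U h (Fp p) p := by
      have := hpar _ (hFpY p hp)
      rwa [hFpp p hp] at this
    have e2 : ‖∑ 𝔞 ∈ S.filter (fun x => cls (pq 𝔪) x = c),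
        u 𝔞 * cexp (2 * Real.pi * I * ((k * yl 𝔞 : ℝ) : ℂ)) * ((Fp p 𝔞 : ℂˣ) : ℂ)‖ =
      ‖∑ x ∈ S.filter (fun x => cls (pq 𝔪) x = c), u x *
        ((((f (p, k)).1 (gm h (B x) * (gm h (A x))⁻¹) : ℂˣ)) : ℂ) *
        cexp (2 * Real.pi * I * ((∑ i, (f (p, k)).2 i * (Fin.cons (yl x)
          (fun i => U.yc (B x : 𝓞 K) i - U.yc (A x : 𝓞 K) i) :
        Fin (rank K + 1) → ℝ) i : ℝ) : ℂ))‖ := by
      have e3 : ∀ x ∈ S.filter (fun x => cls (pq 𝔪) x = c),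
          u x * cexp (2 * Real.pi * I * ((k * yl x : ℝ) : ℂ)) * ((Fp p x : ℂˣ) : ℂ) =
          ((Fp p 𝔞₀ : ℂˣ) : ℂ) * (u x *
        ((((f (p, k)).1 (gm h (B x) * (gm h (A x))⁻¹) : ℂˣ)) : ℂ) *
        cexp (2 * Real.pi * I * ((∑ i, (f (p, k)).2 i * (Fin.cons (yl x)
          (fun i => U.yc (B x : 𝓞 K) i - U.yc (A x : 𝓞 K) i) :
        Fin (rank K + 1) → ℝ) i : ℝ) : ℂ))) := by
        intro x hx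
        rw [hFp.val (hAB x (Finset.mem_filter.mp hx).2), Fin.sum_univ_succ, hf]
        simp only [Fin.cons_zero, Fin.cons_succ]
        have e4 : cexp (2 * Real.pi * I * (((k : ℝ) * yl x +
            ∑ i, p.2 i * (U.yc (B x : 𝓞 K) i - U.yc (A x : 𝓞 K) i) : ℝ) : ℂ)) =
            cexp (2 * Real.pi * I * (((k : ℝ) * yl x : ℝ) : ℂ)) *
            cexp (2 * Real.pi * I * ((∑ i, p.2 i * (U.yc (B x : 𝓞 K) i -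
              U.yc (A x : 𝓞 K) i) : ℝ) : ℂ)) := by
          rw [← Complex.exp_add]
          congr 1
          push_cast
          ring
        rw [e4]
        ring
      rw [Finset.sum_congr rfl e3, ← Finset.mul_sum, norm_mul, hFp.norm_one h𝔪 h𝔮, one_mul]
    rw [e1, e2]
    rfl
  calc _ ≤ ∑ p ∈ P₀, ∑ k ∈ Ks, ‖FTg g k p.2‖ ^ 2 * ((Fintype.card (Cls (pq 𝔪)) : ℝ) *
      ∑ c : Cls (pq 𝔪), ‖∑ 𝔞 ∈ S.filter (fun x => cls (pq 𝔪) x = c),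
        u 𝔞 * cexp (2 * Real.pi * I * ((k * yl 𝔞 : ℝ) : ℂ)) * ((Fp p 𝔞 : ℂˣ) : ℂ)‖ ^ 2) := by
        refine Finset.sum_le_sum fun p hp => Finset.sum_le_sum fun k hk => ?_
        exact mul_le_mul_of_nonneg_left (h2 p hp k hk) (sq_nonneg _)
    _ = (Fintype.card (Cls (pq 𝔪)) : ℝ) * ∑ c : Cls (pq 𝔪), ∑ p ∈ P₀, ∑ k ∈ Ks,
        ‖FTg g k p.2‖ ^ 2 * ‖∑ 𝔞 ∈ S.filter (fun x => cls (pq 𝔪) x = c),
        u 𝔞 * cexp (2 * Real.pi * I * ((k * yl 𝔞 : ℝ) : ℂ)) * ((Fp p 𝔞 : ℂˣ) : ℂ)‖ ^ 2 := by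
        exact swap3 _ _ _ _ _ _
    _ ≤ (Fintype.card (Cls (pq 𝔪)) : ℝ) * ∑ c : Cls (pq 𝔪),
        Fintype.card (𝓞 K ⧸ 𝔮)ˣ * (∫ z, ‖g z‖ ^ 2) *
        ∑ 𝔞 ∈ S.filter (fun x => cls (pq 𝔪) x = c), ‖u 𝔞‖ ^ 2 := by
        refine mul_le_mul_of_nonneg_left (Finset.sum_le_sum fun c _ => h3 c) (Nat.cast_nonneg _)
    _ = _ := by
        rw [← Finset.mul_sum, Finset.sum_fiberwise]

end

end Pool.Agent.N786
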