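import Pool.Agent.Y767.HC.Stm

/-!
# A function of compact support whose Fourier transform majorises a compact set (owner helper786)
-/

set_option autoImplicit false

open MeasureTheory Set Filter Topology FourierTransform
open scoped ContDiff Manifold

namespace Pool.Agent.N786

/-- the Schwartz function -/
lemma bump1 (r : ℕ) (B : Set (EuclideanSpace ℝ (Fin r))) (hB : IsCompact B) (δ : ℝ) (hδ : 0 < δ) :
    ∃ (η : ℝ) (h : SchwartzMap (EuclideanSpace ℝ (Fin r)) ℂ), 0 < η ∧
      (∀ θ ∈ B, 𝓕 (h : EuclideanSpace ℝ (Fin r) → ℂ) θ = ((1 + η : ℝ) : ℂ)) ∧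
      ∫ x, ‖h x‖ ^ 2 ≤ (volume B).toReal + δ := by
  set v : ℝ := (volume B).toReal with hv
  have hv0 : 0 ≤ v := ENNReal.toReal_nonneg
  have hvB : volume B ≠ ⊤ := hB.measure_lt_top.ne
  obtain ⟨U, hBU, hU, hUv⟩ := B.exists_isOpen_lt_add (μ := volume) hvB
    (ε := ENNReal.ofReal (δ / 2)) (by simpa using hδ)
  obtain ⟨L, hL, hBL, hLU⟩ := exists_compact_between hB hU hBU
  have hLv : (volume L).toReal ≤ v + δ / 2 := by
    have h1 : volume L ≤ volume B + ENNReal.ofReal (δ / 2) := (measure_mono hLU).trans hUv.le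
    have h2 := ENNReal.toReal_mono (by simp [hvB]) h1
    rwa [ENNReal.toReal_add hvB (by simp), ENNReal.toReal_ofReal (by positivity)] at h2
  obtain ⟨f, hf1, hf0, hf⟩ := exists_contMDiffMap_one_nhds_of_subset_interior
    (n := (⊤ : ℕ∞)) (𝓘(ℝ, EuclideanSpace ℝ (Fin r))) hB.isClosed hBL
  have hfd : ContDiff ℝ ∞ f := by
    have := f.contMDiff
    rwa [contMDiff_iff_contDiff] at this
  have hf1' : ∀ x ∈ B, f x = 1 := fun x hx => hf1.self_of_nhdsSet x hx
  set η : ℝ := δ / (6 * (v + δ)) with hη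
  have hη0 : 0 < η := by positivity
  have hη1 : η ≤ 1 := by
    rw [hη, div_le_one (by positivity)]
    nlinarith
  have hη2 : η * (v + δ) = δ / 6 := by
    rw [hη]
    field_simp
  set F : EuclideanSpace ℝ (Fin r) → ℂ := fun x => (((1 + η) * f x : ℝ) : ℂ) with hF
  have hFs : ∀ x ∉ L, F x = 0 := fun x hx => by
    rw [hF]
    simp [hf0 x hx]
  have hFc : HasCompactSupport F := HasCompactSupport.intro hL hFs
  have hFd : ContDiff ℝ ∞ F :=
    Complex.ofRealCLM.contDiff.comp (contDiff_const.mul hfd)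
  set ψ : SchwartzMap (EuclideanSpace ℝ (Fin r)) ℂ := hFc.toSchwartzMap hFd with hψ
  have hψF : ∀ x, ψ x = F x := fun x => rfl
  refine ⟨η, 𝓕⁻ ψ, hη0, ?_, ?_⟩
  · intro θ hθ
    rw [← SchwartzMap.fourier_coe, FourierTransform.fourier_fourierInv_eq, hψF, hF]
    simp only [hf1' θ hθ, mul_one]
  · have h1 := SchwartzMap.integral_norm_sq_fourier (𝓕⁻ ψ)
    rw [FourierTransform.fourier_fourierInv_eq] at h1
    rw [← h1]
    have h2 : ∫ x, ‖ψ x‖ ^ 2 = ∫ x in L, ‖ψ x‖ ^ 2 := by
      symm
      apply setIntegral_eq_integral_of_forall_compl_eq_zero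
      intro x hx
      rw [hψF, hFs x hx]
      simp
    rw [h2]
    have h3 : ∀ x, ‖ψ x‖ ^ 2 ≤ (1 + η) ^ 2 := by
      intro x
      rw [hψF, hF]
      simp only [Complex.norm_real, Real.norm_eq_abs]
      have h4 := hf x
      rw [abs_of_nonneg (mul_nonneg (by positivity) h4.1)]
      refine pow_le_pow_left₀ (mul_nonneg (by positivity) h4.1) ?_ 2
      calc (1 + η) * f x ≤ (1 + η) * 1 := mul_le_mul_of_nonneg_left h4.2 (by positivity)
        _ = 1 + η := mul_one _
    have h5 : ∫ x in L, ‖ψ x‖ ^ 2 ≤ ∫ _x in L, (1 + η) ^ 2 := by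
      refine setIntegral_mono_on ?_ ?_ hL.measurableSet fun x _ => h3 x
      · have : Continuous fun x => ‖ψ x‖ ^ 2 := by fun_prop
        exact this.continuousOn.integrableOn_compact hL
      · exact continuousOn_const.integrableOn_compact hL
    rw [setIntegral_const, smul_eq_mul, Measure.real] at h5
    refine h5.trans ?_
    have h6 : (1 + η) ^ 2 ≤ 1 + 3 * η := by nlinarith
    calc (volume L).toReal * (1 + η) ^ 2 ≤ (v + δ / 2) * (1 + 3 * η) := by gcongr
      _ = v + δ / 2 + 3 * (η * (v + δ / 2)) := by ring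
      _ ≤ v + δ / 2 + 3 * (η * (v + δ)) := by
          have : η * (v + δ / 2) ≤ η * (v + δ) := by
            refine mul_le_mul_of_nonneg_left ?_ hη0.le
            linarith
          linarith
      _ = v + δ := by rw [hη2]; ring

/-- the cut-off -/
noncomputable def cut (n : ℕ) (x : ℝ) : ℝ := max 0 (min 1 (n + 1 - x))

lemma cut_cont (n : ℕ) : Continuous (cut n) := by
  unfold cut
  fun_prop

lemma cut_nonneg (n : ℕ) (x : ℝ) : 0 ≤ cut n x := le_max_left _ _

lemma cut_le (n : ℕ) (x : ℝ) : cut n x ≤ 1 := max_le zero_le_one (min_le_left _ _)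

lemma cut_one (n : ℕ) {x : ℝ} (hx : x ≤ n) : cut n x = 1 := by
  unfold cut
  rw [min_eq_left (by linarith), max_eq_right zero_le_one]

lemma cut_zero (n : ℕ) {x : ℝ} (hx : n + 1 ≤ x) : cut n x = 0 := by
  unfold cut
  rw [max_eq_left]
  exact (min_le_right _ _).trans (by linarith)

/-- the truncated function -/
lemma bump2 (r : ℕ) (B : Set (EuclideanSpace ℝ (Fin r))) (hB : IsCompact B) (δ : ℝ) (hδ : 0 < δ) :
    ∃ (ρ : ℝ) (g : EuclideanSpace ℝ (Fin r) → ℂ), Continuous g ∧ (∀ x, ρ < ‖x‖ → g x = 0) ∧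
      (∀ θ ∈ B, 1 ≤ ‖𝓕 g θ‖) ∧ ∫ x, ‖g x‖ ^ 2 ≤ (volume B).toReal + δ := by
  obtain ⟨η, h, hη, hB1, hI⟩ := bump1 r B hB δ hδ
  have hint : Integrable (fun x => ‖h x‖) := h.integrable.norm
  have hlim : Tendsto (fun n : ℕ => ∫ x, (1 - cut n ‖x‖) * ‖h x‖) atTop 
      (𝓝 (∫ _x : EuclideanSpace ℝ (Fin r), (0 : ℝ))) := by
    refine tendsto_integral_of_dominated_convergence (fun x => ‖h x‖) ?_ hint ?_ ?_
    · intro n
      have : Continuous fun x : EuclideanSpace ℝ (Fin r) => (1 - cut n ‖x‖) * ‖h x‖ := by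
        have h1 := (cut_cont n).comp (continuous_norm (E := EuclideanSpace ℝ (Fin r)))
        have h2 : Continuous fun x => ‖h x‖ := by fun_prop
        exact (continuous_const.sub h1).mul h2
      exact this.aestronglyMeasurable
    · intro n
      refine Eventually.of_forall fun x => ?_
      have h1 := cut_nonneg n ‖x‖
      have h2 := cut_le n ‖x‖
      rw [Real.norm_eq_abs, abs_mul, abs_of_nonneg (by linarith : 0 ≤ 1 - cut n ‖x‖), abs_norm]
      exact mul_le_of_le_one_left (norm_nonneg _) (by linarith)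
    · refine Eventually.of_forall fun x => ?_
      refine tendsto_const_nhds.congr' ?_
      filter_upwards [eventually_ge_atTop ⌈‖x‖⌉₊] with n hn
      have : ‖x‖ ≤ n := (Nat.le_ceil _).trans (by exact_mod_cast hn)
      rw [cut_one n this, sub_self, zero_mul]
  rw [integral_zero] at hlim
  obtain ⟨n, hn⟩ := (hlim.eventually (gt_mem_nhds hη)).exists
  refine ⟨n + 1, fun x => (cut n ‖x‖ : ℂ) * h x, ?_, ?_, ?_, ?_⟩
  · have h1 := (cut_cont n).comp (continuous_norm (E := EuclideanSpace ℝ (Fin r)))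
    exact (Complex.continuous_ofReal.comp h1).mul h.continuous
  · intro x hx
    simp only
    rw [cut_zero n hx.le, Complex.ofReal_zero, zero_mul]
  · intro θ hθ
    have h1 := hB1 θ hθ
    have e0 : Continuous fun x : EuclideanSpace ℝ (Fin r) => (cut n ‖x‖ : ℂ) * h x := by
      have h1 := (cut_cont n).comp (continuous_norm (E := EuclideanSpace ℝ (Fin r)))
      exact (Complex.continuous_ofReal.comp h1).mul h.continuous
    have i1 : Integrable (fun x : EuclideanSpace ℝ (Fin r) => (cut n ‖x‖ : ℂ) * h x) := by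
      refine h.integrable.mono e0.aestronglyMeasurable (Eventually.of_forall fun x => ?_)
      rw [norm_mul, Complex.norm_real, Real.norm_of_nonneg (cut_nonneg n _)]
      exact mul_le_of_le_one_left (norm_nonneg _) (cut_le n _)
    have h2 : 𝓕 (h : EuclideanSpace ℝ (Fin r) → ℂ) θ -
        𝓕 (fun x : EuclideanSpace ℝ (Fin r) => (cut n ‖x‖ : ℂ) * h x) θ =
        ∫ x, Real.fourierChar (-inner ℝ x θ) • ((1 - (cut n ‖x‖ : ℂ)) * h x) := by
      rw [Real.fourier_eq, Real.fourier_eq, ← integral_sub]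
      · refine integral_congr_ae (Eventually.of_forall fun x => ?_)
        simp only
        rw [← smul_sub]
        congr 1
        ring
      · rw [Real.fourierIntegral_convergent_iff]
        exact h.integrable
      · rw [Real.fourierIntegral_convergent_iff]
        exact i1
    have h3 : ‖𝓕 (h : EuclideanSpace ℝ (Fin r) → ℂ) θ -
        𝓕 (fun x : EuclideanSpace ℝ (Fin r) => (cut n ‖x‖ : ℂ) * h x) θ‖ ≤ η := by
      rw [h2]
      refine (norm_integral_le_integral_norm _).trans (le_trans (le_of_eq ?_) hn.le)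
      refine integral_congr_ae (Eventually.of_forall fun x => ?_)
      simp only
      rw [Circle.norm_smul, norm_mul]
      congr 1
      rw [← Complex.ofReal_one, ← Complex.ofReal_sub, Complex.norm_real,
        Real.norm_of_nonneg (by linarith [cut_le n ‖x‖])]
    have h4 := norm_sub_norm_le (𝓕 (h : EuclideanSpace ℝ (Fin r) → ℂ) θ)
      (𝓕 (fun x : EuclideanSpace ℝ (Fin r) => (cut n ‖x‖ : ℂ) * h x) θ)
    rw [h1, Complex.norm_real, Real.norm_of_nonneg (by positivity), ← h1] at h4
    linarith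
  · refine le_trans (integral_mono_of_nonneg (Eventually.of_forall fun x => by positivity)
      ?_ (Eventually.of_forall fun x => ?_)) hI
    · have := h.memLp 2 (μ := volume)
      exact (memLp_two_iff_integrable_sq_norm h.continuous.aestronglyMeasurable).mp this
    · simp only
      rw [norm_mul, Complex.norm_real, Real.norm_of_nonneg (cut_nonneg n _)]
      refine pow_le_pow_left₀ (mul_nonneg (cut_nonneg n _) (norm_nonneg _)) ?_ 2
      exact mul_le_of_le_one_left (norm_nonneg _) (cut_le n _)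

/-- BUMP -/
theorem t_bump : Pool.Agent.Y767.StBump := by
  intro r B hB δ hδ
  have hB' : IsCompact ((WithLp.toLp 2 : (Fin r → ℝ) → EuclideanSpace ℝ (Fin r)) '' B) :=
    hB.image (PiLp.continuous_toLp 2 _)
  have hvol : volume ((WithLp.toLp 2 : (Fin r → ℝ) → EuclideanSpace ℝ (Fin r)) '' B) = volume B := by
    have h1 := (PiLp.volume_preserving_toLp (Fin r)).measure_preimage
      (s := (WithLp.toLp 2 : (Fin r → ℝ) → EuclideanSpace ℝ (Fin r)) '' B)
      hB'.measurableSet.nullMeasurableSet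
    rw [← h1, Set.preimage_image_eq _ (WithLp.toLp_injective 2)]
  obtain ⟨ρ, g, hg, hs, hF, hI⟩ := bump2 r _ hB' δ hδ
  rw [hvol] at hI
  have hme : MeasurableEmbedding (WithLp.toLp 2 : (Fin r → ℝ) → EuclideanSpace ℝ (Fin r)) :=
    (MeasurableEquiv.toLp 2 (Fin r → ℝ)).measurableEmbedding
  refine ⟨ρ, fun z => g (WithLp.toLp 2 z), hg.comp (PiLp.continuous_toLp 2 _), ?_, ?_, ?_⟩
  · rintro z ⟨i, hi⟩
    apply hs
    refine lt_of_lt_of_le hi ?_
    have := PiLp.norm_apply_le (WithLp.toLp 2 z : EuclideanSpace ℝ (Fin r)) i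
    simpa using this
  · intro θ hθ
    have h1 := hF (WithLp.toLp 2 θ) ⟨θ, hθ, rfl⟩
    have h2 : ∫ z : Fin r → ℝ, g (WithLp.toLp 2 z) *
        Complex.exp (-(2 * Real.pi * Complex.I * ((∑ i, θ i * z i : ℝ) : ℂ))) =
        𝓕 g (WithLp.toLp 2 θ) := by
      rw [Real.fourier_eq', ← (PiLp.volume_preserving_toLp (Fin r)).integral_comp hme]
      refine integral_congr_ae (Eventually.of_forall fun z => ?_)
      simp only
      rw [smul_eq_mul, mul_comm]
      congr 2
      have h3 : inner ℝ (WithLp.toLp 2 z : EuclideanSpace ℝ (Fin r)) (WithLp.toLp 2 θ) =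
          ∑ i, θ i * z i := by
        rw [PiLp.inner_apply]
        refine Finset.sum_congr rfl fun i _ => ?_
        simp
      rw [h3]
      push_cast
      ring
    rw [h2]
    nlinarith [norm_nonneg (𝓕 g (WithLp.toLp 2 θ))]
  · refine le_trans (le_of_eq ?_) hI
    exact (PiLp.volume_preserving_toLp (Fin r)).integral_comp hme (fun x => ‖g x‖ ^ 2)

end Pool.Agent.N786
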