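import Pool.Agent.N786.Sep
import Pool.Agent.Y773.HK.Geo

/-!
# The infinity type is determined by the values (owner helper786)
-/

set_option autoImplicit false
set_option linter.unusedSectionVars false

open NumberField Filter Topology

namespace Pool.Agent.N786

open Pool.Agent.Y773 (TPos rl Idx emb embD embE embE_apply embE_symm)
open Pool.Agent.Y767 (ax)

section

variable {K : Type} [Field K] [NumberField K] [IsTotallyReal K]

lemma rl_surj (σ : K →+* ℝ) : ∃ w : InfinitePlace K, ∀ x, rl w x = σ x := by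
  set φ : K →+* ℂ := Complex.ofRealHom.comp σ with hφ
  have hφx : ∀ x, φ x = ((σ x : ℝ) : ℂ) := fun x => rfl
  refine ⟨InfinitePlace.mk φ, fun x => ?_⟩
  have h1 : ((rl (InfinitePlace.mk φ) x : ℝ) : ℂ) = (InfinitePlace.mk φ).embedding x :=
    Pool.Agent.Y773.rl_cast _ x
  have h2 : (InfinitePlace.mk φ).embedding x = ((σ x : ℝ) : ℂ) := by
    rcases InfinitePlace.embedding_mk_eq φ with h | h
    · rw [h, hφx]
    · rw [h, ComplexEmbedding.conjugate_coe_eq, hφx, Complex.conj_ofReal]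
  rw [h2] at h1
  exact_mod_cast h1

lemma tpos_iff (x : 𝓞 K) : TPos K x ↔ ∀ w : InfinitePlace K, 0 < rl w (x : K) := by
  constructor
  · intro h w
    exact h _
  · intro h σ
    obtain ⟨w, hw⟩ := rl_surj σ
    rw [← hw]
    exact h w

/-- integers which approximate a given vector -/
lemma exists_approx (v : InfinitePlace K → ℝ) : ∃ β : ℕ → 𝓞 K, ∀ w : InfinitePlace K,
    Tendsto (fun T : ℕ => rl w ((β T : 𝓞 K) : K) / T) atTop (𝓝 (v w)) := by
  classical
  set c : Idx K → ℝ := (embE K).symm v with hc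
  have hcv : ∀ w, v w = ∑ j, c j * rl w (integralBasis K j) := by
    intro w
    have h1 : embE K c = v := by rw [hc, LinearEquiv.apply_symm_apply]
    rw [← h1, embE_apply]
    rfl
  refine ⟨fun T => ∑ j, (⌊(T : ℝ) * c j⌋ : ℤ) • RingOfIntegers.basis K j, fun w => ?_⟩
  have h2 : ∀ T : ℕ, rl w (((∑ j, (⌊(T : ℝ) * c j⌋ : ℤ) • RingOfIntegers.basis K j : 𝓞 K)) : K) =
      ∑ j, (⌊(T : ℝ) * c j⌋ : ℝ) * rl w (integralBasis K j) := by
    intro T
    have e1 : ((∑ j, (⌊(T : ℝ) * c j⌋ : ℤ) • RingOfIntegers.basis K j : 𝓞 K) : K) =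
        ∑ j, ((⌊(T : ℝ) * c j⌋ : ℤ) : K) * integralBasis K j := by
      have : ((∑ j, (⌊(T : ℝ) * c j⌋ : ℤ) • RingOfIntegers.basis K j : 𝓞 K) : K) =
        algebraMap (𝓞 K) K (∑ j, (⌊(T : ℝ) * c j⌋ : ℤ) • RingOfIntegers.basis K j) := rfl
      rw [this, map_sum]
      refine Finset.sum_congr rfl fun j _ => ?_
      rw [map_zsmul, zsmul_eq_mul, integralBasis_apply]
    rw [e1, map_sum]
    refine Finset.sum_congr rfl fun j _ => ?_
    rw [map_mul, map_intCast]
  simp only [h2]
  rw [hcv]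
  have h3 : ∀ T : ℕ, (∑ j, (⌊(T : ℝ) * c j⌋ : ℝ) * rl w (integralBasis K j)) / T =
      ∑ j, ((⌊(T : ℝ) * c j⌋ : ℝ) / T) * rl w (integralBasis K j) := by
    intro T
    rw [Finset.sum_div]
    exact Finset.sum_congr rfl fun j _ => by ring
  simp only [h3]
  refine tendsto_finsetSum _ fun j _ => ?_
  refine Tendsto.mul_const _ ?_
  have h5 : Tendsto (fun T : ℕ => c j - (T : ℝ)⁻¹) atTop (𝓝 (c j - 0)) :=
    tendsto_const_nhds.sub tendsto_inv_atTop_nhds_zero_nat
  rw [sub_zero] at h5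
  refine tendsto_of_tendsto_of_tendsto_of_le_of_le' h5 (tendsto_const_nhds (x := c j)) ?_ ?_
  · filter_upwards [eventually_ge_atTop 1] with T hT
    have hT0 : (0 : ℝ) < T := by exact_mod_cast hT
    have h6 := Int.lt_floor_add_one ((T : ℝ) * c j)
    rw [le_div_iff₀ hT0, sub_mul, inv_mul_cancel₀ hT0.ne']
    linarith
  · filter_upwards [eventually_ge_atTop 1] with T hT
    have hT0 : (0 : ℝ) < T := by exact_mod_cast hT
    have h6 := Int.floor_le ((T : ℝ) * c j)
    rw [div_le_iff₀ hT0]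
    linarith

end

/-- UNIQ -/
theorem t_uniq : Pool.Agent.Y767.StUniq := by
  intro K _ _ _ 𝔣 μ h𝔣 h
  classical
  set f : ℕ := Ideal.absNorm 𝔣 with hf
  have hf0 : f ≠ 0 := by rwa [hf, Ne, Ideal.absNorm_eq_zero_iff]
  have hf1 : (0 : ℝ) < f := by exact_mod_cast Nat.pos_of_ne_zero hf0
  have hfm : ((f : ℕ) : 𝓞 K) ∈ 𝔣 := Ideal.absNorm_mem 𝔣
  have key : ∀ v : InfinitePlace K → ℝ, (∀ w, 0 < v w) →
      Complex.exp (Complex.I * ((∑ w, μ w * Real.log (v w) : ℝ) : ℂ)) = 1 := by
    intro v hv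
    obtain ⟨β, hβ⟩ := exists_approx (K := K) v
    set x : ℕ → 𝓞 K := fun T => 1 + (f : 𝓞 K) * β T with hx
    set y : ℕ → 𝓞 K := fun T => 1 + (f : 𝓞 K) * (T : 𝓞 K) with hy
    have hxw : ∀ T w, rl w ((x T : 𝓞 K) : K) = 1 + f * rl w ((β T : 𝓞 K) : K) := by
      intro T w
      have e : ((x T : 𝓞 K) : K) = 1 + (f : K) * ((β T : 𝓞 K) : K) := by
        rw [hx]
        push_cast
        rfl
      rw [e, map_add, map_one, map_mul, map_natCast]
    have hyw : ∀ T w, rl w ((y T : 𝓞 K) : K) = 1 + f * T := by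
      intro T w
      have e : ((y T : 𝓞 K) : K) = 1 + (f : K) * (T : K) := by
        rw [hy]
        push_cast
        rfl
      rw [e, map_add, map_one, map_mul, map_natCast, map_natCast]
    have hy1 : ∀ T, TPos K (y T) := fun T => (tpos_iff _).mpr fun w => by
      rw [hyw]; positivity
    have hlim : ∀ w, Tendsto (fun T : ℕ => rl w ((x T : 𝓞 K) : K) / rl w ((y T : 𝓞 K) : K))
        atTop (𝓝 (v w)) := by
      intro w
      have h1 : Tendsto (fun T : ℕ => ((1 / f : ℝ) * (T : ℝ)⁻¹ + rl w ((β T : 𝓞 K) : K) / T) /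
          ((1 / f : ℝ) * (T : ℝ)⁻¹ + 1)) atTop (𝓝 (((1 / f : ℝ) * 0 + v w) / ((1 / f : ℝ) * 0 + 1))) := by
        have h2 : Tendsto (fun T : ℕ => (T : ℝ)⁻¹) atTop (𝓝 0) := tendsto_inv_atTop_nhds_zero_nat
        exact ((h2.const_mul _).add (hβ w)).div ((h2.const_mul _).add tendsto_const_nhds)
          (by simp)
      rw [mul_zero, zero_add, zero_add, div_one] at h1
      refine h1.congr' ?_
      filter_upwards [eventually_ge_atTop 1] with T hT
      have hT0 : (0 : ℝ) < T := by exact_mod_cast hT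
      rw [hxw, hyw]
      field_simp
    have hpos : ∀ᶠ T : ℕ in atTop, ∀ w, 0 < rl w ((x T : 𝓞 K) : K) := by
      rw [eventually_all]
      intro w
      filter_upwards [(hlim w).eventually (lt_mem_nhds (hv w))] with T hT
      have : 0 < rl w ((y T : 𝓞 K) : K) := (tpos_iff _).mp (hy1 T) w
      rw [div_pos_iff] at hT
      rcases hT with hT | hT
      · exact hT.1
      · linarith [hT.2]
    have hlim2 : Tendsto (fun T : ℕ => Complex.exp (Complex.I * ((∑ w, μ w *
        Real.log (rl w ((x T : 𝓞 K) : K) / rl w ((y T : 𝓞 K) : K)) : ℝ) : ℂ))) atTop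
        (𝓝 (Complex.exp (Complex.I * ((∑ w, μ w * Real.log (v w) : ℝ) : ℂ)))) := by
      have h1 : Tendsto (fun T : ℕ => ∑ w, μ w *
        Real.log (rl w ((x T : 𝓞 K) : K) / rl w ((y T : 𝓞 K) : K))) atTop
        (𝓝 (∑ w, μ w * Real.log (v w))) := by
        refine tendsto_finsetSum _ fun w _ => ?_
        exact ((Real.continuousAt_log (hv w).ne').tendsto.comp (hlim w)).const_mul _
      have h2 : Continuous fun t : ℝ => Complex.exp (Complex.I * (t : ℂ)) := by fun_prop
      exact (h2.tendsto _).comp h1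
    refine tendsto_nhds_unique hlim2 ?_
    refine tendsto_const_nhds.congr' ?_
    filter_upwards [hpos] with T hT
    have hx1 : TPos K (x T) := (tpos_iff _).mpr hT
    have a1 := h (x T) (by
      rw [hx]
      simp only [add_sub_cancel_left]
      exact Ideal.mul_mem_right _ _ hfm) hx1
    have a2 := h (y T) (by
      rw [hy]
      simp only [add_sub_cancel_left]
      exact Ideal.mul_mem_right _ _ hfm) (hy1 T)
    have e1 : ∑ w, μ w * Real.log (rl w ((x T : 𝓞 K) : K) / rl w ((y T : 𝓞 K) : K)) =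
        ∑ w, μ w * Real.log (w ((x T : 𝓞 K) : K)) - ∑ w, μ w * Real.log (w ((y T : 𝓞 K) : K)) := by
      rw [← Finset.sum_sub_distrib]
      refine Finset.sum_congr rfl fun w _ => ?_
      rw [rl_eq hx1, rl_eq (hy1 T), Real.log_div (w_pos (tpos_ne hx1) w).ne'
        (w_pos (tpos_ne (hy1 T)) w).ne']
      ring
    unfold Pool.Agent.Y767.ax at a1 a2
    rw [e1, Complex.ofReal_sub, mul_sub, Complex.exp_sub, a1, a2, div_one]
  funext w₀
  by_contra hne
  have hne' : μ w₀ ≠ 0 := hne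
  have h1 := key (fun w => if w = w₀ then Real.exp (Real.pi / μ w₀) else 1) (fun w => by
    split_ifs
    · exact Real.exp_pos _
    · exact one_pos)
  have h2 : ∑ w, μ w * Real.log (if w = w₀ then Real.exp (Real.pi / μ w₀) else 1) = Real.pi := by
    rw [Finset.sum_eq_single w₀]
    · rw [if_pos rfl, Real.log_exp]
      field_simp
    · intro w _ hw
      rw [if_neg hw, Real.log_one, mul_zero]
    · intro h3
      exact absurd (Finset.mem_univ _) h3
  rw [h2, mul_comm, Complex.exp_pi_mul_I] at h1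
  norm_num at h1

end Pool.Agent.N786
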