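import Pool.Agent.N786.Bes2
import Pool.Agent.N786.Uniq

/-!
# Existence of characters with given parameters (owner helper786)
-/

set_option autoImplicit false
set_option linter.unusedSectionVars false

open NumberField NumberField.Units Complex

namespace Pool.Agent.N786

open Pool.Agent.Y773 (TPos rl)
open Pool.Agent.Y767

section

variable {K : Type} [Field K] [NumberField K] [IsTotallyReal K]

/-- the condition on the units -/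
def Cond2 (U : UD K) {𝔮 : Ideal (𝓞 K)} (p : ((𝓞 K ⧸ 𝔮)ˣ →* ℂˣ) × (Fin (rank K) → ℝ)) : Prop :=
  ∀ i, ((p.1 (U.eG 𝔮 i) : ℂˣ) : ℂ) * cexp (2 * Real.pi * I * (p.2 i : ℂ)) = 1

lemma ax_ne_zero (ν : InfinitePlace K → ℝ) (x : K) : ax ν x ≠ 0 := Complex.exp_ne_zero _

/-- the character of the totally positive integers prime to `𝔮` -/
noncomputable def phiT (U : UD K) {𝔮 : Ideal (𝓞 K)}
    (p : ((𝓞 K ⧸ 𝔮)ˣ →* ℂˣ) × (Fin (rank K) → ℝ)) : Tq 𝔮 →* ℂˣ where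
  toFun x := p.1 (gq 𝔮 x) * Units.mk0 (ax (U.NU p.2) ((x : 𝓞 K) : K)) (ax_ne_zero _ _)
  map_one' := by
    rw [map_one, map_one, one_mul]
    ext
    rw [Units.val_mk0, Units.val_one]
    have : (((1 : Tq 𝔮) : 𝓞 K) : K) = 1 := by
      rw [Submonoid.coe_one]; exact map_one _
    rw [this]
    unfold ax
    simp
  map_mul' x y := by
    rw [map_mul, map_mul]
    ext
    rw [Units.val_mul, Units.val_mul, Units.val_mul, Units.val_mul, Units.val_mul, Units.val_mk0,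
      Units.val_mk0, Units.val_mk0, Submonoid.coe_mul,
      ax_coe_mul _ (tpos_ne (Tq_tp x)) (tpos_ne (Tq_tp y))]
    ring

lemma phiT_coe (U : UD K) {𝔮 : Ideal (𝓞 K)} (p : ((𝓞 K ⧸ 𝔮)ˣ →* ℂˣ) × (Fin (rank K) → ℝ))
    (x : Tq 𝔮) : ((phiT U p x : ℂˣ) : ℂ) =
      ((p.1 (gq 𝔮 x) : ℂˣ) : ℂ) * ax (U.NU p.2) ((x : 𝓞 K) : K) := rfl

lemma phiT_coe' (U : UD K) {𝔮 : Ideal (𝓞 K)} (p : ((𝓞 K ⧸ 𝔮)ˣ →* ℂˣ) × (Fin (rank K) → ℝ))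
    (x : Tq 𝔮) : ((phiT U p x : ℂˣ) : ℂ) = ((p.1 (gq 𝔮 x) : ℂˣ) : ℂ) *
      cexp (2 * Real.pi * I * ((∑ i, p.2 i * U.yc (x : 𝓞 K) i : ℝ) : ℂ)) := by
  rw [phiT_coe, U.ax_yc _ (tpos_ne (Tq_tp x))]

lemma hasPar_iff {U : UD K} {𝔪 𝔮 : Ideal (𝓞 K)} {h : 𝔮 ∣ 𝔪} {F : Mq 𝔪 →* ℂˣ}
    {p : ((𝓞 K ⧸ 𝔮)ˣ →* ℂˣ) × (Fin (rank K) → ℝ)} :
    HasPar U h F p ↔ ∀ x : Tq 𝔪, F (pq 𝔪 x) = phiT U p (inclT h x) := by
  constructor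
  · intro hF x
    ext
    rw [hF x, phiT_coe', inclT_coe]
    rfl
  · intro hF x
    rw [hF x, phiT_coe', inclT_coe]
    rfl

/-- the value of the infinity type at a product of the basic units -/
lemma ax_unit (U : UD K) (θ : Fin (rank K) → ℝ) (m : Fin (rank K) → ℤ) :
    ax (U.NU θ) (((∏ i, U.ε i ^ m i : (𝓞 K)ˣ) : 𝓞 K) : K) =
      ∏ i, (cexp (2 * Real.pi * I * (θ i : ℂ))) ^ m i := by
  unfold ax
  simp only [log_prod_unit]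
  have h1 : ∑ w, U.NU θ w * ∑ i, m i * Real.log (w ((U.ε i : 𝓞 K) : K)) =
      ∑ i, m i * (2 * Real.pi * θ i) := by
    simp_rw [Finset.mul_sum]
    rw [Finset.sum_comm]
    refine Finset.sum_congr rfl fun i _ => ?_
    rw [← U.NUl θ i, Finset.mul_sum]
    exact Finset.sum_congr rfl fun w _ => by ring
  rw [h1]
  have h2 : ∀ i, (cexp (2 * Real.pi * I * (θ i : ℂ))) ^ m i =
      cexp (I * ((m i * (2 * Real.pi * θ i) : ℝ) : ℂ)) := by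
    intro i
    rw [← Complex.exp_int_mul]
    congr 1
    push_cast
    ring
  simp only [h2]
  rw [← Complex.exp_sum]
  congr 1
  push_cast
  rw [Finset.mul_sum]

/-- `phiT` only depends on the ideal -/
lemma phiT_gen {U : UD K} {𝔮 : Ideal (𝓞 K)} {p : ((𝓞 K ⧸ 𝔮)ˣ →* ℂˣ) × (Fin (rank K) → ℝ)}
    (hp : Cond2 U p) {a b : Tq 𝔮} (hab : Ideal.span {(a : 𝓞 K)} = Ideal.span {(b : 𝓞 K)}) :
    phiT U p a = phiT U p b := by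
  rw [Ideal.span_singleton_eq_span_singleton] at hab
  obtain ⟨u, hu⟩ := hab
  have hu1 : TPos K (u : 𝓞 K) := by
    apply Pool.Agent.Y767.tpos_of_mul (Tq_tp a)
    rw [hu]; exact Tq_tp b
  obtain ⟨m, hm⟩ := U.gen u hu1
  have ha0 := tpos_ne (Tq_tp a)
  ext
  rw [phiT_coe, phiT_coe, ← hu, ax_coe_mul _ ha0 u.ne_zero, hm, ax_unit]
  have hg : gq 𝔮 b = gq 𝔮 a * ∏ i, U.eG 𝔮 i ^ m i := by
    ext
    rw [Units.val_mul, gq_coe, gq_coe, ← hu, map_mul]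
    congr 1
    have h6 : ∀ i, U.eG 𝔮 i = Units.map (Ideal.Quotient.mk 𝔮 : 𝓞 K →* 𝓞 K ⧸ 𝔮) (U.ε i) := by
      intro i
      ext
      rfl
    have h7 : (∏ i, U.eG 𝔮 i ^ m i : (𝓞 K ⧸ 𝔮)ˣ) =
        Units.map (Ideal.Quotient.mk 𝔮 : 𝓞 K →* 𝓞 K ⧸ 𝔮) u := by
      rw [hm, map_prod]
      exact Finset.prod_congr rfl fun i _ => by rw [h6, map_zpow]
    rw [h7]
    rfl
  rw [hg, map_mul, map_prod, Units.val_mul]
  have h8 : ((∏ i, p.1 (U.eG 𝔮 i ^ m i) : ℂˣ) : ℂ) *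
      ∏ i, (cexp (2 * Real.pi * I * (p.2 i : ℂ))) ^ m i = 1 := by
    rw [Units.coe_prod, ← Finset.prod_mul_distrib]
    refine Finset.prod_eq_one fun i _ => ?_
    rw [map_zpow, Units.val_zpow_eq_zpow_val, ← mul_zpow, hp i, one_zpow]
  calc ((p.1 (gq 𝔮 a) : ℂˣ) : ℂ) * ax (U.NU p.2) ((a : 𝓞 K) : K) =
      ((p.1 (gq 𝔮 a) : ℂˣ) : ℂ) * ax (U.NU p.2) ((a : 𝓞 K) : K) *
      (((∏ i, p.1 (U.eG 𝔮 i ^ m i) : ℂˣ) : ℂ) *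
      ∏ i, (cexp (2 * Real.pi * I * (p.2 i : ℂ))) ^ m i) := by rw [h8, mul_one]
    _ = _ := by ring

/-- existence of a character with given parameters -/
theorem exists_F (U : UD K) {𝔪 𝔮 : Ideal (𝓞 K)} (h𝔪 : 𝔪 ≠ ⊤) (h : 𝔮 ∣ 𝔪)
    {p : ((𝓞 K ⧸ 𝔮)ˣ →* ℂˣ) × (Fin (rank K) → ℝ)} (hp : Cond2 U p) :
    ∃ F : Mq 𝔪 →* ℂˣ, HasPar U h F p := by
  have hcan := Mq_cancel h𝔪
  obtain ⟨F, hF⟩ := ext_mon (pq 𝔪) ((phiT U p).comp (inclT h)) (by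
    intro a b hab
    rw [MonoidHom.comp_apply, MonoidHom.comp_apply]
    apply phiT_gen hp
    rw [inclT_coe, inclT_coe]
    exact congrArg Subtype.val hab)
  exact ⟨F, hasPar_iff.mpr fun x => by rw [hF x, MonoidHom.comp_apply]⟩

/-! ### the class group is finite -/

lemma exists_tpos_cong {𝔞 𝔪 : Ideal (𝓞 K)} (h𝔞 : 𝔞 ≠ ⊥) (h𝔪 : 𝔪 ≠ ⊥) (hc : IsCoprime 𝔞 𝔪) :
    ∃ a : 𝓞 K, a ∈ 𝔞 ∧ a - 1 ∈ 𝔪 ∧ TPos K a := by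
  obtain ⟨x, hx, y, hy, hxy⟩ := (Ideal.isCoprime_iff_exists).1 hc
  have hN : 0 < Ideal.absNorm (𝔞 * 𝔪) := by
    refine Nat.pos_of_ne_zero ?_
    rw [Ne, Ideal.absNorm_eq_zero_iff, ← Ideal.zero_eq_bot]
    exact mul_ne_zero h𝔞 h𝔪
  obtain ⟨k, hk, -⟩ := Pool.Agent.Y772.TW.exists_tpos x hN
  have hNm : ((Ideal.absNorm (𝔞 * 𝔪) : ℕ) : 𝓞 K) ∈ 𝔞 * 𝔪 := Ideal.absNorm_mem _
  refine ⟨_, ?_, ?_, hk⟩
  · exact 𝔞.add_mem hx (𝔞.mul_mem_left _ (Ideal.mul_le_left hNm))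
  · have e : x + (k : 𝓞 K) * (Ideal.absNorm (𝔞 * 𝔪) : 𝓞 K) - 1 =
      (k : 𝓞 K) * (Ideal.absNorm (𝔞 * 𝔪) : 𝓞 K) - y := by rw [← hxy]; ring
    rw [e]
    exact 𝔪.sub_mem (𝔪.mul_mem_left _ (Ideal.mul_le_right hNm)) hy

lemma coprime_of_sub_one {𝔪 : Ideal (𝓞 K)} {a : 𝓞 K} (h : a - 1 ∈ 𝔪) :
    IsCoprime (Ideal.span {a}) 𝔪 := by
  rw [Ideal.isCoprime_iff_exists]
  exact ⟨a, Ideal.mem_span_singleton_self a, 1 - a, by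
    rw [← neg_sub]; exact neg_mem h, by ring⟩

/-- a relation `(x') 𝔞 = (x) 𝔞'` comes from one with factors prime to `𝔪` -/
lemma frac {𝔪 : Ideal (𝓞 K)} (h𝔪 : 𝔪 ≠ ⊤) (h𝔪0 : 𝔪 ≠ ⊥) {𝔞 𝔞' : Mq 𝔪} {x x' : 𝓞 K}
    (hx : TPos K x) (hx' : TPos K x')
    (hxx : Ideal.span {x'} * (𝔞 : Ideal (𝓞 K)) = Ideal.span {x} * (𝔞' : Ideal (𝓞 K))) :
    ∃ a a' : Tq 𝔪, (a : 𝓞 K) * x' = (a' : 𝓞 K) * x ∧ pq 𝔪 a' * 𝔞 = pq 𝔪 a * 𝔞' := by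
  obtain ⟨a', ha1, ha2, ha3⟩ := exists_tpos_cong (Mq_ne_bot h𝔪 𝔞') h𝔪0 (Mq_cop 𝔞')
  have hx0 := tpos_ne hx
  have hx0' := tpos_ne hx'
  have h1 : x * a' ∈ Ideal.span {x'} := by
    have h2 : x * a' ∈ Ideal.span {x} * (𝔞' : Ideal (𝓞 K)) :=
      Ideal.mul_mem_mul (Ideal.mem_span_singleton_self x) ha1
    rw [← hxx] at h2
    exact Ideal.mul_le_left h2
  obtain ⟨a, ha⟩ := Ideal.mem_span_singleton'.mp h1
  have ha0 : TPos K a := by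
    apply Pool.Agent.Y767.tpos_of_mul hx'
    rw [mul_comm, ha]; exact tpos_mul hx ha3
  have h3 : Ideal.span {a'} * (𝔞 : Ideal (𝓞 K)) = Ideal.span {a} * (𝔞' : Ideal (𝓞 K)) := by
    apply mul_left_cancel₀ (a := Ideal.span {x'})
    · rw [Ne, Ideal.zero_eq_bot, Ideal.span_singleton_eq_bot]; exact hx0'
    · calc Ideal.span {x'} * (Ideal.span {a'} * (𝔞 : Ideal (𝓞 K))) =
          Ideal.span {a'} * (Ideal.span {x'} * (𝔞 : Ideal (𝓞 K))) := by ring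
        _ = Ideal.span {x * a'} * (𝔞' : Ideal (𝓞 K)) := by
            rw [hxx, ← Ideal.span_singleton_mul_span_singleton]; ring
        _ = _ := by
            rw [← ha, ← Ideal.span_singleton_mul_span_singleton]; ring
  have hca' : IsCoprime (Ideal.span {a'}) 𝔪 := coprime_of_sub_one ha2
  have hca : IsCoprime (Ideal.span {a}) 𝔪 := by
    have h4 : IsCoprime (Ideal.span {a} * (𝔞' : Ideal (𝓞 K))) 𝔪 := by
      rw [← h3]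
      exact IsCoprime.mul_left hca' (Mq_cop 𝔞)
    exact (IsCoprime.mul_left_iff.mp h4).1
  refine ⟨⟨a, ha0, hca⟩, ⟨a', ha3, hca'⟩, ?_, ?_⟩
  · change a * x' = a' * x
    rw [ha, mul_comm]
  · apply Subtype.ext
    exact h3

/-- the narrow class group is finite -/
theorem finite_cls {𝔪 : Ideal (𝓞 K)} (h𝔪 : 𝔪 ≠ ⊤) (h𝔪0 : 𝔪 ≠ ⊥) : Finite (Cls (pq 𝔪)) := by
  classical
  have hcan := Mq_cancel h𝔪
  obtain ⟨S, hS0, hS⟩ := t_rep K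
  have hfin : (Set.range (cls (pq 𝔪))).Finite := by
    have h1 : ∀ 𝔟 : Ideal (𝓞 K), ∃ 𝔞₀ : Mq 𝔪, (∃ (𝔞 : Mq 𝔪) (x : 𝓞 K), TPos K x ∧
        (𝔞 : Ideal (𝓞 K)) * 𝔟 = Ideal.span {x}) →
        ∃ x : 𝓞 K, TPos K x ∧ (𝔞₀ : Ideal (𝓞 K)) * 𝔟 = Ideal.span {x} := by
      intro 𝔟
      by_cases h : ∃ (𝔞 : Mq 𝔪) (x : 𝓞 K), TPos K x ∧ (𝔞 : Ideal (𝓞 K)) * 𝔟 = Ideal.span {x}
      · obtain ⟨𝔞, x, h2, h3⟩ := h
        exact ⟨𝔞, fun _ => ⟨x, h2, h3⟩⟩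
      · exact ⟨1, fun h' => absurd h' h⟩
    choose A hA using h1
    refine (S.image fun 𝔟 => cls (pq 𝔪) (A 𝔟)).finite_toSet.subset ?_
    rintro _ ⟨𝔞, rfl⟩
    obtain ⟨𝔟, h𝔟, x, hx, hax⟩ := hS _ (Mq_ne_bot h𝔪 𝔞)
    obtain ⟨x₀, hx₀, hax₀⟩ := hA 𝔟 ⟨𝔞, x, hx, hax⟩
    have h2 : Ideal.span {x₀} * (𝔞 : Ideal (𝓞 K)) = Ideal.span {x} * (A 𝔟 : Ideal (𝓞 K)) := by
      rw [← hax, ← hax₀]; ring
    obtain ⟨a, a', -, h3⟩ := frac h𝔪 h𝔪0 hx hx₀ h2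
    rw [Finset.mem_coe, Finset.mem_image]
    exact ⟨𝔟, h𝔟, (cls_of_mul h3).symm⟩
  have h2 : (Set.univ : Set (Cls (pq 𝔪))) ⊆
      (fun q : Cls (pq 𝔪) × Cls (pq 𝔪) => q.1 / q.2) ''
        (Set.range (cls (pq 𝔪)) ×ˢ Set.range (cls (pq 𝔪))) := by
    intro c _
    obtain ⟨a, b, hab⟩ := cls_div (pq 𝔪) c
    exact ⟨(cls (pq 𝔪) a, cls (pq 𝔪) b), ⟨⟨a, rfl⟩, ⟨b, rfl⟩⟩, by
      rw [← hab]; exact mul_div_cancel_right _ _⟩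
  exact Set.finite_univ_iff.mp (((hfin.prod hfin).image _).subset h2)

end

end Pool.Agent.N786
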