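import Pool.Agent.N786.Fam

/-!
# The number of primitive characters (owner helper786)
-/

set_option autoImplicit false
set_option linter.unusedSectionVars false

open NumberField NumberField.Units Complex

namespace Pool.Agent.N786

open Pool.Agent.Y773 (TPos rl)
open Pool.Agent.Y767

section

/-- the characters trivial on a subgroup -/
lemma card_triv {G : Type} [CommGroup G] [Finite G] (H : Subgroup G) :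
    Nat.card {χ : G →* ℂˣ | ∀ g ∈ H, χ g = 1} * Nat.card H ≤ Nat.card G := by
  have hfin : Finite (G ⧸ H →* ℂˣ) := finite_dual _
  have h1 : Nat.card {χ : G →* ℂˣ | ∀ g ∈ H, χ g = 1} ≤ Nat.card (G ⧸ H →* ℂˣ) := by
    refine Nat.card_le_card_of_injective (fun χ => QuotientGroup.lift H χ.1 fun g hg =>
      MonoidHom.mem_ker.mpr (χ.2 g hg)) ?_
    intro χ χ' h
    apply Subtype.ext
    ext g
    have := DFunLike.congr_fun h (QuotientGroup.mk g)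
    exact congrArg Units.val this
  rw [card_dual] at h1
  rw [Subgroup.card_eq_card_quotient_mul_card_subgroup H]
  exact Nat.mul_le_mul_right _ h1

end

section

variable {K : Type} [Field K] [NumberField K] [IsTotallyReal K]

lemma finite_quot {𝔮 : Ideal (𝓞 K)} (h : 𝔮 ≠ ⊥) : Finite (𝓞 K ⧸ 𝔮) := by
  have : Ideal.absNorm 𝔮 ≠ 0 := by rwa [Ne, Ideal.absNorm_eq_zero_iff]
  exact (Ideal.absNorm_ne_zero_iff _).mp this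

/-- the kernel of the reduction -/
noncomputable def redK (𝔮 𝔮' : Ideal (𝓞 K)) (h : 𝔮 ≤ 𝔮') : Subgroup (𝓞 K ⧸ 𝔮)ˣ :=
  (Units.map ((Ideal.Quotient.factor h : 𝓞 K ⧸ 𝔮 →+* 𝓞 K ⧸ 𝔮') : 𝓞 K ⧸ 𝔮 →* 𝓞 K ⧸ 𝔮')).ker

lemma mem_redK {𝔮 𝔮' : Ideal (𝓞 K)} (h : 𝔮 ≤ 𝔮') (g : (𝓞 K ⧸ 𝔮)ˣ) (x : 𝓞 K)
    (hx : Ideal.Quotient.mk 𝔮 x = g) : g ∈ redK 𝔮 𝔮' h ↔ x - 1 ∈ 𝔮' := by
  unfold redK
  rw [MonoidHom.mem_ker, Units.ext_iff, Units.val_one, Units.coe_map]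
  change Ideal.Quotient.factor h (g : 𝓞 K ⧸ 𝔮) = 1 ↔ _
  rw [← hx, Ideal.Quotient.factor_mk, ← map_one (Ideal.Quotient.mk 𝔮'), Ideal.Quotient.eq]

/-- lower bound for the kernel of the reduction -/
lemma card_redK {𝔮 𝔮' 𝔭 : Ideal (𝓞 K)} (hp : 𝔭.IsPrime) (hq : 𝔮 = 𝔮' * 𝔭) (h0 : 𝔮 ≠ ⊥)
    (h : 𝔮 ≤ 𝔮') : Ideal.absNorm 𝔭 - 1 ≤ Nat.card (redK 𝔮 𝔮' h) := by
  classical
  have hfin := finite_quot h0
  have hp0 : 𝔭 ≠ ⊥ := by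
    rintro rfl
    exact h0 (by rw [hq, Ideal.mul_bot])
  have hfinp := finite_quot hp0
  have hmax : 𝔭.IsMaximal := hp.isMaximal hp0
  -- an element of `𝔮'` not in `𝔮`
  obtain ⟨a, ha, ha'⟩ : ∃ a ∈ 𝔮', a ∉ 𝔮 := by
    by_contra hcon
    push Not at hcon
    have h1 : 𝔮' ≤ 𝔮 := hcon
    have h2 : 𝔮' = 𝔮 := le_antisymm h1 h
    have h3 : 𝔮' * 𝔭 = 𝔮' * 1 := by rw [← hq, ← h2, mul_one]
    have h4 : 𝔮' ≠ 0 := by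
      rintro h5
      exact h0 (by rw [← h2, h5]; rfl)
    exact hp.ne_top (by rw [mul_left_cancel₀ h4 h3, Ideal.one_eq_top])
  have hcan : ∀ z : 𝓞 K, a * z ∈ 𝔮 → z ∈ 𝔭 := by
    intro z hz
    by_contra hz'
    obtain ⟨c, p₀, hp₀, hc⟩ := hmax.exists_inv hz'
    apply ha'
    have h1 : a = a * p₀ + c * (a * z) := by
      linear_combination (-a) * hc
    rw [h1]
    refine 𝔮.add_mem ?_ (𝔮.mul_mem_left _ hz)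
    rw [hq]
    exact Ideal.mul_mem_mul ha hp₀
  set r : 𝓞 K ⧸ 𝔭 → 𝓞 K := Function.surjInv Ideal.Quotient.mk_surjective with hr
  have hr1 : ∀ y, Ideal.Quotient.mk 𝔭 (r y) = y := Function.surjInv_eq _
  set x : 𝓞 K ⧸ 𝔭 → 𝓞 K := fun y => 1 + a * r y with hx
  have hx1 : ∀ y, x y - 1 ∈ 𝔮' := fun y => by
    have : x y - 1 = a * r y := by rw [hx]; ring
    rw [this]
    exact Ideal.mul_mem_right _ _ ha
  have hinj : ∀ y y', r y - r y' ∈ 𝔭 → y = y' := fun y y' h1 => by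
    rw [← Ideal.Quotient.eq, hr1, hr1] at h1
    exact h1
  have hnon : ∀ y, ¬ IsUnit (Ideal.Quotient.mk 𝔮 (x y)) → x y ∈ 𝔭 := by
    intro y hy
    by_contra h1
    apply hy
    apply isUnit_mk
    rw [hq]
    refine IsCoprime.mul_right (coprime_of_sub_one (hx1 y)) ?_
    obtain ⟨c, p₀, hp₀, hc⟩ := hmax.exists_inv h1
    rw [Ideal.isCoprime_iff_exists]
    exact ⟨c * x y, Ideal.mul_mem_left _ _ (Ideal.mem_span_singleton_self _), p₀, hp₀, hc⟩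
  have huniq : ∀ y y', ¬ IsUnit (Ideal.Quotient.mk 𝔮 (x y)) →
      ¬ IsUnit (Ideal.Quotient.mk 𝔮 (x y')) → y = y' := by
    intro y y' h1 h2
    have h3 := hnon y h1
    have h4 := hnon y' h2
    apply hinj
    have h5 : a * (r y - r y') ∈ 𝔭 := by
      have : a * (r y - r y') = x y - x y' := by rw [hx]; ring
      rw [this]
      exact 𝔭.sub_mem h3 h4
    rcases hp.mem_or_mem h5 with h6 | h6
    · exfalso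
      apply hp.ne_top
      rw [Ideal.eq_top_iff_one]
      have h7 : (1 : 𝓞 K) = x y - r y * a := by rw [hx]; ring
      rw [h7]
      exact 𝔭.sub_mem h3 (𝔭.mul_mem_left _ h6)
    · exact h6
  -- the set of the units
  have hcard : Nat.card (𝓞 K ⧸ 𝔭) = Ideal.absNorm 𝔭 := rfl
  have : Fintype (𝓞 K ⧸ 𝔭) := Fintype.ofFinite _
  set Y : Finset (𝓞 K ⧸ 𝔭) := Finset.univ.filter fun y => IsUnit (Ideal.Quotient.mk 𝔮 (x y))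
    with hY
  have hYc : Ideal.absNorm 𝔭 - 1 ≤ Y.card := by
    have h1 : (Finset.univ.filter fun y => ¬ IsUnit (Ideal.Quotient.mk 𝔮 (x y))).card ≤ 1 :=
      Finset.card_le_one.mpr fun y hy y' hy' =>
        huniq y y' (Finset.mem_filter.mp hy).2 (Finset.mem_filter.mp hy').2
    have h2 := Finset.card_filter_add_card_filter_not (s := (Finset.univ : Finset (𝓞 K ⧸ 𝔭)))
      (fun y => IsUnit (Ideal.Quotient.mk 𝔮 (x y)))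
    rw [Finset.card_univ, ← Nat.card_eq_fintype_card, hcard] at h2
    rw [hY]
    omega
  refine hYc.trans ?_
  have h3 : ∀ y : Y, IsUnit (Ideal.Quotient.mk 𝔮 (x y)) := fun y => (Finset.mem_filter.mp y.2).2
  have h4 : Nat.card Y ≤ Nat.card (redK 𝔮 𝔮' h) := by
    refine Nat.card_le_card_of_injective (fun y => ⟨(h3 y).unit,
      (mem_redK h _ (x y) (IsUnit.unit_spec _).symm).mpr (hx1 y)⟩) ?_
    intro y y' hyy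
    have h5 := congrArg (fun g : redK 𝔮 𝔮' h => ((g : (𝓞 K ⧸ 𝔮)ˣ) : 𝓞 K ⧸ 𝔮)) hyy
    simp only [IsUnit.unit_spec] at h5
    rw [Ideal.Quotient.eq] at h5
    apply Subtype.ext
    apply hinj
    apply hcan
    have h6 : a * (r y - r y') = x y - x y' := by rw [hx]; ring
    rw [h6]
    exact h5
  rwa [Nat.card_eq_fintype_card, Fintype.card_coe] at h4

/-- the characters trivial on the kernel of the reduction -/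
lemma card_bad {𝔮 𝔮' 𝔭 : Ideal (𝓞 K)} (hp : 𝔭.IsPrime) (hq : 𝔮 = 𝔮' * 𝔭) (h0 : 𝔮 ≠ ⊥) :
    (Nat.card {χ : (𝓞 K ⧸ 𝔮)ˣ →* ℂˣ | ∀ (g : (𝓞 K ⧸ 𝔮)ˣ) (x : 𝓞 K),
      Ideal.Quotient.mk 𝔮 x = g → x - 1 ∈ 𝔮' → χ g = 1} : ℝ) ≤
      Nat.card (𝓞 K ⧸ 𝔮)ˣ * (2 / Ideal.absNorm 𝔭) := by
  have hfin := finite_quot h0
  have hle : 𝔮 ≤ 𝔮' := Ideal.dvd_iff_le.mp ⟨𝔭, hq⟩
  have h1 := card_redK hp hq h0 hle
  have h2 := card_triv (redK 𝔮 𝔮' hle)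
  have h3 : {χ : (𝓞 K ⧸ 𝔮)ˣ →* ℂˣ | ∀ (g : (𝓞 K ⧸ 𝔮)ˣ) (x : 𝓞 K),
      Ideal.Quotient.mk 𝔮 x = g → x - 1 ∈ 𝔮' → χ g = 1} =
      {χ : (𝓞 K ⧸ 𝔮)ˣ →* ℂˣ | ∀ g ∈ redK 𝔮 𝔮' hle, χ g = 1} := by
    ext χ
    constructor
    · intro h g hg
      obtain ⟨x, hx⟩ := Ideal.Quotient.mk_surjective (g : 𝓞 K ⧸ 𝔮)
      exact h g x hx ((mem_redK hle g x hx).mp hg)
    · intro h g x hx hx1
      exact h g ((mem_redK hle g x hx).mpr hx1)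
  rw [h3]
  have hp0 : 𝔭 ≠ ⊥ := by
    rintro rfl
    exact h0 (by rw [hq, Ideal.mul_bot])
  have hN2 : 2 ≤ Ideal.absNorm 𝔭 := by
    have a1 : Ideal.absNorm 𝔭 ≠ 0 := by rwa [Ne, Ideal.absNorm_eq_zero_iff]
    have a2 : Ideal.absNorm 𝔭 ≠ 1 := by
      rw [Ne, Ideal.absNorm_eq_one_iff]; exact hp.ne_top
    omega
  obtain ⟨B, hB⟩ : ∃ B : ℕ, B = Nat.card {χ : (𝓞 K ⧸ 𝔮)ˣ →* ℂˣ | ∀ g ∈ redK 𝔮 𝔮' hle, χ g = 1} :=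
    ⟨_, rfl⟩
  obtain ⟨N, hN⟩ : ∃ N : ℕ, N = Ideal.absNorm 𝔭 := ⟨_, rfl⟩
  obtain ⟨G, hG⟩ : ∃ G : ℕ, G = Nat.card (𝓞 K ⧸ 𝔮)ˣ := ⟨_, rfl⟩
  rw [← hB, ← hG] at h2 ⊢
  rw [← hN] at h1 hN2 ⊢
  have h4 : B * (N - 1) ≤ G := (Nat.mul_le_mul_left _ h1).trans h2
  have h5 : (B : ℝ) * (N - 1) ≤ G := by
    have : ((B * (N - 1) : ℕ) : ℝ) ≤ G := by exact_mod_cast h4
    rw [Nat.cast_mul, Nat.cast_sub (by omega), Nat.cast_one] at this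
    exact this
  have hN' : (2 : ℝ) ≤ N := by exact_mod_cast hN2
  rw [mul_div_assoc', le_div_iff₀ (by linarith)]
  have hB0 : (0 : ℝ) ≤ B := Nat.cast_nonneg B
  nlinarith

/-- the prime divisors -/
noncomputable def PD (𝔮 : Ideal (𝓞 K)) : Set (Ideal (𝓞 K)) := {𝔭 | 𝔭.IsPrime ∧ 𝔭 ∣ 𝔮}

lemma PD_finite {𝔮 : Ideal (𝓞 K)} (h0 : 𝔮 ≠ ⊥) : (PD 𝔮).Finite := by
  have h1 : {𝔭 : Ideal (𝓞 K) | 𝔭 ∣ 𝔮}.Finite := by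
    have h2 : Finite {𝔭 : Ideal (𝓞 K) // 𝔭 ∣ 𝔮} :=
      @Finite.of_fintype _ (UniqueFactorizationMonoid.fintypeSubtypeDvd 𝔮 h0)
    exact Set.finite_coe_iff.mp h2
  exact h1.subset fun 𝔭 h𝔭 => h𝔭.2

/-- the number of primitive characters -/
theorem card_prim {𝔮 : Ideal (𝓞 K)} (h0 : 𝔮 ≠ ⊥) {δ : ℝ}
    (hδ : ∑ᶠ 𝔭 ∈ PD 𝔮, (1 / (Ideal.absNorm 𝔭 : ℝ)) ≤ δ) :
    (Nat.card (𝓞 K ⧸ 𝔮)ˣ : ℝ) * (1 - 2 * δ) ≤ Nat.card {χ : (𝓞 K ⧸ 𝔮)ˣ →* ℂˣ | PrimC 𝔮 χ} := by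
  classical
  have hfin := finite_quot h0
  have hfd : Finite ((𝓞 K ⧸ 𝔮)ˣ →* ℂˣ) := finite_dual _
  have hPD := PD_finite h0
  rw [finsum_mem_eq_finite_toFinset_sum _ hPD] at hδ
  choose! c hc using fun (𝔭 : Ideal (𝓞 K)) (h𝔭 : 𝔭 ∈ PD 𝔮) => h𝔭.2
  set Bad : Ideal (𝓞 K) → Set ((𝓞 K ⧸ 𝔮)ˣ →* ℂˣ) := fun 𝔭 =>
    {χ | ∀ (g : (𝓞 K ⧸ 𝔮)ˣ) (x : 𝓞 K), Ideal.Quotient.mk 𝔮 x = g → x - 1 ∈ c 𝔭 → χ g = 1}
    with hBad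
  have h1 : (Set.univ : Set ((𝓞 K ⧸ 𝔮)ˣ →* ℂˣ)) ⊆ {χ | PrimC 𝔮 χ} ∪
      ⋃ 𝔭 ∈ hPD.toFinset, Bad 𝔭 := by
    intro χ _
    by_cases hχ : PrimC 𝔮 χ
    · exact Or.inl hχ
    right
    unfold PrimC at hχ
    push Not at hχ
    obtain ⟨𝔤, ⟨𝔥, hgh⟩, hne, hχ⟩ := hχ
    have h𝔥 : 𝔥 ≠ ⊤ := by
      rintro rfl
      exact hne (by rw [hgh, ← Ideal.one_eq_top, mul_one])
    obtain ⟨𝔭, hmax, hle⟩ := Ideal.exists_le_maximal 𝔥 h𝔥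
    obtain ⟨𝔥', hh'⟩ := Ideal.dvd_iff_le.mpr hle
    have hpd : 𝔭 ∈ PD 𝔮 := ⟨hmax.isPrime, by
      rw [hgh, hh']
      exact Dvd.intro_left (𝔤 * 𝔥') (by ring)⟩
    rw [Set.mem_iUnion₂]
    refine ⟨𝔭, hPD.mem_toFinset.mpr hpd, fun g x hx hx1 => hχ g x hx ?_⟩
    have hp0 : 𝔭 ≠ 0 := by
      rintro h
      exact h0 (by rw [hgh, hh', h, zero_mul, mul_zero]; rfl)
    have h2 : c 𝔭 = 𝔤 * 𝔥' := by
      apply mul_left_cancel₀ hp0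
      rw [← hc 𝔭 hpd, hgh, hh']
      ring
    rw [h2] at hx1
    exact Ideal.mul_le_left hx1
  have h2 := Set.ncard_le_ncard h1 (Set.toFinite _)
  have h3 := Set.ncard_union_le {χ : (𝓞 K ⧸ 𝔮)ˣ →* ℂˣ | PrimC 𝔮 χ} (⋃ 𝔭 ∈ hPD.toFinset, Bad 𝔭)
  have h4 : (⋃ 𝔭 ∈ hPD.toFinset, Bad 𝔭).ncard ≤ ∑ 𝔭 ∈ hPD.toFinset, (Bad 𝔭).ncard :=
    Finset.set_ncard_biUnion_le _ _
  have h5 : (Set.univ : Set ((𝓞 K ⧸ 𝔮)ˣ →* ℂˣ)).ncard = Nat.card (𝓞 K ⧸ 𝔮)ˣ := by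
    rw [Set.ncard_univ, card_dual]
  have h6 : ((∑ 𝔭 ∈ hPD.toFinset, (Bad 𝔭).ncard : ℕ) : ℝ) ≤
      Nat.card (𝓞 K ⧸ 𝔮)ˣ * (2 * δ) := by
    push_cast
    calc ∑ 𝔭 ∈ hPD.toFinset, ((Bad 𝔭).ncard : ℝ) ≤
        ∑ 𝔭 ∈ hPD.toFinset, (Nat.card (𝓞 K ⧸ 𝔮)ˣ : ℝ) * (2 * (1 / Ideal.absNorm 𝔭)) := by
          refine Finset.sum_le_sum fun 𝔭 h𝔭 => ?_
          have hpd : 𝔭 ∈ PD 𝔮 := hPD.mem_toFinset.mp h𝔭
          have h7 := card_bad (𝔮 := 𝔮) (𝔮' := c 𝔭) hpd.1 (by rw [mul_comm]; exact hc 𝔭 hpd) h0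
          rw [Nat.card_coe_set_eq] at h7
          refine h7.trans (le_of_eq ?_)
          ring
      _ = (Nat.card (𝓞 K ⧸ 𝔮)ˣ : ℝ) * (2 * ∑ 𝔭 ∈ hPD.toFinset, (1 / (Ideal.absNorm 𝔭 : ℝ))) := by
          rw [Finset.mul_sum, Finset.mul_sum]
      _ ≤ _ := by
          have h8 : (0 : ℝ) ≤ Nat.card (𝓞 K ⧸ 𝔮)ˣ := Nat.cast_nonneg _
          gcongr
  rw [Nat.card_coe_set_eq]
  rw [h5] at h2
  have h7 : (Nat.card (𝓞 K ⧸ 𝔮)ˣ : ℝ) ≤ ({χ : (𝓞 K ⧸ 𝔮)ˣ →* ℂˣ | PrimC 𝔮 χ}.ncard : ℝ) +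
      ((∑ 𝔭 ∈ hPD.toFinset, (Bad 𝔭).ncard : ℕ) : ℝ) := by
    exact_mod_cast h2.trans (h3.trans (Nat.add_le_add_left h4 _))
  linarith

end

end Pool.Agent.N786
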