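import Pool.Agent.Y767.HC.Stm2

/-!
# Points of a shifted lattice in a ball of a norm (owner helper786)
-/

set_option autoImplicit false

open MeasureTheory Set Filter Topology
open scoped Pointwise

namespace Pool.Agent.N786

variable {r : ℕ} {p : (Fin r → ℝ) → ℝ}

/-- a norm on `ℝ^r` -/
structure NormP (p : (Fin r → ℝ) → ℝ) : Prop where
  cont : Continuous p
  add : ∀ θ θ', p (θ + θ') ≤ p θ + p θ'
  smul : ∀ (t : ℝ) θ, p (t • θ) = |t| * p θ
  zero : ∀ θ, p θ = 0 → θ = 0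

namespace NormP

variable (h : NormP p)
include h

lemma p0 : p 0 = 0 := by
  have := h.smul 0 0
  simpa using this

lemma neg (θ : Fin r → ℝ) : p (-θ) = p θ := by
  have := h.smul (-1) θ
  simpa using this

lemma nonneg (θ : Fin r → ℝ) : 0 ≤ p θ := by
  have h1 := h.add θ (-θ)
  rw [add_neg_cancel, h.p0, h.neg] at h1
  linarith

lemma exists_low : ∃ m : ℝ, 0 < m ∧ ∀ θ, m * ‖θ‖ ≤ p θ := by
  have hs : IsCompact (Metric.sphere (0 : Fin r → ℝ) 1) := isCompact_sphere _ _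
  obtain ⟨m, hm, hm2⟩ := hs.exists_forall_le' (a := 0) h.cont.continuousOn (by
    intro θ hθ
    refine lt_of_le_of_ne (h.nonneg θ) fun h0 => ?_
    have := h.zero θ h0.symm
    rw [this] at hθ
    simp at hθ)
  refine ⟨m, hm, fun θ => ?_⟩
  rcases eq_or_ne θ 0 with rfl | hθ
  · simp [h.p0]
  have hn : 0 < ‖θ‖ := norm_pos_iff.mpr hθ
  have h1 := hm2 (‖θ‖⁻¹ • θ) (by
    rw [mem_sphere_zero_iff_norm, norm_smul, norm_inv, norm_norm, inv_mul_cancel₀ hn.ne'])
  rw [h.smul, abs_of_pos (inv_pos.mpr hn), inv_mul_eq_div, le_div_iff₀ hn] at h1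
  exact h1

lemma exists_up : ∃ c : ℝ, 0 ≤ c ∧ ∀ f : Fin r → ℝ, (∀ i, 0 ≤ f i ∧ f i ≤ 1) → p f ≤ c := by
  obtain ⟨C, hC⟩ := (isCompact_Icc (a := (0 : Fin r → ℝ)) (b := 1)).exists_bound_of_continuousOn
    h.cont.continuousOn
  refine ⟨max C 0, le_max_right _ _, fun f hf => ?_⟩
  have h1 := hC f ⟨fun i => (hf i).1, fun i => (hf i).2⟩
  exact ((le_abs_self _).trans h1).trans (le_max_left _ _)

lemma isClosed (V : ℝ) : IsClosed {θ | p θ ≤ V} := isClosed_le h.cont continuous_const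

lemma isCompact (V : ℝ) : IsCompact {θ | p θ ≤ V} := by
  obtain ⟨m, hm, hm2⟩ := h.exists_low
  refine (isCompact_closedBall (0 : Fin r → ℝ) (V / m)).of_isClosed_subset (h.isClosed V) ?_
  intro θ hθ
  rw [mem_closedBall_zero_iff, le_div_iff₀ hm, mul_comm]
  exact (hm2 θ).trans hθ

lemma vol_top (V : ℝ) : volume {θ | p θ ≤ V} ≠ ⊤ := (h.isCompact V).measure_lt_top.ne

lemma vol_pos : 0 < (volume {θ | p θ ≤ 1}).toReal := by
  have h1 : IsOpen {θ | p θ < 1} := isOpen_lt h.cont continuous_const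
  have h2 : 0 < volume {θ | p θ < 1} := h1.measure_pos volume ⟨0, by
    change p 0 < 1
    rw [h.p0]; exact one_pos⟩
  have h3 : volume {θ | p θ < 1} ≤ volume {θ | p θ ≤ 1} := measure_mono (by
    intro θ hθ
    have h4 : p θ < 1 := hθ
    exact h4.le)
  exact ENNReal.toReal_pos (h2.trans_le h3).ne' (h.vol_top 1)

lemma vol_scale {V : ℝ} (hV : 0 ≤ V) :
    (volume {θ | p θ ≤ V}).toReal = V ^ r * (volume {θ | p θ ≤ 1}).toReal := by
  rcases hV.eq_or_lt with rfl | hV0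
  · rcases Nat.eq_zero_or_pos r with rfl | hr
    · rw [pow_zero, one_mul]
      congr 2
      ext θ
      have h0 : p θ = 0 := by
        rw [Subsingleton.elim θ 0]; exact h.p0
      change p θ ≤ 0 ↔ p θ ≤ 1
      rw [h0]
      simp
    · rw [zero_pow hr.ne', zero_mul]
      have e : {θ | p θ ≤ 0} = {(0 : Fin r → ℝ)} := by
        ext θ
        rw [mem_singleton_iff]
        change p θ ≤ 0 ↔ θ = 0
        constructor
        · intro h1
          exact h.zero θ (le_antisymm h1 (h.nonneg θ))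
        · rintro rfl
          exact h.p0.le
      have : Nonempty (Fin r) := ⟨⟨0, hr⟩⟩
      rw [e, measure_singleton, ENNReal.toReal_zero]
  · have e : {θ | p θ ≤ V} = V • {θ : Fin r → ℝ | p θ ≤ 1} := by
      ext θ
      rw [mem_smul_set_iff_inv_smul_mem₀ hV0.ne']
      change p θ ≤ V ↔ p (V⁻¹ • θ) ≤ 1
      rw [h.smul, abs_of_pos (inv_pos.mpr hV0), inv_mul_le_iff₀ hV0, mul_one]
    rw [e, Measure.addHaar_smul, Module.finrank_fin_fun, ENNReal.toReal_mul,
      ENNReal.toReal_ofReal (abs_nonneg _), abs_of_nonneg (by positivity)]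

/-- the points of the shifted lattice -/
lemma finite (θ₀ : Fin r → ℝ) (V : ℝ) : {m : Fin r → ℤ | p (fun i => θ₀ i + m i) ≤ V}.Finite := by
  obtain ⟨m₀, hm, hm2⟩ := h.exists_low
  set R : ℝ := V / m₀ + ‖θ₀‖ with hR
  refine (Set.finite_Icc (fun _ : Fin r => -⌈R⌉) (fun _ => ⌈R⌉)).subset ?_
  intro m hmm
  have h1 : ‖(fun i => θ₀ i + m i : Fin r → ℝ)‖ ≤ V / m₀ := by
    rw [le_div_iff₀ hm, mul_comm]
    exact (hm2 _).trans hmm
  have h2 : ∀ i, |(m i : ℝ)| ≤ R := by
    intro i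
    have a1 : |θ₀ i + m i| ≤ V / m₀ := (norm_le_pi_norm (fun i => θ₀ i + (m i : ℝ)) i).trans h1
    have a2 : |θ₀ i| ≤ ‖θ₀‖ := norm_le_pi_norm θ₀ i
    have a3 : |(m i : ℝ)| ≤ |θ₀ i + m i| + |θ₀ i| := by
      have := abs_sub (θ₀ i + m i) (θ₀ i)
      rwa [add_sub_cancel_left] at this
    rw [hR]; linarith
  constructor
  · intro i
    have := neg_le_of_abs_le (h2 i)
    have h3 := Int.le_ceil R
    have h4 : ((-⌈R⌉ : ℤ) : ℝ) ≤ m i := by push_cast; linarith
    exact_mod_cast h4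
  · intro i
    have := le_of_abs_le (h2 i)
    have h3 := Int.le_ceil R
    have h4 : (m i : ℝ) ≤ ((⌈R⌉ : ℤ) : ℝ) := by linarith
    exact_mod_cast h4

lemma count_low {c : ℝ} (hc : ∀ f : Fin r → ℝ, (∀ i, 0 ≤ f i ∧ f i ≤ 1) → p f ≤ c)
    (θ₀ : Fin r → ℝ) (V : ℝ) (hV : c ≤ V) :
    (V - c) ^ r * (volume {θ | p θ ≤ 1}).toReal ≤
      (Nat.card {m : Fin r → ℤ | p (fun i => θ₀ i + m i) ≤ V} : ℝ) := by
  classical
  have hfin := h.finite θ₀ V
  rw [← h.vol_scale (by linarith), Nat.card_coe_set_eq, Set.ncard_eq_toFinset_card _ hfin]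
  have hsub : {θ | p θ ≤ V - c} ⊆ ⋃ m ∈ hfin.toFinset,
      Set.univ.pi fun i => Set.Ico (θ₀ i + (m i : ℝ)) (θ₀ i + (m i : ℝ) + 1) := by
    intro z hz
    have hz' : p z ≤ V - c := hz
    rw [mem_iUnion₂]
    refine ⟨fun i => ⌊z i - θ₀ i⌋, ?_, ?_⟩
    · rw [Finite.mem_toFinset]
      change p (fun i => θ₀ i + (⌊z i - θ₀ i⌋ : ℝ)) ≤ V
      have e : (fun i => θ₀ i + (⌊z i - θ₀ i⌋ : ℝ)) = z + -(fun i => Int.fract (z i - θ₀ i)) := by
        funext i
        rw [Pi.add_apply, Pi.neg_apply]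
        have := Int.floor_add_fract (z i - θ₀ i)
        linarith
      rw [e]
      refine (h.add _ _).trans ?_
      rw [h.neg]
      have := hc (fun i => Int.fract (z i - θ₀ i)) fun i =>
        ⟨Int.fract_nonneg _, (Int.fract_lt_one _).le⟩
      linarith
    · intro i _
      have h1 := Int.floor_le (z i - θ₀ i)
      have h2 := Int.lt_floor_add_one (z i - θ₀ i)
      constructor
      · linarith
      · linarith
  have h1 : volume {θ | p θ ≤ V - c} ≤ (hfin.toFinset.card : ENNReal) := by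
    refine (measure_mono hsub).trans ((measure_biUnion_finset_le _ _).trans ?_)
    have : ∀ m ∈ hfin.toFinset, volume (Set.univ.pi fun i =>
        Set.Ico (θ₀ i + (m i : ℝ)) (θ₀ i + (m i : ℝ) + 1)) = 1 := by
      intro m _
      rw [Real.volume_pi_Ico]
      simp
    rw [Finset.sum_congr rfl this, Finset.sum_const, nsmul_eq_mul, mul_one]
  have h2 := ENNReal.toReal_mono (ENNReal.natCast_ne_top _) h1
  rwa [ENNReal.toReal_natCast] at h2

lemma count_up {c : ℝ} (hc : ∀ f : Fin r → ℝ, (∀ i, 0 ≤ f i ∧ f i ≤ 1) → p f ≤ c)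
    (θ₀ : Fin r → ℝ) (V : ℝ) (hV : 0 ≤ V + c) :
    (Nat.card {m : Fin r → ℤ | p (fun i => θ₀ i + m i) ≤ V} : ℝ) ≤
      (V + c) ^ r * (volume {θ | p θ ≤ 1}).toReal := by
  classical
  have hfin := h.finite θ₀ V
  rw [← h.vol_scale hV, Nat.card_coe_set_eq, Set.ncard_eq_toFinset_card _ hfin]
  have hsub : (⋃ m ∈ hfin.toFinset,
      Set.univ.pi fun i => Set.Ico (θ₀ i + (m i : ℝ)) (θ₀ i + (m i : ℝ) + 1)) ⊆
      {θ | p θ ≤ V + c} := by
    intro z hz
    rw [mem_iUnion₂] at hz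
    obtain ⟨m, hm, hz⟩ := hz
    rw [Finite.mem_toFinset] at hm
    replace hm : p (fun i => θ₀ i + (m i : ℝ)) ≤ V := hm
    have e : z = (fun i => θ₀ i + (m i : ℝ)) + (fun i => z i - (θ₀ i + (m i : ℝ))) := by
      funext i
      rw [Pi.add_apply]
      ring
    change p z ≤ V + c
    rw [e]
    refine (h.add _ _).trans ?_
    have := hc (fun i => z i - (θ₀ i + (m i : ℝ))) fun i => by
      have := hz i (mem_univ i)
      exact ⟨by linarith [this.1], by linarith [this.2]⟩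
    linarith
  have h1 : (hfin.toFinset.card : ENNReal) ≤ volume {θ | p θ ≤ V + c} := by
    refine le_trans (le_of_eq ?_) (measure_mono hsub)
    rw [measure_biUnion_finset]
    · have : ∀ m ∈ hfin.toFinset, volume (Set.univ.pi fun i =>
          Set.Ico (θ₀ i + (m i : ℝ)) (θ₀ i + (m i : ℝ) + 1)) = 1 := by
        intro m _
        rw [Real.volume_pi_Ico]
        simp
      rw [Finset.sum_congr rfl this, Finset.sum_const, nsmul_eq_mul, mul_one]
    · intro m _ m' _ hne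
      rw [Function.onFun, Set.disjoint_left]
      intro z hz hz'
      apply hne
      funext i
      have a1 := hz i (mem_univ i)
      have a2 := hz' i (mem_univ i)
      have b1 : (m i : ℝ) < m' i + 1 := by linarith [a1.1, a2.2]
      have b2 : (m' i : ℝ) < m i + 1 := by linarith [a2.1, a1.2]
      have c1 : m i < m' i + 1 := by exact_mod_cast b1
      have c2 : m' i < m i + 1 := by exact_mod_cast b2
      omega
    · intro m _
      exact MeasurableSet.univ_pi fun i => measurableSet_Ico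
  have h2 := ENNReal.toReal_mono (h.vol_top _) h1
  rwa [ENNReal.toReal_natCast] at h2

end NormP

/-- LAT -/
theorem t_lat : Pool.Agent.Y767.StLat := by
  intro r p h1 h2 h3 h4
  have h : NormP p := ⟨h1, h2, h3, h4⟩
  obtain ⟨c, hc0, hc⟩ := h.exists_up
  exact ⟨⟨h.vol_top 1, h.vol_pos⟩, fun V _ => h.isCompact V, fun V hV => h.vol_scale hV, c, hc0,
    fun θ₀ V hV => ⟨h.finite θ₀ V, h.count_low hc θ₀ V hV⟩⟩

end Pool.Agent.N786
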