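import Pool.Agent.N786.Cnt2
import Pool.Agent.N786.Lat

/-!
# The size of the families (owner helper786)
-/

set_option autoImplicit false
set_option linter.unusedSectionVars false

open NumberField NumberField.Units Complex MeasureTheory

namespace Pool.Agent.N786

open Pool.Agent.Y773 (TPos rl)
open Pool.Agent.Y767

section

variable {K : Type} [Field K] [NumberField K] [IsTotallyReal K]

lemma normP_U' (U : UD K) : NormP U.p := ⟨U.p_cont, U.p_add, U.p_smul, U.p_zero⟩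

lemma exists_theta (U : UD K) {𝔮 : Ideal (𝓞 K)} (h0 : 𝔮 ≠ ⊥) (χ : (𝓞 K ⧸ 𝔮)ˣ →* ℂˣ) :
    ∃ θ : Fin (rank K) → ℝ, Cond2 U (χ, θ) := by
  have hfin := finite_quot h0
  have h1 : ∀ i, ∃ t : ℝ, ((χ (U.eG 𝔮 i) : ℂˣ) : ℂ) * cexp (2 * Real.pi * I * (t : ℂ)) = 1 := by
    intro i
    have h2 := norm_hom χ (U.eG 𝔮 i)
    obtain ⟨z, hz⟩ : ∃ z : ℂ, z = (((χ (U.eG 𝔮 i) : ℂˣ) : ℂ))⁻¹ := ⟨_, rfl⟩
    have hz1 : ‖z‖ = 1 := by rw [hz, norm_inv, h2, inv_one]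
    refine ⟨Complex.arg z / (2 * Real.pi), ?_⟩
    have h3 : cexp (2 * Real.pi * I * ((Complex.arg z / (2 * Real.pi) : ℝ) : ℂ)) = z := by
      have h4 := Complex.norm_mul_exp_arg_mul_I z
      rw [hz1, Complex.ofReal_one, one_mul] at h4
      conv_rhs => rw [← h4]
      congr 1
      have : (Real.pi : ℂ) ≠ 0 := by exact_mod_cast Real.pi_ne_zero
      push_cast
      field_simp
    rw [h3, hz]
    exact mul_inv_cancel₀ (Units.ne_zero _)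
  choose θ hθ using h1
  exact ⟨θ, hθ⟩

/-- the primitive parameters -/
def PP (U : UD K) (𝔮 : Ideal (𝓞 K)) (V : ℝ) :
    Set (((𝓞 K ⧸ 𝔮)ˣ →* ℂˣ) × (Fin (rank K) → ℝ)) :=
  {p | p ∈ U.PQ 𝔮 V ∧ PrimC 𝔮 p.1}

theorem card_PP (U : UD K) {c : ℝ}
    (hc : ∀ f : Fin (rank K) → ℝ, (∀ i, 0 ≤ f i ∧ f i ≤ 1) → U.p f ≤ c)
    {𝔮 : Ideal (𝓞 K)} (h0 : 𝔮 ≠ ⊥) {V : ℝ} (hV : c ≤ V) : (PP U 𝔮 V).Finite ∧
    (Nat.card {χ : (𝓞 K ⧸ 𝔮)ˣ →* ℂˣ | PrimC 𝔮 χ} : ℝ) *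
      ((V - c) ^ rank K * (volume {θ | U.p θ ≤ 1}).toReal) ≤ Nat.card (PP U 𝔮 V) := by
  classical
  have hfin := finite_quot h0
  have hfd : Finite ((𝓞 K ⧸ 𝔮)ˣ →* ℂˣ) := finite_dual _
  choose θ₀ hθ₀ using exists_theta U h0
  have hn := normP_U' U
  have hfm : ∀ χ : (𝓞 K ⧸ 𝔮)ˣ →* ℂˣ,
      Finite {m : Fin (rank K) → ℤ | U.p (fun i => θ₀ χ i + m i) ≤ V} := fun χ =>
    Set.finite_coe_iff.mpr (hn.finite (θ₀ χ) V)
  have hmem : ∀ (χ : {χ : (𝓞 K ⧸ 𝔮)ˣ →* ℂˣ | PrimC 𝔮 χ})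
      (m : {m : Fin (rank K) → ℤ | U.p (fun i => θ₀ χ.1 i + m i) ≤ V}),
      ((χ.1, fun i => θ₀ χ.1 i + (m.1 i : ℝ)) :
        ((𝓞 K ⧸ 𝔮)ˣ →* ℂˣ) × (Fin (rank K) → ℝ)) ∈ PP U 𝔮 V := by
    intro χ m
    refine ⟨⟨fun i => ?_, m.2⟩, χ.2⟩
    have h1 := hθ₀ χ.1 i
    have h2 : cexp (2 * Real.pi * I * ((θ₀ χ.1 i + (m.1 i : ℝ) : ℝ) : ℂ)) =
        cexp (2 * Real.pi * I * (θ₀ χ.1 i : ℂ)) := by
      rw [Complex.exp_eq_exp_iff_exists_int]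
      exact ⟨m.1 i, by push_cast; ring⟩
    dsimp only at h1 ⊢
    rw [h2]
    exact h1
  set f : (Σ χ : {χ : (𝓞 K ⧸ 𝔮)ˣ →* ℂˣ | PrimC 𝔮 χ},
      {m : Fin (rank K) → ℤ | U.p (fun i => θ₀ χ.1 i + m i) ≤ V}) → PP U 𝔮 V :=
    fun q => ⟨(q.1.1, fun i => θ₀ q.1.1 i + (q.2.1 i : ℝ)), hmem q.1 q.2⟩ with hf
  have hinj : Function.Injective f := by
    rintro ⟨χ, m⟩ ⟨χ', m'⟩ h
    have h1 := congrArg Subtype.val h
    rw [Prod.ext_iff] at h1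
    obtain ⟨h2, h3⟩ := h1
    have h4 : χ = χ' := Subtype.ext h2
    subst h4
    have h5 : m = m' := by
      apply Subtype.ext
      funext i
      have h6 := congrFun h3 i
      have h7 : (m.1 i : ℝ) = m'.1 i := by
        simp only [hf] at h6
        linarith
      exact_mod_cast h7
    rw [h5]
  have hsurj : Function.Surjective f := by
    rintro ⟨⟨χ, θ⟩, ⟨h1, h2⟩, h3⟩
    have h4 : ∀ i, ∃ m : ℤ, θ i = θ₀ χ i + m := by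
      intro i
      have h5 := h1 i
      have h6 := hθ₀ χ i
      dsimp only at h5 h6
      have h7 : cexp (2 * Real.pi * I * (θ i : ℂ)) = cexp (2 * Real.pi * I * (θ₀ χ i : ℂ)) :=
        mul_left_cancel₀ (Units.ne_zero _) (h5.trans h6.symm)
      obtain ⟨m, hm⟩ := Complex.exp_eq_exp_iff_exists_int.mp h7
      refine ⟨m, ?_⟩
      have h8 : (2 * Real.pi * I : ℂ) ≠ 0 := by
        have : (Real.pi : ℂ) ≠ 0 := by exact_mod_cast Real.pi_ne_zero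
        simp [this]
      have h9 : (2 * Real.pi * I : ℂ) * (θ i : ℂ) = 2 * Real.pi * I * ((θ₀ χ i : ℂ) + m) := by
        rw [hm]; ring
      have h10 := mul_left_cancel₀ h8 h9
      exact_mod_cast h10
    choose m hm using h4
    have h5 : θ = fun i => θ₀ χ i + (m i : ℝ) := funext hm
    refine ⟨⟨⟨χ, h3⟩, ⟨m, ?_⟩⟩, ?_⟩
    · change U.p (fun i => θ₀ χ i + (m i : ℝ)) ≤ V
      rw [← h5]; exact h2
    · apply Subtype.ext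
      exact Prod.ext rfl h5.symm
  have hfP : Finite (PP U 𝔮 V) := Finite.of_surjective f hsurj
  refine ⟨Set.finite_coe_iff.mp hfP, ?_⟩
  rw [← Nat.card_congr (Equiv.ofBijective f ⟨hinj, hsurj⟩)]
  have : Fintype {χ : (𝓞 K ⧸ 𝔮)ˣ →* ℂˣ | PrimC 𝔮 χ} := Fintype.ofFinite _
  rw [Nat.card_sigma]
  push_cast
  have h6 : ∀ χ ∈ (Finset.univ : Finset {χ : (𝓞 K ⧸ 𝔮)ˣ →* ℂˣ | PrimC 𝔮 χ}),
      (V - c) ^ rank K * (volume {θ | U.p θ ≤ 1}).toReal ≤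
      (Nat.card {m : Fin (rank K) → ℤ | U.p (fun i => θ₀ χ.1 i + m i) ≤ V} : ℝ) :=
    fun χ _ => hn.count_low hc (θ₀ χ.1) V hV
  have h7 := Finset.card_nsmul_le_sum _ _ _ h6
  rw [Finset.card_univ, nsmul_eq_mul, ← Nat.card_eq_fintype_card] at h7
  exact h7

/-- the characters with primitive parameters -/
def FF (U : UD K) {𝔪 𝔮 : Ideal (𝓞 K)} (h : 𝔮 ∣ 𝔪) (V : ℝ) : Set (Mq 𝔪 →* ℂˣ) :=
  {F | ∃ p ∈ PP U 𝔮 V, HasPar U h F p}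

theorem card_FF (U : UD K) {𝔪 𝔮 : Ideal (𝓞 K)} (h𝔪 : 𝔪 ≠ ⊤) (h𝔪0 : 𝔪 ≠ ⊥) (h : 𝔮 ∣ 𝔪)
    (hsurj : Function.Surjective (gm h)) {V : ℝ} (hP : (PP U 𝔮 V).Finite) :
    (FF U h V).Finite ∧ Nat.card (FF U h V) = Nat.card (PP U 𝔮 V) * Nat.card (Cls (pq 𝔪)) := by
  classical
  have hcan := Mq_cancel h𝔪
  have hfc : Finite (Cls (pq 𝔪)) := finite_cls h𝔪 h𝔪0
  have hfd : Finite (Cls (pq 𝔪) →* ℂˣ) := finite_dual _
  have hfP : Finite (PP U 𝔮 V) := Set.finite_coe_iff.mpr hP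
  have hex : ∀ p : PP U 𝔮 V, ∃ F : Mq 𝔪 →* ℂˣ, HasPar U h F p.1 := fun p =>
    exists_F U h𝔪 h p.2.1.1
  choose F₀ hF₀ using hex
  have hpar : ∀ (p : PP U 𝔮 V) (lam : Cls (pq 𝔪) →* ℂˣ),
      HasPar U h (F₀ p * lam.comp (cls (pq 𝔪))) p.1 := by
    intro p lam x
    rw [MonoidHom.mul_apply, MonoidHom.comp_apply, cls_pi, map_one, mul_one]
    exact hF₀ p x
  set f : PP U 𝔮 V × (Cls (pq 𝔪) →* ℂˣ) → FF U h V := fun q =>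
    ⟨F₀ q.1 * q.2.comp (cls (pq 𝔪)), q.1.1, q.1.2, hpar q.1 q.2⟩ with hf
  have hinj : Function.Injective f := by
    rintro ⟨p, lam⟩ ⟨p', lam'⟩ he
    have h1 : F₀ p * lam.comp (cls (pq 𝔪)) = F₀ p' * lam'.comp (cls (pq 𝔪)) :=
      congrArg Subtype.val he
    have h2 := hpar p' lam'
    rw [← h1] at h2
    have h3 : p = p' := Subtype.ext (par_unique h𝔪0 h hsurj (hpar p lam) h2)
    subst h3
    have h4 : ∀ x, lam (cls (pq 𝔪) x) = lam' (cls (pq 𝔪) x) := fun x => by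
      have h5 := DFunLike.congr_fun h1 x
      rw [MonoidHom.mul_apply, MonoidHom.mul_apply, MonoidHom.comp_apply,
        MonoidHom.comp_apply] at h5
      exact mul_left_cancel h5
    have h6 : lam = lam' := by
      refine MonoidHom.ext fun c => ?_
      obtain ⟨a, b, hab⟩ := cls_div (pq 𝔪) c
      have h7 := congrArg lam hab
      have h8 := congrArg lam' hab
      rw [map_mul, h4, h4] at h7
      rw [map_mul, ← h7] at h8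
      exact (mul_right_cancel h8).symm
    rw [h6]
  have hsj : Function.Surjective f := by
    rintro ⟨F, p, hp, hF⟩
    have h1 : ∀ a, F (pq 𝔪 a) = F₀ ⟨p, hp⟩ (pq 𝔪 a) := fun a => by
      ext
      rw [hF a, hF₀ ⟨p, hp⟩ a]
    obtain ⟨lam, hlam⟩ := exists_lam (pq 𝔪) F (F₀ ⟨p, hp⟩) h1
    refine ⟨(⟨p, hp⟩, lam), ?_⟩
    apply Subtype.ext
    ext x
    rw [hlam x]
    rfl
  have hfF : Finite (FF U h V) := Finite.of_surjective f hsj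
  refine ⟨Set.finite_coe_iff.mp hfF, ?_⟩
  rw [← Nat.card_congr (Equiv.ofBijective f ⟨hinj, hsj⟩), Nat.card_prod, card_dual]

/-- the restriction is a bijection of the family onto the characters with primitive parameters -/
theorem bij_res (U : UD K) {𝔪 𝔮 : Ideal (𝓞 K)} (h𝔪 : 𝔪 ≠ ⊤) (h𝔪0 : 𝔪 ≠ ⊥) (h𝔮0 : 𝔮 ≠ ⊥)
    (h : 𝔮 ∣ 𝔪) (hsurj : Function.Surjective (gm h)) {V : ℝ} (hV : 0 ≤ V) :
    Set.BijOn (resM 𝔪) (HFam K 𝔮 V) (FF U h V) := by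
  refine ⟨?_, ?_, ?_⟩
  · intro lam hl
    obtain ⟨ν, a1, a2, a3⟩ := hl
    obtain ⟨p, hp1, hp2, hp3⟩ := exists_par' U hV a1 a2 a3.toIsHM
    refine ⟨p, ⟨hp1, ?_⟩, resM_par h𝔪 h a3.toIsHM hp3⟩
    exact (prim_iff a3.toIsHM fun x => by rw [hp3 x, phiT_coe, hp2]).mp a3
  · intro lam hl lam' hl' he
    exact resM_inj (U := U) h𝔪 h𝔪0 h hsurj hV hl hl' he
  · rintro F ⟨p, ⟨hp1, hp2⟩, hF⟩
    obtain ⟨lam, hl, he⟩ := resM_surj h𝔪 h𝔪0 h𝔮0 h hV hF hp1 hp2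
    exact ⟨lam, hl, he⟩

/-- the size of the family -/
theorem fam_card (U : UD K) : ∃ c : ℝ, 0 ≤ c ∧ ∀ (𝔣 𝔮 : Ideal (𝓞 K)), IsCoprime 𝔣 𝔮 →
    𝔣 * 𝔮 ≠ ⊤ → 𝔣 * 𝔮 ≠ ⊥ → ∀ (V δ : ℝ), c ≤ V → 0 ≤ V →
    ∑ᶠ 𝔭 ∈ PD 𝔮, (1 / (Ideal.absNorm 𝔭 : ℝ)) ≤ δ → (HFam K 𝔮 V).Finite ∧
    (Nat.card (Cls (pq (𝔣 * 𝔮))) : ℝ) * ((Nat.card (𝓞 K ⧸ 𝔮)ˣ : ℝ) * (1 - 2 * δ) *
      ((V - c) ^ rank K * (volume {θ | U.p θ ≤ 1}).toReal)) ≤ (HFam K 𝔮 V).ncard := by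
  obtain ⟨c, hc0, hc⟩ := (normP_U' U).exists_up
  refine ⟨c, hc0, fun 𝔣 𝔮 hcop htop hbot V δ hcV hV hδ => ?_⟩
  have h𝔮0 : 𝔮 ≠ ⊥ := by
    rintro rfl
    exact hbot (Ideal.mul_bot _)
  have h : 𝔮 ∣ 𝔣 * 𝔮 := Dvd.intro_left _ rfl
  have hsurj : Function.Surjective (gm h) := fun g => by
    obtain ⟨x, -, hx⟩ := gm_surj hcop hbot h g
    exact ⟨x, hx⟩
  obtain ⟨hP, hPc⟩ := card_PP U hc h𝔮0 hcV
  obtain ⟨hF, hFc⟩ := card_FF U htop hbot h hsurj hP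
  have hb := bij_res U htop hbot h𝔮0 h hsurj hV
  have hfin : (HFam K 𝔮 V).Finite := by
    refine Set.Finite.of_finite_image ?_ hb.injOn
    rw [hb.image_eq]; exact hF
  refine ⟨hfin, ?_⟩
  have h1 : (HFam K 𝔮 V).ncard = Nat.card (FF U h V) := by
    rw [← hb.image_eq, Nat.card_coe_set_eq, hb.injOn.ncard_image]
  rw [h1, hFc, Nat.cast_mul, mul_comm]
  refine mul_le_mul_of_nonneg_right (le_trans ?_ hPc) (Nat.cast_nonneg _)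
  refine mul_le_mul_of_nonneg_right (card_prim h𝔮0 hδ) ?_
  have h2 : (0 : ℝ) ≤ V - c := by linarith
  positivity

end

end Pool.Agent.N786
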