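import Pool.Agent.N786.Cnt1

/-!
# Extension of characters, the families of Hecke characters (owner helper786)
-/

set_option autoImplicit false
set_option linter.unusedSectionVars false

open NumberField NumberField.Units Complex

namespace Pool.Agent.N786

open Pool.Agent.Y773 (TPos rl)
open Pool.Agent.Y767

section

variable {K : Type} [Field K] [NumberField K] [IsTotallyReal K]

/-- the nonzero ideals prime to `𝔮` -/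
def Mz (𝔮 : Ideal (𝓞 K)) : Submonoid (Ideal (𝓞 K)) where
  carrier := {𝔞 | 𝔞 ≠ 0 ∧ IsCoprime 𝔞 𝔮}
  mul_mem' hx hy := ⟨mul_ne_zero hx.1 hy.1, IsCoprime.mul_left hx.2 hy.2⟩
  one_mem' := ⟨one_ne_zero, isCoprime_one_left⟩

lemma Mz_ne {𝔮 : Ideal (𝓞 K)} (x : Mz 𝔮) : (x : Ideal (𝓞 K)) ≠ 0 := x.2.1

lemma Mz_cop {𝔮 : Ideal (𝓞 K)} (x : Mz 𝔮) : IsCoprime (x : Ideal (𝓞 K)) 𝔮 := x.2.2

lemma Mz_cancel (𝔮 : Ideal (𝓞 K)) : IsCancelMul (Mz 𝔮) where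
  mul_left_cancel x y z h := by
    apply Subtype.ext
    have h1 := congrArg (Subtype.val) h
    exact mul_left_cancel₀ (Mz_ne x) h1
  mul_right_cancel x y z h := by
    apply Subtype.ext
    have h1 := congrArg (Subtype.val) h
    exact mul_right_cancel₀ (Mz_ne x) h1

lemma span_ne {𝔮 : Ideal (𝓞 K)} (x : Tq 𝔮) : Ideal.span {(x : 𝓞 K)} ≠ 0 := by
  rw [Ne, Ideal.zero_eq_bot, Ideal.span_singleton_eq_bot]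
  exact tpos_ne (Tq_tp x)

/-- `(𝔞, x) ↦ 𝔞 (x)` -/
def pz {𝔪 𝔮 : Ideal (𝓞 K)} (h𝔪 : 𝔪 ≠ ⊤) (h : 𝔮 ∣ 𝔪) : Mq 𝔪 × Tq 𝔮 →* Mz 𝔮 where
  toFun p := ⟨(p.1 : Ideal (𝓞 K)) * Ideal.span {(p.2 : 𝓞 K)},
    mul_ne_zero (Mq_ne_bot h𝔪 p.1) (span_ne p.2),
    IsCoprime.mul_left (cop_of_dvd h (Mq_cop p.1)) (Tq_cop p.2)⟩
  map_one' := by
    apply Subtype.ext
    simp only [Prod.fst_one, Prod.snd_one, Submonoid.coe_one, Ideal.span_singleton_one, one_mul,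
      ← Ideal.one_eq_top]
  map_mul' p q := by
    apply Subtype.ext
    simp only [Prod.fst_mul, Prod.snd_mul, Submonoid.coe_mul,
      ← Ideal.span_singleton_mul_span_singleton]
    ring

lemma pz_coe {𝔪 𝔮 : Ideal (𝓞 K)} (h𝔪 : 𝔪 ≠ ⊤) (h : 𝔮 ∣ 𝔪) (𝔞 : Mq 𝔪) (x : Tq 𝔮) :
    ((pz h𝔪 h (𝔞, x) : Mz 𝔮) : Ideal (𝓞 K)) = (𝔞 : Ideal (𝓞 K)) * Ideal.span {(x : 𝓞 K)} := rfl

lemma grp_id {G : Type} [CommGroup G] {A A' F1 F2 X1 X2 : G} (e4 : A * X1 = A' * X2)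
    (e5 : A' * F1 = A * F2) : F1 * X1 = F2 * X2 := by
  have h : (A' * A) * (F1 * X1) = (A' * A) * (F2 * X2) := by
    calc (A' * A) * (F1 * X1) = (A' * F1) * (A * X1) := mul_mul_mul_comm _ _ _ _
      _ = (A * F2) * (A' * X2) := by rw [e4, e5]
      _ = (A * A') * (F2 * X2) := mul_mul_mul_comm _ _ _ _
      _ = _ := by rw [mul_comm A A']
  exact mul_left_cancel h

/-- extension of a character of the ideals prime to `𝔪` to the ideals prime to `𝔮` -/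
theorem extM (U : UD K) {𝔪 𝔮 : Ideal (𝓞 K)} (h𝔪 : 𝔪 ≠ ⊤) (h𝔪0 : 𝔪 ≠ ⊥) (h : 𝔮 ∣ 𝔪)
    {p : ((𝓞 K ⧸ 𝔮)ˣ →* ℂˣ) × (Fin (rank K) → ℝ)} {F : Mq 𝔪 →* ℂˣ} (hF : HasPar U h F p) :
    ∃ Λ : Mz 𝔮 →* ℂˣ, ∀ (𝔞 : Mq 𝔪) (x : Tq 𝔮), Λ (pz h𝔪 h (𝔞, x)) = F 𝔞 * phiT U p x := by
  have hcan := Mz_cancel 𝔮
  have hF' := hasPar_iff.mp hF
  obtain ⟨Λ, hΛ⟩ := ext_mon (pz h𝔪 h) (F.coprod (phiT U p)) (by
    rintro ⟨𝔞₁, x₁⟩ ⟨𝔞₂, x₂⟩ hab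
    rw [MonoidHom.coprod_apply, MonoidHom.coprod_apply]
    have h1 : (𝔞₁ : Ideal (𝓞 K)) * Ideal.span {(x₁ : 𝓞 K)} =
        (𝔞₂ : Ideal (𝓞 K)) * Ideal.span {(x₂ : 𝓞 K)} := by
      rw [← pz_coe h𝔪 h, ← pz_coe h𝔪 h, hab]
    obtain ⟨a, a', e1, e2⟩ := frac h𝔪 h𝔪0 (𝔞 := 𝔞₁) (𝔞' := 𝔞₂) (Tq_tp x₂) (Tq_tp x₁)
      (by rw [mul_comm, h1, mul_comm])
    have e3 : inclT h a * x₁ = inclT h a' * x₂ := by
      apply Subtype.ext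
      rw [Submonoid.coe_mul, Submonoid.coe_mul, inclT_coe, inclT_coe, e1]
    have e4 := congrArg (phiT U p) e3
    have e5 := congrArg F e2
    rw [map_mul, map_mul] at e4 e5
    rw [hF', hF'] at e5
    dsimp only
    exact grp_id e4 e5)
  exact ⟨Λ, fun 𝔞 x => by rw [hΛ, MonoidHom.coprod_apply]⟩

/-- every ideal prime to `𝔮` is equivalent to one prime to `𝔪` -/
theorem exists_equiv {𝔪 𝔮 𝔞 : Ideal (𝓞 K)} (h𝔪0 : 𝔪 ≠ ⊥) (h : 𝔮 ∣ 𝔪) (h0 : 𝔞 ≠ ⊥)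
    (hc : IsCoprime 𝔞 𝔮) : ∃ (z y : Tq 𝔮) (𝔞' : Mq 𝔪),
      Ideal.span {(z : 𝓞 K)} * 𝔞 = Ideal.span {(y : 𝓞 K)} * (𝔞' : Ideal (𝓞 K)) := by
  have h0' : 𝔞 ≠ 0 := h0
  have h1 : 𝔞 * 𝔪 ≠ 0 := mul_ne_zero h0' h𝔪0
  obtain ⟨a, ha⟩ := IsDedekindDomain.exists_sup_span_eq (I := 𝔞 * 𝔪) (J := 𝔞)
    Ideal.mul_le_left h1
  have hN : 0 < Ideal.absNorm (𝔞 * 𝔪) := by
    refine Nat.pos_of_ne_zero ?_
    rwa [Ne, Ideal.absNorm_eq_zero_iff, ← Ideal.zero_eq_bot]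
  obtain ⟨k, hk, -⟩ := Pool.Agent.Y772.TW.exists_tpos a hN
  obtain ⟨y, hy⟩ : ∃ y : 𝓞 K, y = a + (k : 𝓞 K) * (Ideal.absNorm (𝔞 * 𝔪) : 𝓞 K) := ⟨_, rfl⟩
  rw [← hy] at hk
  have hNm : (k : 𝓞 K) * ((Ideal.absNorm (𝔞 * 𝔪) : ℕ) : 𝓞 K) ∈ 𝔞 * 𝔪 :=
    Ideal.mul_mem_left _ _ (Ideal.absNorm_mem _)
  have h2 : 𝔞 * 𝔪 ⊔ Ideal.span {y} = 𝔞 := by
    apply le_antisymm
    · rw [sup_le_iff, Ideal.span_singleton_le_iff_mem]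
      refine ⟨Ideal.mul_le_left, ?_⟩
      rw [hy]
      refine 𝔞.add_mem ?_ (Ideal.mul_le_left hNm)
      have : Ideal.span {a} ≤ 𝔞 := by
        conv_rhs => rw [← ha]
        exact le_sup_right
      exact this (Ideal.mem_span_singleton_self a)
    · conv_lhs => rw [← ha]
      rw [sup_le_iff, Ideal.span_singleton_le_iff_mem]
      refine ⟨le_sup_left, ?_⟩
      have h3 : a = y - (k : 𝓞 K) * (Ideal.absNorm (𝔞 * 𝔪) : 𝓞 K) := by rw [hy]; ring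
      rw [h3]
      refine Ideal.sub_mem _ (Ideal.mem_sup_right (Ideal.mem_span_singleton_self y))
        (Ideal.mem_sup_left hNm)
  have h3 : Ideal.span {y} ≤ 𝔞 := by
    conv_rhs => rw [← h2]
    exact le_sup_right
  obtain ⟨𝔟, h𝔟⟩ := Ideal.dvd_iff_le.mpr h3
  have h4 : IsCoprime 𝔟 𝔪 := by
    rw [Ideal.isCoprime_iff_sup_eq, sup_comm]
    rw [h𝔟, ← Ideal.mul_sup] at h2
    have h5 : 𝔞 * (𝔪 ⊔ 𝔟) = 𝔞 * 1 := by rw [h2, mul_one]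
    have h6 := mul_left_cancel₀ h0' h5
    rw [h6, Ideal.one_eq_top]
  have h𝔟0 : 𝔟 ≠ ⊥ := by
    rintro rfl
    rw [Ideal.mul_bot, Ideal.span_singleton_eq_bot] at h𝔟
    exact tpos_ne hk h𝔟
  obtain ⟨z, hz1, hz2, hz3⟩ := exists_tpos_cong h𝔟0 h𝔪0 h4
  have hzc : IsCoprime (Ideal.span {z}) 𝔪 := coprime_of_sub_one hz2
  obtain ⟨𝔞', h𝔞'⟩ := Ideal.dvd_iff_le.mpr ((Ideal.span_singleton_le_iff_mem _).mpr hz1)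
  have hc' : IsCoprime 𝔞' 𝔪 := by
    rw [h𝔞'] at hzc
    exact (IsCoprime.mul_left_iff.mp hzc).2
  have hyc : IsCoprime (Ideal.span {y}) 𝔮 := by
    rw [h𝔟]
    exact hc.mul_left (cop_of_dvd h h4)
  refine ⟨⟨z, hz3, cop_of_dvd h hzc⟩, ⟨y, hk, hyc⟩, ⟨𝔞', hc'⟩, ?_⟩
  change Ideal.span {z} * 𝔞 = Ideal.span {y} * 𝔞'
  rw [h𝔞', h𝔟]
  ring

/-- Chinese remainder theorem with total positivity -/
theorem crt {𝔣 𝔮 : Ideal (𝓞 K)} (hc : IsCoprime 𝔣 𝔮) (h0 : 𝔣 * 𝔮 ≠ ⊥) {a b : 𝓞 K}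
    (ha : IsCoprime (Ideal.span {a}) 𝔣) (hb : IsCoprime (Ideal.span {b}) 𝔮) :
    ∃ x : Tq (𝔣 * 𝔮), (x : 𝓞 K) - a ∈ 𝔣 ∧ (x : 𝓞 K) - b ∈ 𝔮 := by
  obtain ⟨e, he, e', he', hee⟩ := (Ideal.isCoprime_iff_exists).1 hc
  have hN : 0 < Ideal.absNorm (𝔣 * 𝔮) := by
    refine Nat.pos_of_ne_zero ?_
    rwa [Ne, Ideal.absNorm_eq_zero_iff]
  obtain ⟨k, hk, -⟩ := Pool.Agent.Y772.TW.exists_tpos (b * e + a * e') hN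
  have hNm : (k : 𝓞 K) * ((Ideal.absNorm (𝔣 * 𝔮) : ℕ) : 𝓞 K) ∈ 𝔣 * 𝔮 :=
    Ideal.mul_mem_left _ _ (Ideal.absNorm_mem _)
  obtain ⟨x, hx⟩ : ∃ x : 𝓞 K, x = b * e + a * e' + (k : 𝓞 K) * (Ideal.absNorm (𝔣 * 𝔮) : 𝓞 K) :=
    ⟨_, rfl⟩
  rw [← hx] at hk
  have h1 : x - a ∈ 𝔣 := by
    have : x - a = (b - a) * e + (k : 𝓞 K) * (Ideal.absNorm (𝔣 * 𝔮) : 𝓞 K) := by
      rw [hx]
      linear_combination a * hee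
    rw [this]
    exact 𝔣.add_mem (𝔣.mul_mem_left _ he) (Ideal.mul_le_left hNm)
  have h2 : x - b ∈ 𝔮 := by
    have : x - b = (a - b) * e' + (k : 𝓞 K) * (Ideal.absNorm (𝔣 * 𝔮) : 𝓞 K) := by
      rw [hx]
      linear_combination b * hee
    rw [this]
    exact 𝔮.add_mem (𝔮.mul_mem_left _ he') (Ideal.mul_le_right hNm)
  have h3 : IsCoprime (Ideal.span {x}) 𝔣 := by
    apply coprime_of_isUnit
    rw [(Ideal.Quotient.eq).mpr h1]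
    exact isUnit_mk ha
  have h4 : IsCoprime (Ideal.span {x}) 𝔮 := by
    apply coprime_of_isUnit
    rw [(Ideal.Quotient.eq).mpr h2]
    exact isUnit_mk hb
  exact ⟨⟨x, hk, h3.mul_right h4⟩, h1, h2⟩

lemma cop_one (𝔣 : Ideal (𝓞 K)) : IsCoprime (Ideal.span {(1 : 𝓞 K)}) 𝔣 := by
  rw [Ideal.span_singleton_one, ← Ideal.one_eq_top]
  exact isCoprime_one_left

lemma gm_surj {𝔣 𝔮 : Ideal (𝓞 K)} (hc : IsCoprime 𝔣 𝔮) (h0 : 𝔣 * 𝔮 ≠ ⊥)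
    (h : 𝔮 ∣ 𝔣 * 𝔮) (g : (𝓞 K ⧸ 𝔮)ˣ) : ∃ x : Tq (𝔣 * 𝔮), (x : 𝓞 K) - 1 ∈ 𝔣 ∧ gm h x = g := by
  obtain ⟨b, hb⟩ := Ideal.Quotient.mk_surjective (g : 𝓞 K ⧸ 𝔮)
  have hbc : IsCoprime (Ideal.span {b}) 𝔮 := coprime_of_isUnit (by rw [hb]; exact g.isUnit)
  obtain ⟨x, hx1, hx2⟩ := crt hc h0 (cop_one 𝔣) hbc
  refine ⟨x, hx1, ?_⟩
  ext
  rw [gm_coe, ← hb]
  exact (Ideal.Quotient.eq).mpr hx2

end

end Pool.Agent.N786
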