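import Pool.Agent.N786.Hls
import Pool.Agent.N786.Cnt3
import Pool.Agent.N786.Win
import Pool.Agent.Y772.HC.Mer

/-!
# The windowed large sieve inequality for the families (owner helper786)
-/

set_option autoImplicit false
set_option linter.unusedSectionVars false

open NumberField NumberField.Units MeasureTheory Complex Filter Topology Set

namespace Pool.Agent.N786

open Pool.Agent.Y773 (TPos rl VM cc)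
open Pool.Agent.Y767
open ArithmeticFunction (vonMangoldt)
open Pool.Agent.Y772 (DK.NN DK.cc_mul DK.NN_finite)

section

variable {K : Type} [Field K] [NumberField K]

/-- the product of two characters -/
noncomputable def pr (ψ lam : Ideal (𝓞 K) →*₀ ℂ) : Ideal (𝓞 K) →*₀ ℂ where
  toFun 𝔞 := ψ 𝔞 * lam 𝔞
  map_zero' := by rw [map_zero, zero_mul]
  map_one' := by rw [map_one, map_one, one_mul]
  map_mul' 𝔞 𝔟 := by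
    simp only [map_mul]
    ring

lemma pr_apply (ψ lam : Ideal (𝓞 K) →*₀ ℂ) (𝔞 : Ideal (𝓞 K)) : pr ψ lam 𝔞 = ψ 𝔞 * lam 𝔞 := rfl

open Classical in
/-- the ideals of norm between `1` and `M` -/
noncomputable def SI (K : Type) [Field K] [NumberField K] (M : ℕ) : Finset (Ideal (𝓞 K)) :=
  (Finset.Icc 1 M).biUnion fun m => (Pool.Agent.Y772.DK.NN_finite (K := K) m).toFinset

open Classical in
lemma mem_SI {M : ℕ} {𝔞 : Ideal (𝓞 K)} :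
    𝔞 ∈ SI K M ↔ 1 ≤ Ideal.absNorm 𝔞 ∧ Ideal.absNorm 𝔞 ≤ M := by
  unfold SI
  rw [Finset.mem_biUnion]
  constructor
  · rintro ⟨m, hm, h⟩
    rw [Set.Finite.mem_toFinset] at h
    have h1 : Ideal.absNorm 𝔞 = m := h
    rw [h1]
    exact Finset.mem_Icc.mp hm
  · intro h
    exact ⟨Ideal.absNorm 𝔞, Finset.mem_Icc.mpr h, by
      rw [Set.Finite.mem_toFinset]
      exact rfl⟩

open Classical in
/-- sums over the ideals -/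
lemma sum_SI {E : Type} [AddCommMonoid E] (M : ℕ) (f : Ideal (𝓞 K) → E) :
    ∑ 𝔞 ∈ SI K M, f 𝔞 = ∑ m ∈ Finset.Icc 1 M,
      ∑ 𝔞 ∈ (Pool.Agent.Y772.DK.NN_finite (K := K) m).toFinset, f 𝔞 := by
  unfold SI
  rw [Finset.sum_biUnion]
  intro m _ m' _ hmm
  rw [Function.onFun, Finset.disjoint_left]
  intro 𝔞 h1 h2
  rw [Set.Finite.mem_toFinset] at h1 h2
  have h3 : Ideal.absNorm 𝔞 = m := h1
  have h4 : Ideal.absNorm 𝔞 = m' := h2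
  exact hmm (h3.symm.trans h4)

lemma cK_sq (m : ℕ) : (vonMangoldt m * ‖cK K m‖) ^ 2 =
    ∑ 𝔞 ∈ (Pool.Agent.Y772.DK.NN_finite (K := K) m).toFinset, VM 𝔞 ^ 2 := by
  have hV : 0 ≤ ∑ 𝔞 ∈ (Pool.Agent.Y772.DK.NN_finite (K := K) m).toFinset, VM 𝔞 ^ 2 :=
    Finset.sum_nonneg fun _ _ => sq_nonneg _
  rw [Pool.Agent.Y772.HC.cK_norm]
  have h1 : ∑ᶠ 𝔞 ∈ {𝔞 : Ideal (𝓞 K) | Ideal.absNorm 𝔞 = m}, VM 𝔞 ^ 2 =
      ∑ 𝔞 ∈ (Pool.Agent.Y772.DK.NN_finite (K := K) m).toFinset, VM 𝔞 ^ 2 :=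
    finsum_mem_eq_finite_toFinset_sum _ _
  rw [h1]
  by_cases h : vonMangoldt m = 0
  · rw [h, zero_mul]
    symm
    rw [zero_pow two_ne_zero]
    refine Finset.sum_eq_zero fun 𝔞 h𝔞 => ?_
    rw [Set.Finite.mem_toFinset] at h𝔞
    have h2 : Ideal.absNorm 𝔞 = m := h𝔞
    have h3 : VM 𝔞 = 0 := by
      refine Pool.Agent.Y772.DK.VM_of_not fun h3 => ?_
      have h4 := Pool.Agent.Y772.DK.pp_of h3
      rw [h2] at h4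
      exact ArithmeticFunction.vonMangoldt_ne_zero_iff.2 h4 h
    rw [h3, zero_pow two_ne_zero]
  · rw [mul_div_cancel₀ _ h, Real.sq_sqrt hV]

end

section

variable {K : Type} [Field K] [NumberField K] [IsTotallyReal K]

open Classical in
/-- the coefficients as sums over the ideals prime to `𝔪` -/
lemma coef_sum {𝔣 𝔮 : Ideal (𝓞 K)} (htop : 𝔣 * 𝔮 ≠ ⊤) {ν₀ ν : InfinitePlace K → ℝ}
    {ψ₀ lam : Ideal (𝓞 K) →*₀ ℂ} (h₀ : IsHM K 𝔣 ν₀ ψ₀) (hl : IsHM K 𝔮 ν lam) (M : ℕ)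
    (b : ℕ → ℂ) (t : ℝ) :
    ∑ m ∈ Finset.Icc 1 M, b m * (cc (pr ψ₀ lam) m * (vonMangoldt m : ℂ)) *
      cexp (-(((t * Real.log m : ℝ) : ℂ) * I)) =
    ∑ 𝔞 ∈ (SI K M).subtype (· ∈ Mq (𝔣 * 𝔮)),
      (b (Ideal.absNorm (𝔞 : Ideal (𝓞 K))) * (VM (𝔞 : Ideal (𝓞 K)) : ℂ) *
        ψ₀ (𝔞 : Ideal (𝓞 K))) * ph (𝔞 : Ideal (𝓞 K)) t *
        ((resM (𝔣 * 𝔮) lam 𝔞 : ℂˣ) : ℂ) := by
  have e1 : ∀ m ∈ Finset.Icc 1 M, b m * (cc (pr ψ₀ lam) m * (vonMangoldt m : ℂ)) *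
      cexp (-(((t * Real.log m : ℝ) : ℂ) * I)) =
      ∑ 𝔞 ∈ (Pool.Agent.Y772.DK.NN_finite (K := K) m).toFinset,
        (b (Ideal.absNorm 𝔞) * (VM 𝔞 : ℂ) * ψ₀ 𝔞) * ph 𝔞 t * lam 𝔞 := by
    intro m _
    rw [Pool.Agent.Y772.DK.cc_mul,
      finsum_mem_eq_finite_toFinset_sum _ (Pool.Agent.Y772.DK.NN_finite (K := K) m),
      Finset.mul_sum, Finset.sum_mul]
    refine Finset.sum_congr rfl fun 𝔞 h𝔞 => ?_
    rw [Set.Finite.mem_toFinset] at h𝔞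
    have h2 : Ideal.absNorm 𝔞 = m := h𝔞
    unfold ph
    rw [h2, pr_apply]
    ring
  rw [Finset.sum_congr rfl e1, ← sum_SI]
  have e2 : ∑ 𝔞 ∈ SI K M, (b (Ideal.absNorm 𝔞) * (VM 𝔞 : ℂ) * ψ₀ 𝔞) * ph 𝔞 t * lam 𝔞 =
      ∑ 𝔞 ∈ (SI K M).filter (· ∈ Mq (𝔣 * 𝔮)),
        (b (Ideal.absNorm 𝔞) * (VM 𝔞 : ℂ) * ψ₀ 𝔞) * ph 𝔞 t * lam 𝔞 := by
    rw [Finset.sum_filter]
    refine Finset.sum_congr rfl fun 𝔞 h𝔞 => ?_
    by_cases h1 : 𝔞 ∈ Mq (𝔣 * 𝔮)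
    · rw [if_pos h1]
    · rw [if_neg h1]
      have h𝔞0 : 𝔞 ≠ ⊥ := by
        rintro rfl
        have := (mem_SI.mp h𝔞).1
        rw [Ideal.absNorm_bot] at this
        omega
      by_cases h2 : IsCoprime 𝔞 𝔣
      · have h3 : ¬ IsCoprime 𝔞 𝔮 := fun h4 => h1 (h2.mul_right h4)
        have h5 : lam 𝔞 = 0 := by
          by_contra h6
          exact h3 ((hl.supp 𝔞 h𝔞0).mp h6)
        rw [h5, mul_zero]
      · have h5 : ψ₀ 𝔞 = 0 := by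
          by_contra h6
          exact h2 ((h₀.supp 𝔞 h𝔞0).mp h6)
        rw [h5, mul_zero, zero_mul, zero_mul]
  rw [e2, ← Finset.sum_subtype_eq_sum_filter]
  refine Finset.sum_congr rfl fun 𝔞 _ => ?_
  rw [resM_coe htop (Dvd.intro_left _ rfl) hl]

open Classical in
/-- the square sum of the coefficients -/
lemma coef_sq (𝔪 : Ideal (𝓞 K)) {ψ₀ : Ideal (𝓞 K) →*₀ ℂ}
    (hψ : ∀ 𝔞 : Mq 𝔪, ‖ψ₀ (𝔞 : Ideal (𝓞 K))‖ ≤ 1) (M : ℕ)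
    (b : ℕ → ℂ) :
    ∑ 𝔞 ∈ (SI K M).subtype (· ∈ Mq 𝔪), ‖b (Ideal.absNorm (𝔞 : Ideal (𝓞 K))) *
      (VM (𝔞 : Ideal (𝓞 K)) : ℂ) * ψ₀ (𝔞 : Ideal (𝓞 K))‖ ^ 2 ≤
    ∑ m ∈ Finset.Icc 1 M, ‖b m‖ ^ 2 * (vonMangoldt m * ‖cK K m‖) ^ 2 := by
  have h0 : ∑ 𝔞 ∈ (SI K M).subtype (· ∈ Mq 𝔪), ‖b (Ideal.absNorm (𝔞 : Ideal (𝓞 K))) *
      (VM (𝔞 : Ideal (𝓞 K)) : ℂ) * ψ₀ (𝔞 : Ideal (𝓞 K))‖ ^ 2 ≤
      ∑ 𝔞 ∈ (SI K M).subtype (· ∈ Mq 𝔪),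
        ‖b (Ideal.absNorm (𝔞 : Ideal (𝓞 K)))‖ ^ 2 * VM (𝔞 : Ideal (𝓞 K)) ^ 2 := by
    refine Finset.sum_le_sum fun 𝔞 _ => ?_
    rw [norm_mul, norm_mul, mul_pow, mul_pow, Complex.norm_real, Real.norm_eq_abs, sq_abs]
    refine mul_le_of_le_one_right (by positivity) ?_
    exact pow_le_one₀ (norm_nonneg _) (hψ 𝔞)
  refine h0.trans ?_
  rw [Finset.sum_subtype_eq_sum_filter (f := fun 𝔞 : Ideal (𝓞 K) =>
    ‖b (Ideal.absNorm 𝔞)‖ ^ 2 * VM 𝔞 ^ 2)]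
  have h1 : ∑ 𝔞 ∈ (SI K M).filter (· ∈ Mq 𝔪), ‖b (Ideal.absNorm 𝔞)‖ ^ 2 * VM 𝔞 ^ 2 ≤
      ∑ 𝔞 ∈ SI K M, ‖b (Ideal.absNorm 𝔞)‖ ^ 2 * VM 𝔞 ^ 2 :=
    Finset.sum_le_sum_of_subset_of_nonneg (Finset.filter_subset _ _)
      fun _ _ _ => by positivity
  refine h1.trans (le_of_eq ?_)
  rw [sum_SI]
  refine Finset.sum_congr rfl fun m _ => ?_
  rw [cK_sq, Finset.mul_sum]
  refine Finset.sum_congr rfl fun 𝔞 h𝔞 => ?_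
  rw [Set.Finite.mem_toFinset] at h𝔞
  have h2 : Ideal.absNorm 𝔞 = m := h𝔞
  rw [h2]

/-- the norm of a character -/
lemma norm_le_one_hm (U : UD K) {𝔣 𝔪 : Ideal (𝓞 K)} (h𝔪 : 𝔪 ≠ ⊤) (h𝔪0 : 𝔪 ≠ ⊥) (h : 𝔣 ∣ 𝔪)
    {ν₀ : InfinitePlace K → ℝ} {ψ₀ : Ideal (𝓞 K) →*₀ ℂ} (hs : ∑ w, ν₀ w = 0)
    (h₀ : IsHM K 𝔣 ν₀ ψ₀) (𝔞 : Mq 𝔪) : ‖ψ₀ (𝔞 : Ideal (𝓞 K))‖ ≤ 1 := by
  have hfc : Finite (Cls (pq 𝔪)) := finite_cls h𝔪 h𝔪0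
  obtain ⟨V, hV⟩ : ∃ V : ℝ, V = ∑ w, |ν₀ w| := ⟨_, rfl⟩
  have hV0 : 0 ≤ V := by rw [hV]; exact Finset.sum_nonneg fun _ _ => abs_nonneg _
  obtain ⟨p, -, -, hp⟩ := exists_par' U hV0 (fun w => by
    rw [hV]
    exact Finset.single_le_sum (f := fun w => |ν₀ w|) (fun _ _ => abs_nonneg _)
      (Finset.mem_univ w)) hs h₀
  have h1 := resM_par h𝔪 h h₀ hp
  have h2 := h1.norm_one h𝔪 h₀.ne_bot 𝔞
  rw [resM_coe h𝔪 h h₀] at h2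
  exact h2.le

/-- **The windowed large sieve inequality for the families** -/
theorem lsw_fam (U : UD K) (D τ : ℝ) (hD : 1 < D) (hτ : 0 < τ) :
    ∃ δq V₀ C : ℝ, 0 < δq ∧ 1 ≤ V₀ ∧ 1 ≤ C ∧ ∀ (𝔣 𝔮 : Ideal (𝓞 K)), IsCoprime 𝔣 𝔮 →
    𝔣 * 𝔮 ≠ ⊤ → 𝔣 * 𝔮 ≠ ⊥ → ∀ V : ℝ, V₀ ≤ V →
    ∑ᶠ 𝔭 ∈ PD 𝔮, (1 / (Ideal.absNorm 𝔭 : ℝ)) ≤ δq →
    (HFam K 𝔮 V).Finite ∧ (HFam K 𝔮 V).Nonempty ∧
    ∀ (hfin : (HFam K 𝔮 V).Finite) (ν₀ : InfinitePlace K → ℝ) (ψ₀ : Ideal (𝓞 K) →*₀ ℂ),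
      ∑ w, ν₀ w = 0 → IsHM K 𝔣 ν₀ ψ₀ → ∀ (L : ℝ) (M : ℕ), 2 * Real.pi ≤ L →
      4 * Real.log M ≤ L → (C * (L / V)) ^ Module.finrank ℚ K * M < Ideal.absNorm 𝔮 →
      LSW hfin.toFinset (fun lam m => cc (pr ψ₀ lam) m * (vonMangoldt m : ℂ)) (cK K) M (τ * V)
        (D * hfin.toFinset.card * (τ * V)) := by
  classical
  obtain ⟨vol, hvol⟩ : ∃ vol : ℝ, vol = (volume {θ | U.p θ ≤ 1}).toReal := ⟨_, rfl⟩
  have hvol0 : 0 < vol := by rw [hvol]; exact (normP_U' U).vol_pos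
  obtain ⟨κ, hκ⟩ : ∃ κ : ℝ, κ = D - 1 := ⟨_, rfl⟩
  have hκ0 : 0 < κ := by rw [hκ]; linarith
  obtain ⟨θ, hθ⟩ : ∃ θ : ℝ, θ = κ / (4 * (1 + κ)) := ⟨_, rfl⟩
  have hθ0 : 0 < θ := by rw [hθ]; positivity
  have hθ1 : θ ≤ 1 / 4 := by
    rw [hθ, div_le_iff₀ (by positivity)]
    linarith
  have hθκ : (1 + κ) * θ = κ / 4 := by rw [hθ]; field_simp
  obtain ⟨V₁, C, hV₁, hC, hls⟩ := hls U τ (τ * vol * (κ / 4)) hτ (by positivity)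
  obtain ⟨c, hc0, hcard⟩ := fam_card U
  obtain ⟨r, hr⟩ : ∃ r : ℕ, r = rank K := ⟨_, rfl⟩
  refine ⟨θ / 2, max (max V₁ (c + 1)) (r * c / θ), C, by positivity,
    le_max_of_le_left (le_max_of_le_left hV₁), hC, ?_⟩
  intro 𝔣 𝔮 hcop htop hbot V hV hδ
  have hV1 : V₁ ≤ V := ((le_max_left _ _).trans (le_max_left _ _)).trans hV
  have hVc : c + 1 ≤ V := ((le_max_right _ _).trans (le_max_left _ _)).trans hV
  have hVr : r * c / θ ≤ V := (le_max_right _ _).trans hV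
  have hV0 : 0 < V := by linarith
  obtain ⟨hfin, hsize⟩ := hcard 𝔣 𝔮 hcop htop hbot V (θ / 2) (by linarith) hV0.le hδ
  have h𝔮0 : 𝔮 ≠ ⊥ := by
    rintro rfl
    exact hbot (Ideal.mul_bot _)
  have hfq := finite_quot h𝔮0
  have hfc : Finite (Cls (pq (𝔣 * 𝔮))) := finite_cls htop hbot
  have hG0 : (0 : ℝ) < Nat.card (𝓞 K ⧸ 𝔮)ˣ := by exact_mod_cast Nat.card_pos
  have hcl0 : (0 : ℝ) < Nat.card (Cls (pq (𝔣 * 𝔮))) := by exact_mod_cast Nat.card_pos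
  rw [← hvol, ← hr] at hsize
  have h1θ : 0 < 1 - 2 * (θ / 2) := by linarith
  have hVc0 : 0 < V - c := by linarith
  have hpos : 0 < ((HFam K 𝔮 V).ncard : ℝ) := by
    refine lt_of_lt_of_le ?_ hsize
    positivity
  have hne : (HFam K 𝔮 V).Nonempty := by
    rw [← Set.ncard_pos hfin]
    exact_mod_cast hpos
  refine ⟨hfin, hne, ?_⟩
  intro hfin' ν₀ ψ₀ hs h₀ L M hL hLM hCM
  have hV2 : 0 ≤ V := hV0.le
  have hdvd : 𝔮 ∣ 𝔣 * 𝔮 := Dvd.intro_left _ rfl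
  have hsurj : Function.Surjective (gm hdvd) := fun g => by
    obtain ⟨x, -, hx⟩ := gm_surj hcop hbot hdvd g
    exact ⟨x, hx⟩
  have hncard : (HFam K 𝔮 V).ncard = hfin'.toFinset.card := Set.ncard_eq_toFinset_card _ hfin'
  rw [hncard] at hsize
  -- the comparison of the sizes
  have hcmp : (Nat.card (Cls (pq (𝔣 * 𝔮))) : ℝ) * (Nat.card (𝓞 K ⧸ 𝔮)ˣ *
      (V ^ r * V * (τ * vol + τ * vol * (κ / 4)))) ≤ D * hfin'.toFinset.card * (τ * V) := by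
    have hB : 1 - θ ≤ ((V - c) / V) ^ r := by
      have h1 := one_add_mul_le_pow (show (-2 : ℝ) ≤ -(c / V) by
        have : c / V ≤ 1 := by rw [div_le_one hV0]; linarith
        linarith) r
      have h2 : 1 + -(c / V) = (V - c) / V := by field_simp; ring
      rw [h2] at h1
      refine le_trans ?_ h1
      have h3 : r * (c / V) ≤ θ := by
        rw [div_le_iff₀ hθ0] at hVr
        rw [mul_div_assoc', div_le_iff₀ hV0]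
        linarith
      linarith
    have hB2 : (1 - θ) * V ^ r ≤ (V - c) ^ r := by
      rw [div_pow, le_div_iff₀ (by positivity)] at hB
      exact hB
    have hkey : (1 + κ / 4) * V ^ r ≤ (1 + κ) * ((1 - 2 * (θ / 2)) * (V - c) ^ r) := by
      have h1 : (1 + κ) * ((1 - 2 * (θ / 2)) * ((1 - θ) * V ^ r)) ≤
          (1 + κ) * ((1 - 2 * (θ / 2)) * (V - c) ^ r) := by gcongr
      refine le_trans ?_ h1
      have h2 : (1 + κ) * ((1 - 2 * (θ / 2)) * ((1 - θ) * V ^ r)) =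
          ((1 + κ) - 2 * ((1 + κ) * θ) + (1 + κ) * θ * θ) * V ^ r := by ring
      rw [h2, hθκ]
      have h3 : 0 ≤ κ / 4 * θ := by positivity
      have h4 : 0 ≤ V ^ r := by positivity
      refine mul_le_mul_of_nonneg_right ?_ h4
      linarith
    have e1 : (Nat.card (Cls (pq (𝔣 * 𝔮))) : ℝ) * (Nat.card (𝓞 K ⧸ 𝔮)ˣ *
      (V ^ r * V * (τ * vol + τ * vol * (κ / 4)))) =
        Nat.card (Cls (pq (𝔣 * 𝔮))) * Nat.card (𝓞 K ⧸ 𝔮)ˣ * (τ * V) * vol *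
          ((1 + κ / 4) * V ^ r) := by ring
    have e2 : D = 1 + κ := by rw [hκ]; ring
    rw [e1, e2]
    calc (Nat.card (Cls (pq (𝔣 * 𝔮))) : ℝ) * Nat.card (𝓞 K ⧸ 𝔮)ˣ * (τ * V) * vol *
          ((1 + κ / 4) * V ^ r) ≤ Nat.card (Cls (pq (𝔣 * 𝔮))) * Nat.card (𝓞 K ⧸ 𝔮)ˣ *
          (τ * V) * vol * ((1 + κ) * ((1 - 2 * (θ / 2)) * (V - c) ^ r)) :=
            mul_le_mul_of_nonneg_left hkey (by positivity)
      _ = (1 + κ) * (τ * V) * (Nat.card (Cls (pq (𝔣 * 𝔮))) * (Nat.card (𝓞 K ⧸ 𝔮)ˣ *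
          (1 - 2 * (θ / 2)) * ((V - c) ^ r * vol))) := by ring
      _ ≤ (1 + κ) * (τ * V) * hfin'.toFinset.card :=
            mul_le_mul_of_nonneg_left hsize (by positivity)
      _ = _ := by ring
  -- the large sieve
  intro b t₁
  have : Fintype (Cls (pq (𝔣 * 𝔮))) := Fintype.ofFinite _
  have : Fintype (𝓞 K ⧸ 𝔮)ˣ := Fintype.ofFinite _
  have hinj : Set.InjOn (resM (𝔣 * 𝔮)) (hfin'.toFinset : Set (Ideal (𝓞 K) →*₀ ℂ)) := by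
    intro lam hl lam' hl' he
    rw [Finset.mem_coe, Set.Finite.mem_toFinset] at hl hl'
    exact resM_inj (U := U) htop hbot hdvd hsurj hV2 hl hl' he
  have hpar : ∀ lam ∈ hfin'.toFinset, ∃ p, HasPar U hdvd (resM (𝔣 * 𝔮) lam) p ∧
      p ∈ U.PQ 𝔮 V := by
    intro lam hl
    rw [Set.Finite.mem_toFinset] at hl
    obtain ⟨ν, a1, a2, a3⟩ := hl
    obtain ⟨p, hp1, -, hp3⟩ := exists_par' U hV2 a1 a2 a3.toIsHM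
    exact ⟨p, resM_par htop hdvd a3.toIsHM hp3, hp1⟩
  have hpar' : ∀ F ∈ hfin'.toFinset.image (resM (𝔣 * 𝔮)), ∃ p, HasPar U hdvd F p ∧
      p ∈ U.PQ 𝔮 V := by
    intro F hF
    rw [Finset.mem_image] at hF
    obtain ⟨lam, hl, rfl⟩ := hF
    exact hpar lam hl
  choose! par hpar2 using hpar'
  have hmain := hls (𝔣 * 𝔮) 𝔮 htop h𝔮0 hdvd V L M hV1 hL hLM hCM
    ((SI K M).subtype (· ∈ Mq (𝔣 * 𝔮))) (fun 𝔞 h𝔞 => by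
      rw [Finset.mem_subtype] at h𝔞
      exact_mod_cast (mem_SI.mp h𝔞).2) (hfin'.toFinset.image (resM (𝔣 * 𝔮))) par hpar2
    (fun 𝔞 => b (Ideal.absNorm (𝔞 : Ideal (𝓞 K))) * (VM (𝔞 : Ideal (𝓞 K)) : ℂ) *
        ψ₀ (𝔞 : Ideal (𝓞 K))) t₁
  rw [Finset.sum_image hinj] at hmain
  have e1 : ∀ lam ∈ hfin'.toFinset, ∫ t in t₁..(t₁ + τ * V), ‖∑ m ∈ Finset.Icc 1 M,
      b m * (cc (pr ψ₀ lam) m * (vonMangoldt m : ℂ)) *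
        cexp (-(((t * Real.log m : ℝ) : ℂ) * I))‖ ^ 2 =
      ∫ t in t₁..(t₁ + τ * V), ‖∑ 𝔞 ∈ (SI K M).subtype (· ∈ Mq (𝔣 * 𝔮)),
      (b (Ideal.absNorm (𝔞 : Ideal (𝓞 K))) * (VM (𝔞 : Ideal (𝓞 K)) : ℂ) *
        ψ₀ (𝔞 : Ideal (𝓞 K))) * ph (𝔞 : Ideal (𝓞 K)) t *
        ((resM (𝔣 * 𝔮) lam 𝔞 : ℂˣ) : ℂ)‖ ^ 2 := by
    intro lam hl
    rw [Set.Finite.mem_toFinset] at hl
    obtain ⟨ν, a1, a2, a3⟩ := hl
    have h1 := fun t => coef_sum htop h₀ a3.toIsHM M b t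
    simp_rw [h1]
  rw [Finset.sum_congr rfl e1]
  refine hmain.trans ?_
  have hsq := coef_sq (𝔣 * 𝔮) (fun 𝔞 => norm_le_one_hm U htop hbot (Dvd.intro _ rfl) hs h₀ 𝔞) M b
  have hS0 : 0 ≤ ∑ m ∈ Finset.Icc 1 M, ‖b m‖ ^ 2 * (vonMangoldt m * ‖cK K m‖) ^ 2 :=
    Finset.sum_nonneg fun _ _ => by positivity
  rw [Nat.card_eq_fintype_card, Nat.card_eq_fintype_card] at hcmp
  rw [← hvol, ← hr]
  calc _ ≤ (Fintype.card (Cls (pq (𝔣 * 𝔮))) : ℝ) * (Fintype.card (𝓞 K ⧸ 𝔮)ˣ *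
        (V ^ r * V * (τ * vol + τ * vol * (κ / 4))) *
        ∑ m ∈ Finset.Icc 1 M, ‖b m‖ ^ 2 * (vonMangoldt m * ‖cK K m‖) ^ 2) := by gcongr
    _ = ((Fintype.card (Cls (pq (𝔣 * 𝔮))) : ℝ) * (Fintype.card (𝓞 K ⧸ 𝔮)ˣ *
        (V ^ r * V * (τ * vol + τ * vol * (κ / 4))))) *
        ∑ m ∈ Finset.Icc 1 M, ‖b m‖ ^ 2 * (vonMangoldt m * ‖cK K m‖) ^ 2 := by ring
    _ ≤ _ := mul_le_mul_of_nonneg_right hcmp hS0

end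

end Pool.Agent.N786
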