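import Pool.Agent.N786.Cop

/-!
# The families of Hecke characters (owner helper786)
-/

set_option autoImplicit false
set_option linter.unusedSectionVars false

open NumberField NumberField.Units Complex

namespace Pool.Agent.N786

open Pool.Agent.Y773 (TPos rl)
open Pool.Agent.Y767

section

variable {K : Type} [Field K] [NumberField K] [IsTotallyReal K]

lemma mem_Mz {𝔮 𝔞 : Ideal (𝓞 K)} : 𝔞 ∈ Mz 𝔮 ↔ 𝔞 ≠ 0 ∧ IsCoprime 𝔞 𝔮 := Iff.rfl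

open Classical in
/-- extension by zero -/
noncomputable def ofMz {𝔮 : Ideal (𝓞 K)} (Λ : Mz 𝔮 →* ℂˣ) : Ideal (𝓞 K) →*₀ ℂ where
  toFun 𝔞 := if h : 𝔞 ∈ Mz 𝔮 then ((Λ ⟨𝔞, h⟩ : ℂˣ) : ℂ) else 0
  map_zero' := dif_neg fun h => h.1 rfl
  map_one' := by
    rw [dif_pos (Mz 𝔮).one_mem]
    have : (⟨1, (Mz 𝔮).one_mem⟩ : Mz 𝔮) = 1 := rfl
    rw [this, map_one, Units.val_one]
  map_mul' 𝔞 𝔟 := by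
    by_cases h1 : 𝔞 ∈ Mz 𝔮
    · by_cases h2 : 𝔟 ∈ Mz 𝔮
      · rw [dif_pos h1, dif_pos h2, dif_pos ((Mz 𝔮).mul_mem h1 h2), ← Units.val_mul, ← map_mul]
        rfl
      · rw [dif_neg h2, dif_neg, mul_zero]
        rintro ⟨h3, h4⟩
        exact h2 ⟨right_ne_zero_of_mul h3, (IsCoprime.mul_left_iff.mp h4).2⟩
    · rw [dif_neg h1, dif_neg, zero_mul]
      rintro ⟨h3, h4⟩
      exact h1 ⟨left_ne_zero_of_mul h3, (IsCoprime.mul_left_iff.mp h4).1⟩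

open Classical in
lemma ofMz_coe {𝔮 : Ideal (𝓞 K)} (Λ : Mz 𝔮 →* ℂˣ) (x : Mz 𝔮) :
    ofMz Λ (x : Ideal (𝓞 K)) = ((Λ x : ℂˣ) : ℂ) := by
  change (if h : (x : Ideal (𝓞 K)) ∈ Mz 𝔮 then ((Λ ⟨(x : Ideal (𝓞 K)), h⟩ : ℂˣ) : ℂ) else 0) = _
  rw [dif_pos x.2]

open Classical in
lemma ofMz_supp {𝔮 : Ideal (𝓞 K)} (Λ : Mz 𝔮 →* ℂˣ) (𝔞 : Ideal (𝓞 K)) :
    ofMz Λ 𝔞 ≠ 0 ↔ 𝔞 ∈ Mz 𝔮 := by
  change (if h : 𝔞 ∈ Mz 𝔮 then ((Λ ⟨𝔞, h⟩ : ℂˣ) : ℂ) else 0) ≠ 0 ↔ _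
  by_cases h : 𝔞 ∈ Mz 𝔮
  · rw [dif_pos h]
    exact ⟨fun _ => h, fun _ => Units.ne_zero _⟩
  · rw [dif_neg h]
    exact ⟨fun h1 => absurd rfl h1, fun h1 => absurd h1 h⟩

/-- the values on the principal ideals -/
def OnP (U : UD K) (𝔮 : Ideal (𝓞 K)) (lam : Ideal (𝓞 K) →*₀ ℂ)
    (p : ((𝓞 K ⧸ 𝔮)ˣ →* ℂˣ) × (Fin (rank K) → ℝ)) : Prop :=
  ∀ x : Tq 𝔮, lam (Ideal.span {(x : 𝓞 K)}) = ((phiT U p x : ℂˣ) : ℂ)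

lemma gq_one_of {𝔮 : Ideal (𝓞 K)} {x : Tq 𝔮} (h : (x : 𝓞 K) - 1 ∈ 𝔮) : gq 𝔮 x = 1 := by
  ext
  rw [gq_coe, Units.val_one, ← map_one (Ideal.Quotient.mk 𝔮)]
  exact (Ideal.Quotient.eq).mpr h

lemma isHM_of {U : UD K} {𝔮 : Ideal (𝓞 K)} (h0 : 𝔮 ≠ ⊥)
    {p : ((𝓞 K ⧸ 𝔮)ˣ →* ℂˣ) × (Fin (rank K) → ℝ)} {lam : Ideal (𝓞 K) →*₀ ℂ}
    (hs : ∀ 𝔞, lam 𝔞 ≠ 0 ↔ 𝔞 ∈ Mz 𝔮) (h : OnP U 𝔮 lam p) : IsHM K 𝔮 (U.NU p.2) lam where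
  ne_bot := h0
  supp 𝔞 h𝔞 := by
    rw [hs, mem_Mz]
    exact ⟨fun h1 => h1.2, fun h1 => ⟨h𝔞, h1⟩⟩
  ray x hx hx1 := by
    have h1 := h ⟨x, hx1, coprime_of_sub_one hx⟩
    rw [phiT_coe, gq_one_of (x := ⟨x, hx1, coprime_of_sub_one hx⟩) hx, map_one, Units.val_one,
      one_mul] at h1
    exact h1

/-- primitivity of the character of the finite group -/
def PrimC (𝔮 : Ideal (𝓞 K)) (χ : (𝓞 K ⧸ 𝔮)ˣ →* ℂˣ) : Prop :=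
  ∀ 𝔤 : Ideal (𝓞 K), 𝔤 ∣ 𝔮 → 𝔤 ≠ 𝔮 →
    ∃ (g : (𝓞 K ⧸ 𝔮)ˣ) (x : 𝓞 K), Ideal.Quotient.mk 𝔮 x = g ∧ x - 1 ∈ 𝔤 ∧ χ g ≠ 1

lemma prim_iff {𝔮 : Ideal (𝓞 K)} {ν : InfinitePlace K → ℝ} {lam : Ideal (𝓞 K) →*₀ ℂ}
    (h : IsHM K 𝔮 ν lam) {χ : (𝓞 K ⧸ 𝔮)ˣ →* ℂˣ} (hχ : ∀ x : Tq 𝔮,
      lam (Ideal.span {(x : 𝓞 K)}) = ((χ (gq 𝔮 x) : ℂˣ) : ℂ) * ax ν ((x : 𝓞 K) : K)) :
    IsHecke K 𝔮 ν lam ↔ PrimC 𝔮 χ := by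
  constructor
  · intro h1 𝔤 hg hg'
    obtain ⟨x, hx1, hx2, hx3, hx4⟩ := h1.prim 𝔤 hg hg'
    refine ⟨gq 𝔮 ⟨x, hx2, hx3⟩, x, by rw [gq_coe], hx1, fun h2 => hx4 ?_⟩
    have h3 := hχ ⟨x, hx2, hx3⟩
    rw [h2, Units.val_one, one_mul] at h3
    exact h3
  · intro h1
    refine ⟨h, fun 𝔤 hg hg' => ?_⟩
    obtain ⟨g, x', hx', hx'1, hg1⟩ := h1 𝔤 hg hg'
    obtain ⟨x, hx⟩ := gq_surj h.ne_bot g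
    have h2 : (x : 𝓞 K) - x' ∈ 𝔮 := by
      rw [← Ideal.Quotient.eq, hx', ← hx, gq_coe]
    refine ⟨x, ?_, Tq_tp x, Tq_cop x, fun h3 => hg1 ?_⟩
    · have h4 : (x : 𝓞 K) - 1 = ((x : 𝓞 K) - x') + (x' - 1) := by ring
      rw [h4]
      exact 𝔤.add_mem (Ideal.dvd_iff_le.mp hg h2) hx'1
    · rw [hχ x, hx] at h3
      have h5 : ((χ g : ℂˣ) : ℂ) = 1 := by
        have h6 : ((χ g : ℂˣ) : ℂ) * ax ν ((x : 𝓞 K) : K) = 1 * ax ν ((x : 𝓞 K) : K) := by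
          rw [h3, one_mul]
        exact mul_right_cancel₀ (ax_ne_zero _ _) h6
      ext
      rw [h5, Units.val_one]

/-- the character of the group of residue classes, every modulus -/
theorem exists_chi' {𝔮 : Ideal (𝓞 K)} {ν : InfinitePlace K → ℝ} {lam : Ideal (𝓞 K) →*₀ ℂ}
    (h : IsHM K 𝔮 ν lam) : ∃ χ : (𝓞 K ⧸ 𝔮)ˣ →* ℂˣ, ∀ x : Tq 𝔮,
      lam (Ideal.span {(x : 𝓞 K)}) = ((χ (gq 𝔮 x) : ℂˣ) : ℂ) * ax ν ((x : 𝓞 K) : K) := by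
  by_cases htop : 𝔮 = ⊤
  · refine ⟨1, fun x => ?_⟩
    rw [MonoidHom.one_apply, Units.val_one, one_mul]
    refine h.ray _ ?_ (Tq_tp x)
    have h1 : (1 : 𝓞 K) ∈ 𝔮 := (Ideal.eq_top_iff_one 𝔮).mp htop
    have h2 := 𝔮.mul_mem_left ((x : 𝓞 K) - 1) h1
    rwa [mul_one] at h2
  · exact h.exists_chi htop

/-- the parameters, every modulus -/
theorem exists_par' (U : UD K) {𝔮 : Ideal (𝓞 K)} {V : ℝ} (hV : 0 ≤ V)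
    {ν : InfinitePlace K → ℝ} {lam : Ideal (𝓞 K) →*₀ ℂ} (hν : ∀ w, |ν w| ≤ V)
    (hs : ∑ w, ν w = 0) (h : IsHM K 𝔮 ν lam) :
    ∃ p ∈ U.PQ 𝔮 V, U.NU p.2 = ν ∧ OnP U 𝔮 lam p := by
  obtain ⟨χ, hχ⟩ := exists_chi' h
  obtain ⟨θ, hθ⟩ : ∃ θ : Fin (rank K) → ℝ, θ =
    fun i => (∑ w, ν w * Real.log (w ((U.ε i : (𝓞 K)ˣ) : K))) / (2 * Real.pi) := ⟨_, rfl⟩
  have hNU : U.NU θ = ν := by rw [hθ]; exact U.NUi ν hs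
  have hon : OnP U 𝔮 lam (χ, θ) := fun x => by
    rw [phiT_coe, hχ x, hNU]
  refine ⟨(χ, θ), ⟨fun i => ?_, ?_⟩, hNU, hon⟩
  · have h1 := hχ (U.eT 𝔮 i)
    have h2 : Ideal.span {((U.eT 𝔮 i : Tq 𝔮) : 𝓞 K)} = 1 := by
      change Ideal.span {((U.ε i : (𝓞 K)ˣ) : 𝓞 K)} = 1
      rw [Ideal.span_singleton_eq_top.mpr (U.ε i).isUnit, ← Ideal.one_eq_top]
    rw [h2, map_one] at h1
    have h3 : ax ν (((U.eT 𝔮 i : Tq 𝔮) : 𝓞 K) : K) = cexp (2 * Real.pi * I * (θ i : ℂ)) := by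
      have h4 := U.NUl θ i
      rw [hNU] at h4
      unfold ax
      change cexp (I * ((∑ w, ν w * Real.log (w ((U.ε i : (𝓞 K)ˣ) : K)) : ℝ) : ℂ)) = _
      rw [h4]
      congr 1
      push_cast
      ring
    rw [h3] at h1
    exact h1.symm
  · rw [U.p_le _ hV, hNU]; exact hν

/-! ### restriction to the ideals prime to `𝔪` -/

open Classical in
/-- restriction -/
noncomputable def resM (𝔪 : Ideal (𝓞 K)) (lam : Ideal (𝓞 K) →*₀ ℂ) : Mq 𝔪 →* ℂˣ :=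
  if h : ∀ x : Mq 𝔪, lam (x : Ideal (𝓞 K)) ≠ 0 then toM lam h else 1

lemma resM_coe {𝔪 𝔮 : Ideal (𝓞 K)} (h𝔪 : 𝔪 ≠ ⊤) (h : 𝔮 ∣ 𝔪) {ν : InfinitePlace K → ℝ}
    {lam : Ideal (𝓞 K) →*₀ ℂ} (hl : IsHM K 𝔮 ν lam) (x : Mq 𝔪) :
    ((resM 𝔪 lam x : ℂˣ) : ℂ) = lam (x : Ideal (𝓞 K)) := by
  have h1 : ∀ x : Mq 𝔪, lam (x : Ideal (𝓞 K)) ≠ 0 := fun x =>
    (hl.supp _ (Mq_ne_bot h𝔪 x)).mpr (cop_of_dvd h (Mq_cop x))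
  unfold resM
  rw [dif_pos h1, toM_coe]

lemma resM_par {U : UD K} {𝔪 𝔮 : Ideal (𝓞 K)} (h𝔪 : 𝔪 ≠ ⊤) (h : 𝔮 ∣ 𝔪)
    {ν : InfinitePlace K → ℝ} {lam : Ideal (𝓞 K) →*₀ ℂ} (hl : IsHM K 𝔮 ν lam)
    {p : ((𝓞 K ⧸ 𝔮)ˣ →* ℂˣ) × (Fin (rank K) → ℝ)} (hp : OnP U 𝔮 lam p) :
    HasPar U h (resM 𝔪 lam) p := by
  rw [hasPar_iff]
  intro x
  ext
  rw [resM_coe h𝔪 h hl, pq_coe, ← hp, inclT_coe]

/-- uniqueness of the parameters -/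
theorem par_unique {U : UD K} {𝔪 𝔮 : Ideal (𝓞 K)} (h𝔪0 : 𝔪 ≠ ⊥) (h : 𝔮 ∣ 𝔪)
    (hsurj : Function.Surjective (gm h)) {F : Mq 𝔪 →* ℂˣ}
    {p p' : ((𝓞 K ⧸ 𝔮)ˣ →* ℂˣ) × (Fin (rank K) → ℝ)} (hp : HasPar U h F p)
    (hp' : HasPar U h F p') : p = p' := by
  have h1 : ∀ x : Tq 𝔪, ((p.1 (gm h x) : ℂˣ) : ℂ) * ax (U.NU p.2) ((x : 𝓞 K) : K) =
      ((p'.1 (gm h x) : ℂˣ) : ℂ) * ax (U.NU p'.2) ((x : 𝓞 K) : K) := fun x => by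
    have h2 := hp x
    rw [hp' x, ← U.ax_yc _ (tpos_ne (Tq_tp x)), ← U.ax_yc _ (tpos_ne (Tq_tp x))] at h2
    exact h2.symm
  have h3 : U.NU (p.2 - p'.2) = 0 := by
    refine t_uniq K 𝔪 _ h𝔪0 fun x hx hx1 => ?_
    have h4 := h1 ⟨x, hx1, coprime_of_sub_one hx⟩
    have h5 : gm h ⟨x, hx1, coprime_of_sub_one hx⟩ = 1 := by
      ext
      rw [gm_coe, Units.val_one, ← map_one (Ideal.Quotient.mk 𝔮)]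
      exact (Ideal.Quotient.eq).mpr (Ideal.dvd_iff_le.mp h hx)
    rw [h5, map_one, map_one, Units.val_one, one_mul, one_mul] at h4
    have h6 : ax (U.NU p.2) (x : K) = ax (U.NU p'.2) (x : K) := h4
    rw [map_sub]
    have h7 : ax (U.NU p.2 - U.NU p'.2) (x : K) * ax (U.NU p'.2) (x : K) = ax (U.NU p.2) (x : K) := by
      unfold ax
      rw [← Complex.exp_add]
      congr 1
      rw [← mul_add, ← Complex.ofReal_add, ← Finset.sum_add_distrib]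
      congr 2
      refine Finset.sum_congr rfl fun w _ => ?_
      simp only [Pi.sub_apply]
      ring
    rw [h6] at h7
    exact mul_eq_right₀ (ax_ne_zero _ _) |>.mp h7
  have h8 : p.2 - p'.2 = 0 := U.p_zero _ (by unfold UD.p; rw [h3, norm_zero])
  have h9 : p.2 = p'.2 := sub_eq_zero.mp h8
  refine Prod.ext ?_ h9
  ext g
  obtain ⟨x, rfl⟩ := hsurj g
  have h10 := h1 x
  rw [h9] at h10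
  exact mul_right_cancel₀ (ax_ne_zero _ _) h10

/-- the restriction is injective -/
theorem resM_inj {U : UD K} {𝔪 𝔮 : Ideal (𝓞 K)} (h𝔪 : 𝔪 ≠ ⊤) (h𝔪0 : 𝔪 ≠ ⊥) (h : 𝔮 ∣ 𝔪)
    (hsurj : Function.Surjective (gm h)) {V : ℝ} (hV : 0 ≤ V) {lam lam' : Ideal (𝓞 K) →*₀ ℂ}
    (hl : lam ∈ HFam K 𝔮 V) (hl' : lam' ∈ HFam K 𝔮 V) (he : resM 𝔪 lam = resM 𝔪 lam') :
    lam = lam' := by
  obtain ⟨ν, a1, a2, a3⟩ := hl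
  obtain ⟨ν', b1, b2, b3⟩ := hl'
  obtain ⟨p, -, -, hp⟩ := exists_par' U hV a1 a2 a3.toIsHM
  obtain ⟨p', -, -, hp'⟩ := exists_par' U hV b1 b2 b3.toIsHM
  have h1 := resM_par h𝔪 h a3.toIsHM hp
  have h2 := resM_par h𝔪 h b3.toIsHM hp'
  rw [← he] at h2
  have h3 := par_unique h𝔪0 h hsurj h1 h2
  rw [← h3] at hp'
  ext 𝔞
  by_cases h0 : 𝔞 = ⊥
  · rw [h0, ← Ideal.zero_eq_bot, map_zero, map_zero]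
  by_cases hc : IsCoprime 𝔞 𝔮
  · obtain ⟨z, y, 𝔞', hz⟩ := exists_equiv h𝔪0 h h0 hc
    have h4 : lam (𝔞' : Ideal (𝓞 K)) = lam' (𝔞' : Ideal (𝓞 K)) := by
      rw [← resM_coe h𝔪 h a3.toIsHM, ← resM_coe h𝔪 h b3.toIsHM, he]
    have h5 := congrArg lam hz
    have h6 := congrArg lam' hz
    rw [map_mul, map_mul, hp, hp] at h5
    rw [map_mul, map_mul, hp', hp', ← h4, ← h5] at h6
    exact (mul_left_cancel₀ (Units.ne_zero _) h6).symm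
  · have h1 : lam 𝔞 = 0 := by
      by_contra h2
      exact hc ((a3.supp 𝔞 h0).mp h2)
    have h2 : lam' 𝔞 = 0 := by
      by_contra h2
      exact hc ((b3.supp 𝔞 h0).mp h2)
    rw [h1, h2]

/-- the restriction is onto -/
theorem resM_surj {U : UD K} {𝔪 𝔮 : Ideal (𝓞 K)} (h𝔪 : 𝔪 ≠ ⊤) (h𝔪0 : 𝔪 ≠ ⊥) (h𝔮0 : 𝔮 ≠ ⊥)
    (h : 𝔮 ∣ 𝔪) {V : ℝ} (hV : 0 ≤ V) {F : Mq 𝔪 →* ℂˣ}
    {p : ((𝓞 K ⧸ 𝔮)ˣ →* ℂˣ) × (Fin (rank K) → ℝ)} (hF : HasPar U h F p) (hp : p ∈ U.PQ 𝔮 V)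
    (hprim : PrimC 𝔮 p.1) : ∃ lam ∈ HFam K 𝔮 V, resM 𝔪 lam = F := by
  obtain ⟨Λ, hΛ⟩ := extM U h𝔪 h𝔪0 h hF
  have hs : ∀ 𝔞, ofMz Λ 𝔞 ≠ 0 ↔ 𝔞 ∈ Mz 𝔮 := ofMz_supp Λ
  have hon : OnP U 𝔮 (ofMz Λ) p := by
    intro x
    have h1 := hΛ 1 x
    rw [map_one, one_mul] at h1
    rw [← h1, ← ofMz_coe, pz_coe, Submonoid.coe_one, one_mul]
  have hM : IsHM K 𝔮 (U.NU p.2) (ofMz Λ) := isHM_of h𝔮0 hs hon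
  have hH : IsHecke K 𝔮 (U.NU p.2) (ofMz Λ) :=
    (prim_iff hM fun x => by rw [hon x, phiT_coe]).mpr hprim
  refine ⟨ofMz Λ, ⟨U.NU p.2, (U.p_le _ hV).mp hp.2, U.NUs _, hH⟩, ?_⟩
  ext 𝔞
  have h1 := hΛ 𝔞 1
  rw [map_one, mul_one] at h1
  rw [resM_coe h𝔪 h hM, ← h1, ← ofMz_coe, pz_coe, Submonoid.coe_one, Ideal.span_singleton_one,
    ← Ideal.one_eq_top, mul_one]

end

end Pool.Agent.N786
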