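import Mathlib

/-!
# Gaussian convolutions and windows (owner helper786)
-/

set_option autoImplicit false

open MeasureTheory Set Complex Filter Topology

namespace Pool.Agent.N786

/-- the Gaussian -/
noncomputable def ga (x : ℝ) : ℝ := Real.exp (-(x ^ 2 / 2))

lemma ga_cont : Continuous ga := by unfold ga; fun_prop

lemma ga_pos (x : ℝ) : 0 < ga x := Real.exp_pos _

lemma ga_le (x : ℝ) : ga x ≤ 1 := by
  unfold ga
  rw [Real.exp_le_one_iff]
  have := sq_nonneg x
  linarith

lemma ga_int : Integrable ga := by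
  have h := integrable_exp_neg_mul_sq (b := 1 / 2) (by norm_num)
  refine h.congr (Eventually.of_forall fun x => ?_)
  unfold ga
  simp only
  congr 1
  ring

lemma ga_integral : ∫ x, ga x = Real.sqrt (2 * Real.pi) := by
  have h := integral_gaussian (1 / 2)
  have e : ∀ x : ℝ, ga x = Real.exp (-(1 / 2) * x ^ 2) := fun x => by
    unfold ga; congr 1; ring
  simp_rw [e]
  rw [h]
  congr 1
  field_simp

lemma ga_shift_int (b : ℝ) : Integrable fun v => ga (v - b) := ga_int.comp_sub_right b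

lemma ga_shift_int' (b : ℝ) : Integrable fun v => ga (b - v) := ga_int.comp_sub_left b

lemma ga_shift_integral (b : ℝ) : ∫ v, ga (v - b) = Real.sqrt (2 * Real.pi) := by
  rw [integral_sub_right_eq_self ga b, ga_integral]

lemma ga_shift_integral' (b : ℝ) : ∫ v, ga (b - v) = Real.sqrt (2 * Real.pi) := by
  rw [integral_sub_left_eq_self ga volume b, ga_integral]

lemma ga_mul_int {f : ℝ → ℝ} (hf : Continuous f) {M : ℝ} (hM : ∀ x, |f x| ≤ M) (b : ℝ) :
    Integrable fun v => ga (b - v) * f v :=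
  (ga_shift_int' b).mul_bdd hf.aestronglyMeasurable (Eventually.of_forall fun x => by
    rw [Real.norm_eq_abs]; exact hM x)

/-- Cauchy-Schwarz -/
lemma ga_cs {f : ℝ → ℝ} (hf : Continuous f) {M : ℝ} (hM : ∀ x, |f x| ≤ M) (t : ℝ) :
    (∫ v, ga (t - v) * f v) ^ 2 ≤ Real.sqrt (2 * Real.pi) * ∫ v, ga (t - v) * f v ^ 2 := by
  have hM0 : 0 ≤ M := (abs_nonneg _).trans (hM 0)
  have i1 := ga_mul_int hf hM t
  have i2 := ga_mul_int (f := fun v => f v ^ 2) (hf.pow 2) (M := M ^ 2) (fun x => by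
    rw [abs_pow]; exact pow_le_pow_left₀ (abs_nonneg _) (hM x) 2) t
  have i0 := ga_shift_int' t
  obtain ⟨I0, hI0⟩ : ∃ I0 : ℝ, I0 = Real.sqrt (2 * Real.pi) := ⟨_, rfl⟩
  obtain ⟨I1, hI1⟩ : ∃ I1 : ℝ, I1 = ∫ v, ga (t - v) * f v := ⟨_, rfl⟩
  obtain ⟨I2, hI2⟩ : ∃ I2 : ℝ, I2 = ∫ v, ga (t - v) * f v ^ 2 := ⟨_, rfl⟩
  have hI0p : 0 < I0 := by rw [hI0]; exact Real.sqrt_pos.mpr (by have := Real.pi_pos; positivity)
  rw [← hI0, ← hI1, ← hI2]
  have h1 : 0 ≤ ∫ v, ga (t - v) * (I0 * f v - I1) ^ 2 :=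
    integral_nonneg fun v => mul_nonneg (ga_pos _).le (sq_nonneg _)
  have h2 : ∫ v, ga (t - v) * (I0 * f v - I1) ^ 2 =
      I0 ^ 2 * I2 - 2 * I0 * I1 * I1 + I1 ^ 2 * I0 := by
    have e : ∀ v, ga (t - v) * (I0 * f v - I1) ^ 2 = I0 ^ 2 * (ga (t - v) * f v ^ 2) -
        2 * I0 * I1 * (ga (t - v) * f v) + I1 ^ 2 * ga (t - v) := fun v => by ring
    simp_rw [e]
    have i3 : Integrable fun v => I0 ^ 2 * (ga (t - v) * f v ^ 2) -
        2 * I0 * I1 * (ga (t - v) * f v) := (i2.const_mul _).sub (i1.const_mul _)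
    rw [integral_add i3 (i0.const_mul _),
      integral_sub (i2.const_mul _) (i1.const_mul _), integral_const_mul, integral_const_mul,
      integral_const_mul, ga_shift_integral', ← hI0, ← hI1, ← hI2]
  rw [h2] at h1
  have h3 : 0 ≤ I0 * (I0 * I2 - I1 ^ 2) := by nlinarith
  have h4 := nonneg_of_mul_nonneg_right h3 hI0p
  linarith

open scoped Convolution

/-- Young's inequality for the Gaussian -/
theorem young {f : ℝ → ℝ} (hf : Continuous f) {M : ℝ} (hM : ∀ x, |f x| ≤ M)
    (hf1 : Integrable f) (hf2 : Integrable fun x => f x ^ 2) :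
    Integrable (fun t => (∫ v, ga (t - v) * f v) ^ 2) ∧
    ∫ t, (∫ v, ga (t - v) * f v) ^ 2 ≤ 2 * Real.pi * ∫ v, f v ^ 2 := by
  have hL : ∀ (g : ℝ → ℝ) (t : ℝ), (g ⋆[ContinuousLinearMap.lsmul ℝ ℝ, volume] ga) t =
      ∫ v, ga (t - v) * g v := by
    intro g t
    unfold MeasureTheory.convolution
    refine integral_congr_ae (Eventually.of_forall fun v => ?_)
    simp only [ContinuousLinearMap.lsmul_apply, smul_eq_mul]
    ring
  have hc1 := hf1.integrable_convolution (ContinuousLinearMap.lsmul ℝ ℝ) ga_int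
  have hc2 := hf2.integrable_convolution (ContinuousLinearMap.lsmul ℝ ℝ) ga_int
  have hI2 := integral_convolution (ContinuousLinearMap.lsmul ℝ ℝ) hf2 ga_int
  have e1 : (f ⋆[ContinuousLinearMap.lsmul ℝ ℝ, volume] ga) = fun t => ∫ v, ga (t - v) * f v :=
    funext (hL f)
  have e2 : ((fun x => f x ^ 2) ⋆[ContinuousLinearMap.lsmul ℝ ℝ, volume] ga) =
      fun t => ∫ v, ga (t - v) * f v ^ 2 := funext (hL _)
  rw [e1] at hc1
  rw [e2] at hc2 hI2
  have hmeas : AEStronglyMeasurable (fun t => (∫ v, ga (t - v) * f v) ^ 2) volume :=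
    (hc1.aestronglyMeasurable).pow 2
  have hle : ∀ t, (∫ v, ga (t - v) * f v) ^ 2 ≤
      Real.sqrt (2 * Real.pi) * ∫ v, ga (t - v) * f v ^ 2 := fun t => ga_cs hf hM t
  have hint : Integrable (fun t => (∫ v, ga (t - v) * f v) ^ 2) := by
    refine (hc2.const_mul (Real.sqrt (2 * Real.pi))).mono' hmeas (Eventually.of_forall fun t => ?_)
    rw [Real.norm_eq_abs, abs_of_nonneg (sq_nonneg _)]
    exact hle t
  refine ⟨hint, ?_⟩
  have h1 := integral_mono hint (hc2.const_mul (Real.sqrt (2 * Real.pi))) hle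
  refine h1.trans (le_of_eq ?_)
  rw [integral_const_mul, hI2]
  simp only [ContinuousLinearMap.lsmul_apply, smul_eq_mul]
  rw [ga_integral]
  have h2 : Real.sqrt (2 * Real.pi) * Real.sqrt (2 * Real.pi) = 2 * Real.pi :=
    Real.mul_self_sqrt (by have := Real.pi_pos; positivity)
  calc _ = Real.sqrt (2 * Real.pi) * Real.sqrt (2 * Real.pi) * ∫ v, f v ^ 2 := by ring
    _ = _ := by rw [h2]

/-- windows and a Gaussian weight -/
theorem win_bound {f : ℝ → ℝ} (hf : Continuous f) (hf0 : ∀ x, 0 ≤ f x) {M : ℝ}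
    (hM : ∀ x, f x ≤ M) {w B : ℝ} (hw : 1 ≤ w)
    (hB : ∀ t₁, ∫ t in t₁..(t₁ + w), f t ≤ B) (b : ℝ) :
    ∫ v, Real.exp (-(v - b) ^ 2) * f v ≤ 8 * B := by
  have hM' : ∀ x, |f x| ≤ M := fun x => by rw [abs_of_nonneg (hf0 x)]; exact hM x
  set k : ℝ → ℝ := fun t => ga (t - b) with hk
  have hki : Integrable k := ga_shift_int b
  have hk0 : ∀ t, 0 < k t := fun t => ga_pos _
  set J : ℝ → ℝ := (Ioc (0 : ℝ) w).indicator (fun _ => (1 : ℝ)) with hJ
  have hJi : Integrable J := by
    rw [hJ, integrable_indicator_iff measurableSet_Ioc]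
    exact integrableOn_const (by simp)
  have hP0 := hki.convolution_integrand (ContinuousLinearMap.lsmul ℝ ℝ) hJi
  have hP : Integrable (Function.uncurry fun v t₁ : ℝ => f v * (k t₁ * J (v - t₁)))
      (volume.prod volume) := by
    have h1 := hP0.bdd_mul (c := M) (f := fun p : ℝ × ℝ => f p.1)
      ((hf.comp continuous_fst).aestronglyMeasurable)
      (Eventually.of_forall fun p => by rw [Real.norm_eq_abs]; exact hM' p.1)
    exact h1
  have hswap := integral_integral_swap hP
  have hB0 : 0 ≤ B := (intervalIntegral.integral_nonneg (by linarith) fun t _ => hf0 t).trans (hB 0)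
  -- the inner integral over `v`
  have hv : ∀ t₁, ∫ v, f v * (k t₁ * J (v - t₁)) = k t₁ * ∫ t in t₁..(t₁ + w), f t := by
    intro t₁
    rw [intervalIntegral.integral_of_le (by linarith), ← integral_indicator measurableSet_Ioc,
      ← integral_const_mul]
    refine integral_congr_ae (Eventually.of_forall fun v => ?_)
    simp only [hJ, Set.indicator_apply, Set.mem_Ioc]
    by_cases h : 0 < v - t₁ ∧ v - t₁ ≤ w
    · rw [if_pos h, if_pos ⟨by linarith [h.1], by linarith [h.2]⟩]; ring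
    · rw [if_neg h, if_neg (fun h' => h ⟨by linarith [h'.1], by linarith [h'.2]⟩)]; ring
  have hR : ∫ t₁, ∫ v, f v * (k t₁ * J (v - t₁)) ≤ Real.sqrt (2 * Real.pi) * B := by
    simp_rw [hv]
    have h1 : ∫ t₁, k t₁ * ∫ t in t₁..(t₁ + w), f t ≤ ∫ t₁, k t₁ * B := by
      refine integral_mono_of_nonneg (Eventually.of_forall fun t₁ => ?_) (hki.mul_const B)
        (Eventually.of_forall fun t₁ => ?_)
      · exact mul_nonneg (hk0 _).le (intervalIntegral.integral_nonneg (by linarith)
          fun t _ => hf0 t)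
      · exact mul_le_mul_of_nonneg_left (hB t₁) (hk0 _).le
    refine h1.trans (le_of_eq ?_)
    rw [integral_mul_const, hk, ga_shift_integral]
  -- the inner integral over `t₁`
  have ht : ∀ v, Real.exp (-1) * (Real.exp (-(v - b) ^ 2) * f v) ≤
      ∫ t₁, f v * (k t₁ * J (v - t₁)) := by
    intro v
    rw [integral_const_mul]
    have h1 : Real.exp (-1) * Real.exp (-(v - b) ^ 2) ≤ ∫ t₁, k t₁ * J (v - t₁) := by
      have h2 : ∫ t₁, (Ico (v - 1) v).indicator
          (fun _ => Real.exp (-1) * Real.exp (-(v - b) ^ 2)) t₁ =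
          Real.exp (-1) * Real.exp (-(v - b) ^ 2) := by
        rw [integral_indicator measurableSet_Ico, setIntegral_const]
        simp [Measure.real]
      rw [← h2]
      refine integral_mono_of_nonneg (Eventually.of_forall fun t₁ => ?_) ?_
        (Eventually.of_forall fun t₁ => ?_)
      · exact Set.indicator_nonneg (fun _ _ => by positivity) _
      · have h3 : Integrable fun t₁ => J (v - t₁) := hJi.comp_sub_left v
        exact h3.bdd_mul (c := 1) (ga_cont.comp (by fun_prop : Continuous fun t : ℝ =>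
          t - b)).aestronglyMeasurable (Eventually.of_forall fun x => by
            rw [Real.norm_eq_abs]
            change |ga (x - b)| ≤ 1
            rw [abs_of_pos (ga_pos _)]
            exact ga_le _)
      · simp only [hJ, Set.indicator_apply, Set.mem_Ioc, Set.mem_Ico]
        by_cases h : v - 1 ≤ t₁ ∧ t₁ < v
        · rw [if_pos h, if_pos ⟨by linarith [h.2], by linarith [h.1]⟩, mul_one, hk]
          unfold ga
          rw [← Real.exp_add]
          refine Real.exp_le_exp.mpr ?_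
          nlinarith [sq_nonneg (v - b + (v - t₁)), sq_nonneg (v - t₁), h.1, h.2]
        · rw [if_neg h]
          split_ifs
          · rw [mul_one]; exact (hk0 _).le
          · rw [mul_zero]
    calc Real.exp (-1) * (Real.exp (-(v - b) ^ 2) * f v) =
        f v * (Real.exp (-1) * Real.exp (-(v - b) ^ 2)) := by ring
      _ ≤ _ := mul_le_mul_of_nonneg_left h1 (hf0 v)
  have hL : Real.exp (-1) * ∫ v, Real.exp (-(v - b) ^ 2) * f v ≤
      ∫ v, ∫ t₁, f v * (k t₁ * J (v - t₁)) := by
    rw [← integral_const_mul]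
    refine integral_mono_of_nonneg (Eventually.of_forall fun v => ?_) hP.integral_prod_left
      (Eventually.of_forall ht)
    have := hf0 v
    simp only [Pi.zero_apply]
    positivity
  rw [hswap] at hL
  have h1 := hL.trans hR
  have h2 : Real.sqrt (2 * Real.pi) ≤ 2.6 := by
    rw [Real.sqrt_le_left (by norm_num)]
    linarith [Real.pi_lt_d2]
  have h3 : Real.exp (-1) * Real.exp 1 = 1 := by rw [← Real.exp_add]; simp
  have h4 : Real.exp 1 ≤ 2.7183 := by linarith [Real.exp_one_lt_d9]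
  have h5 : 0 < Real.exp 1 := Real.exp_pos 1
  have h6 : ∫ v, Real.exp (-(v - b) ^ 2) * f v ≤ Real.exp 1 * (Real.sqrt (2 * Real.pi) * B) := by
    have h7 := mul_le_mul_of_nonneg_left h1 h5.le
    calc ∫ v, Real.exp (-(v - b) ^ 2) * f v =
        (Real.exp (-1) * Real.exp 1) * ∫ v, Real.exp (-(v - b) ^ 2) * f v := by rw [h3, one_mul]
      _ = Real.exp 1 * (Real.exp (-1) * ∫ v, Real.exp (-(v - b) ^ 2) * f v) := by ring
      _ ≤ _ := h7
  refine h6.trans ?_
  have h8 : Real.exp 1 * Real.sqrt (2 * Real.pi) ≤ 8 := by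
    have h9 : Real.exp 1 * Real.sqrt (2 * Real.pi) ≤ 2.7183 * 2.6 :=
      mul_le_mul h4 h2 (Real.sqrt_nonneg _) (by norm_num)
    linarith
  calc Real.exp 1 * (Real.sqrt (2 * Real.pi) * B) = (Real.exp 1 * Real.sqrt (2 * Real.pi)) * B := by
        ring
    _ ≤ 8 * B := mul_le_mul_of_nonneg_right h8 hB0

end Pool.Agent.N786
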