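import Pool.Agent.N786.Gau

/-!
# The mean square of a truncated Gaussian convolution (owner helper786)
-/

set_option autoImplicit false

open MeasureTheory Set Complex Filter Topology

namespace Pool.Agent.N786

/-- the boundary weight -/
noncomputable def phw (T v : ℝ) : ℝ := ga (v - T) + ga (v - 2 * T)

/-- the kernel -/
noncomputable def kn (t τ : ℝ) : ℝ := Real.exp (-(t - τ) ^ 2 / 4)

/-- truncated convolution -/
noncomputable def SS (G : ℝ → ℂ) (T t : ℝ) : ℂ := ∫ τ in T..(2 * T), (kn t τ : ℂ) * G ((t + τ) / 2)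

/-- full convolution -/
noncomputable def HH (G : ℝ → ℂ) (t : ℝ) : ℂ := ∫ τ, (kn t τ : ℂ) * G ((t + τ) / 2)

lemma phw_pos (T v : ℝ) : 0 < phw T v := add_pos (ga_pos _) (ga_pos _)

lemma phw_le (T v : ℝ) : phw T v ≤ 2 := by
  unfold phw
  linarith [ga_le (v - T), ga_le (v - 2 * T)]

lemma phw_cont (T : ℝ) : Continuous (phw T) := by
  unfold phw ga
  fun_prop

lemma phw_int (T : ℝ) : Integrable (phw T) := (ga_shift_int T).add (ga_shift_int (2 * T))

lemma kn_pos (t τ : ℝ) : 0 < kn t τ := Real.exp_pos _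

lemma kn_int (t : ℝ) : Integrable (kn t) := by
  have h := (integrable_exp_neg_mul_sq (b := 1 / 4) (by norm_num)).comp_sub_left t
  refine h.congr (Eventually.of_forall fun x => ?_)
  unfold kn
  simp only
  congr 1
  ring

lemma kn_le {t τ b : ℝ} (h : |(t + τ) / 2 - b| ≤ |t - τ| / 2) :
    kn t τ ≤ ga (t - (t + τ) / 2) * ga ((t + τ) / 2 - b) := by
  unfold kn ga
  rw [← Real.exp_add]
  refine Real.exp_le_exp.mpr ?_
  have h1 : ((t + τ) / 2 - b) ^ 2 ≤ ((t - τ) / 2) ^ 2 := by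
    rw [← sq_abs, ← sq_abs ((t - τ) / 2)]
    refine pow_le_pow_left₀ (abs_nonneg _) (h.trans (le_of_eq ?_)) 2
    rw [abs_div, abs_of_pos (two_pos (α := ℝ))]
  nlinarith

lemma F_int {G : ℝ → ℂ} (hG : Continuous G) {M : ℝ} (hM : ∀ x, ‖G x‖ ≤ M) (t : ℝ) :
    Integrable fun τ => (kn t τ : ℂ) * G ((t + τ) / 2) := by
  have h1 : Integrable fun τ => (kn t τ : ℂ) := (kn_int t).ofReal
  exact h1.mul_bdd (c := M) (hG.comp (by fun_prop)).aestronglyMeasurable
    (Eventually.of_forall fun x => hM _)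

lemma norm_set_le {F : ℝ → ℂ} {R : ℝ → ℝ} {A : Set ℝ} (hA : MeasurableSet A) (hR : Integrable R)
    (hR0 : ∀ x, 0 ≤ R x) (h : ∀ x ∈ A, ‖F x‖ ≤ R x) : ‖∫ x in A, F x‖ ≤ ∫ x, R x := by
  have h1 : ‖∫ x in A, F x‖ ≤ ∫ x in A, R x :=
    norm_integral_le_of_norm_le hR.integrableOn
      ((ae_restrict_mem hA).mono fun x hx => h x hx)
  exact h1.trans (setIntegral_le_integral hR (Eventually.of_forall hR0))

lemma R_int {G : ℝ → ℂ} (hG : Continuous G) {M : ℝ} (hM : ∀ x, ‖G x‖ ≤ M) (T t : ℝ) :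
    Integrable fun v => ga (t - v) * (phw T v * ‖G v‖) := by
  have hM0 : 0 ≤ M := (norm_nonneg _).trans (hM 0)
  refine ga_mul_int ((phw_cont T).mul hG.norm) (M := 2 * M) (fun x => ?_) t
  change |phw T x * ‖G x‖| ≤ 2 * M
  rw [abs_mul, abs_of_pos (phw_pos T x), abs_norm]
  exact mul_le_mul (phw_le T x) (hM x) (norm_nonneg _) (by norm_num)

/-- the difference of the truncated and the full convolution -/
theorem diff_bound {G : ℝ → ℂ} (hG : Continuous G) {M : ℝ} (hM : ∀ x, ‖G x‖ ≤ M) {T : ℝ}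
    (hT : 0 ≤ T) (t : ℝ) :
    ‖SS G T t - (Icc T (2 * T)).indicator (HH G) t‖ ≤
      2 * ∫ v, ga (t - v) * (phw T v * ‖G v‖) := by
  set h : ℝ → ℝ := fun v => ga (t - v) * (phw T v * ‖G v‖) with hh
  have hint : Integrable h := R_int hG hM T t
  have hcv : ∫ τ, h ((t + τ) / 2) = 2 * ∫ v, h v := by
    have h1 : ∀ τ : ℝ, h ((t + τ) / 2) = (fun x => h (x + t / 2)) (τ / 2) := fun τ => by
      simp only
      congr 1
      ring
    simp_rw [h1]
    rw [Measure.integral_comp_div (fun x => h (x + t / 2)) 2, integral_add_right_eq_self h]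
    simp
  have hR : Integrable fun τ => h ((t + τ) / 2) := by
    have h1 : Integrable fun x => h (x + t / 2) := hint.comp_add_right (t / 2)
    have h2 := h1.comp_div (two_ne_zero (α := ℝ))
    refine h2.congr (Eventually.of_forall fun x => ?_)
    simp only
    congr 1
    ring
  have hR0 : ∀ τ, 0 ≤ h ((t + τ) / 2) := fun τ =>
    mul_nonneg (ga_pos _).le (mul_nonneg (phw_pos _ _).le (norm_nonneg _))
  rw [← hcv]
  have hF := F_int hG hM t
  have hpt : ∀ (τ b : ℝ), (b = T ∨ b = 2 * T) → |(t + τ) / 2 - b| ≤ |t - τ| / 2 →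
      ‖(kn t τ : ℂ) * G ((t + τ) / 2)‖ ≤ h ((t + τ) / 2) := by
    intro τ b hb hτ
    rw [norm_mul, Complex.norm_real, Real.norm_of_nonneg (kn_pos _ _).le]
    have h1 := kn_le hτ
    have h2 : ga ((t + τ) / 2 - b) ≤ phw T ((t + τ) / 2) := by
      unfold phw
      rcases hb with rfl | rfl
      · linarith [ga_pos ((t + τ) / 2 - 2 * b)]
      · linarith [ga_pos ((t + τ) / 2 - T)]
    calc kn t τ * ‖G ((t + τ) / 2)‖ ≤
        (ga (t - (t + τ) / 2) * ga ((t + τ) / 2 - b)) * ‖G ((t + τ) / 2)‖ :=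
          mul_le_mul_of_nonneg_right h1 (norm_nonneg _)
      _ ≤ (ga (t - (t + τ) / 2) * phw T ((t + τ) / 2)) * ‖G ((t + τ) / 2)‖ := by
          have := (ga_pos (t - (t + τ) / 2)).le
          gcongr
      _ = _ := by rw [hh]; ring
  unfold SS
  rw [intervalIntegral.integral_of_le (by linarith)]
  by_cases ht : t ∈ Icc T (2 * T)
  · rw [Set.indicator_of_mem ht]
    unfold HH
    rw [← integral_add_compl measurableSet_Ioc hF, ← sub_sub, sub_self, zero_sub, norm_neg]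
    refine norm_set_le measurableSet_Ioc.compl hR hR0 fun τ hτ => ?_
    rw [Set.mem_compl_iff, Set.mem_Ioc] at hτ
    by_cases h1 : τ ≤ T
    · refine hpt τ T (Or.inl rfl) ?_
      rw [abs_of_nonneg (show 0 ≤ t - τ by linarith [ht.1]), abs_le]
      constructor <;> linarith [ht.1]
    · push Not at h1
      have h2 : 2 * T < τ := by
        by_contra h3
        push Not at h3
        exact hτ ⟨h1, h3⟩
      refine hpt τ (2 * T) (Or.inr rfl) ?_
      rw [abs_of_nonpos (show t - τ ≤ 0 by linarith [ht.2]), abs_le]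
      constructor <;> linarith [ht.2]
  · rw [Set.indicator_of_notMem ht, sub_zero]
    refine norm_set_le measurableSet_Ioc hR hR0 fun τ hτ => ?_
    rw [Set.mem_Icc] at ht
    by_cases h1 : t < T
    · refine hpt τ T (Or.inl rfl) ?_
      rw [abs_of_nonpos (show t - τ ≤ 0 by linarith [hτ.1]), abs_le]
      constructor <;> linarith [hτ.1]
    · push Not at h1
      have h2 : 2 * T < t := by
        by_contra h3
        push Not at h3
        exact ht ⟨h1, h3⟩
      refine hpt τ (2 * T) (Or.inr rfl) ?_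
      rw [abs_of_nonneg (show 0 ≤ t - τ by linarith [hτ.2]), abs_le]
      constructor <;> linarith [hτ.2]

lemma SS_cont {G : ℝ → ℂ} (hG : Continuous G) (T : ℝ) : Continuous (SS G T) := by
  unfold SS
  refine intervalIntegral.continuous_parametric_intervalIntegral_of_continuous'
    (f := fun t τ => (kn t τ : ℂ) * G ((t + τ) / 2)) ?_ T (2 * T)
  unfold kn
  fun_prop

/-- splitting of an interval into windows -/
lemma cover {f : ℝ → ℝ} (hf : Continuous f) (hf0 : ∀ t, 0 ≤ f t) {w B : ℝ} (hw : 0 < w)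
    (hB : ∀ t₁, ∫ t in t₁..(t₁ + w), f t ≤ B) {a T : ℝ} (hT : 0 ≤ T) :
    ∫ t in a..(a + T), f t ≤ (T / w + 1) * B := by
  set N := ⌊T / w⌋₊ + 1 with hN
  have hB0 : 0 ≤ B := (intervalIntegral.integral_nonneg (by linarith) fun t _ => hf0 t).trans (hB 0)
  have hNT : T ≤ N * w := by
    have h1 := Nat.lt_floor_add_one (T / w)
    rw [div_lt_iff₀ hw] at h1
    rw [hN]
    push_cast
    linarith
  have hNle : (N : ℝ) ≤ T / w + 1 := by
    rw [hN]
    push_cast
    linarith [Nat.floor_le (show 0 ≤ T / w by positivity)]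
  have h2 := intervalIntegral.sum_integral_adjacent_intervals (f := f) (μ := volume)
    (a := fun k : ℕ => a + (k : ℝ) * w) (n := N) (fun k _ => hf.intervalIntegrable _ _)
  have h3 : ∀ k ∈ Finset.range N, ∫ t in (a + (k : ℝ) * w)..(a + ((k + 1 : ℕ) : ℝ) * w), f t ≤ B := by
    intro k _
    have h4 := hB (a + (k : ℝ) * w)
    have h5 : a + (k : ℝ) * w + w = a + ((k + 1 : ℕ) : ℝ) * w := by push_cast; ring
    rw [h5] at h4
    exact h4
  have h6 := Finset.sum_le_card_nsmul _ _ _ h3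
  rw [h2, Finset.card_range, nsmul_eq_mul] at h6
  simp only [Nat.cast_zero, zero_mul, add_zero] at h6
  have h4 := intervalIntegral.integral_add_adjacent_intervals
    (hf.intervalIntegrable (μ := volume) a (a + T))
    (hf.intervalIntegrable (μ := volume) (a + T) (a + N * w))
  have h5 : 0 ≤ ∫ t in (a + T)..(a + N * w), f t :=
    intervalIntegral.integral_nonneg (by linarith) fun t _ => hf0 t
  have h7 : (N : ℝ) * B ≤ (T / w + 1) * B := mul_le_mul_of_nonneg_right hNle hB0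
  linarith

/-- the normalising constant -/
noncomputable def c1 : ℝ := 1 / (2 * Real.sqrt Real.pi) * (1 / Real.sqrt (2 * Real.pi))

lemma c1_sq : c1 ^ 2 = 1 / (8 * Real.pi ^ 2) := by
  have hpi := Real.pi_pos
  unfold c1
  rw [mul_pow, div_pow, div_pow, mul_pow, Real.sq_sqrt hpi.le, Real.sq_sqrt (by positivity)]
  field_simp
  ring

lemma norm_add_sq_le' (a b : ℂ) {δ : ℝ} (hδ : 0 < δ) :
    ‖a + b‖ ^ 2 ≤ (1 + δ) * ‖a‖ ^ 2 + (1 + 1 / δ) * ‖b‖ ^ 2 := by
  have h1 : ‖a + b‖ ^ 2 ≤ (‖a‖ + ‖b‖) ^ 2 :=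
    pow_le_pow_left₀ (norm_nonneg _) (norm_add_le a b) 2
  have h2 : 2 * (‖a‖ * ‖b‖) ≤ δ * ‖a‖ ^ 2 + 1 / δ * ‖b‖ ^ 2 := by
    have h3 : 0 ≤ (δ * ‖a‖ - ‖b‖) ^ 2 / δ := by positivity
    have h4 : (δ * ‖a‖ - ‖b‖) ^ 2 / δ = δ * ‖a‖ ^ 2 + 1 / δ * ‖b‖ ^ 2 - 2 * (‖a‖ * ‖b‖) := by
      field_simp
      ring
    linarith
  nlinarith

lemma phw_sq (T v : ℝ) : phw T v ^ 2 ≤
    2 * (Real.exp (-(v - T) ^ 2) + Real.exp (-(v - 2 * T) ^ 2)) := by
  have h1 : ∀ x, ga x ^ 2 = Real.exp (-x ^ 2) := fun x => by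
    unfold ga
    rw [← Real.exp_nat_mul]
    congr 1
    push_cast
    ring
  rw [← h1, ← h1]
  unfold phw
  nlinarith [sq_nonneg (ga (v - T) - ga (v - 2 * T))]

lemma int_exp_mul {f : ℝ → ℝ} (hf : Continuous f) {M : ℝ} (hM : ∀ x, |f x| ≤ M) (b : ℝ) :
    Integrable fun v => Real.exp (-(v - b) ^ 2) * f v := by
  have h1 : Integrable fun v => Real.exp (-(v - b) ^ 2) := by
    have h := (integrable_exp_neg_mul_sq (b := 1) one_pos).comp_sub_right b
    refine h.congr (Eventually.of_forall fun x => ?_)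
    simp only
    congr 1
    ring
  exact h1.mul_bdd (c := M) hf.aestronglyMeasurable (Eventually.of_forall fun x => by
    rw [Real.norm_eq_abs]; exact hM x)

/-- **The mean square from windows** -/
theorem ms_win {ι : Type} (s : Finset ι) (G : ι → ℝ → ℂ) (hG : ∀ i ∈ s, Continuous (G i))
    {M : ℝ} (hM0 : 0 ≤ M) (hM : ∀ i ∈ s, ∀ x, ‖G i x‖ ≤ M) (hH : ∀ i ∈ s, Continuous (HH (G i)))
    {w B₁ B₂ T δ : ℝ} (hw : 1 ≤ w) (hT : 0 ≤ T) (hδ : 0 < δ)
    (h1 : ∀ t₁, ∑ i ∈ s, ∫ t in t₁..(t₁ + w), ‖G i t‖ ^ 2 ≤ B₁)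
    (h2 : ∀ t₁, ∑ i ∈ s, ∫ t in t₁..(t₁ + w), ‖(c1 : ℂ) * HH (G i) t‖ ^ 2 ≤ B₂) :
    Integrable (fun t => ∑ i ∈ s, ‖(c1 : ℂ) * SS (G i) T t‖ ^ 2) ∧
    ∫ t, ∑ i ∈ s, ‖(c1 : ℂ) * SS (G i) T t‖ ^ 2 ≤
      (1 + δ) * ((T / w + 1) * B₂) + (1 + 1 / δ) * (11 * B₁) := by
  classical
  have hpi := Real.pi_pos
  set f : ι → ℝ → ℝ := fun i v => phw T v * ‖G i v‖ with hf
  have hfc : ∀ i ∈ s, Continuous (f i) := fun i hi => (phw_cont T).mul (hG i hi).norm
  have hfM : ∀ i ∈ s, ∀ x, |f i x| ≤ 2 * M := fun i hi x => by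
    change |phw T x * ‖G i x‖| ≤ 2 * M
    rw [abs_mul, abs_of_pos (phw_pos T x), abs_norm]
    exact mul_le_mul (phw_le T x) (hM i hi x) (norm_nonneg _) (by norm_num)
  have hf1 : ∀ i ∈ s, Integrable (f i) := fun i hi =>
    (phw_int T).mul_bdd (c := M) (hG i hi).norm.aestronglyMeasurable
      (Eventually.of_forall fun x => by rw [norm_norm]; exact hM i hi x)
  have hf2 : ∀ i ∈ s, Integrable (fun x => f i x ^ 2) := fun i hi => by
    have h3 := (hf1 i hi).bdd_mul (c := 2 * M) (f := f i) (hfc i hi).aestronglyMeasurable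
      (Eventually.of_forall fun x => by rw [Real.norm_eq_abs]; exact hfM i hi x)
    refine h3.congr (Eventually.of_forall fun x => ?_)
    simp only
    ring
  have hy := fun i (hi : i ∈ s) => young (hfc i hi) (hfM i hi) (hf1 i hi) (hf2 i hi)
  have hpt : ∀ t, ∀ i ∈ s, ‖(c1 : ℂ) * SS (G i) T t‖ ^ 2 ≤
      (1 + δ) * (Icc T (2 * T)).indicator (fun t => ‖(c1 : ℂ) * HH (G i) t‖ ^ 2) t +
      (1 + 1 / δ) * (4 * c1 ^ 2 * (∫ v, ga (t - v) * f i v) ^ 2) := by
    intro t i hi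
    have e1 : (c1 : ℂ) * SS (G i) T t = (c1 : ℂ) * (Icc T (2 * T)).indicator (HH (G i)) t +
        (c1 : ℂ) * (SS (G i) T t - (Icc T (2 * T)).indicator (HH (G i)) t) := by ring
    rw [e1]
    refine (norm_add_sq_le' _ _ hδ).trans (add_le_add (le_of_eq ?_) ?_)
    · congr 1
      by_cases ht : t ∈ Icc T (2 * T)
      · rw [Set.indicator_of_mem ht, Set.indicator_of_mem ht]
      · rw [Set.indicator_of_notMem ht, Set.indicator_of_notMem ht]
        simp
    · refine mul_le_mul_of_nonneg_left ?_ (by positivity)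
      rw [norm_mul, mul_pow, Complex.norm_real, Real.norm_eq_abs, sq_abs]
      have h3 := diff_bound (hG i hi) (hM i hi) hT t
      have h4 : ‖SS (G i) T t - (Icc T (2 * T)).indicator (HH (G i)) t‖ ^ 2 ≤
          (2 * ∫ v, ga (t - v) * (phw T v * ‖G i v‖)) ^ 2 :=
        pow_le_pow_left₀ (norm_nonneg _) h3 2
      calc c1 ^ 2 * ‖SS (G i) T t - (Icc T (2 * T)).indicator (HH (G i)) t‖ ^ 2 ≤
          c1 ^ 2 * (2 * ∫ v, ga (t - v) * (phw T v * ‖G i v‖)) ^ 2 :=
            mul_le_mul_of_nonneg_left h4 (sq_nonneg _)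
        _ = _ := by rw [hf]; ring
  have hind : ∀ i ∈ s, Integrable
      ((Icc T (2 * T)).indicator (fun t => ‖(c1 : ℂ) * HH (G i) t‖ ^ 2)) := fun i hi => by
    rw [integrable_indicator_iff measurableSet_Icc]
    exact (((continuous_const.mul (hH i hi)).norm).pow 2).integrableOn_Icc
  have hRi : ∀ i ∈ s, Integrable fun t =>
      (1 + δ) * (Icc T (2 * T)).indicator (fun t => ‖(c1 : ℂ) * HH (G i) t‖ ^ 2) t +
      (1 + 1 / δ) * (4 * c1 ^ 2 * (∫ v, ga (t - v) * f i v) ^ 2) := fun i hi =>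
    ((hind i hi).const_mul _).add ((((hy i hi).1).const_mul _).const_mul _)
  refine ⟨(integrable_finsetSum _ hRi).mono' ?_ (Eventually.of_forall fun t => ?_), ?_⟩
  · exact (continuous_finsetSum _ fun i hi =>
      ((continuous_const.mul (SS_cont (hG i hi) T)).norm).pow 2).aestronglyMeasurable
  · rw [Real.norm_eq_abs, abs_of_nonneg (Finset.sum_nonneg fun i _ => sq_nonneg _)]
    exact Finset.sum_le_sum (hpt t)
  have hle : ∫ t, ∑ i ∈ s, ‖(c1 : ℂ) * SS (G i) T t‖ ^ 2 ≤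
      ∫ t, ∑ i ∈ s, ((1 + δ) * (Icc T (2 * T)).indicator
        (fun t => ‖(c1 : ℂ) * HH (G i) t‖ ^ 2) t +
      (1 + 1 / δ) * (4 * c1 ^ 2 * (∫ v, ga (t - v) * f i v) ^ 2)) := by
    refine integral_mono_of_nonneg (Eventually.of_forall fun t =>
      Finset.sum_nonneg fun i _ => sq_nonneg _) (integrable_finsetSum _ hRi)
      (Eventually.of_forall fun t => Finset.sum_le_sum (hpt t))
  refine hle.trans ?_
  rw [integral_finsetSum _ hRi]
  have e2 : ∀ i ∈ s, ∫ t, ((1 + δ) * (Icc T (2 * T)).indicator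
        (fun t => ‖(c1 : ℂ) * HH (G i) t‖ ^ 2) t +
      (1 + 1 / δ) * (4 * c1 ^ 2 * (∫ v, ga (t - v) * f i v) ^ 2)) ≤
      (1 + δ) * (∫ t in T..(T + T), ‖(c1 : ℂ) * HH (G i) t‖ ^ 2) +
      (1 + 1 / δ) * (4 * c1 ^ 2 * (2 * Real.pi * ∫ v, f i v ^ 2)) := by
    intro i hi
    rw [integral_add ((hind i hi).const_mul _) ((((hy i hi).1).const_mul _).const_mul _),
      integral_const_mul, integral_const_mul, integral_const_mul,
      integral_indicator measurableSet_Icc, integral_Icc_eq_integral_Ioc,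
      intervalIntegral.integral_of_le (by linarith), ← two_mul]
    have := (hy i hi).2
    gcongr
  refine (Finset.sum_le_sum e2).trans ?_
  rw [Finset.sum_add_distrib, ← Finset.mul_sum, ← Finset.mul_sum, ← Finset.mul_sum,
    ← Finset.mul_sum]
  -- the main term
  have hHc : ∀ i ∈ s, Continuous fun t => ‖(c1 : ℂ) * HH (G i) t‖ ^ 2 := fun i hi =>
    ((continuous_const.mul (hH i hi)).norm).pow 2
  have hGc : ∀ i ∈ s, Continuous fun t => ‖G i t‖ ^ 2 := fun i hi => ((hG i hi).norm).pow 2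
  have m1 : ∑ i ∈ s, ∫ t in T..(T + T), ‖(c1 : ℂ) * HH (G i) t‖ ^ 2 ≤ (T / w + 1) * B₂ := by
    rw [← intervalIntegral.integral_finsetSum (fun i hi => (hHc i hi).intervalIntegrable _ _)]
    refine cover (continuous_finsetSum _ hHc) (fun t => Finset.sum_nonneg fun i _ => sq_nonneg _)
      (by linarith) (fun t₁ => ?_) hT
    rw [intervalIntegral.integral_finsetSum (fun i hi => (hHc i hi).intervalIntegrable _ _)]
    exact h2 t₁
  -- the boundary term
  have hF : Continuous fun v => ∑ i ∈ s, ‖G i v‖ ^ 2 := continuous_finsetSum _ hGc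
  have hF0 : ∀ v, 0 ≤ ∑ i ∈ s, ‖G i v‖ ^ 2 := fun v => Finset.sum_nonneg fun i _ => sq_nonneg _
  have hFM : ∀ v, ∑ i ∈ s, ‖G i v‖ ^ 2 ≤ s.card * M ^ 2 := fun v => by
    rw [← nsmul_eq_mul]
    exact Finset.sum_le_card_nsmul _ _ _ fun i hi =>
      pow_le_pow_left₀ (norm_nonneg _) (hM i hi v) 2
  have hFB : ∀ t₁, ∫ t in t₁..(t₁ + w), ∑ i ∈ s, ‖G i t‖ ^ 2 ≤ B₁ := fun t₁ => by
    rw [intervalIntegral.integral_finsetSum (fun i hi => (hGc i hi).intervalIntegrable _ _)]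
    exact h1 t₁
  have w1 := win_bound hF hF0 hFM hw hFB T
  have w2 := win_bound hF hF0 hFM hw hFB (2 * T)
  have hFM' : ∀ v, |∑ i ∈ s, ‖G i v‖ ^ 2| ≤ s.card * M ^ 2 := fun v => by
    rw [abs_of_nonneg (hF0 v)]; exact hFM v
  have j1 := int_exp_mul hF hFM' T
  have j2 := int_exp_mul hF hFM' (2 * T)
  have m2 : ∑ i ∈ s, ∫ v, f i v ^ 2 ≤ 32 * B₁ := by
    rw [← integral_finsetSum _ hf2]
    have h3 : ∫ v, ∑ i ∈ s, f i v ^ 2 ≤
        ∫ v, (2 * (Real.exp (-(v - T) ^ 2) * ∑ i ∈ s, ‖G i v‖ ^ 2) +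
          2 * (Real.exp (-(v - 2 * T) ^ 2) * ∑ i ∈ s, ‖G i v‖ ^ 2)) := by
      refine integral_mono_of_nonneg (Eventually.of_forall fun t =>
        Finset.sum_nonneg fun i _ => sq_nonneg _) ((j1.const_mul _).add (j2.const_mul _))
        (Eventually.of_forall fun v => ?_)
      simp only [hf, mul_pow]
      rw [← Finset.mul_sum]
      have h4 := mul_le_mul_of_nonneg_right (phw_sq T v) (hF0 v)
      refine h4.trans (le_of_eq ?_)
      ring
    rw [integral_add (j1.const_mul _) (j2.const_mul _), integral_const_mul,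
      integral_const_mul] at h3
    linarith
  have hB1 : 0 ≤ B₁ := (intervalIntegral.integral_nonneg (by linarith) fun t _ => hF0 t).trans
    (hFB 0)
  have m3 : 4 * c1 ^ 2 * (2 * Real.pi * ∑ i ∈ s, ∫ v, f i v ^ 2) ≤ 11 * B₁ := by
    rw [c1_sq]
    have h5 : 4 * (1 / (8 * Real.pi ^ 2)) * (2 * Real.pi * ∑ i ∈ s, ∫ v, f i v ^ 2) =
        (∑ i ∈ s, ∫ v, f i v ^ 2) / Real.pi := by
      field_simp
      ring
    rw [h5, div_le_iff₀ hpi]
    have h6 : 32 * B₁ ≤ 11 * B₁ * Real.pi := by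
      have := Real.pi_gt_three
      nlinarith
    linarith
  gcongr

end Pool.Agent.N786
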