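import Pool.Agent.N786.Scale

/-!
# The hybrid large sieve for the ideals prime to `𝔪` (owner helper786)
-/

set_option autoImplicit false
set_option linter.unusedSectionVars false

open NumberField NumberField.Units MeasureTheory Complex Filter Topology Set

namespace Pool.Agent.N786

open Pool.Agent.Y773 (TPos rl)
open Pool.Agent.Y767

/-- splitting of an interval -/
lemma int_split (f : ℝ → ℝ) (hf : Continuous f) (hf0 : ∀ t, 0 ≤ f t) (t₁ w δ : ℝ) (hw : 0 ≤ w)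
    (hδ : 0 < δ) : ∫ t in t₁..(t₁ + w), f t ≤
      ∫ s in (0 : ℝ)..δ, ∑ k ∈ Finset.range (⌊w / δ⌋₊ + 1), f (t₁ + s + k * δ) := by
  set N := ⌊w / δ⌋₊ + 1 with hN
  have hNw : w ≤ N * δ := by
    have h1 := Nat.lt_floor_add_one (w / δ)
    rw [div_lt_iff₀ hδ] at h1
    rw [hN]
    push_cast
    linarith
  have h1 : ∫ s in (0 : ℝ)..δ, ∑ k ∈ Finset.range N, f (t₁ + s + k * δ) =
      ∫ t in t₁..(t₁ + N * δ), f t := by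
    rw [intervalIntegral.integral_finsetSum]
    · have h2 : ∀ k ∈ Finset.range N, ∫ s in (0 : ℝ)..δ, f (t₁ + s + k * δ) =
          ∫ t in (t₁ + (k : ℕ) * δ)..(t₁ + ((k + 1 : ℕ) : ℝ) * δ), f t := by
        intro k _
        have h3 : ∀ s : ℝ, f (t₁ + s + k * δ) = f (s + (t₁ + k * δ)) := fun s => by
          congr 1; ring
        simp only [h3]
        rw [intervalIntegral.integral_comp_add_right (fun t => f t)]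
        congr 1
        · ring
        · push_cast; ring
      rw [Finset.sum_congr rfl h2]
      rw [intervalIntegral.sum_integral_adjacent_intervals
        (a := fun k : ℕ => t₁ + (k : ℝ) * δ) (fun k _ => hf.intervalIntegrable _ _)]
      simp
    · intro k _
      exact (hf.comp (by fun_prop)).intervalIntegrable _ _
  rw [h1]
  have h4 := intervalIntegral.integral_add_adjacent_intervals
    (hf.intervalIntegrable (μ := volume) t₁ (t₁ + w))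
    (hf.intervalIntegrable (μ := volume) (t₁ + w) (t₁ + N * δ))
  have h5 : 0 ≤ ∫ t in (t₁ + w)..(t₁ + N * δ), f t :=
    intervalIntegral.integral_nonneg (by linarith) fun t _ => hf0 t
  linarith

section

variable {K : Type} [Field K] [NumberField K] [IsTotallyReal K]

lemma normP_U (U : UD K) : NormP U.p := ⟨U.p_cont, U.p_add, U.p_smul, U.p_zero⟩

/-- `N(𝔞)^(-it)` -/
noncomputable def ph (𝔞 : Ideal (𝓞 K)) (t : ℝ) : ℂ :=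
  cexp (-(((t * Real.log (Ideal.absNorm 𝔞) : ℝ) : ℂ) * I))

lemma ph_cont (𝔞 : Ideal (𝓞 K)) : Continuous (ph 𝔞) := by
  unfold ph; fun_prop

lemma norm_ph (𝔞 : Ideal (𝓞 K)) (t : ℝ) : ‖ph 𝔞 t‖ = 1 := by
  unfold ph
  have : -(((t * Real.log (Ideal.absNorm 𝔞) : ℝ) : ℂ) * I) =
    ((-(t * Real.log (Ideal.absNorm 𝔞)) : ℝ) : ℂ) * I := by push_cast; ring
  rw [this, Complex.norm_exp_ofReal_mul_I]

lemma ph_add (𝔞 : Ideal (𝓞 K)) (t t' : ℝ) : ph 𝔞 (t + t') = ph 𝔞 t * ph 𝔞 t' := by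
  unfold ph
  rw [← Complex.exp_add]
  congr 1
  push_cast
  ring

/-- the hybrid large sieve, for the characters of the ideals prime to `𝔪` -/
theorem hls (U : UD K) (τ δ : ℝ) (hτ : 0 < τ) (hδ : 0 < δ) :
    ∃ V₀ C : ℝ, 1 ≤ V₀ ∧ 1 ≤ C ∧
    ∀ (𝔪 𝔮 : Ideal (𝓞 K)) (_ : 𝔪 ≠ ⊤) (_ : 𝔮 ≠ ⊥) (h : 𝔮 ∣ 𝔪)
      [Fintype (Cls (pq 𝔪))] [Fintype (𝓞 K ⧸ 𝔮)ˣ] (V L M : ℝ), V₀ ≤ V → 2 * Real.pi ≤ L →
      4 * Real.log M ≤ L → (C * (L / V)) ^ Module.finrank ℚ K * M < Ideal.absNorm 𝔮 →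
      ∀ (S : Finset (Mq 𝔪)), (∀ 𝔞 ∈ S, (Ideal.absNorm (𝔞 : Ideal (𝓞 K)) : ℝ) ≤ M) →
      ∀ (Y : Finset (Mq 𝔪 →* ℂˣ))
        (par : (Mq 𝔪 →* ℂˣ) → ((𝓞 K ⧸ 𝔮)ˣ →* ℂˣ) × (Fin (rank K) → ℝ)),
      (∀ F ∈ Y, HasPar U h F (par F) ∧ par F ∈ U.PQ 𝔮 V) →
      ∀ (u : Mq 𝔪 → ℂ) (t₁ : ℝ),
      ∑ F ∈ Y, ∫ t in t₁..(t₁ + τ * V),
        ‖∑ 𝔞 ∈ S, u 𝔞 * ph (𝔞 : Ideal (𝓞 K)) t * ((F 𝔞 : ℂˣ) : ℂ)‖ ^ 2 ≤
      (Fintype.card (Cls (pq 𝔪)) : ℝ) * (Fintype.card (𝓞 K ⧸ 𝔮)ˣ *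
        (V ^ rank K * V * (τ * (volume {θ | U.p θ ≤ 1}).toReal + δ)) * ∑ 𝔞 ∈ S, ‖u 𝔞‖ ^ 2) := by
  classical
  have hp := normP_U U
  obtain ⟨ρ, hρ, Hb⟩ := bump_scaled hp hτ.le hδ
  obtain ⟨C, hC, Hs⟩ := sep_cls U 1 zero_le_one
  refine ⟨8 * ρ, C * (2 * ρ), by linarith, by nlinarith, ?_⟩
  intro 𝔪 𝔮 h𝔪 h𝔮 h _ _ V L M hV hL hLM hCM S hS Y par hpar u t₁
  have hpi := Real.pi_pos
  have hρ0 : 0 < ρ := by linarith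
  have hV0 : 0 < V := by linarith
  have hL0 : 0 < L := by linarith
  have hL1 : 1 ≤ L := by linarith [Real.pi_gt_three]
  obtain ⟨g, hg, hg0, hgF, hgI⟩ := Hb V L hV0 hL
  have h2ρ : 2 * (ρ / V) ≤ 1 / 4 := by
    rw [mul_div_assoc', div_le_iff₀ hV0]
    linarith
  set κ : ℝ := 2 * (ρ / V) * L with hκ
  have hκ0 : 0 ≤ κ := by positivity
  have hκρ : 2 * (ρ / V) ≤ κ := by
    rw [hκ]
    exact le_mul_of_one_le_right (by positivity) hL1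
  have hκC : (C * κ) ^ Module.finrank ℚ K * M < Ideal.absNorm 𝔮 := by
    have : C * κ = C * (2 * ρ) * (L / V) := by rw [hκ]; ring
    rwa [this]
  set δ₁ : ℝ := 2 * Real.pi / L with hδ₁
  have hδ₁0 : 0 < δ₁ := by positivity
  set yl : Mq 𝔪 → ℝ := fun 𝔞 => -(Real.log (Ideal.absNorm (𝔞 : Ideal (𝓞 K))) / L) with hyl
  -- the norms
  have hN1 : ∀ 𝔞 : Mq 𝔪, (1 : ℝ) ≤ Ideal.absNorm (𝔞 : Ideal (𝓞 K)) := fun 𝔞 => by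
    have : Ideal.absNorm (𝔞 : Ideal (𝓞 K)) ≠ 0 := by
      rw [Ne, Ideal.absNorm_eq_zero_iff]; exact Mq_ne_bot h𝔪 _
    exact_mod_cast Nat.one_le_iff_ne_zero.mpr this
  have hlogN : ∀ 𝔞 ∈ S, 0 ≤ Real.log (Ideal.absNorm (𝔞 : Ideal (𝓞 K))) ∧
      Real.log (Ideal.absNorm (𝔞 : Ideal (𝓞 K))) ≤ L / 4 := fun 𝔞 h𝔞 => by
    refine ⟨Real.log_nonneg (hN1 𝔞), ?_⟩
    have := Real.log_le_log (by linarith [hN1 𝔞]) (hS 𝔞 h𝔞)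
    linarith
  have hsep : ∀ 𝔞₀ 𝔞₁ 𝔞₂ : Mq 𝔪, 𝔞₁ ∈ S → 𝔞₂ ∈ S → ∀ (a₁ b₁ a₂ b₂ : Tq 𝔪)
      (m : Fin (rank K) → ℤ) (l : ℤ),
      pq 𝔪 a₁ * 𝔞₁ = pq 𝔪 b₁ * 𝔞₀ → pq 𝔪 a₂ * 𝔞₂ = pq 𝔪 b₂ * 𝔞₀ →
      gm h b₁ * (gm h a₁)⁻¹ * ∏ i, U.eG 𝔮 i ^ m i = gm h b₂ * (gm h a₂)⁻¹ →
      (∀ i, |(U.yc (b₁ : 𝓞 K) i - U.yc (a₁ : 𝓞 K) i) + m i -
        (U.yc (b₂ : 𝓞 K) i - U.yc (a₂ : 𝓞 K) i)| ≤ 2 * (ρ / V)) →
      |yl 𝔞₁ + l - yl 𝔞₂| ≤ 2 * (ρ / V) → 𝔞₁ = 𝔞₂ ∧ l = 0 ∧ (a₁ = a₂ → b₁ = b₂ → m = 0) := by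
    intro 𝔞₀ 𝔞₁ 𝔞₂ hS1 hS2 a₁ b₁ a₂ b₂ m l e1 e2 hg1 hy hl
    obtain ⟨n1, n2⟩ := hlogN 𝔞₁ hS1
    obtain ⟨n3, n4⟩ := hlogN 𝔞₂ hS2
    have hyl1 : yl 𝔞₁ - yl 𝔞₂ = -((Real.log (Ideal.absNorm (𝔞₁ : Ideal (𝓞 K))) -
        Real.log (Ideal.absNorm (𝔞₂ : Ideal (𝓞 K)))) / L) := by
      rw [hyl]; ring
    have hyl2 : |yl 𝔞₁ - yl 𝔞₂| ≤ 1 / 4 := by
      rw [hyl1, abs_neg, abs_div, abs_of_pos hL0, div_le_iff₀ hL0, abs_le]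
      constructor <;> linarith
    have hl0 : l = 0 := by
      have h1 : |(l : ℝ)| < 1 := by
        have h2 : (l : ℝ) = (yl 𝔞₁ + l - yl 𝔞₂) - (yl 𝔞₁ - yl 𝔞₂) := by ring
        rw [h2]
        refine (abs_sub _ _).trans_lt ?_
        linarith
      have h3 : |l| < 1 := by exact_mod_cast h1
      exact Int.abs_lt_one_iff.mp h3
    have hlogd : |Real.log (Ideal.absNorm (𝔞₁ : Ideal (𝓞 K))) -
        Real.log (Ideal.absNorm (𝔞₂ : Ideal (𝓞 K)))| ≤ κ := by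
      rw [hl0, Int.cast_zero, add_zero, hyl1, abs_neg, abs_div, abs_of_pos hL0,
        div_le_iff₀ hL0] at hl
      exact hl
    obtain ⟨x₁, x₂, k1, k2, k3, k4, x₀, k5, k6, k7⟩ := Hs 𝔪 𝔮 h𝔪 h M κ (2 * (ρ / V)) hκ0 hκρ
      (by linarith) hκC 𝔞₀ 𝔞₁ 𝔞₂ a₁ b₁ a₂ b₂ m e1 e2 (hS 𝔞₁ hS1) (hS 𝔞₂ hS2) hg1 hy hlogd
    refine ⟨k4, hl0, fun ha hb => ?_⟩
    rw [← ha, ← hb, ← k6] at k7
    have hx12 : x₂ = x₁ := mul_left_cancel₀ (Tq_ne_zero h𝔪 a₁) k7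
    rw [hx12] at k1
    have hx0 := tpos_ne k2
    have hv : ((∏ i, U.ε i ^ m i : (𝓞 K)ˣ) : 𝓞 K) = 1 :=
      mul_left_cancel₀ hx0 (k1.trans (mul_one x₁).symm)
    exact U.ind m (Units.ext (by rw [hv, Units.val_one]))
  -- the sums over the translates
  set N := ⌊τ * V / δ₁⌋₊ + 1 with hN
  have hkey : ∀ s : ℝ, ∑ F ∈ Y, ∑ k ∈ Finset.range N,
      ‖∑ 𝔞 ∈ S, u 𝔞 * ph (𝔞 : Ideal (𝓞 K)) (t₁ + s + k * δ₁) * ((F 𝔞 : ℂˣ) : ℂ)‖ ^ 2 ≤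
      (Fintype.card (Cls (pq 𝔪)) : ℝ) * (Fintype.card (𝓞 K ⧸ 𝔮)ˣ * (∫ z, ‖g z‖ ^ 2) *
      ∑ 𝔞 ∈ S, ‖u 𝔞‖ ^ 2) := by
    intro s
    have hb := besM U h𝔪 h𝔮 h (ρ / V) g hg hg0 S yl hsep Y par (fun F hF => (hpar F hF).1)
      (fun F hF => (hpar F hF).2.1) ((Finset.range N).map ⟨fun k : ℕ => (k : ℤ),
        Nat.cast_injective⟩)
      (fun 𝔞 => u 𝔞 * ph (𝔞 : Ideal (𝓞 K)) (t₁ + s))
    have e1 : ∑ 𝔞 ∈ S, ‖u 𝔞 * ph (𝔞 : Ideal (𝓞 K)) (t₁ + s)‖ ^ 2 = ∑ 𝔞 ∈ S, ‖u 𝔞‖ ^ 2 := by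
      refine Finset.sum_congr rfl fun 𝔞 _ => ?_
      rw [norm_mul, norm_ph, mul_one]
    rw [e1] at hb
    refine le_trans ?_ hb
    refine Finset.sum_le_sum fun F hF => ?_
    rw [Finset.sum_map]
    refine Finset.sum_le_sum fun k hk => ?_
    simp only [Function.Embedding.coeFn_mk, Int.cast_natCast]
    have hkN : (k : ℝ) * δ₁ ≤ τ * V := by
      have h1 : k ≤ ⌊τ * V / δ₁⌋₊ := by
        have := Finset.mem_range.mp hk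
        omega
      have h2 : (k : ℝ) ≤ τ * V / δ₁ := (Nat.cast_le.mpr h1).trans (Nat.floor_le (by positivity))
      rwa [le_div_iff₀ hδ₁0] at h2
    have h1 := hgF k (par F).2 (Nat.cast_nonneg k) hkN (hpar F hF).2.2
    have e2 : ∀ 𝔞 ∈ S, u 𝔞 * ph (𝔞 : Ideal (𝓞 K)) (t₁ + s) *
        cexp (2 * Real.pi * I * (((k : ℝ) * yl 𝔞 : ℝ) : ℂ)) * ((F 𝔞 : ℂˣ) : ℂ) =
        u 𝔞 * ph (𝔞 : Ideal (𝓞 K)) (t₁ + s + k * δ₁) * ((F 𝔞 : ℂˣ) : ℂ) := by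
      intro 𝔞 _
      rw [ph_add _ (t₁ + s) (k * δ₁)]
      have e3 : cexp (2 * Real.pi * I * (((k : ℝ) * yl 𝔞 : ℝ) : ℂ)) =
          ph (𝔞 : Ideal (𝓞 K)) (k * δ₁) := by
        unfold ph
        congr 1
        rw [hyl, hδ₁]
        have hLc : (L : ℂ) ≠ 0 := by exact_mod_cast hL0.ne'
        push_cast
        field_simp
      rw [e3]
      ring
    rw [Finset.sum_congr rfl e2]
    exact le_mul_of_one_le_left (sq_nonneg _) h1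
  -- integration
  have hcontF : ∀ F : Mq 𝔪 →* ℂˣ, Continuous fun t : ℝ =>
      ‖∑ 𝔞 ∈ S, u 𝔞 * ph (𝔞 : Ideal (𝓞 K)) t * ((F 𝔞 : ℂˣ) : ℂ)‖ ^ 2 := by
    intro F
    refine (Continuous.norm ?_).pow 2
    refine continuous_finsetSum _ fun 𝔞 _ => ?_
    exact (continuous_const.mul (ph_cont _)).mul continuous_const
  have h1 : ∑ F ∈ Y, ∫ t in t₁..(t₁ + τ * V),
        ‖∑ 𝔞 ∈ S, u 𝔞 * ph (𝔞 : Ideal (𝓞 K)) t * ((F 𝔞 : ℂˣ) : ℂ)‖ ^ 2 ≤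
      ∑ F ∈ Y, ∫ s in (0 : ℝ)..δ₁, ∑ k ∈ Finset.range N,
        ‖∑ 𝔞 ∈ S, u 𝔞 * ph (𝔞 : Ideal (𝓞 K)) (t₁ + s + k * δ₁) * ((F 𝔞 : ℂˣ) : ℂ)‖ ^ 2 :=
    Finset.sum_le_sum fun F _ => int_split _ (hcontF F) (fun t => sq_nonneg _) t₁ (τ * V) δ₁
      (by positivity) hδ₁0
  refine h1.trans ?_
  have hcont2 : ∀ F ∈ Y, IntervalIntegrable (fun s : ℝ => ∑ k ∈ Finset.range N,
      ‖∑ 𝔞 ∈ S, u 𝔞 * ph (𝔞 : Ideal (𝓞 K)) (t₁ + s + k * δ₁) * ((F 𝔞 : ℂˣ) : ℂ)‖ ^ 2)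
      volume 0 δ₁ := by
    intro F _
    refine Continuous.intervalIntegrable ?_ _ _
    refine continuous_finsetSum _ fun k _ => ?_
    exact (hcontF F).comp (by fun_prop : Continuous fun s : ℝ => t₁ + s + k * δ₁)
  rw [← intervalIntegral.integral_finsetSum hcont2]
  have h2 : ∫ s in (0 : ℝ)..δ₁, ∑ F ∈ Y, ∑ k ∈ Finset.range N,
      ‖∑ 𝔞 ∈ S, u 𝔞 * ph (𝔞 : Ideal (𝓞 K)) (t₁ + s + k * δ₁) * ((F 𝔞 : ℂˣ) : ℂ)‖ ^ 2 ≤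
      ∫ _s in (0 : ℝ)..δ₁, (Fintype.card (Cls (pq 𝔪)) : ℝ) *
        (Fintype.card (𝓞 K ⧸ 𝔮)ˣ * (∫ z, ‖g z‖ ^ 2) * ∑ 𝔞 ∈ S, ‖u 𝔞‖ ^ 2) := by
    refine intervalIntegral.integral_mono_on hδ₁0.le ?_ ?_ fun s _ => hkey s
    · refine Continuous.intervalIntegrable ?_ _ _
      refine continuous_finsetSum _ fun F _ => continuous_finsetSum _ fun k _ => ?_
      exact (hcontF F).comp (by fun_prop : Continuous fun s : ℝ => t₁ + s + k * δ₁)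
    · exact continuous_const.intervalIntegrable _ _
  refine h2.trans ?_
  rw [intervalIntegral.integral_const, sub_zero, smul_eq_mul]
  have hS0 : 0 ≤ ∑ 𝔞 ∈ S, ‖u 𝔞‖ ^ 2 := Finset.sum_nonneg fun _ _ => sq_nonneg _
  have h3 : δ₁ * (∫ z, ‖g z‖ ^ 2) ≤
      V ^ rank K * V * (τ * (volume {θ | U.p θ ≤ 1}).toReal + δ) := by
    calc δ₁ * (∫ z, ‖g z‖ ^ 2) ≤ δ₁ * (V ^ rank K * (V * L / (2 * Real.pi)) *
          (τ * (volume {θ | U.p θ ≤ 1}).toReal + δ)) := mul_le_mul_of_nonneg_left hgI hδ₁0.le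
      _ = _ := by
          rw [hδ₁]
          field_simp
  calc δ₁ * ((Fintype.card (Cls (pq 𝔪)) : ℝ) *
        (Fintype.card (𝓞 K ⧸ 𝔮)ˣ * (∫ z, ‖g z‖ ^ 2) * ∑ 𝔞 ∈ S, ‖u 𝔞‖ ^ 2)) =
      (Fintype.card (Cls (pq 𝔪)) : ℝ) *
        (Fintype.card (𝓞 K ⧸ 𝔮)ˣ * (δ₁ * (∫ z, ‖g z‖ ^ 2)) * ∑ 𝔞 ∈ S, ‖u 𝔞‖ ^ 2) := by ring
    _ ≤ _ := by gcongr

end

end Pool.Agent.N786
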