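import Pool.Agent.Y767.HC.Stm3

/-!
# Representatives of the narrow ideal classes (owner helper786)
-/

set_option autoImplicit false

open NumberField

namespace Pool.Agent.N786

open Pool.Agent.Y773 (TPos)
open scoped nonZeroDivisors

instance finite_real_emb (K : Type) [Field K] [NumberField K] : Finite (K →+* ℝ) :=
  Finite.of_injective (fun σ : K →+* ℝ => (Complex.ofRealHom.comp σ : K →+* ℂ)) (by
    intro σ τ h
    ext x
    have := DFunLike.congr_fun h x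
    exact Complex.ofReal_injective this)

/-- REP -/
theorem t_rep : Pool.Agent.Y767.StRep := by
  intro K _ _ _
  classical
  haveI : Fintype (K →+* ℝ) := Fintype.ofFinite _
  -- ideals in the inverse classes
  have h1 : ∀ C : ClassGroup (𝓞 K), ∃ 𝔟 : (Ideal (𝓞 K))⁰, ClassGroup.mk0 𝔟 = C⁻¹ := fun C =>
    ClassGroup.mk0_surjective C⁻¹
  choose b hb using h1
  -- elements of given signs
  obtain ⟨sgn, hsgn⟩ : ∃ sgn : 𝓞 K → (K →+* ℝ) → Bool,
    sgn = fun x σ => decide (0 < σ (x : K)) := ⟨_, rfl⟩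
  have h2 : ∀ s : (K →+* ℝ) → Bool, ∃ y : 𝓞 K, y ≠ 0 ∧
      ((∃ z : 𝓞 K, z ≠ 0 ∧ sgn z = s) → sgn y = s) := by
    intro s
    by_cases h : ∃ z : 𝓞 K, z ≠ 0 ∧ sgn z = s
    · obtain ⟨z, hz1, hz2⟩ := h
      exact ⟨z, hz1, fun _ => hz2⟩
    · exact ⟨1, one_ne_zero, fun h' => absurd h' h⟩
  choose y hy0 hy using h2
  refine ⟨Finset.univ.image fun p : ClassGroup (𝓞 K) × ((K →+* ℝ) → Bool) =>
    (b p.1 : Ideal (𝓞 K)) * Ideal.span {y p.2}, ?_, ?_⟩
  · intro 𝔟 h𝔟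
    obtain ⟨p, -, rfl⟩ := Finset.mem_image.mp h𝔟
    have hb0 : (b p.1 : Ideal (𝓞 K)) ≠ ⊥ := nonZeroDivisors.coe_ne_zero (b p.1)
    have hy0' : Ideal.span {y p.2} ≠ (⊥ : Ideal (𝓞 K)) := by
      rw [Ne, Ideal.span_singleton_eq_bot]; exact hy0 _
    intro h
    rw [← Ideal.zero_eq_bot] at hb0 hy0' h
    exact (mul_ne_zero hb0 hy0') h
  · intro 𝔞 h𝔞
    have h𝔞' : 𝔞 ∈ (Ideal (𝓞 K))⁰ := mem_nonZeroDivisors_of_ne_zero h𝔞
    obtain ⟨C, hC⟩ : ∃ C : ClassGroup (𝓞 K), C = ClassGroup.mk0 ⟨𝔞, h𝔞'⟩ := ⟨_, rfl⟩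
    have h3 : ClassGroup.mk0 (⟨𝔞, h𝔞'⟩ * b C) = 1 := by
      rw [map_mul, hb, ← hC, mul_inv_cancel]
    rw [ClassGroup.mk0_eq_one_iff] at h3
    obtain ⟨x, hx⟩ := h3
    have hx' : 𝔞 * (b C : Ideal (𝓞 K)) = Ideal.span {x} := hx
    have hx0 : x ≠ 0 := by
      rintro rfl
      rw [Ideal.span_singleton_eq_bot.mpr rfl, ← Ideal.zero_eq_bot] at hx'
      exact (mul_ne_zero h𝔞 (nonZeroDivisors.coe_ne_zero (b C))) hx'
    have hs := hy (sgn x) ⟨x, hx0, rfl⟩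
    refine ⟨_, Finset.mem_image.mpr ⟨(C, sgn x), Finset.mem_univ _, rfl⟩, x * y (sgn x), ?_, ?_⟩
    · intro σ
      have e1 : ((x * y (sgn x) : 𝓞 K) : K) = (x : K) * ((y (sgn x) : 𝓞 K) : K) :=
        map_mul (algebraMap (𝓞 K) K) _ _
      rw [e1, map_mul]
      have h4 := congrFun hs σ
      rw [hsgn] at h4
      simp only [decide_eq_decide] at h4
      have hx1 : σ (x : K) ≠ 0 := by
        rw [Ne, map_eq_zero]
        simpa using hx0
      have hy1 : σ ((y (sgn x) : 𝓞 K) : K) ≠ 0 := by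
        rw [Ne, map_eq_zero]
        simpa using hy0 (sgn x)
      rcases lt_or_gt_of_ne hx1 with h | h
      · have h5 : σ ((y (sgn x) : 𝓞 K) : K) < 0 := by
          refine lt_of_le_of_ne (not_lt.mp fun h6 => ?_) hy1
          rw [hsgn] at h6
          exact absurd (h4.mp h6) (not_lt.mpr h.le)
        exact mul_pos_of_neg_of_neg h h5
      · refine mul_pos h ?_
        rw [hsgn]
        exact h4.mpr h
    · rw [← Ideal.span_singleton_mul_span_singleton, ← hx']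
      ring

end Pool.Agent.N786
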