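import Pool.Agent.N786.Bes2
import Pool.Agent.N786.Bump
import Pool.Agent.N786.Lat

/-!
# Scaling of the bump function (owner helper786)
-/

set_option autoImplicit false
set_option linter.unusedSectionVars false

open MeasureTheory Set Filter Topology Complex

namespace Pool.Agent.N786

/-- change of variables by a diagonal matrix -/
lemma integral_diag {ι : Type} [Fintype ι] (D : ι → ℝ) (hD : ∀ i, 0 < D i) {E : Type}
    [NormedAddCommGroup E] [NormedSpace ℝ E] (f : (ι → ℝ) → E) :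
    (∏ i, D i) • ∫ z : ι → ℝ, f (fun i => D i * z i) = ∫ z : ι → ℝ, f z := by
  classical
  set e : (ι → ℝ) ≃ₜ (ι → ℝ) :=
    Homeomorph.piCongrRight (fun i => Homeomorph.mulLeft₀ (D i) (hD i).ne') with he
  have hez : ∀ z, e z = fun i => D i * z i := fun z => rfl
  have hp : 0 < ∏ i, D i := Finset.prod_pos fun i _ => hD i
  have hdet : Matrix.det (Matrix.diagonal D) = ∏ i, D i := Matrix.det_diagonal
  have h1 := Real.smul_map_diagonal_volume_pi (D := D) (by rw [hdet]; exact hp.ne')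
  rw [hdet, abs_of_pos hp] at h1
  have h2 : ⇑(Matrix.toLin' (Matrix.diagonal D)) = ⇑e := by
    funext z
    rw [hez, Matrix.toLin'_apply]
    funext i
    rw [Matrix.mulVec_diagonal]
  rw [h2] at h1
  conv_rhs => rw [← h1]
  rw [integral_smul_measure, ENNReal.toReal_ofReal hp.le]
  congr 1
  have h3 : MeasurableEmbedding ⇑e := e.toMeasurableEquiv.measurableEmbedding
  rw [h3.integral_map]
  rfl

/-- the region -/
def Reg {r : ℕ} (p : (Fin r → ℝ) → ℝ) (τ : ℝ) : Set (Fin (r + 1) → ℝ) :=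
  {z | (0 ≤ z 0 ∧ z 0 ≤ τ) ∧ p (Fin.tail z) ≤ 1}

lemma mem_Reg {r : ℕ} {p : (Fin r → ℝ) → ℝ} {τ : ℝ} (k : ℝ) (θ : Fin r → ℝ) :
    (Fin.cons k θ : Fin (r + 1) → ℝ) ∈ Reg p τ ↔ (0 ≤ k ∧ k ≤ τ) ∧ p θ ≤ 1 := by
  unfold Reg
  change (0 ≤ (Fin.cons k θ : Fin (r + 1) → ℝ) 0 ∧ (Fin.cons k θ : Fin (r + 1) → ℝ) 0 ≤ τ) ∧
    p (Fin.tail (Fin.cons k θ : Fin (r + 1) → ℝ)) ≤ 1 ↔ _
  rw [Fin.cons_zero, Fin.tail_cons]

lemma cont_tail {r : ℕ} : Continuous (fun z : Fin (r + 1) → ℝ => (Fin.tail z : Fin r → ℝ)) := by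
  refine continuous_pi fun i => ?_
  exact continuous_apply (Fin.succ i)

lemma Reg_compact {r : ℕ} {p : (Fin r → ℝ) → ℝ} (hp : NormP p) {τ : ℝ} :
    IsCompact (Reg p τ) := by
  have h1 := hp.isCompact 1
  have h2 : Continuous (fun q : ℝ × (Fin r → ℝ) => (Fin.cons q.1 q.2 : Fin (r + 1) → ℝ)) := by
    refine continuous_pi fun i => ?_
    refine Fin.cases ?_ (fun j => ?_) i
    · simp only [Fin.cons_zero]; exact continuous_fst
    · simp only [Fin.cons_succ]; exact (continuous_apply j).comp continuous_snd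
  have h3 := ((isCompact_Icc (a := (0 : ℝ)) (b := τ)).prod h1).image h2
  convert h3
  ext z
  constructor
  · intro hz
    exact ⟨(z 0, Fin.tail z), ⟨⟨hz.1.1, hz.1.2⟩, hz.2⟩, Fin.cons_self_tail z⟩
  · rintro ⟨⟨k, θ⟩, ⟨⟨h4, h5⟩, h6⟩, rfl⟩
    exact (mem_Reg k θ).mpr ⟨⟨h4, h5⟩, h6⟩

lemma Reg_vol {r : ℕ} {p : (Fin r → ℝ) → ℝ} (hp : NormP p) {τ : ℝ} (hτ : 0 ≤ τ) :
    (volume (Reg p τ)).toReal = τ * (volume {θ | p θ ≤ 1}).toReal := by
  have h1 := (volume_preserving_piFinSuccAbove (fun _ : Fin (r + 1) => ℝ) 0).measure_preimage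
    (s := Icc (0 : ℝ) τ ×ˢ {θ : Fin r → ℝ | p θ ≤ 1})
    (measurableSet_Icc.prod (hp.isClosed 1).measurableSet).nullMeasurableSet
  have h2 : (MeasurableEquiv.piFinSuccAbove (fun _ : Fin (r + 1) => ℝ) 0) ⁻¹'
      (Icc (0 : ℝ) τ ×ˢ {θ : Fin r → ℝ | p θ ≤ 1}) = Reg p τ := by
    ext z
    rfl
  rw [h2, Measure.volume_eq_prod, Measure.prod_prod, Real.volume_Icc, sub_zero] at h1
  rw [h1, ENNReal.toReal_mul, ENNReal.toReal_ofReal hτ]

/-- the scaled bump function -/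
theorem bump_scaled {r : ℕ} {p : (Fin r → ℝ) → ℝ} (hp : NormP p) {τ δ : ℝ} (hτ : 0 ≤ τ)
    (hδ : 0 < δ) : ∃ ρ : ℝ, 1 ≤ ρ ∧ ∀ (V L : ℝ), 0 < V → 2 * Real.pi ≤ L →
      ∃ g : (Fin (r + 1) → ℝ) → ℂ, Continuous g ∧ (∀ z, (∃ i, ρ / V < |z i|) → g z = 0) ∧
        (∀ (k : ℝ) (θ : Fin r → ℝ), 0 ≤ k → k * (2 * Real.pi / L) ≤ τ * V → p θ ≤ V →
          1 ≤ ‖FTg g k θ‖ ^ 2) ∧
        ∫ z, ‖g z‖ ^ 2 ≤ V ^ r * (V * L / (2 * Real.pi)) *
          (τ * (volume {θ | p θ ≤ 1}).toReal + δ) := by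
  obtain ⟨ρ, g, hg, hg0, hgF, hgI⟩ := t_bump (r + 1) (Reg p τ) (Reg_compact hp) δ hδ
  rw [Reg_vol hp hτ] at hgI
  refine ⟨max ρ 1, le_max_right _ _, fun V L hV hL => ?_⟩
  have hpi := Real.pi_pos
  have hL0 : 0 < L := by linarith
  obtain ⟨D, hD⟩ : ∃ D : Fin (r + 1) → ℝ, D = Fin.cons (V * L / (2 * Real.pi)) (fun _ => V) :=
    ⟨_, rfl⟩
  have hD0 : D 0 = V * L / (2 * Real.pi) := by rw [hD]; rfl
  have hDs : ∀ j : Fin r, D j.succ = V := fun j => by rw [hD]; rfl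
  have hDV : ∀ i, V ≤ D i := by
    intro i
    refine Fin.cases ?_ (fun j => ?_) i
    · rw [hD0, le_div_iff₀ (by positivity)]
      exact mul_le_mul_of_nonneg_left hL hV.le
    · rw [hDs]
  have hDpos : ∀ i, 0 < D i := fun i => hV.trans_le (hDV i)
  have hDprod : ∏ i, D i = V ^ r * (V * L / (2 * Real.pi)) := by
    rw [Fin.prod_univ_succ, hD0]
    simp only [hDs, Finset.prod_const, Finset.card_univ, Fintype.card_fin]
    ring
  have hPpos : 0 < ∏ i, D i := Finset.prod_pos fun i _ => hDpos i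
  refine ⟨fun z => ((∏ i, D i : ℝ) : ℂ) * g (fun i => D i * z i), ?_, ?_, ?_, ?_⟩
  · have : Continuous (fun z : Fin (r + 1) → ℝ => (fun i => D i * z i : Fin (r + 1) → ℝ)) := by
      fun_prop
    exact continuous_const.mul (hg.comp this)
  · rintro z ⟨i, hi⟩
    have h1 : g (fun i => D i * z i) = 0 := by
      apply hg0
      refine ⟨i, ?_⟩
      rw [abs_mul, abs_of_pos (hDpos i)]
      rw [div_lt_iff₀ hV] at hi
      have h2 : |z i| * V ≤ D i * |z i| := by
        rw [mul_comm]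
        exact mul_le_mul_of_nonneg_right (hDV i) (abs_nonneg _)
      linarith [le_max_left ρ 1]
    simp only
    rw [h1, mul_zero]
  · intro k θ hk hkτ hθ
    have hmem : (Fin.cons (k / (V * L / (2 * Real.pi))) (V⁻¹ • θ) : Fin (r + 1) → ℝ) ∈ Reg p τ := by
      rw [mem_Reg]
      refine ⟨⟨by positivity, ?_⟩, ?_⟩
      · rw [div_le_iff₀ (by positivity)]
        have e1 : τ * (V * L / (2 * Real.pi)) = (τ * V) * (L / (2 * Real.pi)) := by ring
        rw [e1]
        have e2 : k = (k * (2 * Real.pi / L)) * (L / (2 * Real.pi)) := by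
          field_simp
        rw [e2]
        exact mul_le_mul_of_nonneg_right hkτ (by positivity)
      · rw [hp.smul, abs_of_pos (by positivity), inv_mul_le_iff₀ hV, mul_one]
        exact hθ
    have h1 := hgF _ hmem
    have h2 : FTg (fun z => ((∏ i, D i : ℝ) : ℂ) * g (fun i => D i * z i)) k θ =
        ∫ z : Fin (r + 1) → ℝ, g z * cexp (-(2 * Real.pi * I * ((∑ i,
          (Fin.cons (k / (V * L / (2 * Real.pi))) (V⁻¹ • θ) : Fin (r + 1) → ℝ) i * z i : ℝ) :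
            ℂ))) := by
      rw [← integral_diag D hDpos]
      unfold FTg
      rw [← integral_smul]
      refine integral_congr_ae (Eventually.of_forall fun z => ?_)
      simp only
      rw [Complex.real_smul, mul_assoc]
      congr 3
      congr 2
      congr 1
      rw [Fin.sum_univ_succ, Fin.sum_univ_succ]
      simp only [Fin.cons_zero, Fin.cons_succ, hD0, hDs, Pi.smul_apply, smul_eq_mul]
      congr 1
      · field_simp
      · refine Finset.sum_congr rfl fun j _ => ?_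
        field_simp
    rw [h2]
    exact h1
  · have h1 : ∫ z : Fin (r + 1) → ℝ, ‖((∏ i, D i : ℝ) : ℂ) * g (fun i => D i * z i)‖ ^ 2 =
        (∏ i, D i) * ∫ z : Fin (r + 1) → ℝ, ‖g z‖ ^ 2 := by
      rw [← integral_diag D hDpos (fun z => ‖g z‖ ^ 2), smul_eq_mul, ← mul_assoc,
        ← integral_const_mul]
      refine integral_congr_ae (Eventually.of_forall fun z => ?_)
      simp only
      rw [norm_mul, Complex.norm_real, Real.norm_of_nonneg hPpos.le]
      ring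
    rw [h1, hDprod]
    exact mul_le_mul_of_nonneg_left hgI (by positivity)

end Pool.Agent.N786
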