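import Pool.Agent.N786.UnitB
import Pool.Agent.N786.Rep

/-!
# Separation of the ideals of a class (owner helper786)

`𝔪 ≠ (1)` is a nonzero ideal, `𝔮 ∣ 𝔪`.  The ideals prime to `𝔪` in a narrow class are compared with
a fixed ideal `𝔞₀` of the class: `(a) 𝔞 = (b) 𝔞₀` with totally positive `a`, `b` prime to `𝔪`.
-/

set_option autoImplicit false
set_option linter.unusedSectionVars false

open NumberField NumberField.Units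

namespace Pool.Agent.N786

open Pool.Agent.Y773 (TPos rl)
open Pool.Agent.Y767

section

variable {K : Type} [Field K] [NumberField K]

lemma cop_of_dvd {𝔪 𝔮 𝔞 : Ideal (𝓞 K)} (h : 𝔮 ∣ 𝔪) (ha : IsCoprime 𝔞 𝔪) : IsCoprime 𝔞 𝔮 := by
  obtain ⟨c, rfl⟩ := h
  exact ha.of_mul_right_left

lemma Tq_le {𝔪 𝔮 : Ideal (𝓞 K)} (h : 𝔮 ∣ 𝔪) : Tq 𝔪 ≤ Tq 𝔮 := fun _ hx =>
  ⟨hx.1, cop_of_dvd h hx.2⟩

/-- inclusion of the monoids of totally positive integers -/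
def inclT {𝔪 𝔮 : Ideal (𝓞 K)} (h : 𝔮 ∣ 𝔪) : Tq 𝔪 →* Tq 𝔮 := Submonoid.inclusion (Tq_le h)

lemma inclT_coe {𝔪 𝔮 : Ideal (𝓞 K)} (h : 𝔮 ∣ 𝔪) (x : Tq 𝔪) :
    ((inclT h x : Tq 𝔮) : 𝓞 K) = (x : 𝓞 K) := Submonoid.coe_inclusion (Tq_le h) x

/-- the class modulo `𝔮` of a totally positive integer prime to `𝔪` -/
noncomputable def gm {𝔪 𝔮 : Ideal (𝓞 K)} (h : 𝔮 ∣ 𝔪) : Tq 𝔪 →* (𝓞 K ⧸ 𝔮)ˣ :=
  (gq 𝔮).comp (inclT h)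

lemma gm_coe {𝔪 𝔮 : Ideal (𝓞 K)} (h : 𝔮 ∣ 𝔪) (x : Tq 𝔪) : ((gm h x : (𝓞 K ⧸ 𝔮)ˣ) : 𝓞 K ⧸ 𝔮) =
    Ideal.Quotient.mk 𝔮 (x : 𝓞 K) := by
  unfold gm
  rw [MonoidHom.comp_apply, gq_coe, inclT_coe]

end

section

variable {K : Type} [Field K] [NumberField K] [IsTotallyReal K]

/-- coordinates of `x` -/
def IsCo (U : UD K) (x : 𝓞 K) (y : Fin (rank K) → ℝ) : Prop :=
  ∀ w : InfinitePlace K, Real.log (w (x : K)) -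
      Real.log (Ideal.absNorm (Ideal.span {x})) / (Module.finrank ℚ K : ℝ) =
        ∑ i, y i * Real.log (w ((U.ε i : (𝓞 K)ˣ) : K))

lemma isCo_yc (U : UD K) {x : 𝓞 K} (hx : x ≠ 0) : IsCo U x (U.yc x) := U.ycs x hx

lemma norm_span_pos {x : 𝓞 K} (hx : x ≠ 0) : (0 : ℝ) < Ideal.absNorm (Ideal.span {x}) := by
  have : Ideal.absNorm (Ideal.span {x}) ≠ 0 := by
    rw [Ne, Ideal.absNorm_eq_zero_iff, Ideal.span_singleton_eq_bot]; exact hx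
  exact_mod_cast Nat.pos_of_ne_zero this

lemma log_w_mul {x x' : 𝓞 K} (hx : x ≠ 0) (hx' : x' ≠ 0) (w : InfinitePlace K) :
    Real.log (w ((x * x' : 𝓞 K) : K)) = Real.log (w (x : K)) + Real.log (w (x' : K)) := by
  have e : ((x * x' : 𝓞 K) : K) = (x : K) * (x' : K) := map_mul (algebraMap (𝓞 K) K) _ _
  rw [e, map_mul, Real.log_mul (w_pos hx w).ne' (w_pos hx' w).ne']

lemma log_N_mul {x x' : 𝓞 K} (hx : x ≠ 0) (hx' : x' ≠ 0) :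
    Real.log (Ideal.absNorm (Ideal.span {x * x'})) = Real.log (Ideal.absNorm (Ideal.span {x})) +
      Real.log (Ideal.absNorm (Ideal.span {x'})) := by
  rw [← Ideal.span_singleton_mul_span_singleton, map_mul, Nat.cast_mul,
    Real.log_mul (norm_span_pos hx).ne' (norm_span_pos hx').ne']

lemma isCo_mul {U : UD K} {x x' : 𝓞 K} {y y' : Fin (rank K) → ℝ} (hx : x ≠ 0) (hx' : x' ≠ 0)
    (h : IsCo U x y) (h' : IsCo U x' y') : IsCo U (x * x') (y + y') := by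
  intro w
  rw [log_w_mul hx hx', log_N_mul hx hx', add_div]
  simp only [Pi.add_apply, add_mul, Finset.sum_add_distrib]
  have h1 := h w
  have h2 := h' w
  linarith

lemma isCo_div {U : UD K} {x x' : 𝓞 K} {y y' : Fin (rank K) → ℝ} (hx : x ≠ 0) (hx' : x' ≠ 0)
    (h : IsCo U x y) (h' : IsCo U (x * x') y') : IsCo U x' (y' - y) := by
  intro w
  have h2 := h' w
  rw [log_w_mul hx hx', log_N_mul hx hx', add_div] at h2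
  simp only [Pi.sub_apply, sub_mul, Finset.sum_sub_distrib]
  have h1 := h w
  linarith

/-- the coordinates of the comparison `(a) 𝔞 = (b) 𝔞₀` -/
lemma exists_x {𝔪 : Ideal (𝓞 K)} (h𝔪 : 𝔪 ≠ ⊤) (U : UD K) {𝔞 𝔞₀ : Mq 𝔪} {a b : Tq 𝔪}
    (hab : pq 𝔪 a * 𝔞 = pq 𝔪 b * 𝔞₀) {𝔟 : Ideal (𝓞 K)} {x₀ : 𝓞 K} (hx₀ : TPos K x₀)
    (hb : (𝔞₀ : Ideal (𝓞 K)) * 𝔟 = Ideal.span {x₀}) :
    ∃ x : 𝓞 K, TPos K x ∧ (𝔞 : Ideal (𝓞 K)) * 𝔟 = Ideal.span {x} ∧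
      (a : 𝓞 K) * x = (b : 𝓞 K) * x₀ ∧
      IsCo U x (U.yc (b : 𝓞 K) + U.yc x₀ - U.yc (a : 𝓞 K)) := by
  have ha0 := Tq_ne_zero h𝔪 a
  have hb0 := Tq_ne_zero h𝔪 b
  have hx00 := tpos_ne hx₀
  have h1 : Ideal.span {(a : 𝓞 K)} * (𝔞 : Ideal (𝓞 K)) =
      Ideal.span {(b : 𝓞 K)} * (𝔞₀ : Ideal (𝓞 K)) := by
    have := congrArg (Subtype.val) hab
    exact this
  have h2 : Ideal.span {(a : 𝓞 K)} * ((𝔞 : Ideal (𝓞 K)) * 𝔟) = Ideal.span {(b : 𝓞 K) * x₀} := by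
    rw [← mul_assoc, h1, mul_assoc, hb, Ideal.span_singleton_mul_span_singleton]
  have h3 : (b : 𝓞 K) * x₀ ∈ Ideal.span {(a : 𝓞 K)} := by
    have h4 : Ideal.span {(b : 𝓞 K) * x₀} ≤ Ideal.span {(a : 𝓞 K)} :=
      Ideal.dvd_iff_le.mp ⟨_, h2.symm⟩
    exact h4 (Ideal.mem_span_singleton_self _)
  obtain ⟨x, hx⟩ := Ideal.mem_span_singleton'.mp h3
  rw [mul_comm] at hx
  have hax : (a : 𝓞 K) * x ≠ 0 := by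
    rw [hx]; exact mul_ne_zero hb0 hx00
  have hx0 : x ≠ 0 := right_ne_zero_of_mul hax
  refine ⟨x, ?_, ?_, hx, ?_⟩
  · apply Pool.Agent.Y767.tpos_of_mul (Tq_tp a)
    rw [hx]; exact tpos_mul (Tq_tp b) hx₀
  · apply mul_left_cancel₀ (a := Ideal.span {(a : 𝓞 K)})
    · rw [Ne, Ideal.zero_eq_bot, Ideal.span_singleton_eq_bot]; exact ha0
    · rw [h2, Ideal.span_singleton_mul_span_singleton, hx]
  · refine isCo_div ha0 hx0 (isCo_yc U ha0) ?_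
    rw [hx]
    exact isCo_mul hb0 hx00 (isCo_yc U hb0) (isCo_yc U hx00)

/-- the difference of two generators is divisible by `𝔟 𝔮` -/
lemma norm_ge {𝔪 𝔮 : Ideal (𝓞 K)} (h𝔪 : 𝔪 ≠ ⊤) (h : 𝔮 ∣ 𝔪) {𝔞₀ : Mq 𝔪}
    {a₁ b₁ a₂ b₂ : Tq 𝔪} {𝔟 : Ideal (𝓞 K)} {x₀ x₁ x₂ v : 𝓞 K} (hx₀ : x₀ ≠ 0)
    (hb : (𝔞₀ : Ideal (𝓞 K)) * 𝔟 = Ideal.span {x₀})
    (h1 : (a₁ : 𝓞 K) * x₁ = (b₁ : 𝓞 K) * x₀) (h2 : (a₂ : 𝓞 K) * x₂ = (b₂ : 𝓞 K) * x₀)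
    (hm1 : x₁ ∈ 𝔟) (hm2 : x₂ ∈ 𝔟)
    (hg : (b₁ : 𝓞 K) * (a₂ : 𝓞 K) * v - (a₁ : 𝓞 K) * (b₂ : 𝓞 K) ∈ 𝔮) :
    x₁ * v - x₂ = 0 ∨ (Ideal.absNorm 𝔟 : ℝ) * Ideal.absNorm 𝔮 ≤
      Ideal.absNorm (Ideal.span {x₁ * v - x₂}) := by
  by_cases hz : x₁ * v - x₂ = 0
  · exact Or.inl hz
  right
  have hb0 : 𝔟 ≠ 0 := by
    rintro rfl
    rw [mul_zero] at hb
    exact hx₀ (Ideal.span_singleton_eq_bot.mp (by rw [← hb]; rfl))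
  have h3 : Ideal.span {x₁ * v - x₂} ≤ 𝔟 := by
    rw [Ideal.span_singleton_le_iff_mem]
    exact 𝔟.sub_mem (𝔟.mul_mem_right _ hm1) hm2
  obtain ⟨𝔠, h𝔠⟩ := Ideal.dvd_iff_le.mpr h3
  have h4 : (a₁ : 𝓞 K) * (a₂ : 𝓞 K) * (x₁ * v - x₂) =
      x₀ * ((b₁ : 𝓞 K) * (a₂ : 𝓞 K) * v - (a₁ : 𝓞 K) * (b₂ : 𝓞 K)) := by
    linear_combination (a₂ : 𝓞 K) * v * h1 - (a₁ : 𝓞 K) * h2
  have h5 : Ideal.span {(a₁ : 𝓞 K) * (a₂ : 𝓞 K)} * (𝔟 * 𝔠) ≤ (𝔞₀ : Ideal (𝓞 K)) * 𝔟 * 𝔮 := by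
    rw [← h𝔠, Ideal.span_singleton_mul_span_singleton, h4, hb,
      ← Ideal.span_singleton_mul_span_singleton]
    exact Ideal.mul_mono_right (by rwa [Ideal.span_singleton_le_iff_mem])
  have h6 : 𝔮 ∣ Ideal.span {(a₁ : 𝓞 K) * (a₂ : 𝓞 K)} * 𝔠 := by
    have h7 := Ideal.dvd_iff_le.mpr h5
    have e1 : (𝔞₀ : Ideal (𝓞 K)) * 𝔟 * 𝔮 = 𝔟 * ((𝔞₀ : Ideal (𝓞 K)) * 𝔮) := by ring
    have e2 : Ideal.span {(a₁ : 𝓞 K) * (a₂ : 𝓞 K)} * (𝔟 * 𝔠) =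
        𝔟 * (Ideal.span {(a₁ : 𝓞 K) * (a₂ : 𝓞 K)} * 𝔠) := by ring
    rw [e1, e2] at h7
    have h8 := (mul_dvd_mul_iff_left hb0).mp h7
    exact (Dvd.intro_left _ rfl).trans h8
  have hcop : IsCoprime 𝔮 (Ideal.span {(a₁ : 𝓞 K) * (a₂ : 𝓞 K)}) := by
    rw [← Ideal.span_singleton_mul_span_singleton]
    exact (IsCoprime.mul_left (cop_of_dvd h (Tq_cop a₁)) (cop_of_dvd h (Tq_cop a₂))).symm
  have h9 : 𝔮 ∣ 𝔠 := hcop.dvd_of_dvd_mul_left h6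
  obtain ⟨𝔡, rfl⟩ := h9
  have hne : Ideal.absNorm (Ideal.span {x₁ * v - x₂}) ≠ 0 := by
    rw [Ne, Ideal.absNorm_eq_zero_iff, Ideal.span_singleton_eq_bot]; exact hz
  rw [h𝔠, map_mul, map_mul] at hne ⊢
  have hd : 1 ≤ Ideal.absNorm 𝔡 := by
    rcases Nat.eq_zero_or_pos (Ideal.absNorm 𝔡) with h0 | h0
    · rw [h0] at hne; simp at hne
    · exact h0
  push_cast
  have : (1 : ℝ) ≤ Ideal.absNorm 𝔡 := by exact_mod_cast hd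
  calc (Ideal.absNorm 𝔟 : ℝ) * Ideal.absNorm 𝔮 = (Ideal.absNorm 𝔟 : ℝ) * (Ideal.absNorm 𝔮 * 1) := by
        rw [mul_one]
    _ ≤ _ := by gcongr

/-- **Separation** -/
theorem sep_cls (U : UD K) (ρ₀ : ℝ) (hρ₀ : 0 ≤ ρ₀) : ∃ C : ℝ, 1 ≤ C ∧
    ∀ (𝔪 𝔮 : Ideal (𝓞 K)) (_ : 𝔪 ≠ ⊤) (h : 𝔮 ∣ 𝔪) (M κ ρ : ℝ),
      0 ≤ κ → ρ ≤ κ → ρ ≤ ρ₀ → (C * κ) ^ Module.finrank ℚ K * M < Ideal.absNorm 𝔮 →
      ∀ (𝔞₀ 𝔞₁ 𝔞₂ : Mq 𝔪) (a₁ b₁ a₂ b₂ : Tq 𝔪) (m : Fin (rank K) → ℤ),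
      pq 𝔪 a₁ * 𝔞₁ = pq 𝔪 b₁ * 𝔞₀ → pq 𝔪 a₂ * 𝔞₂ = pq 𝔪 b₂ * 𝔞₀ →
      (Ideal.absNorm (𝔞₁ : Ideal (𝓞 K)) : ℝ) ≤ M → (Ideal.absNorm (𝔞₂ : Ideal (𝓞 K)) : ℝ) ≤ M →
      gm h b₁ * (gm h a₁)⁻¹ * ∏ i, U.eG 𝔮 i ^ m i = gm h b₂ * (gm h a₂)⁻¹ →
      (∀ i, |(U.yc (b₁ : 𝓞 K) i - U.yc (a₁ : 𝓞 K) i) + m i -
        (U.yc (b₂ : 𝓞 K) i - U.yc (a₂ : 𝓞 K) i)| ≤ ρ) →
      |Real.log (Ideal.absNorm (𝔞₁ : Ideal (𝓞 K))) -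
        Real.log (Ideal.absNorm (𝔞₂ : Ideal (𝓞 K)))| ≤ κ →
      ∃ x₁ x₂ : 𝓞 K, x₁ * ((∏ i, U.ε i ^ m i : (𝓞 K)ˣ) : 𝓞 K) = x₂ ∧ TPos K x₁ ∧ TPos K x₂ ∧
        𝔞₁ = 𝔞₂ ∧ (∃ x₀ : 𝓞 K, x₀ ≠ 0 ∧ (a₁ : 𝓞 K) * x₁ = (b₁ : 𝓞 K) * x₀ ∧
          (a₂ : 𝓞 K) * x₂ = (b₂ : 𝓞 K) * x₀) := by
  obtain ⟨C1, hC1, H1⟩ := t_sep K (rank K) U.ε U.tp (ρ₀ / 2) (by positivity)
  obtain ⟨C2, hC2, H2⟩ := t_seph K U.ε U.tp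
  refine ⟨C1 * C2, by nlinarith, ?_⟩
  intro 𝔪 𝔮 h𝔪 h M κ ρ hκ hρκ hρρ hM 𝔞₀ 𝔞₁ 𝔞₂ a₁ b₁ a₂ b₂ m e1 e2 hN1 hN2 hg hy hN
  set n := Module.finrank ℚ K with hn
  have hn1 : 1 ≤ n := Module.finrank_pos
  -- a totally positive generator
  have h𝔞0 : (𝔞₀ : Ideal (𝓞 K)) ≠ ⊥ := Mq_ne_bot h𝔪 𝔞₀
  obtain ⟨S, hS0, hS⟩ := t_rep K
  obtain ⟨𝔟, h𝔟S, x₀, hx₀, hb⟩ := hS _ h𝔞0
  have h𝔟0 := hS0 𝔟 h𝔟S
  have hx₀0 := tpos_ne hx₀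
  obtain ⟨x₁, t1, s1, r1, c1⟩ := exists_x h𝔪 U e1 hx₀ hb
  obtain ⟨x₂, t2, s2, r2, c2⟩ := exists_x h𝔪 U e2 hx₀ hb
  have hm1 : x₁ ∈ 𝔟 := by
    have h1 : Ideal.span {x₁} ≤ 𝔟 := Ideal.dvd_iff_le.mp ⟨_, by rw [← s1, mul_comm]⟩
    exact h1 (Ideal.mem_span_singleton_self _)
  have hm2 : x₂ ∈ 𝔟 := by
    have h1 : Ideal.span {x₂} ≤ 𝔟 := Ideal.dvd_iff_le.mp ⟨_, by rw [← s2, mul_comm]⟩
    exact h1 (Ideal.mem_span_singleton_self _)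
  have hNx1 : (Ideal.absNorm (Ideal.span {x₁}) : ℝ) =
      Ideal.absNorm (𝔞₁ : Ideal (𝓞 K)) * Ideal.absNorm 𝔟 := by
    rw [← s1, map_mul]; push_cast; ring
  have hNx2 : (Ideal.absNorm (Ideal.span {x₂}) : ℝ) =
      Ideal.absNorm (𝔞₂ : Ideal (𝓞 K)) * Ideal.absNorm 𝔟 := by
    rw [← s2, map_mul]; push_cast; ring
  have hN𝔟 : (0 : ℝ) < Ideal.absNorm 𝔟 := by
    have : Ideal.absNorm 𝔟 ≠ 0 := by rwa [Ne, Ideal.absNorm_eq_zero_iff]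
    exact_mod_cast Nat.pos_of_ne_zero this
  have hN𝔞1 : (0 : ℝ) < Ideal.absNorm (𝔞₁ : Ideal (𝓞 K)) := by
    have : Ideal.absNorm (𝔞₁ : Ideal (𝓞 K)) ≠ 0 := by
      rw [Ne, Ideal.absNorm_eq_zero_iff]; exact Mq_ne_bot h𝔪 _
    exact_mod_cast Nat.pos_of_ne_zero this
  have hN𝔞2 : (0 : ℝ) < Ideal.absNorm (𝔞₂ : Ideal (𝓞 K)) := by
    have : Ideal.absNorm (𝔞₂ : Ideal (𝓞 K)) ≠ 0 := by
      rw [Ne, Ideal.absNorm_eq_zero_iff]; exact Mq_ne_bot h𝔪 _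
    exact_mod_cast Nat.pos_of_ne_zero this
  have hM0 : 0 < M := hN𝔞1.trans_le hN1
  have hydiff : ∀ i, |(U.yc (b₁ : 𝓞 K) + U.yc x₀ - U.yc (a₁ : 𝓞 K)) i + m i -
      (U.yc (b₂ : 𝓞 K) + U.yc x₀ - U.yc (a₂ : 𝓞 K)) i| ≤ ρ := by
    intro i
    have := hy i
    simp only [Pi.add_apply, Pi.sub_apply]
    convert this using 2
    ring
  set v : 𝓞 K := ((∏ i, U.ε i ^ m i : (𝓞 K)ˣ) : 𝓞 K) with hv
  -- upper bound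
  have hup : (Ideal.absNorm (Ideal.span {x₁ * v - x₂}) : ℝ) ≤
      (C1 * C2 * κ) ^ n * (M * Ideal.absNorm 𝔟) := by
    have hmax : max (Ideal.absNorm (Ideal.span {x₁}) : ℝ) (Ideal.absNorm (Ideal.span {x₂}) : ℝ) ≤
        M * Ideal.absNorm 𝔟 := by
      rw [hNx1, hNx2]
      exact max_le (by gcongr) (by gcongr)
    rcases le_total κ 1 with hκ1 | hκ1
    · have h3 := H2 κ hκ hκ1 x₁ x₂ _ _ m t1 t2 c1 c2 (fun i => (hydiff i).trans hρκ) (by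
        rw [hNx1, hNx2, Real.log_mul hN𝔞1.ne' hN𝔟.ne', Real.log_mul hN𝔞2.ne' hN𝔟.ne']
        convert hN using 2
        ring)
      refine h3.trans ?_
      have h4 : (C2 * κ) ^ n ≤ (C1 * C2 * κ) ^ n := by
        refine pow_le_pow_left₀ (by positivity) ?_ n
        have : 0 ≤ C2 * κ := by positivity
        nlinarith
      have h5 : (Ideal.absNorm (Ideal.span {x₂}) : ℝ) ≤ M * Ideal.absNorm 𝔟 :=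
        (le_max_right _ _).trans hmax
      gcongr
    · have h3 := H1 x₁ x₂ _ _ m t1 t2 c1 c2 (fun i => (hydiff i).trans (by linarith))
      refine h3.trans ?_
      have h4 : C1 ≤ (C1 * C2 * κ) ^ n := by
        have h5 : C1 ≤ C1 * C2 * κ := by
          have h6 : 1 ≤ C2 * κ := by nlinarith
          calc C1 = C1 * 1 := (mul_one _).symm
            _ ≤ C1 * (C2 * κ) := mul_le_mul_of_nonneg_left h6 (by linarith)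
            _ = _ := by ring
        have h7 : 1 ≤ C1 * C2 * κ := hC1.trans h5
        exact h5.trans (le_self_pow₀ h7 (by omega))
      have h8 : (0 : ℝ) ≤ max (Ideal.absNorm (Ideal.span {x₁}) : ℝ)
        (Ideal.absNorm (Ideal.span {x₂}) : ℝ) := le_max_of_le_left (Nat.cast_nonneg _)
      exact mul_le_mul h4 hmax h8 (by positivity)
  -- the congruence
  have hcong : (b₁ : 𝓞 K) * (a₂ : 𝓞 K) * v - (a₁ : 𝓞 K) * (b₂ : 𝓞 K) ∈ 𝔮 := by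
    have h3 : gm h b₁ * gm h a₂ * ∏ i, U.eG 𝔮 i ^ m i = gm h a₁ * gm h b₂ := by
      calc gm h b₁ * gm h a₂ * ∏ i, U.eG 𝔮 i ^ m i =
          (gm h b₁ * (gm h a₁)⁻¹ * ∏ i, U.eG 𝔮 i ^ m i) * (gm h a₁ * gm h a₂) := by
            rw [mul_assoc, mul_assoc (gm h b₁)]
            rw [mul_comm (gm h a₁)⁻¹, mul_assoc, mul_assoc (∏ i, U.eG 𝔮 i ^ m i),
              inv_mul_cancel_left, mul_comm (∏ i, U.eG 𝔮 i ^ m i)]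
        _ = (gm h b₂ * (gm h a₂)⁻¹) * (gm h a₁ * gm h a₂) := by rw [hg]
        _ = _ := by
            rw [mul_comm (gm h a₁) (gm h a₂), mul_assoc, inv_mul_cancel_left, mul_comm]
    have h4 := congrArg (Units.val) h3
    have h5 : ((∏ i, U.eG 𝔮 i ^ m i : (𝓞 K ⧸ 𝔮)ˣ) : 𝓞 K ⧸ 𝔮) = Ideal.Quotient.mk 𝔮 v := by
      have h6 : ∀ i, U.eG 𝔮 i = Units.map (Ideal.Quotient.mk 𝔮 : 𝓞 K →* 𝓞 K ⧸ 𝔮) (U.ε i) := by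
        intro i
        ext
        rfl
      have h7 : (∏ i, U.eG 𝔮 i ^ m i : (𝓞 K ⧸ 𝔮)ˣ) =
          Units.map (Ideal.Quotient.mk 𝔮 : 𝓞 K →* 𝓞 K ⧸ 𝔮) (∏ i, U.ε i ^ m i) := by
        rw [map_prod]
        exact Finset.prod_congr rfl fun i _ => by rw [h6, map_zpow]
      rw [h7]
      rfl
    rw [Units.val_mul, Units.val_mul, Units.val_mul, h5, gm_coe, gm_coe, gm_coe, gm_coe,
      ← map_mul, ← map_mul, ← map_mul, Ideal.Quotient.eq] at h4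
    exact h4
  have hz : x₁ * v - x₂ = 0 := by
    rcases norm_ge h𝔪 h hx₀0 hb r1 r2 hm1 hm2 hcong with h3 | h3
    · exact h3
    · exfalso
      have h4 : (Ideal.absNorm 𝔟 : ℝ) * Ideal.absNorm 𝔮 ≤
          (C1 * C2 * κ) ^ n * (M * Ideal.absNorm 𝔟) := h3.trans hup
      have h5 : (C1 * C2 * κ) ^ n * (M * Ideal.absNorm 𝔟) =
          Ideal.absNorm 𝔟 * ((C1 * C2 * κ) ^ n * M) := by ring
      rw [h5] at h4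
      have h6 := le_of_mul_le_mul_left h4 hN𝔟
      linarith
  have hx : x₁ * v = x₂ := sub_eq_zero.mp hz
  refine ⟨x₁, x₂, hx, t1, t2, ?_, x₀, hx₀0, r1, r2⟩
  apply Subtype.ext
  apply mul_right_cancel₀ (b := 𝔟) h𝔟0
  rw [s1, s2, ← hx, Ideal.span_singleton_mul_right_unit (Units.isUnit _)]

end

end Pool.Agent.N786
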